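import Pool.Agent.AM.Hyp.Growth

/-! Analyticity and asymptotics of the functions `X j`. -/

set_option autoImplicit false
open Complex Filter Topology
namespace Pool.Agent.AM.Hyp

theorem PPan_norm_ge {g : ℕ} (γ : FreeGroup (Fin g)) (j : Fin g) :
    γ.norm ≤ (γ * FreeGroup.of j).norm + 1 := by
  have h := FreeGroup.norm_mul_le (γ * FreeGroup.of j) (FreeGroup.of j)⁻¹
  rwa [mul_inv_cancel_right, FreeGroup.norm_inv_eq, FreeGroup.norm_of] at h

theorem PPan_norm_two {g : ℕ} (γ : FreeGroup (Fin g)) (j : Fin g)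
    (h2 : γ ≠ (FreeGroup.of j)⁻¹) (h1 : γ.norm = 1) : 2 ≤ (γ * FreeGroup.of j).norm := by
  have h3 : γ.toWord.length = 1 := h1
  obtain ⟨⟨k, b⟩, hk⟩ := List.length_eq_one_iff.mp h3
  have hγ : γ = FreeGroup.mk [(k, b)] := by
    rw [← hk, FreeGroup.mk_toWord]
  have h4 : (γ * FreeGroup.of j).toWord = FreeGroup.reduce [(k, b), (j, true)] := by
    rw [FreeGroup.toWord_mul, hk, FreeGroup.toWord_of]
    rfl
  have h5 : ¬ (k = j ∧ b = false) := by
    rintro ⟨rfl, rfl⟩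
    apply h2
    rw [hγ, FreeGroup.of, FreeGroup.inv_mk]
    rfl
  have h6 : FreeGroup.reduce [(k, b), (j, true)] = [(k, b), (j, true)] := by
    simp only [FreeGroup.reduce]
    rw [if_neg]
    simpa using h5
  show 2 ≤ (γ * FreeGroup.of j).toWord.length
  rw [h4, h6]
  simp

namespace SchData
variable {g : ℕ} (S : SchData g)

theorem PPan_K_pos : 0 < S.K := by
  unfold K
  have := S.ep_pos
  have := S.dl_pos
  positivity

theorem PPan_K_one : 1 ≤ S.K := by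
  have h := S.K_ge
  have hg : (0 : ℝ) ≤ (g : ℝ) := Nat.cast_nonneg g
  nlinarith

theorem PPan_dlK : 5 * 10 ^ 4 * ((g : ℝ) + 1) ^ 2 ≤ S.dl ^ 2 * S.K := by
  have h := S.small
  have he := S.ep_pos
  have hd := S.dl_pos
  unfold K
  rw [← mul_div_assoc, le_div_iff₀ (by positivity)]
  nlinarith

theorem PPan_fac_sub_one (z z0 p1 p2 : Fin 2 → ℂ) (γ : FreeGroup (Fin g))
    (hA : br z (S.act γ p2) ≠ 0) (hB : br z0 (S.act γ p1) ≠ 0) :
    S.fac z z0 p1 p2 γ - 1 = (br z z0 * br p1 p2) /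
      (br z (S.act γ p2) * br z0 (S.act γ p1)) := by
  unfold fac
  rw [div_sub_one (mul_ne_zero hA hB), ← S.br_act γ p1 p2]
  congr 1
  unfold br
  ring

theorem PPan_Gb0 (j : Fin g) : S.act (FreeGroup.of j) b0 =
    ![(((S.ep : ℂ) ^ 2 - S.c j ^ 2) / S.ep : ℂ), (-S.c j / S.ep : ℂ)] := by
  funext k
  simp only [act, rep, FreeGroup.lift_apply_of, Gmat, b0]
  fin_cases k <;> simp [Matrix.mulVec, dotProduct]

theorem PPan_Ginvb0 (j : Fin g) : S.act (FreeGroup.of j)⁻¹ b0 =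
    ![(1 / S.ep : ℂ), (S.c j / S.ep : ℂ)] := by
  funext k
  rw [S.act_of_inv]
  fin_cases k <;> simp [br, b0, b1, dir] <;> ring

/-- the majorant -/
noncomputable def PPan_b (γ : FreeGroup (Fin g)) : ℝ :=
  80 / S.dl ^ 2 * ((if 1 ≤ γ.norm then (S.K⁻¹) ^ γ.norm else 0) +
    S.K ^ 3 * (if 2 ≤ γ.norm then ((S.K ^ 2)⁻¹) ^ γ.norm else 0))

theorem PPan_bound (j : Fin g) (γ : FreeGroup (Fin g)) (h1 : γ ≠ 1)
    (h2 : γ ≠ (FreeGroup.of j)⁻¹) (z : ℂ) (hz : z ∈ Om S.c S.ep) :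
    br (pt z) (S.act γ b0) ≠ 0 ∧ br (pt 1) (S.act γ (S.act (FreeGroup.of j) b0)) ≠ 0 ∧
    ‖S.fac (pt z) (pt 1) (S.act (FreeGroup.of j) b0) b0 γ - 1‖ ≤ S.PPan_b γ := by
  have he := S.ep_pos
  have hd := S.dl_pos
  have hK := S.PPan_K_pos
  have hK1 := S.PPan_K_one
  have h3 : γ * FreeGroup.of j ≠ 1 := by
    intro h
    exact h2 (eq_inv_of_mul_eq_one_left h)
  have hA := S.low_Om γ h1 b0 (Or.inl rfl) z hz
  have hB := S.low_one (γ * FreeGroup.of j) h3 b0 (Or.inl rfl)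
  rw [S.act_mul] at hB
  set a := br (pt z) (S.act γ b0) with ha
  set b := br (pt 1) (S.act γ (S.act (FreeGroup.of j) b0)) with hb
  have ha0 : 0 < ‖a‖ := lt_of_lt_of_le (by positivity) hA
  have hb0 : 0 < ‖b‖ := lt_of_lt_of_le (by positivity) hB
  have ha1 : a ≠ 0 := norm_pos_iff.mp ha0
  have hb1 : b ≠ 0 := norm_pos_iff.mp hb0
  refine ⟨ha1, hb1, ?_⟩
  rw [S.PPan_fac_sub_one _ _ _ _ _ ha1 hb1, norm_div, norm_mul, norm_mul, ← ha, ← hb]
  have hn1 : ‖br (pt z) (pt 1)‖ ≤ 5 / 2 := by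
    have h4 : br (pt z) (pt 1) = z - 1 := by simp [br, pt]
    rw [h4]
    calc ‖z - 1‖ ≤ ‖z‖ + ‖(1 : ℂ)‖ := norm_sub_le _ _
      _ ≤ 3 / 2 + 1 := by
        have := hz.1
        rw [norm_one]
        linarith
      _ = 5 / 2 := by norm_num
  have hn2 : ‖br (S.act (FreeGroup.of j) b0) b0‖ ≤ 1 / (2 * S.ep) := by
    have h4 : br (S.act (FreeGroup.of j) b0) b0 = ((S.c j / S.ep : ℝ) : ℂ) := by
      rw [S.PPan_Gb0]
      simp [br, b0]
      ring
    rw [h4, Complex.norm_real, Real.norm_eq_abs, abs_div, abs_of_pos he]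
    have h5 := S.c_ge j
    have h6 := S.c_le j
    rw [abs_of_nonneg (by linarith), div_le_div_iff₀ he (by positivity)]
    nlinarith
  have hnum : ‖br (pt z) (pt 1)‖ * ‖br (S.act (FreeGroup.of j) b0) b0‖ ≤ 5 / (4 * S.ep) := by
    calc _ ≤ 5 / 2 * (1 / (2 * S.ep)) := mul_le_mul hn1 hn2 (norm_nonneg _) (by norm_num)
      _ = 5 / (4 * S.ep) := by ring
  set n := γ.norm with hn
  set m := (γ * FreeGroup.of j).norm with hm
  have hden : S.K ^ n * (S.ep / 4) * (S.K ^ m / 4) ≤ ‖a‖ * ‖b‖ :=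
    mul_le_mul hA hB (by positivity) (norm_nonneg _)
  have hmain : ‖br (pt z) (pt 1)‖ * ‖br (S.act (FreeGroup.of j) b0) b0‖ / (‖a‖ * ‖b‖) ≤
      80 / S.dl ^ 2 * (S.K ^ 2 / S.K ^ (n + m)) := by
    calc _ ≤ (5 / (4 * S.ep)) / (S.K ^ n * (S.ep / 4) * (S.K ^ m / 4)) :=
          div_le_div₀ (by positivity) hnum (by positivity) hden
      _ = 80 / S.dl ^ 2 * (S.K ^ 2 / S.K ^ (n + m)) := by
          have h7 : S.dl = S.K * (2 * S.ep) := by
            unfold K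
            field_simp
          rw [h7, pow_add]
          field_simp
          ring
  refine hmain.trans ?_
  unfold PPan_b
  rw [← hn]
  apply mul_le_mul_of_nonneg_left _ (by positivity)
  have hn0 : 1 ≤ n := by
    rcases Nat.eq_zero_or_pos n with h | h
    · exact absurd (FreeGroup.norm_eq_zero.mp (hn ▸ h)) h1
    · exact h
  rw [if_pos hn0]
  rcases Nat.lt_or_ge n 2 with h | h
  · have hn1 : n = 1 := by omega
    rw [if_neg (by omega), mul_zero, add_zero, hn1, pow_one]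
    have hm2 : 2 ≤ m := PPan_norm_two γ j h2 (hn ▸ hn1)
    rw [div_le_iff₀ (by positivity), inv_mul_eq_div, le_div_iff₀ hK]
    calc S.K ^ 2 * S.K = S.K ^ 3 := by ring
      _ ≤ S.K ^ (1 + m) := pow_le_pow_right₀ hK1 (by omega)
  · rw [if_pos h]
    have hm2 : n ≤ m + 1 := PPan_norm_ge γ j
    have h8 : S.K ^ 2 / S.K ^ (n + m) ≤ S.K ^ 3 * ((S.K ^ 2)⁻¹) ^ n := by
      rw [inv_pow, ← pow_mul, div_le_iff₀ (by positivity), mul_assoc, inv_mul_eq_div,
        ← mul_div_assoc, le_div_iff₀ (by positivity), ← pow_add, ← pow_add]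
      exact pow_le_pow_right₀ hK1 (by omega)
    have h9 : 0 ≤ S.K⁻¹ ^ n := by positivity
    linarith

theorem PPan_t1 : 4 * (g : ℝ) * S.K⁻¹ ≤ 1 := by
  have h := S.K_ge
  have hK := S.PPan_K_pos
  have hg : (0 : ℝ) ≤ (g : ℝ) := Nat.cast_nonneg g
  rw [mul_inv_le_iff₀ hK]
  nlinarith

theorem PPan_t2 : 4 * (g : ℝ) * (S.K ^ 2)⁻¹ ≤ 1 := by
  have h := S.K_ge
  have hK := S.PPan_K_pos
  have hK1 := S.PPan_K_one
  have hg : (0 : ℝ) ≤ (g : ℝ) := Nat.cast_nonneg g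
  rw [mul_inv_le_iff₀ (by positivity)]
  nlinarith

theorem PPan_summable_if (t : ℝ) (ht : 0 ≤ t) (h : 4 * (g : ℝ) * t ≤ 1) (k : ℕ) :
    Summable (fun γ : FreeGroup (Fin g) => if k ≤ γ.norm then t ^ γ.norm else 0) := by
  have hs : Summable (fun γ : FreeGroup (Fin g) => t ^ γ.norm) :=
    summable_norm_pow g t ht (by linarith)
  refine Summable.of_nonneg_of_le (fun γ => ?_) (fun γ => ?_) hs
  · split_ifs
    · positivity
    · exact le_refl _
  · split_ifs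
    · exact le_refl _
    · positivity

theorem PPan_b_summable : Summable S.PPan_b := by
  have hK := S.PPan_K_pos
  unfold PPan_b
  exact ((PPan_summable_if _ (by positivity) S.PPan_t1 1).add
    ((PPan_summable_if _ (by positivity) S.PPan_t2 2).mul_left _)).mul_left _

theorem PPan_b_nonneg (γ : FreeGroup (Fin g)) : 0 ≤ S.PPan_b γ := by
  have hK := S.PPan_K_pos
  unfold PPan_b
  have h1 : 0 ≤ (if 1 ≤ γ.norm then (S.K⁻¹) ^ γ.norm else 0) := by
    split_ifs <;> positivity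
  have h2 : 0 ≤ (if 2 ≤ γ.norm then ((S.K ^ 2)⁻¹) ^ γ.norm else 0) := by
    split_ifs <;> positivity
  positivity

theorem PPan_b_tsum : ∑' γ, S.PPan_b γ ≤ 1 / 10 := by
  have hK := S.PPan_K_pos
  have hd := S.dl_pos
  have hg : (0 : ℝ) ≤ (g : ℝ) := Nat.cast_nonneg g
  unfold PPan_b
  rw [tsum_mul_left, Summable.tsum_add (PPan_summable_if _ (by positivity) S.PPan_t1 1)
    ((PPan_summable_if _ (by positivity) S.PPan_t2 2).mul_left _), tsum_mul_left]
  have h1 := tsum_norm_pow_le g (S.K⁻¹) (by positivity) S.PPan_t1 1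
  have h2 := tsum_norm_pow_le g ((S.K ^ 2)⁻¹) (by positivity) S.PPan_t2 2
  have h3 : ∑' γ : FreeGroup (Fin g), (if 1 ≤ γ.norm then S.K⁻¹ ^ γ.norm else 0) +
      S.K ^ 3 * ∑' γ : FreeGroup (Fin g), (if 2 ≤ γ.norm then (S.K ^ 2)⁻¹ ^ γ.norm else 0) ≤
      8 * ((g : ℝ) + 1) ^ 2 / S.K := by
    calc _ ≤ 2 * (2 * g * S.K⁻¹) ^ 1 + S.K ^ 3 * (2 * (2 * g * (S.K ^ 2)⁻¹) ^ 2) :=
          add_le_add h1 (mul_le_mul_of_nonneg_left h2 (by positivity))
      _ = (4 * g + 8 * g ^ 2) / S.K := by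
          field_simp
          ring
      _ ≤ 8 * ((g : ℝ) + 1) ^ 2 / S.K := by
          apply div_le_div_of_nonneg_right _ hK.le
          nlinarith
  calc _ ≤ 80 / S.dl ^ 2 * (8 * ((g : ℝ) + 1) ^ 2 / S.K) :=
        mul_le_mul_of_nonneg_left h3 (by positivity)
    _ = 640 * ((g : ℝ) + 1) ^ 2 / (S.dl ^ 2 * S.K) := by
        field_simp
        ring
    _ ≤ 1 / 10 := by
        have h4 := S.PPan_dlK
        rw [div_le_div_iff₀ (by positivity) (by norm_num)]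
        nlinarith

/-- the factors without the two main ones, minus one -/
noncomputable def PPan_f (j : Fin g) (γ : FreeGroup (Fin g)) (z : ℂ) : ℂ :=
  open Classical in
  if γ = 1 ∨ γ = (FreeGroup.of j)⁻¹ then 0 else
    S.fac (pt z) (pt 1) (S.act (FreeGroup.of j) b0) b0 γ - 1

theorem PPan_f_le (j : Fin g) (γ : FreeGroup (Fin g)) (z : ℂ) (hz : z ∈ Om S.c S.ep) :
    ‖S.PPan_f j γ z‖ ≤ S.PPan_b γ := by
  unfold PPan_f
  split_ifs with h
  · simpa using S.PPan_b_nonneg γ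
  · push Not at h
    exact (S.PPan_bound j γ h.1 h.2 z hz).2.2

theorem PPan_isOpen : IsOpen (Om S.c S.ep) := by
  have h1 : Om S.c S.ep = {z : ℂ | ‖z‖ < 3 / 2} ∩ ⋂ i, {z : ℂ | S.ep / 2 < ‖z - S.c i‖} := by
    ext z
    simp [Om]
  rw [h1]
  refine IsOpen.inter (isOpen_lt continuous_norm continuous_const) ?_
  refine isOpen_iInter_of_finite (fun i => ?_)
  exact isOpen_lt continuous_const (by fun_prop)

theorem PPan_f_diff (j : Fin g) (γ : FreeGroup (Fin g)) :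
    DifferentiableOn ℂ (S.PPan_f j γ) (Om S.c S.ep) := by
  by_cases h : γ = 1 ∨ γ = (FreeGroup.of j)⁻¹
  · have h1 : S.PPan_f j γ = fun _ => 0 := by
      funext z
      unfold PPan_f
      rw [if_pos h]
    rw [h1]
    exact differentiableOn_const _
  · have h1 : S.PPan_f j γ = fun z =>
        S.fac (pt z) (pt 1) (S.act (FreeGroup.of j) b0) b0 γ - 1 := by
      funext z
      unfold PPan_f
      rw [if_neg h]
    rw [h1]
    push Not at h
    unfold fac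
    refine DifferentiableOn.sub_const ?_ _
    refine DifferentiableOn.div ?_ ?_ ?_
    · simp only [br, pt, Matrix.cons_val_zero, Matrix.cons_val_one, Matrix.cons_val_fin_one]
      fun_prop
    · simp only [br, pt, Matrix.cons_val_zero, Matrix.cons_val_one, Matrix.cons_val_fin_one]
      fun_prop
    · intro z hz
      have h2 := S.PPan_bound j γ h.1 h.2 z hz
      exact mul_ne_zero h2.1 h2.2.1

/-- the correction factor -/
noncomputable def PPan_E (j : Fin g) (z : ℂ) : ℂ := ∏' γ, (1 + S.PPan_f j γ z)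

theorem PPan_E_diff (j : Fin g) : DifferentiableOn ℂ (S.PPan_E j) (Om S.c S.ep) := by
  have h1 := Summable.hasProdLocallyUniformlyOn_one_add S.PPan_isOpen S.PPan_b_summable
    (f := S.PPan_f j) (Eventually.of_forall (fun γ z hz => S.PPan_f_le j γ z hz))
    (fun γ => (S.PPan_f_diff j γ).continuousOn)
  refine h1.differentiableOn (.of_forall fun s => ?_) S.PPan_isOpen
  simpa [Finset.prod_fn] using
      DifferentiableOn.finsetProd (fun γ _ => (S.PPan_f_diff j γ).const_add 1)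

theorem PPan_f_summable (j : Fin g) (z : ℂ) (hz : z ∈ Om S.c S.ep) :
    Summable (fun γ => ‖S.PPan_f j γ z‖) :=
  Summable.of_nonneg_of_le (fun _ => norm_nonneg _) (fun γ => S.PPan_f_le j γ z hz)
    S.PPan_b_summable

theorem PPan_E_near (j : Fin g) (z : ℂ) (hz : z ∈ Om S.c S.ep) : ‖S.PPan_E j z - 1‖ ≤ 1 / 4 := by
  have hm : Multipliable (fun γ => 1 + S.PPan_f j γ z) :=
    multipliable_one_add_of_summable (S.PPan_f_summable j z hz)
  have hb : ∀ s : Finset (FreeGroup (Fin g)), ‖∏ γ ∈ s, (1 + S.PPan_f j γ z) - 1‖ ≤ 1 / 4 := by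
    intro s
    have h1 := s.norm_prod_one_add_sub_one_le (fun γ => S.PPan_f j γ z)
    have h2 : ∑ γ ∈ s, ‖S.PPan_f j γ z‖ ≤ 1 / 10 := by
      calc _ ≤ ∑ γ ∈ s, S.PPan_b γ := Finset.sum_le_sum (fun γ _ => S.PPan_f_le j γ z hz)
        _ ≤ ∑' γ, S.PPan_b γ :=
          S.PPan_b_summable.sum_le_tsum s (fun γ _ => S.PPan_b_nonneg γ)
        _ ≤ 1 / 10 := S.PPan_b_tsum
    have h3 : Real.exp (∑ γ ∈ s, ‖S.PPan_f j γ z‖) ≤ Real.exp (1 / 10) :=
      Real.exp_le_exp.mpr h2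
    have h4 : Real.exp (1 / 10) ≤ 5 / 4 := by
      have h5 : Real.exp (1 / 10) ≤ 1 + 1 / 10 + (1 / 10) ^ 2 := by
        have h6 := Real.abs_exp_sub_one_sub_id_le (x := 1 / 10) (by norm_num)
        have h7 := (abs_le.mp h6).2
        linarith
      linarith [h5]
    linarith
  have ht : Tendsto (fun s : Finset (FreeGroup (Fin g)) =>
      ‖∏ γ ∈ s, (1 + S.PPan_f j γ z) - 1‖) atTop (𝓝 ‖S.PPan_E j z - 1‖) :=
    ((hm.hasProd.sub_const 1)).norm
  exact le_of_tendsto' ht hb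

theorem PPan_fac_one (j : Fin g) (z : ℂ) :
    S.fac (pt z) (pt 1) (S.act (FreeGroup.of j) b0) b0 1 = (z - S.pz j) / (1 - S.pz j) := by
  have he : (S.ep : ℂ) ≠ 0 := by exact_mod_cast S.ep_pos.ne'
  have hc : (S.c j : ℂ) ≠ 0 := by
    have := S.c_ge j
    exact_mod_cast (by linarith : (0 : ℝ) < S.c j).ne'
  unfold fac
  rw [S.act_one, S.act_one, S.PPan_Gb0]
  unfold pz
  simp only [br, pt, b0, Matrix.cons_val_zero, Matrix.cons_val_one, Matrix.cons_val_fin_one]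
  push_cast
  have h1 : z * (-(S.c j : ℂ) / S.ep) - 1 * (((S.ep : ℂ) ^ 2 - S.c j ^ 2) / S.ep) =
      -(S.c j / S.ep) * (z - (S.c j - S.ep ^ 2 / S.c j)) := by
    field_simp
    ring
  have h2 : (1 : ℂ) * (-(S.c j : ℂ) / S.ep) - 1 * (((S.ep : ℂ) ^ 2 - S.c j ^ 2) / S.ep) =
      -(S.c j / S.ep) * (1 - (S.c j - S.ep ^ 2 / S.c j)) := by
    field_simp
    ring
  rw [h1, h2]
  have h3 : -((S.c j : ℂ) / S.ep) ≠ 0 := neg_ne_zero.mpr (div_ne_zero hc he)
  have h4 : z * (0 : ℂ) - 1 * 1 = -1 := by ring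
  have h5 : (1 : ℂ) * (0 : ℂ) - 1 * 1 = -1 := by ring
  rw [h4, h5]
  rw [show -((S.c j : ℂ) / S.ep) * (z - (S.c j - S.ep ^ 2 / S.c j)) * -1 =
      ((S.c j : ℂ) / S.ep) * (z - (S.c j - S.ep ^ 2 / S.c j)) by ring,
    show (-1 : ℂ) * (-((S.c j : ℂ) / S.ep) * (1 - (S.c j - S.ep ^ 2 / S.c j))) =
      ((S.c j : ℂ) / S.ep) * (1 - (S.c j - S.ep ^ 2 / S.c j)) by ring]
  exact mul_div_mul_left _ _ (div_ne_zero hc he)

theorem PPan_fac_inv (j : Fin g) (z : ℂ) :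
    S.fac (pt z) (pt 1) (S.act (FreeGroup.of j) b0) b0 (FreeGroup.of j)⁻¹ =
      (1 - S.c j) / (1 - S.c j * z) := by
  have he : (S.ep : ℂ) ≠ 0 := by exact_mod_cast S.ep_pos.ne'
  unfold fac
  rw [← S.act_mul, inv_mul_cancel, S.act_one, S.PPan_Ginvb0]
  simp only [br, pt, b0, Matrix.cons_val_zero, Matrix.cons_val_one, Matrix.cons_val_fin_one]
  have h1 : (z * (0 : ℂ) - 1 * 1) * (1 * ((S.c j : ℂ) / S.ep) - 1 * (1 / S.ep)) =
      (1 / S.ep) * (1 - S.c j) := by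
    field_simp
    ring
  have h2 : (z * ((S.c j : ℂ) / S.ep) - 1 * (1 / S.ep)) * (1 * (0 : ℂ) - 1 * 1) =
      (1 / S.ep) * (1 - S.c j * z) := by
    field_simp
    ring
  rw [h1, h2]
  exact mul_div_mul_left _ _ (div_ne_zero one_ne_zero he)

theorem X_factor (j : Fin g) : ∃ E : ℂ → ℂ, DifferentiableOn ℂ E (Om S.c S.ep) ∧
    (∀ z ∈ Om S.c S.ep, ‖E z - 1‖ ≤ 1 / 4) ∧ ∀ z ∈ Om S.c S.ep, S.X j z = S.A j z * E z := by
  classical
  refine ⟨S.PPan_E j, S.PPan_E_diff j, S.PPan_E_near j, fun z hz => ?_⟩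
  have hm : Multipliable (fun γ => 1 + S.PPan_f j γ z) :=
    multipliable_one_add_of_summable (S.PPan_f_summable j z hz)
  have hne : (1 : FreeGroup (Fin g)) ≠ (FreeGroup.of j)⁻¹ := by
    intro h
    have h1 := congrArg FreeGroup.norm h
    rw [FreeGroup.norm_inv_eq, FreeGroup.norm_of, FreeGroup.norm_one] at h1
    omega
  set h : FreeGroup (Fin g) → ℂ := fun γ => if γ = 1 ∨ γ = (FreeGroup.of j)⁻¹ then
    S.fac (pt z) (pt 1) (S.act (FreeGroup.of j) b0) b0 γ else 1 with hh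
  have hs : ∀ γ ∉ ({1, (FreeGroup.of j)⁻¹} : Finset (FreeGroup (Fin g))), h γ = 1 := by
    intro γ hγ
    simp only [Finset.mem_insert, Finset.mem_singleton] at hγ
    simp only [hh]
    rw [if_neg hγ]
  have hmh : Multipliable h := multipliable_of_ne_finset_one hs
  have hph : ∏' γ, h γ = S.A j z := by
    rw [tprod_eq_prod hs, Finset.prod_pair hne]
    simp only [hh, true_or, or_true, if_true]
    rw [S.PPan_fac_one, S.PPan_fac_inv]
    rfl
  have hfac : ∀ γ, S.fac (pt z) (pt 1) (S.act (FreeGroup.of j) b0) b0 γ =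
      h γ * (1 + S.PPan_f j γ z) := by
    intro γ
    simp only [hh, PPan_f]
    split_ifs with h1
    · ring
    · ring
  show ∏' γ, S.fac (pt z) (pt 1) (S.act (FreeGroup.of j) b0) b0 γ = _
  simp_rw [hfac]
  rw [hmh.tprod_mul hm, hph]
  rfl

end SchData
end Pool.Agent.AM.Hyp
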