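import Pool.Agent.AM.Hyp.Glue
import Pool.Agent.AM.Hyp.PPan

/-! Existence of hyperelliptic Schottky data. -/

set_option autoImplicit false
open Complex Filter Topology
namespace Pool.Agent.AM.Hyp

namespace Ex

/-! ### Positive definiteness by diagonal dominance -/

theorem posDef_of_dom {g : ℕ} (M : Matrix (Fin g) (Fin g) ℝ) (L D : ℝ)
    (hsym : ∀ i j, M i j = M j i) (hL0 : 0 ≤ L) (hoff : ∀ i j, i ≠ j → |M i j| ≤ L)
    (hdiag : ∀ i, D ≤ M i i) (hD : g * L < D) : M.PosDef := by
  rw [Matrix.posDef_iff_dotProduct_mulVec]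
  refine ⟨?_, ?_⟩
  · apply Matrix.IsHermitian.ext
    intro i j
    simpa using hsym j i
  · intro x hx
    have hpos : 0 < ∑ i, x i ^ 2 := by
      obtain ⟨i, hi⟩ : ∃ i, x i ≠ 0 := by
        by_contra hcon
        push Not at hcon
        exact hx (funext hcon)
      have h1 : 0 < x i ^ 2 := by positivity
      calc 0 < x i ^ 2 := h1
        _ ≤ ∑ i, x i ^ 2 := Finset.single_le_sum (f := fun i => x i ^ 2)
            (fun _ _ => sq_nonneg _) (Finset.mem_univ i)
    have hexp : star x ⬝ᵥ M.mulVec x = ∑ i, ∑ j, x i * M i j * x j := by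
      simp only [dotProduct, Matrix.mulVec, star_trivial]
      refine Finset.sum_congr rfl (fun i _ => ?_)
      rw [Finset.mul_sum]
      refine Finset.sum_congr rfl (fun j _ => ?_)
      ring
    rw [hexp]
    have hterm : ∀ i j, (if i = j then D * x i ^ 2 else 0) - L * (x i ^ 2 + x j ^ 2) / 2
        ≤ x i * M i j * x j := by
      intro i j
      by_cases hij : i = j
      · subst hij
        rw [if_pos rfl]
        have h1 := hdiag i
        have h2 := sq_nonneg (x i)
        nlinarith [mul_nonneg hL0 h2, mul_le_mul_of_nonneg_right h1 h2]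
      · rw [if_neg hij]
        have h1 := hoff i j hij
        have h2 : |x i * M i j * x j| ≤ L * (x i ^ 2 + x j ^ 2) / 2 := by
          rw [abs_mul, abs_mul]
          have h3 : |x i| * |x j| ≤ (x i ^ 2 + x j ^ 2) / 2 := by
            have := two_mul_le_add_sq (|x i|) (|x j|)
            rw [sq_abs, sq_abs] at this
            linarith
          calc |x i| * |M i j| * |x j| = |M i j| * (|x i| * |x j|) := by ring
            _ ≤ L * ((x i ^ 2 + x j ^ 2) / 2) :=
                mul_le_mul h1 h3 (by positivity) hL0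
            _ = L * (x i ^ 2 + x j ^ 2) / 2 := by ring
        have h4 := neg_abs_le (x i * M i j * x j)
        linarith
    have hsum : ∑ i, ∑ j, ((if i = j then D * x i ^ 2 else 0) - L * (x i ^ 2 + x j ^ 2) / 2)
        = (D - g * L) * ∑ i, x i ^ 2 := by
      simp only [Finset.sum_sub_distrib, Finset.sum_ite_eq, Finset.mem_univ, if_true]
      have h5 : ∑ i : Fin g, ∑ j : Fin g, L * (x i ^ 2 + x j ^ 2) / 2
          = g * L * ∑ i, x i ^ 2 := by
        have h6 : ∀ i : Fin g, ∑ j : Fin g, L * (x i ^ 2 + x j ^ 2) / 2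
            = (L / 2) * (g * x i ^ 2 + ∑ j, x j ^ 2) := by
          intro i
          have h7 : ∀ j : Fin g, L * (x i ^ 2 + x j ^ 2) / 2
            = (L / 2) * (x i ^ 2 + x j ^ 2) := fun j => by ring
          rw [Finset.sum_congr rfl (fun j _ => h7 j), ← Finset.mul_sum, Finset.sum_add_distrib]
          simp
        rw [Finset.sum_congr rfl (fun i _ => h6 i), ← Finset.mul_sum, Finset.sum_add_distrib,
          ← Finset.mul_sum]
        simp
        ring
      rw [h5, ← Finset.mul_sum]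
      ring
    calc 0 < (D - g * L) * ∑ i, x i ^ 2 := mul_pos (by linarith) hpos
      _ = _ := hsum.symm
      _ ≤ _ := Finset.sum_le_sum (fun i _ => Finset.sum_le_sum (fun j _ => hterm i j))

variable {g : ℕ} (S : SchData g)

/-! ### Numerical facts -/

theorem ep_dl : 10 ^ 6 * S.ep ≤ S.dl := by
  have h1 := S.small
  have h2 := S.ep_pos
  have h3 := S.dl_pos
  have h4 := S.dl_le
  have hg : (1 : ℝ) ≤ ((g : ℝ) + 1) ^ 2 := by
    have : (0 : ℝ) ≤ g := Nat.cast_nonneg g
    nlinarith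
  have h5 : 10 ^ 5 * S.ep ≤ 10 ^ 5 * ((g : ℝ) + 1) ^ 2 * S.ep := by nlinarith
  have h7 : S.dl ^ 2 ≤ 1 / 64 := by nlinarith
  have h6 : S.dl ^ 3 ≤ S.dl * (1 / 64) := by nlinarith
  linarith

theorem ep_small : S.ep ≤ 1 / 10 ^ 6 := by
  have h1 := ep_dl S
  have h4 := S.dl_le
  linarith

theorem ep_sq : 4 * S.ep ^ 2 ≤ S.ep / 10 ^ 5 := by
  have h1 := ep_small S
  have h2 := S.ep_pos
  nlinarith

theorem pz_lt (j : Fin g) : S.pz j < S.c j := by
  have h1 := S.c_ge j
  have h2 := S.ep_pos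
  have h3 : 0 < S.ep ^ 2 / S.c j := by
    apply div_pos (by positivity); linarith
  unfold SchData.pz
  linarith

theorem pz_gt (j : Fin g) : S.c j - 4 * S.ep ^ 2 ≤ S.pz j := by
  have h1 := S.c_ge j
  have h2 := S.ep_pos
  have h3 : S.ep ^ 2 / S.c j ≤ 4 * S.ep ^ 2 := by
    rw [div_le_iff₀ (by linarith)]
    nlinarith [sq_nonneg S.ep]
  unfold SchData.pz
  linarith

/-! ### The domain -/

theorem mem_near (i : Fin g) (z : ℂ) (h1 : S.ep / 2 < ‖z - S.c i‖)
    (h2 : ‖z - S.c i‖ < 2 * S.ep) : z ∈ Om S.c S.ep := by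
  have he := S.ep_pos
  have hed := ep_dl S
  have hes := ep_small S
  refine ⟨?_, ?_⟩
  · have h3 : ‖z‖ ≤ ‖z - S.c i‖ + ‖(S.c i : ℂ)‖ := by
      calc ‖z‖ = ‖(z - S.c i) + S.c i‖ := by ring_nf
        _ ≤ _ := norm_add_le _ _
    have h4 : ‖(S.c i : ℂ)‖ = S.c i := by
      rw [Complex.norm_real, Real.norm_of_nonneg]
      have := S.c_ge i; linarith
    have h5 := S.c_le i
    linarith
  · intro k
    by_cases hk : i = k
    · subst hk; exact h1
    · have h3 : ‖((S.c i - S.c k : ℝ) : ℂ)‖ ≤ ‖z - S.c i‖ + ‖z - S.c k‖ := by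
        calc ‖((S.c i - S.c k : ℝ) : ℂ)‖ = ‖(z - S.c k) - (z - S.c i)‖ := by
              push_cast; ring_nf
          _ ≤ ‖z - S.c k‖ + ‖z - S.c i‖ := norm_sub_le _ _
          _ = _ := add_comm _ _
      rw [Complex.norm_real, Real.norm_eq_abs] at h3
      have h4 := S.sep i k hk
      linarith

theorem mem_plus (i : Fin g) : (((S.c i + S.ep : ℝ)) : ℂ) ∈ Om S.c S.ep := by
  have he := S.ep_pos
  apply mem_near S i
  · have : (((S.c i + S.ep : ℝ)) : ℂ) - S.c i = (S.ep : ℂ) := by push_cast; ring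
    rw [this, Complex.norm_real, Real.norm_of_nonneg he.le]
    linarith
  · have : (((S.c i + S.ep : ℝ)) : ℂ) - S.c i = (S.ep : ℂ) := by push_cast; ring
    rw [this, Complex.norm_real, Real.norm_of_nonneg he.le]
    linarith

theorem mem_minus (i : Fin g) : (((S.c i - S.ep : ℝ)) : ℂ) ∈ Om S.c S.ep := by
  have he := S.ep_pos
  have h0 : (((S.c i - S.ep : ℝ)) : ℂ) - S.c i = -(S.ep : ℂ) := by push_cast; ring
  apply mem_near S i
  · rw [h0, norm_neg, Complex.norm_real, Real.norm_of_nonneg he.le]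
    linarith
  · rw [h0, norm_neg, Complex.norm_real, Real.norm_of_nonneg he.le]
    linarith

theorem mem_neg_one : (((-1 : ℝ)) : ℂ) ∈ Om S.c S.ep := by
  have he := S.ep_pos
  have hes := ep_small S
  refine ⟨?_, ?_⟩
  · rw [Complex.norm_real]; norm_num
  · intro i
    have h1 : (((-1 : ℝ)) : ℂ) - S.c i = ((-1 - S.c i : ℝ) : ℂ) := by push_cast; ring
    rw [h1, Complex.norm_real, Real.norm_eq_abs, abs_of_neg (by have := S.c_ge i; linarith)]
    have := S.c_ge i
    linarith

/-! ### Values at real points -/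

/-- the main term at a real point -/
noncomputable def al (j : Fin g) (x : ℝ) : ℝ :=
  ((x - S.pz j) / (1 - S.pz j)) * ((1 - S.c j) / (1 - S.c j * x))

theorem A_ofReal (j : Fin g) (x : ℝ) : S.A j x = (al S j x : ℂ) := by
  unfold SchData.A al
  push_cast
  ring

theorem X_eq_re (j : Fin g) (x : ℝ) : S.X j x = ((S.X j x).re : ℂ) := by
  apply Complex.ext
  · simp
  · simp [S.X_real j x]

theorem X_re (j : Fin g) (x : ℝ) (hx : (x : ℂ) ∈ Om S.c S.ep) :
    ∃ e : ℝ, 3 / 4 ≤ e ∧ e ≤ 5 / 4 ∧ (S.X j x).re = al S j x * e := by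
  obtain ⟨E, -, hE1, hE2⟩ := S.X_factor j
  have h1 := abs_re_le_norm (E x - 1)
  have h2 := hE1 x hx
  have h3 : |(E x).re - 1| ≤ 1 / 4 := by
    have : (E x - 1).re = (E x).re - 1 := by simp
    rw [← this]; linarith
  rw [abs_le] at h3
  refine ⟨(E x).re, by linarith, by linarith, ?_⟩
  rw [hE2 x hx, A_ofReal, Complex.re_ofReal_mul]

theorem al_den (j : Fin g) (x : ℝ) (h1 : -1 ≤ x) (h2 : x ≤ 1) :
    1 / 2 ≤ 1 - S.c j * x ∧ 1 - S.c j * x ≤ 3 / 2 := by
  have h3 := S.c_ge j
  have h4 := S.c_le j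
  constructor <;> nlinarith

theorem al_pos (j : Fin g) (x : ℝ) (h0 : -1 ≤ x) (h2 : x ≤ 1) (h1 : S.pz j < x) :
    0 < al S j x := by
  have h3 := S.c_ge j
  have h4 := S.c_le j
  have h5 := pz_lt S j
  have h6 := al_den S j x h0 h2
  unfold al
  apply mul_pos
  · apply div_pos <;> linarith
  · apply div_pos <;> linarith [h6.1]

theorem al_neg (j : Fin g) (x : ℝ) (h0 : -1 ≤ x) (h2 : x ≤ 1) (h1 : x < S.pz j) :
    al S j x < 0 := by
  have h3 := S.c_ge j
  have h4 := S.c_le j
  have h5 := pz_lt S j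
  have h6 := al_den S j x h0 h2
  unfold al
  apply mul_neg_of_neg_of_pos
  · apply div_neg_of_neg_of_pos <;> linarith
  · apply div_pos <;> linarith [h6.1]

theorem re_pos (j : Fin g) (x : ℝ) (hx : (x : ℂ) ∈ Om S.c S.ep) (h : 0 < al S j x) :
    0 < (S.X j x).re := by
  obtain ⟨e, he1, he2, he3⟩ := X_re S j x hx
  rw [he3]; apply mul_pos h; linarith

theorem re_neg (j : Fin g) (x : ℝ) (hx : (x : ℂ) ∈ Om S.c S.ep) (h : al S j x < 0) :
    (S.X j x).re < 0 := by
  obtain ⟨e, he1, he2, he3⟩ := X_re S j x hx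
  rw [he3]; apply mul_neg_of_neg_of_pos h; linarith

theorem re_abs (j : Fin g) (x : ℝ) (hx : (x : ℂ) ∈ Om S.c S.ep) :
    3 / 4 * |al S j x| ≤ |(S.X j x).re| ∧ |(S.X j x).re| ≤ 5 / 4 * |al S j x| := by
  obtain ⟨e, he1, he2, he3⟩ := X_re S j x hx
  rw [he3, abs_mul, abs_of_pos (by linarith : 0 < e)]
  have := abs_nonneg (al S j x)
  constructor <;> nlinarith

/-- the square roots of the multipliers -/
noncomputable def sv (i j : Fin g) : ℝ := (S.X j ((S.c i + S.ep : ℝ) : ℂ)).re

/-- the values at the other branch points -/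
noncomputable def mv (i j : Fin g) : ℝ := (S.X j ((S.c i - S.ep : ℝ) : ℂ)).re

theorem sv_eq (i j : Fin g) : S.X j ((S.c i : ℂ) + S.ep) = (sv S i j : ℂ) := by
  have := X_eq_re S j (S.c i + S.ep)
  unfold sv
  rw [← this]
  push_cast
  rfl

theorem mv_eq (i j : Fin g) : S.X j ((S.c i : ℂ) - S.ep) = (mv S i j : ℂ) := by
  have := X_eq_re S j (S.c i - S.ep)
  unfold mv
  rw [← this]
  push_cast
  rfl

theorem sv_sq (i j : Fin g) : ((sv S i j : ℝ) : ℂ) ^ 2 = S.Qm i j := by
  have he := S.ep_pos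
  have hne : (S.ep : ℂ) ≠ 0 := by exact_mod_cast he.ne'
  have h0 : ((S.c i : ℂ) + S.ep) - S.c i = (S.ep : ℂ) := by ring
  have h := S.X_glue i j ((S.c i : ℂ) + S.ep)
    (by rw [h0, Complex.norm_real, Real.norm_of_nonneg he.le]; linarith)
    (by rw [h0, Complex.norm_real, Real.norm_of_nonneg he.le]; linarith)
  have h1 : (S.c i : ℂ) + (S.ep : ℂ) ^ 2 / ((S.c i : ℂ) + S.ep - S.c i) = (S.c i : ℂ) + S.ep := by
    rw [h0]; field_simp
  rw [h1, sv_eq] at h
  rw [← h]; ring

theorem mv_sq (i j : Fin g) : ((mv S i j : ℝ) : ℂ) ^ 2 = S.Qm i j := by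
  have he := S.ep_pos
  have hne : (S.ep : ℂ) ≠ 0 := by exact_mod_cast he.ne'
  have h0 : ((S.c i : ℂ) - S.ep) - S.c i = -(S.ep : ℂ) := by ring
  have h := S.X_glue i j ((S.c i : ℂ) - S.ep)
    (by rw [h0, norm_neg, Complex.norm_real, Real.norm_of_nonneg he.le]; linarith)
    (by rw [h0, norm_neg, Complex.norm_real, Real.norm_of_nonneg he.le]; linarith)
  have h1 : (S.c i : ℂ) + (S.ep : ℂ) ^ 2 / ((S.c i : ℂ) - S.ep - S.c i) = (S.c i : ℂ) - S.ep := by
    rw [h0]; field_simp; ring
  rw [h1, mv_eq] at h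
  rw [← h]; ring

theorem mv_sv_sq (i j : Fin g) : mv S i j ^ 2 = sv S i j ^ 2 := by
  have h := (mv_sq S i j).trans (sv_sq S i j).symm
  exact_mod_cast h

theorem sv_symm_sq (i j : Fin g) : sv S i j ^ 2 = sv S j i ^ 2 := by
  have h := (sv_sq S i j).trans ((S.Qm_symm i j).trans (sv_sq S j i).symm)
  exact_mod_cast h

/-- position of the points -/
theorem pos_range (i : Fin g) : -1 ≤ S.c i - S.ep ∧ S.c i + S.ep ≤ 1 := by
  have h1 := S.c_ge i
  have h2 := S.c_le i
  have h3 := ep_small S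
  constructor <;> linarith

theorem sv_pos_of_lt (i j : Fin g) (h : S.c j < S.c i) : 0 < sv S i j ∧ 0 < mv S i j := by
  have hr := pos_range S i
  have he := S.ep_pos
  have hed := ep_dl S
  have hp := pz_lt S j
  have hs := S.sep i j (fun hij => by subst hij; exact lt_irrefl _ h)
  rw [abs_of_pos (by linarith)] at hs
  constructor
  · apply re_pos S j _ (mem_plus S i)
    apply al_pos <;> linarith
  · apply re_pos S j _ (mem_minus S i)
    apply al_pos <;> linarith

theorem sv_neg_of_lt (i j : Fin g) (h : S.c i < S.c j) : sv S i j < 0 ∧ mv S i j < 0 := by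
  have hr := pos_range S i
  have he := S.ep_pos
  have hed := ep_dl S
  have hp := pz_gt S j
  have hq := ep_sq S
  have hs := S.sep i j (fun hij => by subst hij; exact lt_irrefl _ h)
  rw [abs_of_neg (by linarith)] at hs
  constructor
  · apply re_neg S j _ (mem_plus S i)
    apply al_neg <;> linarith
  · apply re_neg S j _ (mem_minus S i)
    apply al_neg <;> linarith

theorem sv_self (i : Fin g) : 0 < sv S i i ∧ mv S i i < 0 := by
  have hr := pos_range S i
  have he := S.ep_pos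
  have hed := ep_dl S
  have hp := pz_lt S i
  have hp' := pz_gt S i
  have hq := ep_sq S
  constructor
  · apply re_pos S i _ (mem_plus S i)
    apply al_pos <;> linarith
  · apply re_neg S i _ (mem_minus S i)
    apply al_neg <;> linarith

theorem c_ne (i j : Fin g) (h : i ≠ j) : S.c i ≠ S.c j := by
  intro hc
  have := S.sep i j h
  rw [hc, sub_self, abs_zero] at this
  linarith [S.dl_pos]

theorem sv_ne (i j : Fin g) : sv S i j ≠ 0 := by
  by_cases hij : i = j
  · subst hij; exact (sv_self S i).1.ne'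
  · rcases lt_or_gt_of_ne (c_ne S i j hij) with h | h
    · exact (sv_neg_of_lt S i j h).1.ne
    · exact (sv_pos_of_lt S i j h).1.ne'

theorem mv_eq_sv (i j : Fin g) : mv S i j = if i = j then -sv S i j else sv S i j := by
  have hsq := mv_sv_sq S i j
  by_cases hij : i = j
  · subst hij
    rw [if_pos rfl]
    have h1 := sv_self S i
    rcases sq_eq_sq_iff_eq_or_eq_neg.1 hsq with h | h
    · linarith [h1.1, h1.2]
    · exact h
  · rw [if_neg hij]
    rcases lt_or_gt_of_ne (c_ne S i j hij) with h | h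
    · have h1 := sv_neg_of_lt S i j h
      rcases sq_eq_sq_iff_eq_or_eq_neg.1 hsq with h2 | h2
      · exact h2
      · linarith [h1.1, h1.2]
    · have h1 := sv_pos_of_lt S i j h
      rcases sq_eq_sq_iff_eq_or_eq_neg.1 hsq with h2 | h2
      · exact h2
      · linarith [h1.1, h1.2]

theorem sv_anti (i j : Fin g) (hij : i ≠ j) : sv S j i = -sv S i j := by
  have hsq := sv_symm_sq S j i
  rcases lt_or_gt_of_ne (c_ne S i j hij) with h | h
  · have h1 := sv_neg_of_lt S i j h
    have h3 := sv_pos_of_lt S j i h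
    rcases sq_eq_sq_iff_eq_or_eq_neg.1 hsq with h2 | h2
    · linarith [h1.1, h3.1]
    · exact h2
  · have h1 := sv_pos_of_lt S i j h
    have h3 := sv_neg_of_lt S j i h
    rcases sq_eq_sq_iff_eq_or_eq_neg.1 hsq with h2 | h2
    · linarith [h1.1, h3.1]
    · exact h2

theorem X_neg_one (j : Fin g) : S.X j (-1) = -1 := by
  have h := S.X_glue0 j (-1) (by norm_num) (by norm_num)
  have h1 : ((-1 : ℂ))⁻¹ = -1 := by norm_num
  rw [h1] at h
  have h2 := X_eq_re S j (-1)
  have h3 : (S.X j ((-1 : ℝ) : ℂ)).re < 0 := by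
    apply re_neg S j _ (mem_neg_one S)
    have hp' := pz_gt S j
    have hq := ep_sq S
    have h1 := S.c_ge j
    have hes := ep_small S
    apply al_neg <;> linarith
  have h4 : (((-1 : ℝ)) : ℂ) = -1 := by push_cast; rfl
  rw [h4] at h2 h3
  rw [h2] at h
  have h5 : (S.X j (-1)).re * (S.X j (-1)).re = 1 := by exact_mod_cast h
  have h6 : (S.X j (-1)).re = -1 := by nlinarith
  rw [h2, h6]
  push_cast
  rfl

/-! ### Sizes -/

theorem sv_diag_le (i : Fin g) : |sv S i i| ≤ 8 * S.ep := by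
  have hr := pos_range S i
  have he := S.ep_pos
  have h1 := S.c_ge i
  have h2 := S.c_le i
  have hp := pz_lt S i
  have hp' := pz_gt S i
  have hq := ep_sq S
  have hab := (re_abs S i _ (mem_plus S i)).2
  have hal : |al S i (S.c i + S.ep)| ≤ 4 * S.ep := by
    unfold al
    rw [abs_mul, abs_div, abs_div, abs_of_pos (by linarith : 0 < S.c i + S.ep - S.pz i),
      abs_of_pos (by linarith : 0 < 1 - S.pz i), abs_of_pos (by linarith : 0 < 1 - S.c i)]
    have h6 := al_den S i (S.c i + S.ep) (by linarith) hr.2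
    rw [abs_of_pos (by linarith [h6.1] : 0 < 1 - S.c i * (S.c i + S.ep))]
    have h7 : (S.c i + S.ep - S.pz i) / (1 - S.pz i) ≤ 4 * S.ep := by
      rw [div_le_iff₀ (by linarith)]
      nlinarith
    have h8 : (1 - S.c i) / (1 - S.c i * (S.c i + S.ep)) ≤ 1 := by
      rw [div_le_one (by linarith [h6.1])]
      nlinarith
    have h9 : 0 ≤ (1 - S.c i) / (1 - S.c i * (S.c i + S.ep)) :=
      div_nonneg (by linarith) (by linarith [h6.1])
    calc _ ≤ (4 * S.ep) * 1 := mul_le_mul h7 h8 h9 (by linarith)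
      _ = 4 * S.ep := mul_one _
  unfold sv
  linarith

theorem sv_off (i j : Fin g) (hij : i ≠ j) : S.dl / 8 ≤ |sv S i j| ∧ |sv S i j| ≤ 8 / S.dl := by
  have hr := pos_range S i
  have he := S.ep_pos
  have hdp := S.dl_pos
  have hdl := S.dl_le
  have hed := ep_dl S
  have h1 := S.c_ge i
  have h2 := S.c_le i
  have h3 := S.c_ge j
  have h4 := S.c_le j
  have hp := pz_lt S j
  have hp' := pz_gt S j
  have hq := ep_sq S
  have hes := ep_small S
  have hab := re_abs S j _ (mem_plus S i)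
  have h6 := al_den S j (S.c i + S.ep) (by linarith) hr.2
  have hs := S.sep i j hij
  have hnum : S.dl / 2 ≤ |S.c i + S.ep - S.pz j| ∧ |S.c i + S.ep - S.pz j| ≤ 1 / 2 := by
    have h5 : |S.c i + S.ep - S.pz j - (S.c i - S.c j)| ≤ 2 * S.ep := by
      rw [abs_le]; constructor <;> linarith
    have h7 := abs_sub_abs_le_abs_sub (S.c i - S.c j) (S.c i + S.ep - S.pz j)
    rw [abs_sub_comm (S.c i - S.c j) (S.c i + S.ep - S.pz j)] at h7
    constructor
    · linarith
    · rw [abs_le]; constructor <;> linarith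
  have hal : |al S j (S.c i + S.ep)| = |S.c i + S.ep - S.pz j| / (1 - S.pz j) *
      ((1 - S.c j) / (1 - S.c j * (S.c i + S.ep))) := by
    unfold al
    rw [abs_mul, abs_div, abs_div,
      abs_of_pos (by linarith : 0 < 1 - S.pz j), abs_of_pos (by linarith : 0 < 1 - S.c j),
      abs_of_pos (by linarith [h6.1] : 0 < 1 - S.c j * (S.c i + S.ep))]
  have hal1 : S.dl / 4 ≤ |al S j (S.c i + S.ep)| := by
    rw [hal]
    have h7 : S.dl / 2 ≤ |S.c i + S.ep - S.pz j| / (1 - S.pz j) := by
      rw [le_div_iff₀ (by linarith)]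
      nlinarith [hnum.1]
    have h8 : 1 / 2 ≤ (1 - S.c j) / (1 - S.c j * (S.c i + S.ep)) := by
      rw [le_div_iff₀ (by linarith [h6.1])]
      nlinarith
    calc S.dl / 4 = S.dl / 2 * (1 / 2) := by ring
      _ ≤ _ := mul_le_mul h7 h8 (by norm_num) (div_nonneg (abs_nonneg _) (by linarith))
  have hal2 : |al S j (S.c i + S.ep)| ≤ 1 := by
    rw [hal]
    have h7 : |S.c i + S.ep - S.pz j| / (1 - S.pz j) ≤ 1 := by
      rw [div_le_one (by linarith)]
      linarith [hnum.2]
    have h8 : (1 - S.c j) / (1 - S.c j * (S.c i + S.ep)) ≤ 1 := by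
      rw [div_le_one (by linarith [h6.1])]
      nlinarith
    have h9 : 0 ≤ (1 - S.c j) / (1 - S.c j * (S.c i + S.ep)) :=
      div_nonneg (by linarith) (by linarith [h6.1])
    calc _ ≤ (1 : ℝ) * 1 := mul_le_mul h7 h8 h9 (by norm_num)
      _ = 1 := mul_one _
  constructor
  · unfold sv
    linarith [hab.1]
  · unfold sv
    have h10 : (5 / 4 : ℝ) ≤ 8 / S.dl := by
      rw [le_div_iff₀ hdp]; linarith
    linarith [hab.2]

theorem posdef (h8 : 8 * S.ep ≤ (S.dl / 8) ^ (g + 1)) :
    (Matrix.of (fun i j => -Real.log |sv S i j| / Real.pi)).PosDef := by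
  have hdp := S.dl_pos
  have hdl := S.dl_le
  have he := S.ep_pos
  have hpi := Real.pi_pos
  have hlog : 0 < Real.log (8 / S.dl) := by
    apply Real.log_pos
    rw [lt_div_iff₀ hdp]; linarith
  apply posDef_of_dom _ (Real.log (8 / S.dl) / Real.pi)
    (((g : ℝ) + 1) * (Real.log (8 / S.dl) / Real.pi))
  · intro i j
    simp only [Matrix.of_apply]
    have h : |sv S i j| = |sv S j i| := (sq_eq_sq_iff_abs_eq_abs _ _).1 (sv_symm_sq S i j)
    rw [h]
  · positivity
  · intro i j hij
    simp only [Matrix.of_apply]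
    rw [abs_div, abs_neg, abs_of_pos hpi]
    apply div_le_div_of_nonneg_right _ hpi.le
    have h := sv_off S i j hij
    have hpos : 0 < |sv S i j| := abs_pos.2 (sv_ne S i j)
    rw [abs_le]
    constructor
    · rw [← Real.log_inv]
      apply Real.log_le_log (by positivity)
      rw [inv_div]; exact h.1
    · exact Real.log_le_log hpos h.2
  · intro i
    simp only [Matrix.of_apply]
    rw [← mul_div_assoc]
    apply div_le_div_of_nonneg_right _ hpi.le
    have hpos : 0 < |sv S i i| := abs_pos.2 (sv_ne S i i)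
    have h1 : |sv S i i| ≤ (S.dl / 8) ^ (g + 1) := (sv_diag_le S i).trans h8
    have h2 := Real.log_le_log hpos h1
    rw [Real.log_pow] at h2
    have h3 : Real.log (S.dl / 8) = -Real.log (8 / S.dl) := by
      rw [← Real.log_inv, inv_div]
    rw [h3] at h2
    push_cast at h2
    linarith
  · have : 0 < Real.log (8 / S.dl) / Real.pi := by positivity
    nlinarith

/-! ### Winding numbers -/

theorem Om_open {g : ℕ} (c : Fin g → ℝ) (ep : ℝ) : IsOpen (Om c ep) := by
  have h1 : Om c ep = {z : ℂ | ‖z‖ < 3 / 2} ∩ ⋂ i, {z : ℂ | ep / 2 < ‖z - c i‖} := by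
    ext z; simp [Om]
  rw [h1]
  apply IsOpen.inter
  · exact isOpen_lt continuous_norm continuous_const
  · apply isOpen_iInter_of_finite
    intro i
    exact isOpen_lt continuous_const (by fun_prop)

theorem one_sub_re (j : Fin g) (z : ℂ) (hz : z ∈ Om S.c S.ep) : 0 < (1 - (S.c j : ℂ) * z).re := by
  have h1 := S.c_ge j
  have h2 := S.c_le j
  have h3 := hz.1
  have h4 := abs_re_le_norm z
  have h5 : (1 - (S.c j : ℂ) * z).re = 1 - S.c j * z.re := by
    simp
  rw [h5]
  have h6 := le_abs_self z.re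
  have h7 : S.c j * z.re ≤ S.c j * (3 / 2) := by
    apply mul_le_mul_of_nonneg_left _ (by linarith)
    linarith
  linarith

/-- the value of the logarithmic derivative -/
noncomputable def ld (j : Fin g) (E : ℂ → ℂ) (z : ℂ) : ℂ :=
  deriv E z / E z + (S.c j : ℂ) / (1 - (S.c j : ℂ) * z)

theorem A_hasDerivAt (j : Fin g) (z : ℂ) (hz : z ∈ Om S.c S.ep) :
    HasDerivAt (S.A j) ((1 / (1 - (S.pz j : ℂ))) * ((1 - (S.c j : ℂ)) / (1 - (S.c j : ℂ) * z)) +
      ((z - S.pz j) / (1 - (S.pz j : ℂ))) *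
        ((1 - (S.c j : ℂ)) * (S.c j : ℂ) / (1 - (S.c j : ℂ) * z) ^ 2)) z := by
  have hne : (1 - (S.c j : ℂ) * z) ≠ 0 := by
    intro h
    have := one_sub_re S j z hz
    rw [h] at this
    simp at this
  have h1 : HasDerivAt (fun z : ℂ => (z - S.pz j) / (1 - (S.pz j : ℂ)))
      (1 / (1 - (S.pz j : ℂ))) z := ((hasDerivAt_id z).sub_const _).div_const _
  have h2 : HasDerivAt (fun z : ℂ => (1 - (S.c j : ℂ)) / (1 - (S.c j : ℂ) * z))
      ((1 - (S.c j : ℂ)) * (S.c j : ℂ) / (1 - (S.c j : ℂ) * z) ^ 2) z := by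
    have h3 : HasDerivAt (fun z : ℂ => 1 - (S.c j : ℂ) * z) (-(S.c j : ℂ)) z := by
      simpa using ((hasDerivAt_id z).const_mul (S.c j : ℂ)).const_sub 1
    have h4 := (hasDerivAt_const z (1 - (S.c j : ℂ))).fun_div h3 hne
    refine h4.congr_deriv ?_
    ring
  exact h1.mul h2

theorem X_diff (j : Fin g) : DifferentiableOn ℂ (S.X j) (Om S.c S.ep) := by
  obtain ⟨E, hE, hE1, hE2⟩ := S.X_factor j
  have h1 : DifferentiableOn ℂ (fun z => S.A j z * E z) (Om S.c S.ep) := by
    intro z hz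
    exact (A_hasDerivAt S j z hz).differentiableAt.differentiableWithinAt.mul (hE z hz)
  exact h1.congr hE2

theorem logderiv_eq (j : Fin g) (E : ℂ → ℂ) (hE : DifferentiableOn ℂ E (Om S.c S.ep))
    (hE2 : ∀ z ∈ Om S.c S.ep, S.X j z = S.A j z * E z) (z : ℂ) (hz : z ∈ Om S.c S.ep) :
    deriv (S.X j) z / S.X j z = (z - S.pz j)⁻¹ + ld S j E z := by
  have hopen := Om_open S.c S.ep
  have hev : S.X j =ᶠ[𝓝 z] (S.A j * E) := by
    filter_upwards [hopen.mem_nhds hz] with w hw using hE2 w hw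
  have hEd : HasDerivAt E (deriv E z) z :=
    ((hE z hz).differentiableAt (hopen.mem_nhds hz)).hasDerivAt
  have hA := A_hasDerivAt S j z hz
  have hd := hA.mul hEd
  rw [hev.deriv_eq, hd.deriv, hE2 z hz]
  have hXne := S.X_ne j z hz
  rw [hE2 z hz] at hXne
  have hAne : S.A j z ≠ 0 := fun h => hXne (by rw [h, zero_mul])
  have hEne : E z ≠ 0 := fun h => hXne (by rw [h, mul_zero])
  have hne : (1 - (S.c j : ℂ) * z) ≠ 0 := by
    intro h
    have := one_sub_re S j z hz
    rw [h] at this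
    simp at this
  have hc1 : (1 - (S.c j : ℂ)) ≠ 0 := by
    intro h
    have h1 : ((1 - S.c j : ℝ) : ℂ) = 0 := by push_cast; exact h
    rw [Complex.ofReal_eq_zero] at h1
    have := S.c_le j; linarith
  have hp1 : (1 - (S.pz j : ℂ)) ≠ 0 := by
    intro h
    have h1 : ((1 - S.pz j : ℝ) : ℂ) = 0 := by push_cast; exact h
    rw [Complex.ofReal_eq_zero] at h1
    have := S.c_le j; have := pz_lt S j; linarith
  have hzp : (z - S.pz j) ≠ 0 := by
    intro h
    apply hAne
    unfold SchData.A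
    rw [h]; simp
  unfold ld
  unfold SchData.A at hAne ⊢
  field_simp
  ring

theorem log_hasDeriv (j : Fin g) (E : ℂ → ℂ) (hE : DifferentiableOn ℂ E (Om S.c S.ep))
    (hE1 : ∀ z ∈ Om S.c S.ep, ‖E z - 1‖ ≤ 1 / 4) (z : ℂ) (hz : z ∈ Om S.c S.ep) :
    HasDerivAt (fun z => Complex.log (E z) - Complex.log (1 - (S.c j : ℂ) * z)) (ld S j E z) z := by
  have hopen := Om_open S.c S.ep
  have hEd : HasDerivAt E (deriv E z) z :=
    ((hE z hz).differentiableAt (hopen.mem_nhds hz)).hasDerivAt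
  have hEs : E z ∈ slitPlane := by
    left
    have h1 := abs_re_le_norm (E z - 1)
    have h2 := hE1 z hz
    have h3 : (E z - 1).re = (E z).re - 1 := by simp
    rw [h3] at h1
    have h4 := (abs_le.1 (h1.trans h2)).1
    linarith
  have hcs : (1 - (S.c j : ℂ) * z) ∈ slitPlane := Or.inl (one_sub_re S j z hz)
  have h1 := hEd.clog hEs
  have h3 : HasDerivAt (fun z : ℂ => 1 - (S.c j : ℂ) * z) (-(S.c j : ℂ)) z := by
    simpa using ((hasDerivAt_id z).const_mul (S.c j : ℂ)).const_sub 1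
  have h2 := h3.clog hcs
  refine (h1.sub h2).congr_deriv ?_
  unfold ld
  ring

theorem sphere_mem (i : Fin g) (r : ℝ) (h1 : S.ep / 2 < r) (h2 : r < 2 * S.ep) (z : ℂ)
    (hz : z ∈ Metric.sphere (S.c i : ℂ) r) : z ∈ Om S.c S.ep := by
  rw [mem_sphere_iff_norm] at hz
  apply mem_near S i <;> rw [hz] <;> assumption

theorem wind (i j : Fin g) (r : ℝ) (h1 : S.ep / 2 < r) (h2 : r < 2 * S.ep) :
    (∮ z in C((S.c i : ℂ), r), deriv (S.X j) z / S.X j z) =
      if i = j then 2 * (Real.pi : ℂ) * I else 0 := by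
  have he := S.ep_pos
  have hr : 0 < r := by linarith
  obtain ⟨E, hE, hE1, hE2⟩ := S.X_factor j
  have hp := pz_lt S j
  have hp' := pz_gt S j
  have hq := ep_sq S
  have hcongr : (∮ z in C((S.c i : ℂ), r), deriv (S.X j) z / S.X j z) =
      ∮ z in C((S.c i : ℂ), r), ((z - S.pz j)⁻¹ + ld S j E z) := by
    apply circleIntegral.integral_congr hr.le
    intro z hz
    exact logderiv_eq S j E hE hE2 z (sphere_mem S i r h1 h2 z hz)
  rw [hcongr]
  by_cases hij : i = j
  · subst hij
    rw [if_pos rfl]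
    have hball : (S.pz i : ℂ) ∈ Metric.ball (S.c i : ℂ) r := by
      rw [Metric.mem_ball, Complex.dist_eq, ← Complex.ofReal_sub, Complex.norm_real,
        Real.norm_eq_abs, abs_lt]
      constructor <;> linarith
    have hi1 : CircleIntegrable (fun z : ℂ => (z - (S.pz i : ℂ))⁻¹) (S.c i : ℂ) r := by
      apply ContinuousOn.circleIntegrable hr.le
      apply ContinuousOn.inv₀ (by fun_prop)
      intro z hz h0
      rw [sub_eq_zero] at h0
      rw [h0, Metric.mem_sphere] at hz
      rw [Metric.mem_ball] at hball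
      linarith
    have hi2 : CircleIntegrable (ld S i E) (S.c i : ℂ) r := by
      apply ContinuousOn.circleIntegrable hr.le
      have hopen := Om_open S.c S.ep
      have hdE : ContinuousOn (deriv E) (Om S.c S.ep) := (hE.deriv hopen).continuousOn
      intro z hz
      have hzO := sphere_mem S i r h1 h2 z hz
      have hEne : E z ≠ 0 := by
        intro h0
        have := hE1 z hzO
        rw [h0] at this
        norm_num at this
      have hne : (1 - (S.c i : ℂ) * z) ≠ 0 := by
        intro h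
        have := one_sub_re S i z hzO
        rw [h] at this
        simp at this
      apply ContinuousAt.continuousWithinAt
      unfold ld
      apply ContinuousAt.add
      · apply ContinuousAt.div _ _ hEne
        · exact hdE.continuousAt (hopen.mem_nhds hzO)
        · exact (hE.continuousOn).continuousAt (hopen.mem_nhds hzO)
      · exact ContinuousAt.div continuousAt_const
          (by fun_prop : ContinuousAt (fun z : ℂ => 1 - (S.c i : ℂ) * z) z) hne
    rw [circleIntegral.integral_add hi1 hi2, circleIntegral.integral_sub_inv_of_mem_ball hball,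
      circleIntegral.integral_eq_zero_of_hasDerivWithinAt (f := fun z => Complex.log (E z) -
        Complex.log (1 - (S.c i : ℂ) * z)) hr.le, add_zero]
    intro z hz
    exact (log_hasDeriv S i E hE hE1 z (sphere_mem S i r h1 h2 z hz)).hasDerivWithinAt
  · rw [if_neg hij]
    have hs := S.sep i j hij
    have hed := ep_dl S
    rcases lt_or_gt_of_ne (c_ne S i j hij) with h | h
    · apply circleIntegral.integral_eq_zero_of_hasDerivWithinAt (f := fun z =>
        Complex.log ((S.pz j : ℂ) - z) + (Complex.log (E z) -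
        Complex.log (1 - (S.c j : ℂ) * z))) hr.le
      intro z hz
      have hzO := sphere_mem S i r h1 h2 z hz
      have hsl : ((S.pz j : ℂ) - z) ∈ slitPlane := by
        left
        rw [mem_sphere_iff_norm] at hz
        have h3 := abs_re_le_norm (z - S.c i)
        rw [hz] at h3
        have h4 : (z - (S.c i : ℂ)).re = z.re - S.c i := by simp
        rw [h4] at h3
        have h5 := (abs_le.1 h3).2
        have h6 : ((S.pz j : ℂ) - z).re = S.pz j - z.re := by simp
        rw [h6]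
        rw [abs_of_neg (by linarith)] at hs
        linarith
      have hd1 : HasDerivAt (fun z : ℂ => (S.pz j : ℂ) - z) (-1) z := by
        simpa using (hasDerivAt_id z).const_sub (S.pz j : ℂ)
      have hd2 := (hd1.clog hsl).add (log_hasDeriv S j E hE hE1 z hzO)
      have hneg : (-1 : ℂ) / ((S.pz j : ℂ) - z) = (z - (S.pz j : ℂ))⁻¹ := by
        rw [← neg_sub z, neg_div_neg_eq, one_div]
      rw [hneg] at hd2
      exact hd2.hasDerivWithinAt
    · apply circleIntegral.integral_eq_zero_of_hasDerivWithinAt (f := fun z =>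
        Complex.log (z - (S.pz j : ℂ)) + (Complex.log (E z) -
        Complex.log (1 - (S.c j : ℂ) * z))) hr.le
      intro z hz
      have hzO := sphere_mem S i r h1 h2 z hz
      have hsl : (z - (S.pz j : ℂ)) ∈ slitPlane := by
        left
        rw [mem_sphere_iff_norm] at hz
        have h3 := abs_re_le_norm (z - S.c i)
        rw [hz] at h3
        have h4 : (z - (S.c i : ℂ)).re = z.re - S.c i := by simp
        rw [h4] at h3
        have h5 := (abs_le.1 h3).1
        have h6 : (z - (S.pz j : ℂ)).re = z.re - S.pz j := by simp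
        rw [h6]
        rw [abs_of_pos (by linarith)] at hs
        linarith
      have hd1 : HasDerivAt (fun z : ℂ => z - (S.pz j : ℂ)) 1 z := by
        simpa using (hasDerivAt_id z).sub_const (S.pz j : ℂ)
      have hd2 := (hd1.clog hsl).add (log_hasDeriv S j E hE hE1 z hzO)
      rw [one_div] at hd2
      exact hd2.hasDerivWithinAt

/-! ### Assembly -/

/-- the data from the Schottky group -/
noncomputable def mk (h8 : 8 * S.ep ≤ (S.dl / 8) ^ (g + 1)) : HypData g where
  c := S.c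
  ep := S.ep
  s := sv S
  X := S.X
  ep_pos := S.ep_pos
  ep_lt := by have := ep_small S; linarith
  c_ge := S.c_ge
  c_le := S.c_le
  sep := by
    intro i j hij
    have h1 := S.sep i j hij
    have h2 := ep_dl S
    have h3 := S.ep_pos
    linarith
  diff := X_diff S
  ne0 := fun j z hz => S.X_ne j z hz
  glue0 := fun j z h1 h2 => S.X_glue0 j z h1 h2
  glue := by
    intro i j z h1 h2
    rw [S.X_glue i j z h1 h2, sv_sq]
  wind := wind S
  s_ne := sv_ne S
  s_anti := sv_anti S
  s_pos := fun i => (sv_self S i).1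
  X_plus := sv_eq S
  X_minus := by
    intro i j
    rw [mv_eq, mv_eq_sv]
    split_ifs <;> push_cast <;> rfl
  X_one := S.X_one
  X_neg_one := X_neg_one S
  posdef := posdef S h8

/-- explicit parameters -/
noncomputable def par (g : ℕ) : SchData g where
  c := fun i => 1 / 4 + ((i : ℝ) + 1) / (4 * ((g : ℝ) + 1))
  ep := (1 / (8 * ((g : ℝ) + 1))) ^ 3 / (10 ^ 5 * ((g : ℝ) + 1) ^ 2) *
    ((1 / (8 * ((g : ℝ) + 1))) / 8) ^ (g + 1) / 8
  dl := 1 / (8 * ((g : ℝ) + 1))
  ep_pos := by positivity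
  dl_pos := by positivity
  dl_le := by
    have : (0 : ℝ) ≤ g := Nat.cast_nonneg g
    apply one_div_le_one_div_of_le (by norm_num)
    linarith
  c_ge := by
    intro i
    have : (0 : ℝ) ≤ ((i : ℝ) + 1) / (4 * ((g : ℝ) + 1)) := by positivity
    linarith
  c_le := by
    intro i
    have hi : ((i : ℕ) : ℝ) + 1 ≤ g := by exact_mod_cast i.2
    have : ((i : ℝ) + 1) / (4 * ((g : ℝ) + 1)) ≤ 1 / 4 := by
      rw [div_le_iff₀ (by positivity)]
      linarith
    linarith
  sep := by
    intro i j hij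
    have h1 : (1 / 4 + ((i : ℝ) + 1) / (4 * ((g : ℝ) + 1))) -
        (1 / 4 + ((j : ℝ) + 1) / (4 * ((g : ℝ) + 1))) =
        (((i : ℝ) - (j : ℝ))) / (4 * ((g : ℝ) + 1)) := by ring
    rw [h1, abs_div, abs_of_pos (by positivity : (0 : ℝ) < 4 * ((g : ℝ) + 1))]
    have h2 : (1 : ℝ) ≤ |(i : ℝ) - (j : ℝ)| := by
      have h3 : (1 : ℤ) ≤ |((i : ℕ) : ℤ) - ((j : ℕ) : ℤ)| := by
        apply Int.one_le_abs
        intro h
        apply hij
        apply Fin.ext
        omega
      exact_mod_cast h3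
    rw [div_le_div_iff₀ (by positivity) (by positivity)]
    have : (0 : ℝ) ≤ g := Nat.cast_nonneg g
    nlinarith
  small := by
    have hg : (0 : ℝ) ≤ g := Nat.cast_nonneg g
    have h1 : ((1 / (8 * ((g : ℝ) + 1))) / 8) ^ (g + 1) ≤ 1 := by
      apply pow_le_one₀ (by positivity)
      rw [div_div, div_le_one (by positivity)]
      linarith
    have h2 : 10 ^ 5 * ((g : ℝ) + 1) ^ 2 * ((1 / (8 * ((g : ℝ) + 1))) ^ 3 /
        (10 ^ 5 * ((g : ℝ) + 1) ^ 2) * ((1 / (8 * ((g : ℝ) + 1))) / 8) ^ (g + 1) / 8) =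
        (1 / (8 * ((g : ℝ) + 1))) ^ 3 * (((1 / (8 * ((g : ℝ) + 1))) / 8) ^ (g + 1) / 8) := by
      have : ((g : ℝ) + 1) ≠ 0 := by positivity
      field_simp
    rw [h2]
    have h3 : (0 : ℝ) ≤ (1 / (8 * ((g : ℝ) + 1))) ^ 3 := by positivity
    have h4 : ((1 / (8 * ((g : ℝ) + 1))) / 8) ^ (g + 1) / 8 ≤ 1 := by linarith
    nlinarith

theorem par_h8 (g : ℕ) : 8 * (par g).ep ≤ ((par g).dl / 8) ^ (g + 1) := by
  have hg : (0 : ℝ) ≤ g := Nat.cast_nonneg g
  have h0 : (0 : ℝ) < ((1 / (8 * ((g : ℝ) + 1))) / 8) ^ (g + 1) := by positivity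
  have h1 : (1 / (8 * ((g : ℝ) + 1))) ^ 3 / (10 ^ 5 * ((g : ℝ) + 1) ^ 2) ≤ 1 := by
    rw [div_le_one (by positivity)]
    have h2 : (1 / (8 * ((g : ℝ) + 1))) ^ 3 ≤ 1 := by
      apply pow_le_one₀ (by positivity)
      rw [div_le_one (by positivity)]
      linarith
    have h3 : (1 : ℝ) ≤ 10 ^ 5 * ((g : ℝ) + 1) ^ 2 := by nlinarith
    linarith
  have h4 : (par g).ep = (1 / (8 * ((g : ℝ) + 1))) ^ 3 / (10 ^ 5 * ((g : ℝ) + 1) ^ 2) *
    ((1 / (8 * ((g : ℝ) + 1))) / 8) ^ (g + 1) / 8 := rfl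
  have h5 : (par g).dl = 1 / (8 * ((g : ℝ) + 1)) := rfl
  rw [h4, h5]
  nlinarith

end Ex

theorem exists_hypData (g : ℕ) : Nonempty (HypData g) := ⟨Ex.mk (Ex.par g) (Ex.par_h8 g)⟩

end Pool.Agent.AM.Hyp
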