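import Pool.Agent.AM.Hyp.Defs

/-! Plane geometry of the domains. -/

set_option autoImplicit false
open Complex Filter Topology
namespace Pool.Agent.AM.Hyp

namespace GeoAux

/-- the norm of a point moved vertically -/
lemma norm_sq_vert (x t σ c : ℝ) (hσ : σ ^ 2 = 1) :
    ‖((x : ℂ) + (σ * t : ℝ) * I) - c‖ ^ 2 = (x - c) ^ 2 + t ^ 2 := by
  rw [← Complex.normSq_eq_norm_sq, Complex.normSq_apply]
  simp only [sub_re, add_re, ofReal_re, mul_re, I_re, mul_zero, ofReal_im, I_im, mul_one,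
    sub_self, add_zero, sub_im, add_im, mul_im, zero_add, sub_zero]
  nlinarith [hσ]

lemma norm_ofReal_le_half {c : ℝ} (h1 : 1 / 4 ≤ c) (h2 : c ≤ 1 / 2) : ‖(c : ℂ)‖ ≤ 1 / 2 := by
  rw [Complex.norm_real, Real.norm_of_nonneg (by linarith)]
  exact h2

end GeoAux

open GeoAux

/-- join every point vertically (away from the real axis) to the circle of radius R -/
theorem KK_preconnected {g : ℕ} (c : Fin g → ℝ) (R : ℝ) (r : Fin g → ℝ) (hR : 0 < R)
    (h : ∀ i, |c i| + r i ≤ R) : IsPreconnected (KK c R r) := by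
  have hsph : Metric.sphere (0 : ℂ) R ⊆ KK c R r := by
    intro z hz
    rw [mem_sphere_zero_iff_norm] at hz
    refine ⟨hz.le, fun i => ?_⟩
    have h1 := norm_sub_norm_le z (c i : ℂ)
    rw [Complex.norm_real, Real.norm_eq_abs, hz] at h1
    have := h i
    linarith
  have hconn : IsPreconnected (Metric.sphere (0 : ℂ) R) :=
    isPreconnected_sphere (by simp) _ _
  have hbase : (R : ℂ) ∈ Metric.sphere (0 : ℂ) R := by
    rw [mem_sphere_zero_iff_norm, Complex.norm_real, Real.norm_of_nonneg hR.le]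
  refine isPreconnected_of_forall (R : ℂ) fun z hz => ?_
  obtain ⟨hz1, hz2⟩ := hz
  -- the sign of the imaginary part
  obtain ⟨σ, hσ, hσz⟩ : ∃ σ : ℝ, σ ^ 2 = 1 ∧ z.im = σ * |z.im| := by
    rcases le_total 0 z.im with h0 | h0
    · exact ⟨1, by norm_num, by rw [abs_of_nonneg h0]; ring⟩
    · exact ⟨-1, by norm_num, by rw [abs_of_nonpos h0]; ring⟩
  have hzR : z.re ^ 2 + z.im ^ 2 ≤ R ^ 2 := by
    have h1 := pow_le_pow_left₀ (norm_nonneg z) hz1 2
    rw [← Complex.normSq_eq_norm_sq, Complex.normSq_apply] at h1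
    nlinarith
  set T : ℝ := Real.sqrt (R ^ 2 - z.re ^ 2) with hT
  have hTsq : T ^ 2 = R ^ 2 - z.re ^ 2 := Real.sq_sqrt (by nlinarith [sq_nonneg z.im])
  have hT0 : 0 ≤ T := Real.sqrt_nonneg _
  have hzT : |z.im| ≤ T := Real.abs_le_sqrt (by linarith)
  set f : ℝ → ℂ := fun t => (z.re : ℂ) + (σ * t : ℝ) * I with hf
  have hfc : Continuous f := by
    rw [hf]; fun_prop
  have hseg : f '' Set.Icc |z.im| T ⊆ KK c R r := by
    rintro _ ⟨t, ⟨ht1, ht2⟩, rfl⟩
    have ht0 : 0 ≤ t := (abs_nonneg _).trans ht1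
    refine ⟨?_, fun i => ?_⟩
    · have h1 := norm_sq_vert z.re t σ 0 hσ
      simp only [ofReal_zero, sub_zero] at h1
      refine abs_le_of_sq_le_sq' ?_ hR.le |>.2
      rw [hf]
      simp only
      rw [h1]
      nlinarith
    · rcases le_or_gt (r i) 0 with hr | hr
      · exact hr.trans (norm_nonneg _)
      · have h1 := norm_sq_vert z.re t σ (c i) hσ
        have h2 := pow_le_pow_left₀ hr.le (hz2 i) 2
        rw [← Complex.normSq_eq_norm_sq, Complex.normSq_apply] at h2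
        simp only [sub_re, ofReal_re, sub_im, ofReal_im, sub_zero] at h2
        refine abs_le_of_sq_le_sq' ?_ (norm_nonneg _) |>.2
        rw [hf]
        simp only
        rw [h1]
        have h3 : z.im ^ 2 ≤ t ^ 2 := by
          rw [← sq_abs z.im]; exact pow_le_pow_left₀ (abs_nonneg _) ht1 2
        nlinarith
  have hend : f T ∈ Metric.sphere (0 : ℂ) R := by
    rw [mem_sphere_zero_iff_norm]
    have h1 := norm_sq_vert z.re T σ 0 hσ
    simp only [ofReal_zero, sub_zero] at h1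
    have h2 : ‖f T‖ ^ 2 = R ^ 2 := by
      rw [hf]; simp only; rw [h1, hTsq]; ring
    exact (pow_left_inj₀ (norm_nonneg _) hR.le two_ne_zero).mp h2
  have hstart : f |z.im| = z := by
    rw [hf]
    simp only
    rw [← hσz]
    exact Complex.re_add_im z
  refine ⟨Metric.sphere (0 : ℂ) R ∪ f '' Set.Icc |z.im| T, Set.union_subset hsph hseg,
    Or.inl hbase, Or.inr ⟨|z.im|, ⟨le_rfl, hzT⟩, hstart⟩, ?_⟩
  exact hconn.union (f T) hend ⟨T, ⟨hzT, le_rfl⟩, rfl⟩
    (isPreconnected_Icc.image f hfc.continuousOn)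

theorem KK_compact {g : ℕ} (c : Fin g → ℝ) (R : ℝ) (r : Fin g → ℝ) : IsCompact (KK c R r) := by
  refine Metric.isCompact_of_isClosed_isBounded ?_ ?_
  · have h1 : KK c R r = {z | ‖z‖ ≤ R} ∩ ⋂ i, {z : ℂ | r i ≤ ‖z - c i‖} := by
      ext z
      simp [KK]
    rw [h1]
    refine (isClosed_le continuous_norm continuous_const).inter (isClosed_iInter fun i => ?_)
    exact isClosed_le continuous_const (by fun_prop)
  · refine Metric.isBounded_closedBall.subset (s := KK c R r) (t := Metric.closedBall 0 R) ?_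
    intro z hz
    rw [mem_closedBall_zero_iff]
    exact hz.1

namespace HypData
variable {g : ℕ} (D : HypData g)

theorem isOpen_Om : IsOpen D.Om := by
  have h1 : D.Om = {z | ‖z‖ < 3 / 2} ∩ ⋂ i, {z : ℂ | D.ep / 2 < ‖z - D.c i‖} := by
    ext z
    simp [HypData.Om, Hyp.Om]
  rw [h1]
  refine (isOpen_lt continuous_norm continuous_const).inter (isOpen_iInter_of_finite fun i => ?_)
  exact isOpen_lt continuous_const (by fun_prop)

theorem Om_preconnected : IsPreconnected D.Om := by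
  refine isPreconnected_of_forall_pair fun z hz z' hz' => ?_
  obtain ⟨hz1, hz2⟩ := hz
  obtain ⟨hz1', hz2'⟩ := hz'
  have hep := D.ep_pos
  have hep' := D.ep_lt
  refine ⟨KK D.c (max 1 (max ‖z‖ ‖z'‖)) (fun i => min D.ep (min ‖z - D.c i‖ ‖z' - D.c i‖)),
    ?_, ⟨?_, fun i => ?_⟩, ⟨?_, fun i => ?_⟩, KK_preconnected _ _ _ (by positivity) fun i => ?_⟩
  · rintro y ⟨hy1, hy2⟩
    refine ⟨lt_of_le_of_lt hy1 (max_lt (by norm_num) (max_lt hz1 hz1')), fun i => ?_⟩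
    exact lt_of_lt_of_le (lt_min (by linarith) (lt_min (hz2 i) (hz2' i))) (hy2 i)
  · exact (le_max_left _ _).trans (le_max_right _ _)
  · exact (min_le_right _ _).trans (min_le_left _ _)
  · exact (le_max_right _ _).trans (le_max_right _ _)
  · exact (min_le_right _ _).trans (min_le_right _ _)
  · have h1 : |D.c i| ≤ 1 / 2 := by
      rw [abs_of_nonneg (by linarith [D.c_ge i])]; exact D.c_le i
    have h2 : min D.ep (min ‖z - D.c i‖ ‖z' - D.c i‖) ≤ D.ep := min_le_left _ _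
    have h3 : (1 : ℝ) ≤ max 1 (max ‖z‖ ‖z'‖) := le_max_left _ _
    linarith

theorem Om_pi_preconnected (ι : Type) [Fintype ι] :
    IsPreconnected {P : ι → ℂ | ∀ i, P i ∈ D.Om} := by
  have h1 : {P : ι → ℂ | ∀ i, P i ∈ D.Om} = Set.pi Set.univ fun _ => D.Om := by
    ext P; simp
  rw [h1]
  exact isPreconnected_univ_pi fun _ => D.Om_preconnected

theorem Adm_symm (R : ℝ) (r : Fin g → ℝ) (h : D.Adm R r) : D.Adm R⁻¹ (D.rm r) := by
  obtain ⟨h1, h2, h3⟩ := h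
  have hR : 0 < R := by linarith
  have hep := D.ep_pos
  refine ⟨?_, ?_, fun i => ?_⟩
  · rw [lt_inv_comm₀ (by norm_num) hR]
    norm_num
    linarith
  · rw [inv_lt_comm₀ hR (by norm_num)]
    norm_num
    linarith
  · obtain ⟨h4, h5⟩ := h3 i
    have hr : 0 < r i := by linarith
    refine ⟨?_, ?_⟩
    · unfold rm
      rw [lt_div_iff₀ hr]
      nlinarith
    · unfold rm
      rw [div_lt_iff₀ hr]
      nlinarith

theorem rm_rm (R : ℝ) (r : Fin g → ℝ) (h : D.Adm R r) : D.rm (D.rm r) = r := by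
  obtain ⟨h1, h2, h3⟩ := h
  have hep := D.ep_pos
  ext i
  have hr : 0 < r i := by linarith [(h3 i).1]
  unfold rm
  field_simp

theorem KK_sub (R : ℝ) (r : Fin g → ℝ) (h : D.Adm R r) : KK D.c R r ⊆ D.Om := by
  rintro z ⟨hz1, hz2⟩
  exact ⟨lt_of_le_of_lt hz1 h.2.1, fun i => lt_of_lt_of_le (h.2.2 i).1 (hz2 i)⟩

theorem KK_preconn (R : ℝ) (r : Fin g → ℝ) (h : D.Adm R r) : IsPreconnected (KK D.c R r) := by
  obtain ⟨h1, h2, h3⟩ := h
  have hep := D.ep_pos
  have hep' := D.ep_lt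
  refine KK_preconnected _ _ _ (by linarith) fun i => ?_
  have h4 : |D.c i| ≤ 1 / 2 := by
    rw [abs_of_nonneg (by linarith [D.c_ge i])]; exact D.c_le i
  have h5 := (h3 i).2
  linarith

lemma geo_norm_c (i : Fin g) : ‖(D.c i : ℂ)‖ ≤ 1 / 2 := norm_ofReal_le_half (D.c_ge i) (D.c_le i)

/-- points of the annulus about `0` are far from all holes -/
theorem ann0_far (z : ℂ) (h1 : 2 / 3 < ‖z‖) (i : Fin g) : 2 * D.ep < ‖z - D.c i‖ := by
  have h2 := norm_sub_norm_le z (D.c i : ℂ)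
  have h3 := D.geo_norm_c i
  have h4 := D.ep_lt
  linarith

theorem ann0_sub (z : ℂ) (h1 : 2 / 3 < ‖z‖) (h2 : ‖z‖ < 3 / 2) : z ∈ D.Om :=
  ⟨h2, fun i => by
    have h3 := D.ann0_far z h1 i
    have h4 := D.ep_pos
    linarith⟩

/-- points of the annulus about `c i` are far from the other holes and from the circle -/
theorem ann_far (i : Fin g) (z : ℂ) (h2 : ‖z - D.c i‖ < 2 * D.ep) :
    ‖z‖ < 2 / 3 ∧ ∀ k, k ≠ i → 2 * D.ep < ‖z - D.c k‖ := by
  have h3 := D.geo_norm_c i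
  have h4 := D.ep_lt
  refine ⟨?_, fun k hk => ?_⟩
  · have h5 := norm_sub_norm_le z (D.c i : ℂ)
    linarith
  · have h5 := D.sep i k (Ne.symm hk)
    have h6 : |D.c i - D.c k| = ‖(D.c i : ℂ) - D.c k‖ := by
      rw [← Complex.ofReal_sub, Complex.norm_real, Real.norm_eq_abs]
    have h7 : ‖(D.c i : ℂ) - D.c k‖ ≤ ‖(D.c i : ℂ) - z‖ + ‖z - D.c k‖ := norm_sub_le_norm_sub_add_norm_sub _ _ _
    rw [norm_sub_rev (D.c i : ℂ) z] at h7
    linarith

theorem ann_sub (i : Fin g) (z : ℂ) (h1 : D.ep / 2 < ‖z - D.c i‖)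
    (h2 : ‖z - D.c i‖ < 2 * D.ep) : z ∈ D.Om := by
  obtain ⟨h3, h4⟩ := D.ann_far i z h2
  refine ⟨by linarith, fun k => ?_⟩
  by_cases hk : k = i
  · rw [hk]; exact h1
  · have h5 := h4 k hk
    have h6 := D.ep_pos
    linarith

/-- the involution of the annulus about `0` -/
theorem inv0 (z : ℂ) (h1 : 2 / 3 < ‖z‖) (h2 : ‖z‖ < 3 / 2) :
    2 / 3 < ‖z⁻¹‖ ∧ ‖z⁻¹‖ < 3 / 2 := by
  have hz : 0 < ‖z‖ := by linarith
  rw [norm_inv]
  refine ⟨?_, ?_⟩
  · rw [lt_inv_comm₀ (by norm_num) hz]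
    norm_num
    linarith
  · rw [inv_lt_comm₀ hz (by norm_num)]
    norm_num
    linarith

/-- the involution of the annulus about `c i` -/
theorem inv_c (i : Fin g) (z : ℂ) (h1 : D.ep / 2 < ‖z - D.c i‖)
    (h2 : ‖z - D.c i‖ < 2 * D.ep) :
    ‖(D.c i + D.ep ^ 2 / (z - D.c i) : ℂ) - D.c i‖ = D.ep ^ 2 / ‖z - D.c i‖ ∧
    D.ep / 2 < ‖(D.c i + D.ep ^ 2 / (z - D.c i) : ℂ) - D.c i‖ ∧
    ‖(D.c i + D.ep ^ 2 / (z - D.c i) : ℂ) - D.c i‖ < 2 * D.ep := by
  have hep := D.ep_pos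
  have hz : 0 < ‖z - D.c i‖ := by linarith
  have h3 : ‖(D.c i + D.ep ^ 2 / (z - D.c i) : ℂ) - D.c i‖ = D.ep ^ 2 / ‖z - D.c i‖ := by
    rw [add_sub_cancel_left, norm_div, norm_pow, Complex.norm_real, Real.norm_of_nonneg hep.le]
  rw [h3]
  refine ⟨rfl, ?_, ?_⟩
  · rw [lt_div_iff₀ hz]
    nlinarith
  · rw [div_lt_iff₀ hz]
    nlinarith

theorem B0_far (z : ℂ) (hz : z ∈ B0) : ‖z‖ < 2 / 3 ∧ ∀ i, 2 * D.ep < ‖z - D.c i‖ := by
  have h1 : ‖z - I / 2‖ < 1 / 8 := by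
    have := hz
    unfold B0 at this
    rwa [Metric.mem_ball, dist_eq_norm] at this
  have hI : ‖(I / 2 : ℂ)‖ = 1 / 2 := by simp
  refine ⟨?_, fun i => ?_⟩
  · have h2 := norm_sub_norm_le z (I / 2)
    rw [hI] at h2
    linarith
  · have h2 : (1 : ℝ) / 2 ≤ ‖(I / 2 : ℂ) - D.c i‖ := by
      have h3 := Complex.abs_im_le_norm ((I / 2 : ℂ) - D.c i)
      have h4 : ((I / 2 : ℂ) - D.c i).im = 1 / 2 := by
        simp
      rw [h4] at h3
      rwa [abs_of_pos (by norm_num)] at h3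
    have h3 : ‖(I / 2 : ℂ) - D.c i‖ ≤ ‖(I / 2 : ℂ) - z‖ + ‖z - D.c i‖ :=
      norm_sub_le_norm_sub_add_norm_sub _ _ _
    rw [norm_sub_rev (I / 2 : ℂ) z] at h3
    have h4 := D.ep_lt
    linarith

theorem B0_sub : B0 ⊆ D.Om := by
  intro z hz
  obtain ⟨h1, h2⟩ := D.B0_far z hz
  have h3 := D.ep_pos
  exact ⟨by linarith, fun i => by linarith [h2 i]⟩

end HypData
end Pool.Agent.AM.Hyp
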