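import Pool.Agent.AM.Hyp.Thx
import Pool.Agent.AM.Hyp.Geo

/-! Independence of the differentials and nonvanishing at generic points. -/

set_option autoImplicit false
open Complex Filter Topology
namespace Pool.Agent.AM.Hyp
namespace HypData
variable {g : ℕ} (D : HypData g)

theorem w_diff (j : Fin g) : DifferentiableOn ℂ (D.w j) D.Om := by
  have h1 : DifferentiableOn ℂ (deriv (D.X j)) D.Om := (D.diff j).deriv D.isOpen_Om
  have h2 : DifferentiableOn ℂ (fun z => deriv (D.X j) z / D.X j z) D.Om :=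
    h1.div (D.diff j) (D.ne0 j)
  exact h2

theorem Indep_ball_mem (i : Fin g) {z : ℂ} (hz : z ∈ Metric.sphere (D.c i : ℂ) D.ep) :
    z ∈ D.Om := by
  have hep := D.ep_pos
  have h1 : ‖z - D.c i‖ = D.ep := by rwa [mem_sphere_iff_norm] at hz
  exact D.ann_sub i z (by rw [h1]; linarith) (by rw [h1]; linarith)

theorem Indep_int (i j : Fin g) : CircleIntegrable (D.w j) (D.c i : ℂ) D.ep :=
  ContinuousOn.circleIntegrable D.ep_pos.le
    ((D.w_diff j).continuousOn.mono fun _ hz => D.Indep_ball_mem i hz)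

/-- the differentials are linearly independent -/
theorem w_indep (V : Set ℂ) (hV : IsOpen V) (hne : V.Nonempty) (hs : V ⊆ D.Om)
    (l : Fin g → ℂ) (h : ∀ z ∈ V, ∑ j, l j * D.w j z = 0) : l = 0 := by
  have hdiff : DifferentiableOn ℂ (fun z => ∑ j, l j * D.w j z) D.Om := by
    refine DifferentiableOn.fun_sum fun j _ => ?_
    exact (D.w_diff j).const_mul (l j)
  have han : AnalyticOnNhd ℂ (fun z => ∑ j, l j * D.w j z) D.Om := hdiff.analyticOnNhd D.isOpen_Om
  obtain ⟨z0, hz0⟩ := hne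
  have hev : (fun z => ∑ j, l j * D.w j z) =ᶠ[𝓝 z0] 0 := by
    filter_upwards [hV.mem_nhds hz0] with z hz
    exact h z hz
  have hzero := han.eqOn_zero_of_preconnected_of_eventuallyEq_zero D.Om_preconnected (hs hz0) hev
  funext i
  have hep := D.ep_pos
  have h1 : (∮ z in C((D.c i : ℂ), D.ep), ∑ j, l j * D.w j z) = 0 := by
    have h2 : (∮ z in C((D.c i : ℂ), D.ep), ∑ j, l j * D.w j z) =
        ∮ z in C((D.c i : ℂ), D.ep), (0 : ℂ) := by
      refine circleIntegral.integral_congr hep.le fun z hz => ?_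
      exact hzero (D.Indep_ball_mem i hz)
    rw [h2]
    simp [circleIntegral]
  rw [circleIntegral.integral_fun_sum (fun j _ => by
    have := (D.Indep_int i j)
    exact (ContinuousOn.circleIntegrable D.ep_pos.le
      (((D.w_diff j).const_mul (l j)).continuousOn.mono fun _ hz => D.Indep_ball_mem i hz)))] at h1
  have h3 : ∀ j, (∮ z in C((D.c i : ℂ), D.ep), l j * D.w j z) =
      l j * (if i = j then 2 * (Real.pi : ℂ) * I else 0) := by
    intro j
    rw [circleIntegral.integral_const_mul]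
    congr 1
    exact D.wind i j D.ep (by linarith) (by linarith)
  simp only [h3] at h1
  rw [Finset.sum_eq_single i (fun j _ hj => by rw [if_neg (Ne.symm hj), mul_zero])
    (fun hi => absurd (Finset.mem_univ i) hi), if_pos rfl] at h1
  have hpi : (2 * (Real.pi : ℂ) * I) ≠ 0 := by
    simp [Real.pi_ne_zero, I_ne_zero]
  simpa [hpi] using h1

theorem exists_det (k : ℕ) (e : Fin k → Fin g) (he : Function.Injective e)
    (V : Set ℂ) (hV : IsOpen V) (hne : V.Nonempty) (hs : V ⊆ D.Om) :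
    ∃ z : Fin k → ℂ, (∀ i, z i ∈ V) ∧
      Matrix.det (Matrix.of (fun i j => D.w (e j) (z i))) ≠ 0 := by
  classical
  induction k with
  | zero => exact ⟨fun i => i.elim0, fun i => i.elim0, by simp⟩
  | succ k ih =>
    obtain ⟨z', hz', hdet⟩ := ih (fun j => e j.succ) (he.comp (Fin.succ_injective k))
    by_contra hcon
    push Not at hcon
    -- the coefficients of the expansion along the first row
    let a : Fin (k + 1) → ℂ := fun j => (-1) ^ (j : ℕ) *
      Matrix.det (Matrix.of (fun (i : Fin k) (j' : Fin k) => D.w (e (j.succAbove j')) (z' i)))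
    have key : ∀ z ∈ V, ∑ j, a j * D.w (e j) z = 0 := by
      intro z hz
      have h1 := hcon (Fin.cons z z') (by
        intro i
        refine Fin.cases ?_ (fun i => ?_) i
        · simpa using hz
        · simpa using hz' i)
      rw [Matrix.det_succ_row_zero] at h1
      rw [← h1]
      refine Finset.sum_congr rfl fun j _ => ?_
      simp only [a, Matrix.of_apply, Fin.cons_zero]
      have h2 : (Matrix.of (fun (i j : Fin (k + 1)) => D.w (e j)
          ((Fin.cons z z' : Fin (k + 1) → ℂ) i))).submatrix Fin.succ j.succAbove =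
          Matrix.of (fun (i : Fin k) (j' : Fin k) => D.w (e (j.succAbove j')) (z' i)) := by
        ext i j'
        simp
      rw [h2]
      ring
    have hl := D.w_indep V hV hne hs (fun m => ∑ j, if e j = m then a j else 0) (by
      intro z hz
      refine Eq.trans ?_ (key z hz)
      simp only [Finset.sum_mul]
      rw [Finset.sum_comm]
      refine Finset.sum_congr rfl fun j _ => ?_
      rw [Finset.sum_eq_single (e j)]
      · simp
      · intro m _ hm
        rw [if_neg (Ne.symm hm), zero_mul]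
      · intro hm
        exact absurd (Finset.mem_univ _) hm)
    have h0 := congrFun hl (e 0)
    simp only [Pi.zero_apply] at h0
    rw [Finset.sum_eq_single 0 (fun j _ hj => by
      rw [if_neg]
      intro hej
      exact hj (he hej)) (fun h => absurd (Finset.mem_univ _) h), if_pos rfl] at h0
    simp only [a, Fin.val_zero, pow_zero, one_mul, Fin.succAbove_zero] at h0
    exact hdet h0

/-- the sign of a sheet -/
def Indep_sg (b : Bool) : ℂ := if b then 1 else -1

theorem Indep_sg_mul (b : Bool) : Indep_sg b * Indep_sg b = 1 := by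
  cases b <;> simp [Indep_sg]

theorem Indep_XX_ne (P : ℂ) (hP : P ∈ D.Om) (b : Bool) (j : Fin g) : D.XX (P, b) j ≠ 0 := by
  unfold XX
  cases b
  · simpa using D.ne0 j P hP
  · simpa using D.ne0 j P hP

theorem Indep_XX_an (P : ℂ) (hP : P ∈ D.Om) (b : Bool) (j : Fin g) :
    AnalyticAt ℂ (fun z => D.XX (z, b) j) P := by
  have h1 : AnalyticAt ℂ (D.X j) P := (D.diff j).analyticAt (D.isOpen_Om.mem_nhds hP)
  cases b
  · have : (fun z => D.XX (z, false) j) = fun z => (D.X j z)⁻¹ := by funext z; simp [XX]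
    rw [this]
    exact h1.inv (D.ne0 j P hP)
  · have : (fun z => D.XX (z, true) j) = D.X j := by funext z; simp [XX]
    rw [this]
    exact h1

theorem Indep_XX_deriv (P : ℂ) (hP : P ∈ D.Om) (b : Bool) (j : Fin g) :
    HasStrictDerivAt (fun z => D.XX (z, b) j) (D.XX (P, b) j * (Indep_sg b * D.w j P)) P := by
  have h1 : AnalyticAt ℂ (D.X j) P := (D.diff j).analyticAt (D.isOpen_Om.mem_nhds hP)
  have h2 : HasStrictDerivAt (D.X j) (deriv (D.X j) P) P := h1.hasStrictDerivAt
  have hne := D.ne0 j P hP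
  cases b
  · have e1 : (fun z => D.XX (z, false) j) = fun z => (D.X j z)⁻¹ := by funext z; simp [XX]
    rw [e1]
    have h3 : HasStrictDerivAt (fun z => (D.X j z)⁻¹) (-(D.X j P ^ 2)⁻¹ * deriv (D.X j) P) P :=
      (hasStrictDerivAt_inv hne).comp P h2
    have e2 : D.XX (P, false) j * (Indep_sg false * D.w j P) =
        -(D.X j P ^ 2)⁻¹ * deriv (D.X j) P := by
      simp only [XX, Indep_sg, w]
      simp only [Bool.false_eq_true, if_false]
      field_simp
    rw [e2]
    exact h3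
  · have e1 : (fun z => D.XX (z, true) j) = D.X j := by funext z; simp [XX]
    rw [e1]
    have e2 : D.XX (P, true) j * (Indep_sg true * D.w j P) = deriv (D.X j) P := by
      simp only [XX, Indep_sg, w]
      simp only [if_true]
      field_simp
    rw [e2]
    exact h2

section Gen

variable {ι : Type} [Fintype ι] (σ : ι → Bool) (α : Fin g → ℂ)

/-- the map from the powers of the curve to the torus -/
noncomputable def Indep_Psi (P : ι → ℂ) : Fin g → ℂ := fun j => α j * ∏ i, D.XX (P i, σ i) j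

theorem Indep_Psi_mem (hα : α ∈ Tor g) (P : ι → ℂ) (hP : ∀ i, P i ∈ D.Om) :
    D.Indep_Psi σ α P ∈ Tor g := fun j =>
  mul_ne_zero (hα j) (Finset.prod_ne_zero_iff.2 fun i _ => D.Indep_XX_ne (P i) (hP i) (σ i) j)

theorem Indep_Psi_an (P : ι → ℂ) (hP : ∀ i, P i ∈ D.Om) :
    AnalyticAt ℂ (D.Indep_Psi σ α) P := by
  rw [analyticAt_pi_iff]
  intro j
  refine AnalyticAt.mul analyticAt_const (Finset.analyticAt_fun_prod _ fun i _ => ?_)
  have h1 := D.Indep_XX_an (P i) (hP i) (σ i) j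
  have h2 : AnalyticAt ℂ (fun Q : ι → ℂ => Q i) P :=
    (ContinuousLinearMap.proj (R := ℂ) (φ := fun _ : ι => ℂ) i).analyticAt P
  exact AnalyticAt.fun_comp (g := fun z => D.XX (z, σ i) j) (f := fun Q : ι → ℂ => Q i) h1 h2

/-- the composition with theta -/
theorem Indep_Phi_an (hα : α ∈ Tor g) :
    AnalyticOnNhd ℂ (fun P : ι → ℂ => thx D.T (D.Indep_Psi σ α P)) {P | ∀ i, P i ∈ D.Om} := by
  intro P hP
  exact AnalyticAt.fun_comp (g := thx D.T) (f := D.Indep_Psi σ α)
    (thx_analytic D.T D.posdef _ (D.Indep_Psi_mem σ α hα P hP)) (D.Indep_Psi_an σ α P hP)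

theorem Indep_Psi_fderiv [DecidableEq ι] (P : ι → ℂ) (hP : ∀ i, P i ∈ D.Om) :
    HasStrictFDerivAt (D.Indep_Psi σ α) (ContinuousLinearMap.pi fun j =>
      α j • ∑ i, (∏ i' ∈ Finset.univ.erase i, D.XX (P i', σ i') j) •
        ((D.XX (P i, σ i) j * (Indep_sg (σ i) * D.w j (P i))) •
          ContinuousLinearMap.proj (R := ℂ) (φ := fun _ : ι => ℂ) i)) P := by
  rw [hasStrictFDerivAt_pi]
  intro j
  have h1 : ∀ i ∈ (Finset.univ : Finset ι), HasStrictFDerivAt (fun Q : ι → ℂ => D.XX (Q i, σ i) j)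
      ((D.XX (P i, σ i) j * (Indep_sg (σ i) * D.w j (P i))) •
          ContinuousLinearMap.proj (R := ℂ) (φ := fun _ : ι => ℂ) i) P := by
    intro i _
    have h2 := D.Indep_XX_deriv (P i) (hP i) (σ i) j
    have h3 : HasStrictFDerivAt (fun Q : ι → ℂ => Q i)
        (ContinuousLinearMap.proj (R := ℂ) (φ := fun _ : ι => ℂ) i) P :=
      (ContinuousLinearMap.proj (R := ℂ) (φ := fun _ : ι => ℂ) i).hasStrictFDerivAt
    exact HasStrictDerivAt.comp_hasStrictFDerivAt (h₂ := fun z => D.XX (z, σ i) j)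
      (f := fun Q : ι → ℂ => Q i) P h2 h3
  have h4 := HasStrictFDerivAt.finsetProd h1
  exact h4.const_mul (α j)

theorem Indep_surj [DecidableEq ι] (hι : Fintype.card ι = g) (hα : α ∈ Tor g) (P : ι → ℂ)
    (hP : ∀ i, P i ∈ D.Om) (eqv : ι ≃ Fin g) (z : Fin g → ℂ) (hPz : ∀ i, P i = z (eqv i))
    (hdet : Matrix.det (Matrix.of (fun i j => D.w j (z i))) ≠ 0) (y : Fin g → ℂ) :
    ∃ v : ι → ℂ, (ContinuousLinearMap.pi fun j =>
      α j • ∑ i, (∏ i' ∈ Finset.univ.erase i, D.XX (P i', σ i') j) •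
        ((D.XX (P i, σ i) j * (Indep_sg (σ i) * D.w j (P i))) •
          ContinuousLinearMap.proj (R := ℂ) (φ := fun _ : ι => ℂ) i)) v = y := by
  set A : Matrix (Fin g) (Fin g) ℂ := Matrix.of (fun i j => D.w j (z i)) with hA
  have hdetT : IsUnit A.transpose.det := by
    rw [Matrix.det_transpose]
    exact isUnit_iff_ne_zero.2 hdet
  set Y : Fin g → ℂ := D.Indep_Psi σ α P with hY
  have hYne : ∀ j, Y j ≠ 0 := D.Indep_Psi_mem σ α hα P hP
  set u : Fin g → ℂ := A.transpose⁻¹.mulVec (fun j => y j / Y j) with hu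
  have hAu : A.transpose.mulVec u = fun j => y j / Y j := by
    rw [hu, Matrix.mulVec_mulVec, Matrix.mul_nonsing_inv _ hdetT, Matrix.one_mulVec]
  refine ⟨fun i => Indep_sg (σ i) * u (eqv i), ?_⟩
  funext j
  simp only [ContinuousLinearMap.coe_pi', smul_apply,
    sum_apply, ContinuousLinearMap.proj_apply, smul_eq_mul]
  have h1 : ∀ i : ι, (∏ i' ∈ Finset.univ.erase i, D.XX (P i', σ i') j) *
      (D.XX (P i, σ i) j * (Indep_sg (σ i) * D.w j (P i)) * (Indep_sg (σ i) * u (eqv i))) =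
      (∏ i', D.XX (P i', σ i') j) * (D.w j (z (eqv i)) * u (eqv i)) := by
    intro i
    rw [← Finset.prod_erase_mul _ _ (Finset.mem_univ i), ← hPz i]
    have := Indep_sg_mul (σ i)
    linear_combination ((∏ i' ∈ Finset.univ.erase i, D.XX (P i', σ i') j) *
      D.XX (P i, σ i) j * D.w j (P i) * u (eqv i)) * this
  rw [Finset.sum_congr rfl fun i _ => h1 i, ← Finset.mul_sum,
    Equiv.sum_comp eqv (fun i => D.w j (z i) * u i), ← mul_assoc]
  have h2 : ∑ i, D.w j (z i) * u i = y j / Y j := by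
    have := congrFun hAu j
    rw [← this]
    simp [Matrix.mulVec, dotProduct, hA]
  rw [h2]
  have h3 : α j * ∏ i', D.XX (P i', σ i') j = Y j := rfl
  rw [h3]
  field_simp [hYne j]

theorem Indep_gen (hι : Fintype.card ι = g) (hα : α ∈ Tor g) (U : Set (ι → ℂ)) (hU : IsOpen U)
    (hne : U.Nonempty) (hs : U ⊆ {P | ∀ i, P i ∈ D.Om}) :
    ∃ P ∈ U, thx D.T (D.Indep_Psi σ α P) ≠ 0 := by
  classical
  by_contra hcon
  push Not at hcon
  obtain ⟨Q, hQ⟩ := hne
  have hev : (fun P : ι → ℂ => thx D.T (D.Indep_Psi σ α P)) =ᶠ[𝓝 Q] 0 := by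
    filter_upwards [hU.mem_nhds hQ] with P hP
    exact hcon P hP
  have hzero := (D.Indep_Phi_an σ α hα).eqOn_zero_of_preconnected_of_eventuallyEq_zero
    (D.Om_pi_preconnected ι) (hs hQ) hev
  -- a point where the derivative is invertible
  have hOm : D.Om.Nonempty := by
    by_cases hg : Nonempty ι
    · obtain ⟨i⟩ := hg
      exact ⟨Q i, hs hQ i⟩
    · refine ⟨1, ?_⟩
      refine D.ann0_sub 1 ?_ ?_ <;> norm_num
  obtain ⟨z, hz, hdet⟩ := D.exists_det g id Function.injective_id D.Om D.isOpen_Om hOm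
    subset_rfl
  let eqv : ι ≃ Fin g := Fintype.equivFinOfCardEq hι
  let P0 : ι → ℂ := fun i => z (eqv i)
  have hP0 : ∀ i, P0 i ∈ D.Om := fun i => hz _
  have hmap := (D.Indep_Psi_fderiv σ α P0 hP0).map_nhds_eq_of_surj (by
    rw [LinearMap.range_eq_top]
    intro y
    obtain ⟨v, hv⟩ := D.Indep_surj σ α hι hα P0 hP0 eqv z (fun _ => rfl) hdet y
    exact ⟨v, hv⟩)
  -- the image of the domain is a neighbourhood
  have hOmN : {P : ι → ℂ | ∀ i, P i ∈ D.Om} ∈ 𝓝 P0 := by
    have h1 : {P : ι → ℂ | ∀ i, P i ∈ D.Om} = Set.univ.pi fun _ : ι => D.Om := by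
      ext P; simp
    rw [h1]
    exact set_pi_mem_nhds Set.finite_univ fun i _ => D.isOpen_Om.mem_nhds (hP0 i)
  have himg : D.Indep_Psi σ α '' {P : ι → ℂ | ∀ i, P i ∈ D.Om} ∈ 𝓝 (D.Indep_Psi σ α P0) := by
    rw [← hmap]
    exact image_mem_map hOmN
  obtain ⟨V, hVsub, hVo, hVmem⟩ := mem_nhds_iff.1 himg
  obtain ⟨Y, hY, hYne⟩ := thx_ne_of_open D.T D.posdef V hVo ⟨_, hVmem⟩ (by
    intro Y hY
    obtain ⟨P, hP, rfl⟩ := hVsub hY
    exact D.Indep_Psi_mem σ α hα P hP)
  obtain ⟨P, hP, rfl⟩ := hVsub hY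
  exact hYne (hzero hP)

end Gen

/-- `g` generic points on the curve sweep out an open set of the torus, so that theta (and
finitely many translates) does not vanish at generic points -/
theorem exists_ne (ι : Type) [Fintype ι] (hι : Fintype.card ι = g) (V : ι → Set ℂ)
    (hV : ∀ i, IsOpen (V i)) (hn : ∀ i, (V i).Nonempty) (hs : ∀ i, V i ⊆ D.Om)
    (σ : ι → Bool) (N : ℕ) (α : Fin N → Fin g → ℂ) (hα : ∀ k, α k ∈ Tor g) :
    ∃ P : ι → ℂ, (∀ i, P i ∈ V i) ∧
      ∀ k, thx D.T (fun j => α k j * ∏ i, D.XX (P i, σ i) j) ≠ 0 := by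
  classical
  have key : ∀ s : Finset (Fin N), ∃ U : Set (ι → ℂ), IsOpen U ∧ U.Nonempty ∧
      (∀ P ∈ U, ∀ i, P i ∈ V i) ∧ ∀ P ∈ U, ∀ k ∈ s, thx D.T (D.Indep_Psi σ (α k) P) ≠ 0 := by
    intro s
    induction s using Finset.induction_on with
    | empty =>
      refine ⟨Set.univ.pi V, isOpen_set_pi Set.finite_univ fun i _ => hV i,
        Set.univ_pi_nonempty_iff.2 hn, fun P hP i => hP i (Set.mem_univ i), ?_⟩
      intro P _ k hk
      exact absurd hk (Finset.notMem_empty k)
    | insert k s hk ih =>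
      obtain ⟨U, hUo, hUne, hUV, hUs⟩ := ih
      have hUOm : U ⊆ {P | ∀ i, P i ∈ D.Om} := fun P hP i => hs i (hUV P hP i)
      obtain ⟨Q, hQU, hQ⟩ := D.Indep_gen σ (α k) hι (hα k) U hUo hUne hUOm
      have hcont : ContinuousOn (fun P : ι → ℂ => thx D.T (D.Indep_Psi σ (α k) P)) U :=
        ((D.Indep_Phi_an σ (α k) (hα k)).mono hUOm).continuousOn
      refine ⟨U ∩ (fun P : ι → ℂ => thx D.T (D.Indep_Psi σ (α k) P)) ⁻¹' {0}ᶜ,
        hcont.isOpen_inter_preimage hUo isClosed_singleton.isOpen_compl, ⟨Q, hQU, hQ⟩,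
        fun P hP => hUV P hP.1, ?_⟩
      rintro P ⟨hP1, hP2⟩ k' hk'
      rcases Finset.mem_insert.1 hk' with rfl | hk'
      · exact hP2
      · exact hUs P hP1 k' hk'
  obtain ⟨U, -, ⟨P, hP⟩, hUV, hUs⟩ := key Finset.univ
  exact ⟨P, hUV P hP, fun k => hUs P hP k (Finset.mem_univ k)⟩

end HypData
end Pool.Agent.AM.Hyp
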