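import Pool.Agent.AM.Hyp.Fact1
import Pool.Agent.AM.Hyp.Indep
import Pool.Agent.AM.Dim1

/-! Lower bound for the dimension of the singular locus. -/

set_option autoImplicit false
open Complex Filter Topology
open scoped ENNReal
namespace Pool.Agent.AM.Hyp
namespace HypData
variable {g : ℕ} (D : HypData g)

theorem Lower_pt_mem : (I / 2 : ℂ) ∈ D.Om :=
  D.B0_sub (Metric.mem_ball_self (by norm_num))

theorem Lower_X_deriv (j : Fin g) (z : ℂ) (hz : z ∈ D.Om) :
    HasStrictDerivAt (D.X j) (deriv (D.X j) z) z :=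
  ((D.diff j).analyticAt (D.isOpen_Om.mem_nhds hz)).hasStrictDerivAt

/-- the singular locus contains the translate of the Abel image of degree `g-3` divisors -/
theorem mem_SX (M : Multiset (ℂ × Bool)) (hM : ∀ P ∈ M, P.1 ∈ D.Om)
    (hc : Multiset.card M + 3 = g) : (fun j => D.kap j * D.W M j) ∈ SX D.T := by
  set Y : Fin g → ℂ := fun j => D.kap j * D.W M j with hY
  have hYT : Y ∈ Tor g := fun j => mul_ne_zero (D.kap_ne j) (D.W_ne M hM j)
  have key : ∀ Q ∈ D.Om, ∀ Q' ∈ D.Om,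
      thx D.T (fun j => Y j * (D.X j Q * (D.X j Q')⁻¹)) = 0 := by
    intro Q hQ Q' hQ'
    have h := D.fact1 ((Q, true) ::ₘ (Q', false) ::ₘ M) (by
      intro P hP
      rcases Multiset.mem_cons.1 hP with rfl | hP
      · exact hQ
      rcases Multiset.mem_cons.1 hP with rfl | hP
      · exact hQ'
      · exact hM P hP) (by
      rw [Multiset.card_cons, Multiset.card_cons]
      omega)
    rw [← h]
    congr 1
    funext j
    simp only [hY, W, Multiset.map_cons, Multiset.prod_cons, XX]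
    simp
    ring
  have hz : thx D.T Y = 0 := by
    have h := key _ D.Lower_pt_mem _ D.Lower_pt_mem
    have h2 : (fun j => Y j * (D.X j (I / 2) * (D.X j (I / 2))⁻¹)) = Y := by
      funext j
      rw [mul_inv_cancel₀ (D.ne0 j _ D.Lower_pt_mem), mul_one]
    rwa [h2] at h
  have hdiff : HasFDerivAt (thx D.T) (fderiv ℂ (thx D.T) Y) Y :=
    ((thx_analytic D.T D.posdef) Y hYT).differentiableAt.hasFDerivAt
  have hder : ∀ Q ∈ D.Om, (fderiv ℂ (thx D.T) Y) (fun j => Y j * D.w j Q) = 0 := by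
    intro Q hQ
    have h1 : HasDerivAt (fun z : ℂ => (fun j => Y j * (D.X j z * (D.X j Q)⁻¹)))
        (fun j => Y j * (deriv (D.X j) Q * (D.X j Q)⁻¹)) Q := by
      rw [hasDerivAt_pi]
      intro j
      exact (((D.Lower_X_deriv j Q hQ).hasDerivAt).mul_const _).const_mul _
    have h2 : (fun j => Y j * (D.X j Q * (D.X j Q)⁻¹)) = Y := by
      funext j
      rw [mul_inv_cancel₀ (D.ne0 j _ hQ), mul_one]
    have h3 : HasFDerivAt (thx D.T) (fderiv ℂ (thx D.T) Y)
        ((fun z : ℂ => (fun j => Y j * (D.X j z * (D.X j Q)⁻¹))) Q) := by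
      change HasFDerivAt (thx D.T) (fderiv ℂ (thx D.T) Y)
        (fun j => Y j * (D.X j Q * (D.X j Q)⁻¹))
      rw [h2]
      exact hdiff
    have h4 := h3.comp_hasDerivAt Q h1
    have h5 : HasDerivAt (thx D.T ∘ (fun z : ℂ => (fun j => Y j * (D.X j z * (D.X j Q)⁻¹))))
        0 Q := by
      refine (hasDerivAt_const Q (0 : ℂ)).congr_of_eventuallyEq ?_
      filter_upwards [D.isOpen_Om.mem_nhds hQ] with z hz'
      exact key z hz' Q hQ
    have h6 := h4.unique h5
    simpa only [w, div_eq_mul_inv] using h6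
  have hsum : ∀ Q ∈ D.Om, ∑ j, (Y j * (fderiv ℂ (thx D.T) Y)
      (fun i => if j = i then 1 else 0)) * D.w j Q = 0 := by
    intro Q hQ
    have h := hder Q hQ
    have h2 := LinearMap.pi_apply_eq_sum_univ
      ((fderiv ℂ (thx D.T) Y : (Fin g → ℂ) →L[ℂ] ℂ) : (Fin g → ℂ) →ₗ[ℂ] ℂ)
      (fun j => Y j * D.w j Q)
    have h3 : ((fderiv ℂ (thx D.T) Y : (Fin g → ℂ) →L[ℂ] ℂ) : (Fin g → ℂ) →ₗ[ℂ] ℂ)
      (fun j => Y j * D.w j Q) = 0 := h
    refine Eq.trans (Finset.sum_congr rfl fun j _ => ?_) (h2.symm.trans h3)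
    simp only [smul_eq_mul, ContinuousLinearMap.coe_coe]
    ring
  have hl := D.w_indep D.Om D.isOpen_Om ⟨_, D.Lower_pt_mem⟩ subset_rfl _ hsum
  have hf0 : fderiv ℂ (thx D.T) Y = 0 := by
    apply ContinuousLinearMap.ext
    intro v
    have h2 := LinearMap.pi_apply_eq_sum_univ
      ((fderiv ℂ (thx D.T) Y : (Fin g → ℂ) →L[ℂ] ℂ) : (Fin g → ℂ) →ₗ[ℂ] ℂ) v
    have h3 : (fderiv ℂ (thx D.T) Y) v = ((fderiv ℂ (thx D.T) Y : (Fin g → ℂ) →L[ℂ] ℂ) :
      (Fin g → ℂ) →ₗ[ℂ] ℂ) v := rfl
    rw [h3, h2]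
    refine Finset.sum_eq_zero fun j _ => ?_
    have h4 := congrFun hl j
    have h5 : (fderiv ℂ (thx D.T) Y) (fun i => if j = i then 1 else 0) = 0 :=
      (mul_eq_zero.1 h4).resolve_left (hYT j)
    simp only [ContinuousLinearMap.coe_coe]
    rw [h5, smul_zero]
  exact ⟨hYT, hz, hf0⟩

/-- The Abel map in the coordinates `e`. -/
noncomputable def Lower_Phi {k : ℕ} (e : Fin k → Fin g) (P : Fin k → ℂ) (j : Fin k) : ℂ :=
  D.kap (e j) * ∏ i, D.X (e j) (P i)

theorem Lower_open {k : ℕ} (e : Fin k → Fin g) (z : Fin k → ℂ) (hz : ∀ i, z i ∈ D.Om)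
    (hdet : Matrix.det (Matrix.of (fun i j => D.w (e j) (z i))) ≠ 0) :
    Filter.map (D.Lower_Phi e) (𝓝 z) = 𝓝 (D.Lower_Phi e z) := by
  classical
  let f' : Fin k → ((Fin k → ℂ) →L[ℂ] ℂ) := fun j =>
    D.kap (e j) • ∑ i, (∏ l ∈ Finset.univ.erase i, D.X (e j) (z l)) •
      (deriv (D.X (e j)) (z i) • ContinuousLinearMap.proj (R := ℂ) (φ := fun _ : Fin k => ℂ) i)
  have hstrict : HasStrictFDerivAt (D.Lower_Phi e) (ContinuousLinearMap.pi f') z := by
    have h : ∀ j, HasStrictFDerivAt (fun P => D.Lower_Phi e P j) (f' j) z := by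
      intro j
      have h1 : ∀ i ∈ (Finset.univ : Finset (Fin k)), HasStrictFDerivAt
          (fun P : Fin k → ℂ => D.X (e j) (P i)) (deriv (D.X (e j)) (z i) •
            ContinuousLinearMap.proj (R := ℂ) (φ := fun _ : Fin k => ℂ) i) z := by
        intro i _
        exact HasStrictDerivAt.comp_hasStrictFDerivAt z (f := fun P : Fin k → ℂ => P i)
          (D.Lower_X_deriv (e j) (z i) (hz i)) (hasStrictFDerivAt_apply i z)
      exact (HasStrictFDerivAt.finsetProd h1).const_mul (D.kap (e j))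
    exact hasStrictFDerivAt_pi.2 h
  refine hstrict.map_nhds_eq_of_surj ?_
  rw [LinearMap.range_eq_top]
  intro y
  set A : Matrix (Fin k) (Fin k) ℂ := Matrix.of (fun i j => D.w (e j) (z i)) with hA
  have hne : ∀ j, D.Lower_Phi e z j ≠ 0 := fun j =>
    mul_ne_zero (D.kap_ne _) (Finset.prod_ne_zero_iff.2 fun i _ => D.ne0 _ _ (hz i))
  refine ⟨Matrix.vecMul (fun j => y j / D.Lower_Phi e z j) A⁻¹, ?_⟩
  set v := Matrix.vecMul (fun j => y j / D.Lower_Phi e z j) A⁻¹ with hv
  have hvA : Matrix.vecMul v A = fun j => y j / D.Lower_Phi e z j := by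
    rw [hv, Matrix.vecMul_vecMul, Matrix.nonsing_inv_mul A (isUnit_iff_ne_zero.2 hdet),
      Matrix.vecMul_one]
  funext j
  have h1 : (ContinuousLinearMap.pi f') v j = D.Lower_Phi e z j * (Matrix.vecMul v A) j := by
    change f' j v = _
    simp only [f', smul_apply, sum_apply,
      ContinuousLinearMap.proj_apply, smul_eq_mul, Lower_Phi, Matrix.vecMul, dotProduct, hA,
      Matrix.of_apply, w]
    rw [mul_assoc]
    congr 1
    rw [Finset.mul_sum]
    refine Finset.sum_congr rfl fun i _ => ?_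
    rw [← Finset.mul_prod_erase Finset.univ (fun l => D.X (e j) (z l)) (Finset.mem_univ i)]
    have := D.ne0 (e j) (z i) (hz i)
    field_simp
  have h2 : ((ContinuousLinearMap.pi f' : (Fin k → ℂ) →L[ℂ] (Fin k → ℂ)) :
      (Fin k → ℂ) →ₗ[ℂ] (Fin k → ℂ)) v j = (ContinuousLinearMap.pi f') v j := rfl
  rw [h2, h1, hvA]
  exact mul_div_cancel₀ _ (hne j)

theorem lower (hg : 3 ≤ g) :
    (SX D.T).Nonempty ∧ ((2 * (g - 3) : ℕ) : ℝ≥0∞) ≤ dimH (SX D.T) := by
  classical
  refine ⟨⟨_, D.mem_SX (Multiset.replicate (g - 3) (I / 2, true)) (fun P hP => ?_) ?_⟩, ?_⟩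
  · rw [Multiset.eq_of_mem_replicate hP]
    exact D.Lower_pt_mem
  · rw [Multiset.card_replicate]
    omega
  set k := g - 3 with hk
  have hkg : k ≤ g := by omega
  let e : Fin k → Fin g := Fin.castLE hkg
  have he : Function.Injective e := Fin.castLE_injective hkg
  obtain ⟨z, hz, hdet⟩ := D.exists_det k e he D.Om D.isOpen_Om ⟨_, D.Lower_pt_mem⟩ subset_rfl
  have hmap := D.Lower_open e z hz hdet
  let O : Set (Fin k → ℂ) := {P | ∀ i, P i ∈ D.Om}
  have hO : O ∈ 𝓝 z := by
    have : IsOpen O := by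
      have h : O = Set.pi Set.univ (fun _ => D.Om) := by
        ext P
        simp [O]
      rw [h]
      exact isOpen_set_pi Set.finite_univ (fun _ _ => D.isOpen_Om)
    exact this.mem_nhds hz
  have himg : D.Lower_Phi e '' O ∈ 𝓝 (D.Lower_Phi e z) := by
    rw [← hmap]
    exact Filter.image_mem_map hO
  obtain ⟨V0, hV0sub, hV0, hzV0⟩ := mem_nhds_iff.1 himg
  let J : Finset (Fin g) := Finset.univ.image e
  have hJc : J.card = k := by
    rw [Finset.card_image_of_injective _ he, Finset.card_univ, Fintype.card_fin]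
  let ej : Fin k → J := fun i => ⟨e i, Finset.mem_image_of_mem e (Finset.mem_univ i)⟩
  let V : Set (J → ℂ) := {u | (fun i => u (ej i)) ∈ V0}
  have hV : IsOpen V := hV0.preimage (continuous_pi fun i => continuous_apply (ej i))
  have hne : V.Nonempty := by
    have hinv : ∀ j : J, ∃ i, e i = j.1 := by
      intro j
      obtain ⟨i, _, hi⟩ := Finset.mem_image.1 j.2
      exact ⟨i, hi⟩
    choose r hr using hinv
    refine ⟨fun j => D.Lower_Phi e z (r j), ?_⟩
    have h : (fun i => D.Lower_Phi e z (r (ej i))) = D.Lower_Phi e z := by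
      funext i
      have : r (ej i) = i := he (hr (ej i))
      rw [this]
    change (fun i => D.Lower_Phi e z (r (ej i))) ∈ V0
    rw [h]
    exact hzV0
  have hfin := le_dimH_of_proj (SX D.T) J V hV hne (by
    intro u hu
    obtain ⟨P, hP, hPu⟩ := hV0sub hu
    refine ⟨_, D.mem_SX ((Finset.univ : Finset (Fin k)).val.map (fun i => (P i, true)))
      (fun Q hQ => ?_) ?_, fun j => ?_⟩
    · obtain ⟨i, _, rfl⟩ := Multiset.mem_map.1 hQ
      exact hP i
    · rw [Multiset.card_map]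
      have : Multiset.card (Finset.univ : Finset (Fin k)).val = k := by
        rw [Finset.card_val, Finset.card_univ, Fintype.card_fin]
      rw [this]
      omega
    · obtain ⟨i, _, hi⟩ := Finset.mem_image.1 j.2
      have hj : j = ej i := Subtype.ext hi.symm
      subst hj
      have h := congrFun hPu i
      change D.Lower_Phi e P i = u (ej i) at h
      rw [← h]
      simp only [Lower_Phi, W, Multiset.map_map, Function.comp, XX, ej]
      simp [Finset.prod])
  rwa [hJc] at hfin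

end HypData
end Pool.Agent.AM.Hyp
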