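import Pool.Agent.AM.Hyp.Thx

/-! From multiplicative to additive coordinates. -/

set_option autoImplicit false
open Complex Filter Topology
open scoped ENNReal
namespace Pool.Agent.AM.Hyp

namespace Transfer_

/-- the exponential map of the torus -/
noncomputable def E {g : ℕ} (z : Fin g → ℂ) : Fin g → ℂ :=
  fun j => cexp (2 * (Real.pi : ℂ) * I * z j)

lemma E_ne {g : ℕ} (z : Fin g → ℂ) (j : Fin g) : E z j ≠ 0 := Complex.exp_ne_zero _

lemma two_pi_I_ne : (2 * (Real.pi : ℂ) * I) ≠ 0 := by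
  simp [Real.pi_ne_zero, Complex.I_ne_zero]

/-- a diagonal map -/
noncomputable def diagL {g : ℕ} (a : Fin g → ℂ) : (Fin g → ℂ) →L[ℂ] (Fin g → ℂ) :=
  ContinuousLinearMap.pi (fun j => a j • ContinuousLinearMap.proj (R := ℂ) (φ := fun _ => ℂ) j)

lemma diagL_apply {g : ℕ} (a v : Fin g → ℂ) : diagL a v = fun j => a j * v j := by
  ext j; simp [diagL]

/-- a diagonal equivalence -/
noncomputable def diagE {g : ℕ} (a : Fin g → ℂ) (ha : ∀ j, a j ≠ 0) :
    (Fin g → ℂ) ≃L[ℂ] (Fin g → ℂ) :=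
  ContinuousLinearEquiv.equivOfInverse (diagL a) (diagL (fun j => (a j)⁻¹))
    (by intro v; ext j; simp [diagL_apply, ha j])
    (by intro v; ext j; simp [diagL_apply, ha j])

/-- the diagonal entries of the derivative -/
noncomputable def dE {g : ℕ} (z : Fin g → ℂ) : Fin g → ℂ :=
  fun j => 2 * (Real.pi : ℂ) * I * E z j

lemma dE_ne {g : ℕ} (z : Fin g → ℂ) (j : Fin g) : dE z j ≠ 0 :=
  mul_ne_zero two_pi_I_ne (E_ne z j)

lemma E_strict {g : ℕ} (z : Fin g → ℂ) :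
    HasStrictFDerivAt (E (g := g)) ((diagE (dE z) (dE_ne z) : (Fin g → ℂ) ≃L[ℂ] (Fin g → ℂ)) :
      (Fin g → ℂ) →L[ℂ] (Fin g → ℂ)) z := by
  have h1 : ∀ j : Fin g, HasStrictFDerivAt (fun z : Fin g → ℂ => E z j)
      ((dE z j) • ContinuousLinearMap.proj (R := ℂ) (φ := fun _ => ℂ) j) z := by
    intro j
    have h2 : HasStrictFDerivAt (fun z : Fin g → ℂ => z j)
        (ContinuousLinearMap.proj (R := ℂ) (φ := fun _ => ℂ) j) z :=
      (ContinuousLinearMap.proj (R := ℂ) (φ := fun _ : Fin g => ℂ) j).hasStrictFDerivAt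
    have h3 := (h2.const_mul (2 * (Real.pi : ℂ) * I)).cexp
    refine h3.congr_fderiv ?_
    ext v
    simp only [dE, E, smul_apply, ContinuousLinearMap.proj_apply, smul_eq_mul]
    ring
  exact hasStrictFDerivAt_pi.2 h1

lemma E_surj {g : ℕ} (Y : Fin g → ℂ) (hY : Y ∈ Tor g) : ∃ z, E z = Y := by
  refine ⟨fun j => Complex.log (Y j) / (2 * (Real.pi : ℂ) * I), ?_⟩
  ext j
  simp only [E]
  rw [mul_div_cancel₀ _ two_pi_I_ne, Complex.exp_log (hY j)]

/-- a bound for the local dimensions is a bound for the dimension -/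
lemma dimH_le_loc {X : Type} [EMetricSpace X] [SecondCountableTopology X] {s : Set X}
    {r : ℝ≥0∞} (h : ∀ x ∈ s, ∃ t ∈ 𝓝[s] x, dimH t ≤ r) : dimH s ≤ r := by
  by_contra hcon
  push Not at hcon
  obtain ⟨x, hx, hx2⟩ := exists_mem_nhdsWithin_lt_dimH_of_lt_dimH hcon
  obtain ⟨t, ht, ht2⟩ := h x hx
  exact absurd (hx2 t ht) (not_lt.2 ht2)

lemma E_mem {g : ℕ} (z : Fin g → ℂ) : E z ∈ Tor g := fun j => E_ne z j

end Transfer_

open Transfer_

theorem sing_iff {g : ℕ} (T : Matrix (Fin g) (Fin g) ℝ) (hT : T.PosDef) (z : Fin g → ℂ) :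
    (rth g (T.map (fun t : ℝ => I * (t : ℂ))) z = 0 ∧
      fderiv ℂ (rth g (T.map (fun t : ℝ => I * (t : ℂ)))) z = 0) ↔
      (fun j => cexp (2 * (Real.pi : ℂ) * I * z j)) ∈ SX T := by
  have h1 : rth g (T.map (fun t : ℝ => I * (t : ℂ))) = fun w => thx T (E w) := by
    funext w; exact rth_eq T w
  have h2 : DifferentiableAt ℂ (thx T) (E z) := (thx_analytic T hT _ (E_mem z)).differentiableAt
  have h3 : HasFDerivAt (fun w => thx T (E w)) ((fderiv ℂ (thx T) (E z)).comp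
      ((diagE (dE z) (dE_ne z) : (Fin g → ℂ) ≃L[ℂ] (Fin g → ℂ)) :
      (Fin g → ℂ) →L[ℂ] (Fin g → ℂ))) z :=
    h2.hasFDerivAt.comp z (E_strict z).hasFDerivAt
  rw [h1, h3.fderiv]
  constructor
  · rintro ⟨ha, hb⟩
    have h5 : fderiv ℂ (thx T) (E z) = 0 := by
      ext1 v
      have h4 := congrArg (fun L : (Fin g → ℂ) →L[ℂ] ℂ => L ((diagE (dE z) (dE_ne z)).symm v)) hb
      simpa using h4
    exact ⟨E_mem z, ha, h5⟩
  · rintro ⟨-, ha, hb⟩
    refine ⟨ha, ?_⟩
    have hb' : fderiv ℂ (thx T) (E z) = 0 := hb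
    rw [hb']
    simp

theorem transfer {g : ℕ} (T : Matrix (Fin g) (Fin g) ℝ) (hT : T.PosDef) :
    dimH {z : Fin g → ℂ | rth g (T.map (fun t : ℝ => I * (t : ℂ))) z = 0 ∧
      fderiv ℂ (rth g (T.map (fun t : ℝ => I * (t : ℂ)))) z = 0} = dimH (SX T) := by
  have hS : {z : Fin g → ℂ | rth g (T.map (fun t : ℝ => I * (t : ℂ))) z = 0 ∧
      fderiv ℂ (rth g (T.map (fun t : ℝ => I * (t : ℂ)))) z = 0} = E ⁻¹' (SX T) := by
    ext z; exact sing_iff T hT z
  rw [hS]
  apply le_antisymm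
  · -- local inverses
    apply dimH_le_loc
    intro z hz
    have hs := E_strict z
    have h1 := hs.eventually_left_inverse
    have h2 := hs.to_localInverse
    obtain ⟨K, V, hV, hK⟩ := h2.exists_lipschitzOnWith
    have h3 : ∀ᶠ x in 𝓝 z, E x ∈ V := hs.hasFDerivAt.continuousAt.eventually_mem hV
    set G := hs.localInverse E (diagE (dE z) (dE_ne z)) z with hG
    refine ⟨{x | G (E x) = x ∧ E x ∈ V} ∩ E ⁻¹' SX T, ?_, ?_⟩
    · exact Filter.inter_mem (mem_nhdsWithin_of_mem_nhds (h1.and h3)) self_mem_nhdsWithin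
    · have h4 : {x | G (E x) = x ∧ E x ∈ V} ∩ E ⁻¹' SX T ⊆ G '' (SX T ∩ V) := by
        rintro x ⟨⟨hx1, hx2⟩, hx3⟩
        exact ⟨E x, ⟨hx3, hx2⟩, hx1⟩
      exact (dimH_mono h4).trans (((hK.mono Set.inter_subset_right).dimH_image_le).trans
        (dimH_mono Set.inter_subset_left))
  · have h1 : SX T = E '' (E ⁻¹' (SX T)) := by
      ext Y
      constructor
      · intro hY
        obtain ⟨z, rfl⟩ := E_surj Y hY.1
        exact ⟨z, hY, rfl⟩
      · rintro ⟨z, hz, rfl⟩; exact hz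
    conv_lhs => rw [h1]
    apply dimH_image_le_of_locally_lipschitzOn
    intro z _
    obtain ⟨K, s, hs, hK⟩ := (E_strict z).exists_lipschitzOnWith
    exact ⟨K, s, mem_nhdsWithin_of_mem_nhds hs, hK⟩

theorem tau_sym {g : ℕ} (T : Matrix (Fin g) (Fin g) ℝ) (hT : T.PosDef) :
    (T.map (fun t : ℝ => I * (t : ℂ))).transpose = T.map (fun t : ℝ => I * (t : ℂ)) := by
  have h := hT.isHermitian
  ext i j
  have h1 := congrFun (congrFun h i) j
  simp only [Matrix.conjTranspose_apply, star_trivial] at h1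
  simp [Matrix.transpose_apply, Matrix.map_apply, h1]

theorem tau_pos {g : ℕ} (T : Matrix (Fin g) (Fin g) ℝ) (hT : T.PosDef) :
    ((T.map (fun t : ℝ => I * (t : ℂ))).map Complex.im).PosDef := by
  have : (T.map (fun t : ℝ => I * (t : ℂ))).map Complex.im = T := by
    ext i j
    simp [Matrix.map_apply]
  rw [this]; exact hT

end Pool.Agent.AM.Hyp
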