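import Mathlib

/-! Cauchy theorem on a disc minus finitely many discs. -/

set_option autoImplicit false
open Complex Filter Topology
namespace Pool.Agent.AM.Hyp

namespace Cauchy_aux

open MeasureTheory Metric

/-- Interchanging two circle integrals. -/
theorem circle_swap {a c : ℂ} {R ρ : ℝ} (k : ℂ → ℂ → ℂ)
    (hk : Continuous (fun p : ℝ × ℝ => k (circleMap a R p.1) (circleMap c ρ p.2))) :
    (∮ z in C(a, R), ∮ w in C(c, ρ), k z w) = ∮ w in C(c, ρ), ∮ z in C(a, R), k z w := by
  simp only [circleIntegral, smul_eq_mul, deriv_circleMap]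
  simp only [← intervalIntegral.integral_const_mul]
  rw [intervalIntegral_intervalIntegral_swap]
  · refine intervalIntegral.integral_congr fun η _ => ?_
    refine intervalIntegral.integral_congr fun θ _ => ?_
    ring
  · have hc : Continuous (fun p : ℝ × ℝ => circleMap 0 R p.1 * I * (circleMap 0 ρ p.2 * I *
        k (circleMap a R p.1) (circleMap c ρ p.2))) := by
      have h1 : Continuous fun p : ℝ × ℝ => circleMap 0 R p.1 :=
        (continuous_circleMap 0 R).comp continuous_fst
      have h2 : Continuous fun p : ℝ × ℝ => circleMap 0 ρ p.2 :=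
        (continuous_circleMap 0 ρ).comp continuous_snd
      exact (h1.mul continuous_const).mul ((h2.mul continuous_const).mul hk)
    have h3 : IntegrableOn (fun p : ℝ × ℝ => circleMap 0 R p.1 * I * (circleMap 0 ρ p.2 * I *
        k (circleMap a R p.1) (circleMap c ρ p.2)))
        (Set.uIcc 0 (2 * Real.pi) ×ˢ Set.uIcc 0 (2 * Real.pi)) :=
      hc.continuousOn.integrableOn_compact (isCompact_uIcc.prod isCompact_uIcc)
    exact h3.mono_set (Set.prod_mono Set.uIoc_subset_uIcc Set.uIoc_subset_uIcc)

/-- The Cauchy type integral. -/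
noncomputable def CI (c : ℂ) (ρ : ℝ) (φ : ℂ → ℂ) (z : ℂ) : ℂ :=
  ∮ w in C(c, ρ), (w - z)⁻¹ * φ w

theorem cont_comp {c : ℂ} {ρ : ℝ} (hρ : 0 < ρ) {φ : ℂ → ℂ} (hφ : ContinuousOn φ (sphere c ρ)) :
    Continuous (fun θ : ℝ => φ (circleMap c ρ θ)) :=
  hφ.comp_continuous (continuous_circleMap c ρ) (fun θ => circleMap_mem_sphere c hρ.le θ)

/-- The Cauchy type integral is holomorphic off the circle. -/
theorem CI_diff {c z : ℂ} {ρ : ℝ} (hρ : 0 < ρ) {φ : ℂ → ℂ} (hφ : ContinuousOn φ (sphere c ρ))
    (hz : z ∉ sphere c ρ) : DifferentiableAt ℂ (CI c ρ φ) z := by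
  have hne : (sphere c ρ).Nonempty := ⟨_, circleMap_mem_sphere c hρ.le 0⟩
  set δ : ℝ := infDist z (sphere c ρ) with hδ
  have hδ0 : 0 < δ := (isClosed_sphere.notMem_iff_infDist_pos hne).1 hz
  obtain ⟨M, hM⟩ := (isCompact_sphere c ρ).exists_bound_of_continuousOn hφ
  have hφc := cont_comp hρ hφ
  have hdist : ∀ x ∈ ball z (δ / 2), ∀ θ : ℝ, δ / 2 ≤ ‖circleMap c ρ θ - x‖ := by
    intro x hx θ
    have h1 : δ ≤ dist z (circleMap c ρ θ) :=
      infDist_le_dist_of_mem (circleMap_mem_sphere c hρ.le θ)
    have h2 : dist x z < δ / 2 := hx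
    have h3 := dist_triangle z x (circleMap c ρ θ)
    rw [dist_comm z x] at h3
    rw [← dist_eq_norm, dist_comm (circleMap c ρ θ) x]
    linarith
  have hne0 : ∀ x ∈ ball z (δ / 2), ∀ θ : ℝ, circleMap c ρ θ - x ≠ 0 := by
    intro x hx θ h0
    have := hdist x hx θ
    rw [h0, norm_zero] at this
    linarith
  let F : ℂ → ℝ → ℂ := fun x θ => deriv (circleMap c ρ) θ •
    ((circleMap c ρ θ - x)⁻¹ * φ (circleMap c ρ θ))
  let F' : ℂ → ℝ → ℂ := fun x θ => deriv (circleMap c ρ) θ •
    (((circleMap c ρ θ - x) ^ 2)⁻¹ * φ (circleMap c ρ θ))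
  have hcd : Continuous (fun θ : ℝ => deriv (circleMap c ρ) θ) := by
    simp only [deriv_circleMap]
    exact (continuous_circleMap 0 ρ).mul continuous_const
  have hcF : ∀ x ∈ ball z (δ / 2), Continuous (F x) := by
    intro x hx
    refine hcd.smul (Continuous.mul (Continuous.inv₀ ?_ (hne0 x hx)) hφc)
    exact (continuous_circleMap c ρ).sub continuous_const
  have hcF' : ∀ x ∈ ball z (δ / 2), Continuous (F' x) := by
    intro x hx
    refine hcd.smul (Continuous.mul (Continuous.inv₀ ?_ fun θ => pow_ne_zero 2 (hne0 x hx θ)) hφc)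
    exact ((continuous_circleMap c ρ).sub continuous_const).pow 2
  have hball : ball z (δ / 2) ∈ 𝓝 z := ball_mem_nhds z (by linarith)
  have hzb : z ∈ ball z (δ / 2) := mem_ball_self (by linarith)
  have key := intervalIntegral.hasDerivAt_integral_of_dominated_loc_of_deriv_le
    (μ := volume) (a := 0) (b := 2 * Real.pi) (F := F) (F' := F')
    (bound := fun _ => ρ * (((δ / 2) ^ 2)⁻¹ * |M|)) hball
    (Filter.eventually_of_mem hball fun x hx => (hcF x hx).aestronglyMeasurable)
    ((hcF z hzb).intervalIntegrable _ _)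
    ((hcF' z hzb).aestronglyMeasurable)
    (Filter.Eventually.of_forall fun θ _ x hx => by
      change ‖deriv (circleMap c ρ) θ • (((circleMap c ρ θ - x) ^ 2)⁻¹ * φ (circleMap c ρ θ))‖ ≤ _
      rw [norm_smul, norm_mul, deriv_circleMap, norm_mul, norm_circleMap_zero, norm_I, mul_one,
        abs_of_pos hρ, norm_inv, norm_pow]
      refine mul_le_mul_of_nonneg_left ?_ hρ.le
      refine mul_le_mul ?_ ?_ (norm_nonneg _) (by positivity)
      · exact inv_anti₀ (by positivity) (pow_le_pow_left₀ (by linarith) (hdist x hx θ) 2)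
      · exact (hM _ (circleMap_mem_sphere c hρ.le θ)).trans (le_abs_self M))
    intervalIntegrable_const
    (Filter.Eventually.of_forall fun θ _ x hx => by
      have h1 : HasDerivAt (fun x : ℂ => circleMap c ρ θ - x) (-1) x := by
        simpa using (hasDerivAt_id x).const_sub (circleMap c ρ θ)
      have h2 := (h1.fun_inv (hne0 x hx θ)).mul_const (φ (circleMap c ρ θ))
      have h3 := h2.const_smul (deriv (circleMap c ρ) θ)
      have h4 : - -1 / (circleMap c ρ θ - x) ^ 2 = ((circleMap c ρ θ - x) ^ 2)⁻¹ := by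
        rw [neg_neg, one_div]
      rw [h4] at h3
      exact h3)
  exact key.2.differentiableAt

/-- The integral of the kernel over a surrounding circle. -/
theorem int_kernel {a w : ℂ} {R : ℝ} (hw : w ∈ ball a R) :
    (∮ z in C(a, R), (w - z)⁻¹) = -(2 * Real.pi * I) := by
  have h : (fun z : ℂ => (w - z)⁻¹) = fun z => (-1 : ℂ) * (z - w)⁻¹ := by
    funext z
    rw [← neg_sub z w, inv_neg]
    ring
  rw [h, circleIntegral.integral_const_mul, circleIntegral.integral_sub_inv_of_mem_ball hw]
  ring

/-- The integral of the Cauchy type integral over a surrounding circle. -/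
theorem int_CI_out {a c : ℂ} {R ρ : ℝ} (hρ : 0 < ρ) (hR : 0 < R) {φ : ℂ → ℂ}
    (hφ : ContinuousOn φ (sphere c ρ)) (h : closedBall c ρ ⊆ ball a R) :
    (∮ z in C(a, R), CI c ρ φ z) = -(2 * Real.pi * I) * ∮ w in C(c, ρ), φ w := by
  unfold CI
  rw [circle_swap]
  · rw [← circleIntegral.integral_const_mul]
    refine circleIntegral.integral_congr hρ.le fun w hw => ?_
    have hw' : w ∈ ball a R := h (sphere_subset_closedBall hw)
    have h1 : (∮ z in C(a, R), (w - z)⁻¹ * φ w) = ∮ z in C(a, R), φ w * (w - z)⁻¹ := by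
      congr 1
      funext z
      ring
    rw [h1, circleIntegral.integral_const_mul, int_kernel hw']
    ring
  · have h1 : Continuous fun p : ℝ × ℝ => circleMap a R p.1 :=
      (continuous_circleMap a R).comp continuous_fst
    have h2 : Continuous fun p : ℝ × ℝ => circleMap c ρ p.2 :=
      (continuous_circleMap c ρ).comp continuous_snd
    refine Continuous.mul (Continuous.inv₀ (h2.sub h1) ?_)
      ((cont_comp hρ hφ).comp continuous_snd)
    intro p h0
    have h3 : circleMap c ρ p.2 ∈ ball a R :=
      h (sphere_subset_closedBall (circleMap_mem_sphere c hρ.le p.2))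
    have h4 : circleMap a R p.1 ∈ sphere a R := circleMap_mem_sphere a hR.le p.1
    rw [sub_eq_zero.1 h0] at h3
    rw [mem_ball, mem_sphere.1 h4] at h3
    exact lt_irrefl _ h3

/-- The Cauchy type integral has zero integral over circles whose discs avoid the circle. -/
theorem int_CI_zero {a c : ℂ} {R ρ : ℝ} (hρ : 0 < ρ) (hR : 0 < R) {φ : ℂ → ℂ}
    (hφ : ContinuousOn φ (sphere c ρ)) (h : ∀ z ∈ closedBall a R, z ∉ sphere c ρ) :
    (∮ z in C(a, R), CI c ρ φ z) = 0 := by
  refine circleIntegral_eq_zero_of_differentiable_on_off_countable hR.le Set.countable_empty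
    (fun z hz => (CI_diff hρ hφ (h z hz)).continuousAt.continuousWithinAt) fun z hz => ?_
  exact CI_diff hρ hφ (h z (ball_subset_closedBall hz.1))

/-- The Cauchy formula for an annulus. -/
theorem annulus_formula {c z : ℂ} {ρ R : ℝ} (hρ : 0 < ρ) {f : ℂ → ℂ}
    (hz1 : ρ < ‖z - c‖) (hz2 : ‖z - c‖ < R)
    (hf : ∀ w, ρ ≤ ‖w - c‖ → ‖w - c‖ ≤ R → DifferentiableAt ℂ f w) :
    CI c R f z - CI c ρ f z = 2 * Real.pi * I * f z := by
  have hρR : ρ < R := hz1.trans hz2
  have hR : 0 < R := hρ.trans hρR
  have hcont : ContinuousOn (dslope f z) (closedBall c R \ ball c ρ) := by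
    intro w hw
    have h1 : ‖w - c‖ ≤ R := by simpa [dist_eq_norm] using hw.1
    have h2 : ρ ≤ ‖w - c‖ := by simpa [dist_eq_norm] using hw.2
    by_cases hwz : w = z
    · subst hwz
      exact (continuousAt_dslope_same.2 (hf w h2 h1)).continuousWithinAt
    · exact ((continuousAt_dslope_of_ne hwz).2 (hf w h2 h1).continuousAt).continuousWithinAt
  have h := circleIntegral_eq_of_differentiable_on_annulus_off_countable hρ hρR.le
    (Set.countable_singleton z) hcont (fun w hw => by
      have h1 : ‖w - c‖ < R := by simpa [dist_eq_norm] using hw.1.1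
      have h2 : ρ < ‖w - c‖ := by simpa [dist_eq_norm] using hw.1.2
      have h3 : w ≠ z := by simpa using hw.2
      exact (differentiableAt_dslope_of_ne h3).2 (hf w h2.le h1.le))
  -- expand the divided differences
  have hfc : ∀ r : ℝ, ρ ≤ r → r ≤ R → 0 < r → ContinuousOn f (sphere c r) := by
    intro r h1 h2 _ w hw
    have h3 : ‖w - c‖ = r := by simpa [dist_eq_norm] using hw
    exact (hf w (h3 ▸ h1) (h3 ▸ h2)).continuousAt.continuousWithinAt
  have hexp : ∀ r : ℝ, ρ ≤ r → r ≤ R → 0 < r → (z ∉ sphere c r) →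
      (∮ w in C(c, r), dslope f z w) = CI c r f z - f z * ∮ w in C(c, r), (w - z)⁻¹ := by
    intro r h1 h2 h3 h4
    have hinv : ContinuousOn (fun w : ℂ => (w - z)⁻¹) (sphere c r) := by
      refine ContinuousOn.inv₀ (continuousOn_id.sub continuousOn_const) fun w hw h0 => ?_
      have : w = z := sub_eq_zero.1 h0
      exact h4 (this ▸ hw)
    unfold CI
    rw [← circleIntegral.integral_const_mul, ← circleIntegral.integral_sub]
    · refine circleIntegral.integral_congr h3.le fun w hw => ?_
      have hwz : w ≠ z := fun h => h4 (h ▸ hw)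
      rw [dslope_of_ne _ hwz, slope_def_field]
      rw [div_eq_mul_inv]
      ring
    · exact (hinv.mul (hfc r h1 h2 h3)).circleIntegrable h3.le
    · exact (continuousOn_const.mul hinv).circleIntegrable h3.le
  have hzR : z ∉ sphere c R := by
    rw [mem_sphere, dist_eq_norm]
    exact hz2.ne
  have hzρ : z ∉ sphere c ρ := by
    rw [mem_sphere, dist_eq_norm]
    exact hz1.ne'
  rw [hexp R hρR.le le_rfl hR hzR, hexp ρ le_rfl hρR.le hρ hzρ,
    circleIntegral.integral_sub_inv_of_mem_ball (by simpa [dist_eq_norm] using hz2)] at h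
  have h0 : (∮ w in C(c, ρ), (w - z)⁻¹) = 0 := by
    have hzb : ∀ w ∈ closedBall c ρ, w - z ≠ 0 := by
      intro w hw h0
      rw [sub_eq_zero.1 h0, mem_closedBall, dist_eq_norm] at hw
      linarith
    refine circleIntegral_eq_zero_of_differentiable_on_off_countable hρ.le Set.countable_empty
      (ContinuousOn.inv₀ (continuousOn_id.sub continuousOn_const) hzb) fun w hw => ?_
    exact (differentiableAt_id.sub_const z).inv (hzb w (ball_subset_closedBall hw.1))
  rw [h0, mul_zero, sub_zero] at h
  rw [← h]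
  ring

theorem isOpen_dom {n : ℕ} (c : Fin n → ℂ) (ρ : Fin n → ℝ) (R' : ℝ) :
    IsOpen {z : ℂ | ‖z‖ < R' ∧ ∀ i, ρ i < ‖z - c i‖} := by
  have : {z : ℂ | ‖z‖ < R' ∧ ∀ i, ρ i < ‖z - c i‖} =
      {z : ℂ | ‖z‖ < R'} ∩ ⋂ i, {z : ℂ | ρ i < ‖z - c i‖} := by
    ext z
    simp
  rw [this]
  refine (isOpen_lt continuous_norm continuous_const).inter (isOpen_iInter_of_finite fun i => ?_)
  exact isOpen_lt continuous_const (continuous_id.sub continuous_const).norm

end Cauchy_aux

open Cauchy_aux Metric in
theorem cauchy_holes {n : ℕ} (c : Fin n → ℂ) (ρ r : Fin n → ℝ) (R R' : ℝ) (f : ℂ → ℂ)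
    (hR : 0 < R) (hRR : R < R') (hρ : ∀ i, 0 < ρ i) (hr : ∀ i, ρ i < r i)
    (hin : ∀ i, ‖c i‖ + r i < R) (hdis : ∀ i j, i ≠ j → r i + r j < ‖c i - c j‖)
    (hf : DifferentiableOn ℂ f {z | ‖z‖ < R' ∧ ∀ i, ρ i < ‖z - c i‖}) :
    (∮ z in C(0, R), f z) = ∑ i, ∮ z in C(c i, r i), f z := by
  induction n generalizing f with
  | zero =>
    rw [Fin.sum_univ_zero]
    have hd : ∀ z ∈ closedBall (0 : ℂ) R, DifferentiableAt ℂ f z := by
      intro z hz
      have hz' : ‖z‖ ≤ R := by simpa using hz
      exact hf.differentiableAt ((isOpen_dom c ρ R').mem_nhds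
        ⟨lt_of_le_of_lt hz' hRR, fun i => i.elim0⟩)
    exact circleIntegral_eq_zero_of_differentiable_on_off_countable hR.le Set.countable_empty
      (fun z hz => (hd z hz).continuousAt.continuousWithinAt)
      fun z hz => hd z (ball_subset_closedBall hz.1)
  | succ n ih =>
    obtain ⟨ρ', h1, h2⟩ := exists_between (hr 0)
    have hρ' : 0 < ρ' := (hρ 0).trans h1
    have hr0 : 0 < r 0 := (hρ 0).trans (hr 0)
    have hri : ∀ i, 0 < r i := fun i => (hρ i).trans (hr i)
    have hfd : ∀ z : ℂ, ‖z‖ < R' → (∀ i, ρ i < ‖z - c i‖) → DifferentiableAt ℂ f z :=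
      fun z hz hz' => hf.differentiableAt ((isOpen_dom c ρ R').mem_nhds ⟨hz, hz'⟩)
    -- `f` is differentiable in the closed annulus
    have hann : ∀ w, ρ' ≤ ‖w - c 0‖ → ‖w - c 0‖ ≤ r 0 → DifferentiableAt ℂ f w := by
      intro w hw1 hw2
      refine hfd w ?_ fun i => ?_
      · have h3 : ‖w‖ ≤ ‖w - c 0‖ + ‖c 0‖ := by
          have := norm_add_le (w - c 0) (c 0)
          simpa using this
        have := hin 0
        linarith
      · by_cases hi : i = 0
        · rw [hi]
          exact lt_of_lt_of_le h1 hw1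
        · have h3 := hdis 0 i (Ne.symm hi)
          have h4 : ‖c 0 - c i‖ ≤ ‖w - c 0‖ + ‖w - c i‖ := by
            have := norm_sub_le (w - c i) (w - c 0)
            rw [show w - c i - (w - c 0) = c 0 - c i by ring] at this
            linarith
          have := hr i
          linarith
    have hcρ : ContinuousOn f (sphere (c 0) ρ') := by
      intro w hw
      have h3 : ‖w - c 0‖ = ρ' := by simpa [dist_eq_norm] using hw
      exact (hann w h3.ge (by linarith)).continuousAt.continuousWithinAt
    have hcr : ContinuousOn f (sphere (c 0) (r 0)) := by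
      intro w hw
      have h3 : ‖w - c 0‖ = r 0 := by simpa [dist_eq_norm] using hw
      exact (hann w (by linarith) h3.le).continuousAt.continuousWithinAt
    have hpi : (2 * Real.pi * I : ℂ) ≠ 0 := Complex.two_pi_I_ne_zero
    -- the extension over the hole
    let g : ℂ → ℂ := fun z => if ‖z - c 0‖ < r 0 then (2 * Real.pi * I)⁻¹ * CI (c 0) (r 0) f z
      else f z + (2 * Real.pi * I)⁻¹ * CI (c 0) ρ' f z
    have hg1 : ∀ z, ‖z - c 0‖ < r 0 → g z = (2 * Real.pi * I)⁻¹ * CI (c 0) (r 0) f z :=
      fun z hz => if_pos hz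
    have hg2 : ∀ z, ρ' < ‖z - c 0‖ → g z = f z + (2 * Real.pi * I)⁻¹ * CI (c 0) ρ' f z := by
      intro z hz
      by_cases hz2 : ‖z - c 0‖ < r 0
      · rw [hg1 z hz2]
        have h3 := annulus_formula hρ' hz hz2 hann
        have h4 : CI (c 0) (r 0) f z = 2 * Real.pi * I * f z + CI (c 0) ρ' f z := by
          rw [← h3]
          ring
        rw [h4, mul_add, ← mul_assoc, inv_mul_cancel₀ hpi, one_mul]
      · exact if_neg hz2
    have hgd : DifferentiableOn ℂ g {z | ‖z‖ < R' ∧ ∀ i : Fin n, ρ i.succ < ‖z - c i.succ‖} := by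
      intro z hz
      refine DifferentiableAt.differentiableWithinAt ?_
      by_cases hz2 : ‖z - c 0‖ < r 0
      · have hev : g =ᶠ[𝓝 z] fun z => (2 * Real.pi * I)⁻¹ * CI (c 0) (r 0) f z := by
          have ho : IsOpen {z : ℂ | ‖z - c 0‖ < r 0} :=
            isOpen_lt (continuous_id.sub continuous_const).norm continuous_const
          exact Filter.eventually_of_mem (ho.mem_nhds hz2) hg1
        refine (DifferentiableAt.const_mul ?_ _).congr_of_eventuallyEq hev
        refine CI_diff hr0 hcr ?_
        rw [mem_sphere, dist_eq_norm]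
        exact hz2.ne
      · have hz3 : ρ' < ‖z - c 0‖ := by linarith [not_lt.1 hz2]
        have hev : g =ᶠ[𝓝 z] fun z => f z + (2 * Real.pi * I)⁻¹ * CI (c 0) ρ' f z := by
          have ho : IsOpen {z : ℂ | ρ' < ‖z - c 0‖} :=
            isOpen_lt continuous_const (continuous_id.sub continuous_const).norm
          exact Filter.eventually_of_mem (ho.mem_nhds hz3) hg2
        refine DifferentiableAt.congr_of_eventuallyEq ?_ hev
        refine DifferentiableAt.add ?_ (DifferentiableAt.const_mul (CI_diff hρ' hcρ ?_) _)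
        · refine hfd z hz.1 fun i => ?_
          refine Fin.cases ?_ (fun i => hz.2 i) i
          exact h1.trans hz3
        · rw [mem_sphere, dist_eq_norm]
          exact hz3.ne'
    have hih := ih (fun i => c i.succ) (fun i => ρ i.succ) (fun i => r i.succ) g
      (fun i => hρ _) (fun i => hr _) (fun i => hin _)
      (fun i j hij => hdis _ _ fun h => hij (Fin.succ_injective _ h)) hgd
    -- integrals of `g`
    have hball : closedBall (c 0) ρ' ⊆ ball 0 R := by
      intro w hw
      have h3 : ‖w - c 0‖ ≤ ρ' := by simpa [dist_eq_norm] using hw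
      have h4 : ‖w‖ ≤ ‖w - c 0‖ + ‖c 0‖ := by
        have := norm_add_le (w - c 0) (c 0)
        simpa using this
      have := hin 0
      rw [mem_ball_zero_iff]
      linarith
    have hout : ∀ z : ℂ, ‖z‖ = R → ρ' < ‖z - c 0‖ := by
      intro z hz
      have h3 : ‖z‖ ≤ ‖z - c 0‖ + ‖c 0‖ := by
        have := norm_add_le (z - c 0) (c 0)
        simpa using this
      have := hin 0
      linarith
    have hfi0 : CircleIntegrable f 0 R := by
      refine ContinuousOn.circleIntegrable hR.le fun z hz => ?_
      have hz' : ‖z‖ = R := by simpa using hz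
      refine (hfd z (by linarith) fun i => ?_).continuousAt.continuousWithinAt
      have h3 : ‖z‖ ≤ ‖z - c i‖ + ‖c i‖ := by
        have := norm_add_le (z - c i) (c i)
        simpa using this
      have := hin i
      have := hr i
      linarith
    have hCI0 : CircleIntegrable (fun z => (2 * Real.pi * I)⁻¹ * CI (c 0) ρ' f z) 0 R := by
      refine ContinuousOn.circleIntegrable hR.le fun z hz => ?_
      have hz' : ‖z‖ = R := by simpa using hz
      refine (DifferentiableAt.const_mul (CI_diff hρ' hcρ ?_) _).continuousAt.continuousWithinAt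
      rw [mem_sphere, dist_eq_norm]
      exact (hout z hz').ne'
    have hG0 : (∮ z in C(0, R), g z) = (∮ z in C(0, R), f z) - ∮ z in C(c 0, r 0), f z := by
      have h3 : (∮ z in C(0, R), g z) =
          ∮ z in C(0, R), (f z + (2 * Real.pi * I)⁻¹ * CI (c 0) ρ' f z) :=
        circleIntegral.integral_congr hR.le fun z hz => hg2 z (hout z (by simpa using hz))
      have h4 : (∮ z in C(c 0, r 0), f z) = ∮ z in C(c 0, ρ'), f z := by
        refine circleIntegral_eq_of_differentiable_on_annulus_off_countable hρ' h2.le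
          Set.countable_empty (fun w hw => ?_) fun w hw => ?_
        · have h5 : ‖w - c 0‖ ≤ r 0 := by simpa [dist_eq_norm] using hw.1
          have h6 : ρ' ≤ ‖w - c 0‖ := by simpa [dist_eq_norm] using hw.2
          exact (hann w h6 h5).continuousAt.continuousWithinAt
        · have h5 : ‖w - c 0‖ < r 0 := by simpa [dist_eq_norm] using hw.1.1
          have h6 : ρ' < ‖w - c 0‖ := by simpa [dist_eq_norm] using hw.1.2
          exact hann w h6.le h5.le
      rw [h3, circleIntegral.integral_add hfi0 hCI0, circleIntegral.integral_const_mul,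
        int_CI_out hρ' hR hcρ hball, h4]
      field_simp
      ring
    have hGi : ∀ i : Fin n, (∮ z in C(c i.succ, r i.succ), g z) =
        ∮ z in C(c i.succ, r i.succ), f z := by
      intro i
      have hfar : ∀ z : ℂ, ‖z - c i.succ‖ ≤ r i.succ → ρ' < ‖z - c 0‖ := by
        intro z hz
        have h3 := hdis 0 i.succ (Fin.succ_ne_zero i).symm
        have h4 : ‖c 0 - c i.succ‖ ≤ ‖z - c 0‖ + ‖z - c i.succ‖ := by
          have := norm_sub_le (z - c i.succ) (z - c 0)
          rw [show z - c i.succ - (z - c 0) = c 0 - c i.succ by ring] at this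
          linarith
        linarith
      have hfi : CircleIntegrable f (c i.succ) (r i.succ) := by
        refine ContinuousOn.circleIntegrable (hri _).le fun z hz => ?_
        have hz' : ‖z - c i.succ‖ = r i.succ := by simpa [dist_eq_norm] using hz
        refine (hfd z ?_ fun j => ?_).continuousAt.continuousWithinAt
        · have h3 : ‖z‖ ≤ ‖z - c i.succ‖ + ‖c i.succ‖ := by
            have := norm_add_le (z - c i.succ) (c i.succ)
            simpa using this
          have := hin i.succ
          linarith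
        · by_cases hj : j = i.succ
          · rw [hj, hz']
            exact hr _
          · have h3 := hdis j i.succ hj
            have h4 : ‖c j - c i.succ‖ ≤ ‖z - c j‖ + ‖z - c i.succ‖ := by
              have := norm_sub_le (z - c i.succ) (z - c j)
              rw [show z - c i.succ - (z - c j) = c j - c i.succ by ring] at this
              linarith
            have := hr j
            linarith
      have hCi : CircleIntegrable (fun z => (2 * Real.pi * I)⁻¹ * CI (c 0) ρ' f z) (c i.succ)
          (r i.succ) := by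
        refine ContinuousOn.circleIntegrable (hri _).le fun z hz => ?_
        have hz' : ‖z - c i.succ‖ = r i.succ := by simpa [dist_eq_norm] using hz
        refine (DifferentiableAt.const_mul (CI_diff hρ' hcρ ?_) _).continuousAt.continuousWithinAt
        rw [mem_sphere, dist_eq_norm]
        exact (hfar z hz'.le).ne'
      have h3 : (∮ z in C(c i.succ, r i.succ), g z) =
          ∮ z in C(c i.succ, r i.succ), (f z + (2 * Real.pi * I)⁻¹ * CI (c 0) ρ' f z) :=
        circleIntegral.integral_congr (hri _).le fun z hz =>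
          hg2 z (hfar z (le_of_eq (by simpa [dist_eq_norm] using hz)))
      have h4 : (∮ z in C(c i.succ, r i.succ), CI (c 0) ρ' f z) = 0 := by
        refine int_CI_zero hρ' (hri _) hcρ fun z hz => ?_
        rw [mem_sphere, dist_eq_norm]
        exact (hfar z (by simpa [dist_eq_norm] using hz)).ne'
      rw [h3, circleIntegral.integral_add hfi hCi, circleIntegral.integral_const_mul, h4, mul_zero,
        add_zero]
    rw [Fin.sum_univ_succ]
    rw [hG0, Finset.sum_congr rfl fun i _ => hGi i] at hih
    rw [← hih]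
    ring

end Pool.Agent.AM.Hyp
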