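import Pool.Agent.AM.Hyp.ArgP1
import Pool.Agent.AM.Hyp.Cauchy

/-! Argument principle on the regions `KK D.c R r`. -/

set_option autoImplicit false
open Complex Filter Topology
namespace Pool.Agent.AM.Hyp

namespace ArgP

/-- one factor -/
theorem factor_one {O : Set ℂ} (hO : IsOpen O) {F : ℂ → ℂ} (hF : DifferentiableOn ℂ F O)
    {ζ : ℂ} (hζ : ζ ∈ O) (hne : ¬ ∀ᶠ z in 𝓝 ζ, F z = 0) :
    ∃ (n : ℕ) (h : ℂ → ℂ), DifferentiableOn ℂ h O ∧ h ζ ≠ 0 ∧
      ∀ z ∈ O, F z = (z - ζ) ^ n * h z := by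
  have hA : AnalyticAt ℂ F ζ := hF.analyticAt (hO.mem_nhds hζ)
  obtain ⟨n, u, hu, hu0, hev⟩ := hA.exists_eventuallyEq_pow_smul_nonzero_iff.2 hne
  classical
  refine ⟨n, fun z => if z = ζ then u ζ else F z / (z - ζ) ^ n, ?_, by simpa using hu0, ?_⟩
  · intro z hz
    by_cases hzζ : z = ζ
    · subst hzζ
      refine DifferentiableAt.differentiableWithinAt ?_
      refine hu.differentiableAt.congr_of_eventuallyEq ?_
      filter_upwards [hev] with y hy
      by_cases hyz : y = z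
      · simp [hyz]
      · have h1 : (y - z) ^ n ≠ 0 := pow_ne_zero _ (sub_ne_zero.2 hyz)
        simp only [hyz, if_false]
        rw [hy, smul_eq_mul, mul_div_cancel_left₀ _ h1]
    · refine DifferentiableAt.differentiableWithinAt ?_
      have h2 : DifferentiableAt ℂ (fun y => F y / (y - ζ) ^ n) z := by
        refine (hF.differentiableAt (hO.mem_nhds hz)).div ?_ (pow_ne_zero _ (sub_ne_zero.2 hzζ))
        fun_prop
      refine h2.congr_of_eventuallyEq ?_
      filter_upwards [isOpen_ne.mem_nhds hzζ] with y hy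
      simp [hy]
  · intro z hz
    by_cases hzζ : z = ζ
    · subst hzζ
      simp only [if_true]
      have := hev.self_of_nhds
      rwa [smul_eq_mul] at this
    · have h1 : (z - ζ) ^ n ≠ 0 := pow_ne_zero _ (sub_ne_zero.2 hzζ)
      simp only [hzζ, if_false]
      rw [mul_div_cancel₀ _ h1]

/-- factorisation with respect to finitely many zeros -/
theorem factor_all {O K : Set ℂ} (hO : IsOpen O) (hc : IsPreconnected O) (hK : K ⊆ O)
    (S : Finset ℂ) : ∀ F : ℂ → ℂ, DifferentiableOn ℂ F O → (∃ z ∈ O, F z ≠ 0) →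
      (∀ ζ ∈ K, F ζ = 0 → ζ ∈ S) →
      ∃ (Z : Multiset ℂ) (h : ℂ → ℂ), (∀ ζ ∈ Z, ζ ∈ K ∧ F ζ = 0) ∧ DifferentiableOn ℂ h O ∧
        (∀ z ∈ K, h z ≠ 0) ∧ ∀ z ∈ O, F z = (Z.map (fun ζ => z - ζ)).prod * h z := by
  classical
  induction S using Finset.induction_on with
  | empty =>
    intro F hF _ hS
    refine ⟨0, F, by simp, hF, fun z hz h0 => ?_, fun z _ => by simp⟩
    exact absurd (hS z hz h0) (by simp)
  | insert ζ S _ ih =>
    intro F hF hne hS
    by_cases hζ : ζ ∈ K ∧ F ζ = 0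
    · obtain ⟨hζK, hζ0⟩ := hζ
      have hnl : ¬ ∀ᶠ z in 𝓝 ζ, F z = 0 := by
        intro hev
        obtain ⟨z, hz, hz0⟩ := hne
        exact hz0 ((hF.analyticOnNhd hO).eqOn_zero_of_preconnected_of_eventuallyEq_zero hc
          (hK hζK) hev hz)
      obtain ⟨n, h, hh, hh0, hFh⟩ := factor_one hO hF (hK hζK) hnl
      have hneh : ∃ z ∈ O, h z ≠ 0 := by
        obtain ⟨z, hz, hz0⟩ := hne
        refine ⟨z, hz, fun h0 => hz0 ?_⟩
        rw [hFh z hz, h0, mul_zero]
      have hSh : ∀ ζ ∈ K, h ζ = 0 → ζ ∈ S := by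
        intro η hη hη0
        have h1 : η ∈ insert ζ S := hS η hη (by rw [hFh η (hK hη), hη0, mul_zero])
        rcases Finset.mem_insert.1 h1 with h2 | h2
        · exact absurd hη0 (h2 ▸ hh0)
        · exact h2
      obtain ⟨Z, h', hZ, hh', hh'0, hfac⟩ := ih h hh hneh hSh
      refine ⟨Multiset.replicate n ζ + Z, h', ?_, hh', hh'0, ?_⟩
      · intro η hη
        rcases Multiset.mem_add.1 hη with h1 | h1
        · rw [Multiset.eq_of_mem_replicate h1]
          exact ⟨hζK, hζ0⟩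
        · obtain ⟨h2, h3⟩ := hZ η h1
          refine ⟨h2, ?_⟩
          rw [hFh η (hK h2), h3, mul_zero]
      · intro z hz
        rw [hFh z hz, hfac z hz, Multiset.map_add, Multiset.prod_add, Multiset.map_replicate,
          Multiset.prod_replicate, mul_assoc]
    · refine ih F hF hne fun η hη hη0 => ?_
      rcases Finset.mem_insert.1 (hS η hη hη0) with h2 | h2
      · exact absurd ⟨h2 ▸ hη, h2 ▸ hη0⟩ hζ
      · exact h2

/-- finitely many zeros in a compact set -/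
theorem finite_zeros {O K : Set ℂ} (hO : IsOpen O) (hc : IsPreconnected O) (hK : K ⊆ O)
    (hKc : IsCompact K) {F : ℂ → ℂ} (hF : DifferentiableOn ℂ F O) (hne : ∃ z ∈ O, F z ≠ 0) :
    {z | z ∈ K ∧ F z = 0}.Finite := by
  by_contra hinf
  obtain ⟨x, hx, hacc⟩ := Set.Infinite.exists_accPt_of_subset_isCompact hinf hKc
    (fun z hz => hz.1)
  have h1 : ∃ᶠ z in 𝓝[≠] x, F z = 0 := by
    have h2 := accPt_iff_frequently_nhdsNE.1 hacc
    exact h2.mono fun z hz => hz.2
  obtain ⟨z, hz, hz0⟩ := hne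
  exact hz0 ((hF.analyticOnNhd hO).eqOn_zero_of_preconnected_of_frequently_eq_zero hc (hK hx) h1 hz)

/-- logarithmic derivative of the factorised function -/
theorem logder (Z : Multiset ℂ) : ∀ (h : ℂ → ℂ) (z : ℂ), DifferentiableAt ℂ h z → h z ≠ 0 →
    (∀ ζ ∈ Z, z ≠ ζ) →
    deriv (fun y => (Z.map (fun ζ => y - ζ)).prod * h y) z /
      ((Z.map (fun ζ => z - ζ)).prod * h z) =
      (Z.map (fun ζ => (z - ζ)⁻¹)).sum + deriv h z / h z := by
  induction Z using Multiset.induction_on with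
  | empty =>
    intro h z _ _ _
    simp
  | cons ζ Z ih =>
    intro h z hh h0 hZ
    have hzζ : z - ζ ≠ 0 := sub_ne_zero.2 (hZ ζ (Multiset.mem_cons_self _ _))
    have h1 := ih (fun y => (y - ζ) * h y) z (by fun_prop) (mul_ne_zero hzζ h0)
      (fun η hη => hZ η (Multiset.mem_cons_of_mem hη))
    have h2 : (fun y => ((ζ ::ₘ Z).map (fun ζ => y - ζ)).prod * h y) =
        fun y => (Z.map (fun ζ => y - ζ)).prod * ((y - ζ) * h y) := by
      funext y
      rw [Multiset.map_cons, Multiset.prod_cons]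
      ring
    have h3 : ((ζ ::ₘ Z).map (fun ζ => z - ζ)).prod * h z =
        (Z.map (fun ζ => z - ζ)).prod * ((z - ζ) * h z) := congrFun h2 z
    rw [h2, h3, h1, Multiset.map_cons, Multiset.sum_cons]
    have h4 : deriv (fun y => (y - ζ) * h y) z = h z + (z - ζ) * deriv h z := by
      have h5 : HasDerivAt (fun y => (y - ζ) * h y) (1 * h z + (z - ζ) * deriv h z) z :=
        ((hasDerivAt_id z).sub_const ζ).mul hh.hasDerivAt
      rw [h5.deriv, one_mul]
    rw [h4]
    field_simp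
    ring

theorem int_in {R : ℝ} {ζ : ℂ} (h : ‖ζ‖ < R) : (∮ z in C(0, R), (z - ζ)⁻¹) = 2 * Real.pi * I :=
  circleIntegral.integral_sub_inv_of_mem_ball (by simpa using h)

theorem int_out {c ζ : ℂ} {r : ℝ} (hr : 0 ≤ r) (h : r < ‖ζ - c‖) :
    (∮ z in C(c, r), (z - ζ)⁻¹) = 0 := by
  have h1 : ∀ z ∈ Metric.closedBall c r, z - ζ ≠ 0 := by
    intro z hz h0
    have h2 : z = ζ := sub_eq_zero.1 h0
    rw [h2, Metric.mem_closedBall, dist_eq_norm] at hz
    linarith
  refine circleIntegral_eq_zero_of_differentiable_on_off_countable hr Set.countable_empty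
    ?_ ?_
  · exact ContinuousOn.inv₀ (by fun_prop) h1
  · rintro z ⟨hz, -⟩
    exact DifferentiableAt.inv (by fun_prop) (h1 z (Metric.ball_subset_closedBall hz))

theorem int_sum {c : ℂ} {r : ℝ} (hr : 0 ≤ r) (Z : Multiset ℂ) :
    ∀ (k : ℂ → ℂ), CircleIntegrable k c r → (∀ ζ ∈ Z, ∀ z : ℂ, ‖z - c‖ = r → z ≠ ζ) →
    CircleIntegrable (fun z => (Z.map (fun ζ => (z - ζ)⁻¹)).sum + k z) c r ∧
    (∮ z in C(c, r), ((Z.map (fun ζ => (z - ζ)⁻¹)).sum + k z)) =
      (Z.map (fun ζ => ∮ z in C(c, r), (z - ζ)⁻¹)).sum + ∮ z in C(c, r), k z := by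
  induction Z using Multiset.induction_on with
  | empty =>
    intro k hk _
    simpa using hk
  | cons ζ Z ih =>
    intro k hk hZ
    have h0 : CircleIntegrable (fun z => (z - ζ)⁻¹) c r := by
      refine ContinuousOn.circleIntegrable hr (ContinuousOn.inv₀ (by fun_prop) ?_)
      intro z hz h0
      refine hZ ζ (Multiset.mem_cons_self _ _) z ?_ (sub_eq_zero.1 h0)
      rwa [mem_sphere_iff_norm] at hz
    obtain ⟨h1, h2⟩ := ih k hk (fun η hη => hZ η (Multiset.mem_cons_of_mem hη))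
    have h3 : (fun z => ((ζ ::ₘ Z).map (fun ζ => (z - ζ)⁻¹)).sum + k z) =
        fun z => (z - ζ)⁻¹ + ((Z.map (fun ζ => (z - ζ)⁻¹)).sum + k z) := by
      funext z
      rw [Multiset.map_cons, Multiset.sum_cons, add_assoc]
    constructor
    · rw [h3]
      exact h0.add h1
    · rw [h3, circleIntegral.integral_add h0 h1, h2, Multiset.map_cons, Multiset.sum_cons,
        add_assoc]

end ArgP

namespace HypData
variable {g : ℕ} (D : HypData g)

theorem ArgP_circle0_sub {R : ℝ} {r : Fin g → ℝ} (hA : D.Adm R r) {z : ℂ} (hz : ‖z‖ = R) :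
    z ∈ KK D.c R r := by
  refine ⟨hz.le, fun i => ?_⟩
  have h1 := D.ann0_far z (by rw [hz]; exact hA.1) i
  have h2 := (hA.2.2 i).2
  linarith

theorem ArgP_circle_sub {R : ℝ} {r : Fin g → ℝ} (hA : D.Adm R r) (i : Fin g) {z : ℂ}
    (hz : ‖z - D.c i‖ = r i) : z ∈ KK D.c R r := by
  have h2 := (hA.2.2 i).2
  obtain ⟨h3, h4⟩ := D.ann_far i z (by rw [hz]; exact h2)
  refine ⟨by linarith [hA.1], fun k => ?_⟩
  by_cases hk : k = i
  · rw [hk, hz]
  · have h5 := h4 k hk
    have h6 := (hA.2.2 k).2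
    linarith

/-- a slightly larger region on which `h` has no zeros -/
theorem ArgP_enlarge {R : ℝ} {r : Fin g → ℝ} (hA : D.Adm R r) {O : Set ℂ} (hO : IsOpen O)
    (hK : KK D.c R r ⊆ O) : ∃ (R' : ℝ) (ρ : Fin g → ℝ), R < R' ∧ (∀ i, 0 < ρ i) ∧
      (∀ i, ρ i < r i) ∧ KK D.c R' ρ ⊆ O := by
  have hep := D.ep_pos
  let V : ℕ → Set ℂ := fun n => KK D.c (R + D.ep / 4 / ((n : ℝ) + 1))
    (fun i => r i - D.ep / 4 / ((n : ℝ) + 1))
  have hanti : Antitone V := by
    intro m n hmn z hz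
    have h1 : D.ep / 4 / ((n : ℝ) + 1) ≤ D.ep / 4 / ((m : ℝ) + 1) := by
      apply div_le_div_of_nonneg_left (by positivity) (by positivity)
      exact_mod_cast Nat.succ_le_succ hmn
    refine ⟨hz.1.trans (by linarith), fun i => le_trans ?_ (hz.2 i)⟩
    change r i - D.ep / 4 / ((m : ℝ) + 1) ≤ r i - D.ep / 4 / ((n : ℝ) + 1)
    linarith
  have hlim : Tendsto (fun n : ℕ => D.ep / 4 / ((n : ℝ) + 1)) atTop (𝓝 0) := by
    have h1 := (tendsto_one_div_add_atTop_nhds_zero_nat (𝕜 := ℝ)).const_mul (D.ep / 4)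
    rw [mul_zero] at h1
    refine h1.congr fun n => ?_
    ring
  have hU : ∀ x ∈ ⋂ n, V n, O ∈ 𝓝 x := by
    intro x hx
    refine hO.mem_nhds (hK ⟨?_, fun i => ?_⟩)
    · have h1 : Tendsto (fun n : ℕ => R + D.ep / 4 / ((n : ℝ) + 1)) atTop (𝓝 (R + 0)) :=
        hlim.const_add R
      rw [add_zero] at h1
      exact ge_of_tendsto' h1 fun n => (Set.mem_iInter.1 hx n).1
    · have h1 : Tendsto (fun n : ℕ => r i - D.ep / 4 / ((n : ℝ) + 1)) atTop (𝓝 (r i - 0)) :=
        hlim.const_sub (r i)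
      rw [sub_zero] at h1
      exact le_of_tendsto' h1 fun n => (Set.mem_iInter.1 hx n).2 i
  obtain ⟨n, hn⟩ := exists_subset_nhds_of_isCompact (V := V) (hanti.directed_ge)
    (fun n => KK_compact _ _ _) hU
  have h1 : 0 < D.ep / 4 / ((n : ℝ) + 1) := by positivity
  have h2 : D.ep / 4 / ((n : ℝ) + 1) ≤ D.ep / 4 := by
    apply div_le_self (by positivity)
    have : (0 : ℝ) ≤ n := Nat.cast_nonneg n
    linarith
  refine ⟨_, _, by linarith, fun i => ?_, fun i => ?_, hn⟩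
  · have h3 := (hA.2.2 i).1
    change 0 < r i - D.ep / 4 / ((n : ℝ) + 1)
    linarith
  · linarith

theorem arg_principle (R : ℝ) (r : Fin g → ℝ) (hA : D.Adm R r) (F : ℂ → ℂ)
    (hF : DifferentiableOn ℂ F D.Om) (h0 : ∀ z : ℂ, ‖z‖ = R → F z ≠ 0)
    (h1 : ∀ i, ∀ z : ℂ, ‖z - D.c i‖ = r i → F z ≠ 0) :
    ∃ Z : Multiset ℂ, D.ZData F R r Z ∧
      (∮ z in C(0, R), deriv F z / F z) - ∑ i, (∮ z in C((D.c i : ℂ), r i), deriv F z / F z) =
        2 * (Real.pi : ℂ) * I * (Multiset.card Z : ℂ) := by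
  have hOm := D.isOpen_Om
  have hKO := D.KK_sub R r hA
  have hR0 : 0 < R := by linarith [hA.1]
  have hep := D.ep_pos
  have hr0 : ∀ i, 0 < r i := fun i => by linarith [(hA.2.2 i).1]
  have hRn : ‖(R : ℂ)‖ = R := by rw [Complex.norm_real, Real.norm_of_nonneg hR0.le]
  have hne : ∃ z ∈ D.Om, F z ≠ 0 :=
    ⟨(R : ℂ), hKO (D.ArgP_circle0_sub hA hRn), h0 _ hRn⟩
  have hfin := ArgP.finite_zeros hOm D.Om_preconnected hKO (KK_compact _ _ _) hF hne
  obtain ⟨Z, h, hZ, hh, hh0, hfac⟩ := ArgP.factor_all hOm D.Om_preconnected hKO hfin.toFinset F hF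
    hne (fun ζ hζ hζ0 => by rw [Set.Finite.mem_toFinset]; exact ⟨hζ, hζ0⟩)
  have hZb : ∀ ζ ∈ Z, ‖ζ‖ < R ∧ ∀ i, r i < ‖ζ - D.c i‖ := by
    intro ζ hζ
    obtain ⟨h2, h3⟩ := hZ ζ hζ
    refine ⟨lt_of_le_of_ne h2.1 fun h4 => h0 ζ h4 h3, fun i => ?_⟩
    exact lt_of_le_of_ne (h2.2 i) fun h4 => h1 i ζ h4.symm h3
  refine ⟨Z, ⟨fun ζ hζ => ⟨hKO (hZ ζ hζ).1, hZb ζ hζ⟩, h, hh, hh0, hfac⟩, ?_⟩
  -- the logarithmic derivative on the boundary
  have hlog : ∀ z ∈ KK D.c R r, (∀ ζ ∈ Z, z ≠ ζ) →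
      deriv F z / F z = (Z.map (fun ζ => (z - ζ)⁻¹)).sum + deriv h z / h z := by
    intro z hz hzZ
    have h2 : F =ᶠ[𝓝 z] fun y => (Z.map (fun ζ => y - ζ)).prod * h y :=
      eventuallyEq_of_mem (hOm.mem_nhds (hKO hz)) hfac
    rw [h2.deriv_eq, hfac z (hKO hz)]
    exact ArgP.logder Z h z (hh.differentiableAt (hOm.mem_nhds (hKO hz))) (hh0 z hz) hzZ
  have hdh : DifferentiableOn ℂ (deriv h) D.Om := hh.deriv hOm
  have hcont : ContinuousOn (fun z => deriv h z / h z) (KK D.c R r) :=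
    (hdh.continuousOn.mono hKO).div (hh.continuousOn.mono hKO) hh0
  -- outer circle
  have hout : (∮ z in C(0, R), deriv F z / F z) =
      2 * (Real.pi : ℂ) * I * (Multiset.card Z : ℂ) + ∮ z in C(0, R), deriv h z / h z := by
    have h2 : (∮ z in C(0, R), deriv F z / F z) =
        ∮ z in C(0, R), ((Z.map (fun ζ => (z - ζ)⁻¹)).sum + deriv h z / h z) := by
      refine circleIntegral.integral_congr hR0.le fun z hz => ?_
      have hz' : ‖z‖ = R := by simpa using hz
      refine hlog z (D.ArgP_circle0_sub hA hz') fun ζ hζ hzζ => ?_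
      have := (hZb ζ hζ).1
      rw [← hzζ, hz'] at this
      exact lt_irrefl _ this
    rw [h2, (ArgP.int_sum hR0.le Z _ ?_ ?_).2]
    · congr 1
      rw [Multiset.map_congr rfl (fun ζ hζ => ArgP.int_in (hZb ζ hζ).1), Multiset.map_const',
        Multiset.sum_replicate, nsmul_eq_mul]
      ring
    · refine (hcont.mono fun z hz => ?_).circleIntegrable hR0.le
      exact D.ArgP_circle0_sub hA (by simpa using hz)
    · intro ζ hζ z hz hzζ
      have := (hZb ζ hζ).1
      rw [← hzζ] at this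
      rw [sub_zero] at hz
      linarith
  -- inner circles
  have hinn : ∀ i, (∮ z in C((D.c i : ℂ), r i), deriv F z / F z) =
      ∮ z in C((D.c i : ℂ), r i), deriv h z / h z := by
    intro i
    have h2 : (∮ z in C((D.c i : ℂ), r i), deriv F z / F z) =
        ∮ z in C((D.c i : ℂ), r i), ((Z.map (fun ζ => (z - ζ)⁻¹)).sum + deriv h z / h z) := by
      refine circleIntegral.integral_congr (hr0 i).le fun z hz => ?_
      have hz' : ‖z - D.c i‖ = r i := by
        rwa [mem_sphere_iff_norm] at hz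
      refine hlog z (D.ArgP_circle_sub hA i hz') fun ζ hζ hzζ => ?_
      have := (hZb ζ hζ).2 i
      rw [← hzζ, hz'] at this
      exact lt_irrefl _ this
    rw [h2, (ArgP.int_sum (hr0 i).le Z _ ?_ ?_).2]
    · rw [Multiset.map_congr rfl (fun ζ hζ => ArgP.int_out (hr0 i).le ((hZb ζ hζ).2 i)),
        Multiset.map_const', Multiset.sum_replicate, smul_zero, zero_add]
    · refine (hcont.mono fun z hz => ?_).circleIntegrable (hr0 i).le
      exact D.ArgP_circle_sub hA i (by rwa [mem_sphere_iff_norm] at hz)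
    · intro ζ hζ z hz hzζ
      have := (hZb ζ hζ).2 i
      rw [← hzζ] at this
      linarith
  -- the remaining function
  have hopen : IsOpen {z | z ∈ D.Om ∧ h z ≠ 0} := by
    have h2 : {z | z ∈ D.Om ∧ h z ≠ 0} = D.Om ∩ h ⁻¹' {0}ᶜ := by
      ext z; simp
    rw [h2]
    exact hh.continuousOn.isOpen_inter_preimage hOm isOpen_compl_singleton
  obtain ⟨R', ρ, hRR, hρ0, hρr, hsub⟩ := D.ArgP_enlarge hA hopen
    (fun z hz => ⟨hKO hz, hh0 z hz⟩)
  · have hcau := cauchy_holes (fun i => (D.c i : ℂ)) ρ r R R' (fun z => deriv h z / h z) hR0 hRR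
      hρ0 hρr ?_ ?_ ?_
    · rw [hout, Finset.sum_congr rfl (fun i _ => hinn i), hcau]
      ring
    · intro i
      have h2 := D.c_le i
      have h3 := D.c_ge i
      have h4 := (hA.2.2 i).2
      have h5 := D.ep_lt
      rw [Complex.norm_real, Real.norm_of_nonneg (by linarith)]
      linarith [hA.1]
    · intro i j hij
      have h2 := D.sep i j hij
      have h3 := (hA.2.2 i).2
      have h4 := (hA.2.2 j).2
      rw [← Complex.ofReal_sub, Complex.norm_real, Real.norm_eq_abs]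
      linarith
    · intro z hz
      have h2 := hsub (show z ∈ KK D.c R' ρ from ⟨hz.1.le, fun i => (hz.2 i).le⟩)
      refine DifferentiableAt.differentiableWithinAt ?_
      exact (hdh.differentiableAt (hOm.mem_nhds h2.1)).div
        (hh.differentiableAt (hOm.mem_nhds h2.1)) h2.2

end HypData
end Pool.Agent.AM.Hyp
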