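import Pool.Agent.AM.Hyp.Geo

/-! Zero multisets on the regions `KK D.c R r`: elementary facts. -/

set_option autoImplicit false
open Complex Filter Topology
namespace Pool.Agent.AM.Hyp
namespace HypData
variable {g : ℕ} (D : HypData g)

/-- a nonzero holomorphic function has finitely many zeros in a compact set -/
theorem ArgP1_finite (F : ℂ → ℂ) (hF : DifferentiableOn ℂ F D.Om) (hne : ∃ z ∈ D.Om, F z ≠ 0)
    (K : Set ℂ) (hK : IsCompact K) (hKO : K ⊆ D.Om) : {z | z ∈ K ∧ F z = 0}.Finite := by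
  by_contra hinf
  obtain ⟨x, hx, hacc⟩ := Set.Infinite.exists_accPt_of_subset_isCompact hinf hK
    (fun z hz => hz.1)
  have hA : AnalyticOnNhd ℂ F D.Om := hF.analyticOnNhd D.isOpen_Om
  have hfr : ∃ᶠ z in 𝓝[≠] x, F z = 0 := by
    rw [accPt_iff_frequently_nhdsNE] at hacc
    exact hacc.mono fun z hz => hz.2
  have h0 := hA.eqOn_zero_of_preconnected_of_frequently_eq_zero D.Om_preconnected (hKO hx) hfr
  obtain ⟨z, hz, hz0⟩ := hne
  exact hz0 (h0 hz)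

/-- a good radius in an annulus -/
theorem ArgP1_radius (N : ℕ) (F : Fin N → ℂ → ℂ) (hF : ∀ k, DifferentiableOn ℂ (F k) D.Om)
    (hne : ∀ k, ∃ z ∈ D.Om, F k z ≠ 0) (p : ℂ) (a b : ℝ) (hab : a < b)
    (hann : ∀ z : ℂ, a < ‖z - p‖ → ‖z - p‖ < b → z ∈ D.Om) :
    ∃ R : ℝ, a < R ∧ R < b ∧ ∀ k, ∀ z : ℂ, ‖z - p‖ = R → F k z ≠ 0 := by
  obtain ⟨a', ha1, ha2⟩ := exists_between hab
  obtain ⟨b', hb1, hb2⟩ := exists_between ha2
  let K : Set ℂ := {z | a' ≤ ‖z - p‖ ∧ ‖z - p‖ ≤ b'}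
  have hKc : IsClosed K := by
    have h1 : Continuous fun z : ℂ => ‖z - p‖ := by fun_prop
    exact (isClosed_le continuous_const h1).inter (isClosed_le h1 continuous_const)
  have hK : IsCompact K := by
    refine (isCompact_closedBall p b').of_isClosed_subset hKc fun z hz => ?_
    rw [Metric.mem_closedBall, dist_eq_norm]
    exact hz.2
  have hKO : K ⊆ D.Om := fun z hz => hann z (lt_of_lt_of_le ha1 hz.1) (lt_of_le_of_lt hz.2 hb2)
  have hfin : (⋃ k, (fun z : ℂ => ‖z - p‖) '' {z | z ∈ K ∧ F k z = 0}).Finite :=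
    Set.finite_iUnion fun k => (D.ArgP1_finite (F k) (hF k) (hne k) K hK hKO).image _
  obtain ⟨R, hR, hR2⟩ := (Set.Ioo_infinite hb1).exists_notMem_finite hfin
  refine ⟨R, lt_trans ha1 hR.1, lt_trans hR.2 hb2, fun k z hz h0 => hR2 ?_⟩
  refine Set.mem_iUnion.2 ⟨k, z, ⟨⟨?_, ?_⟩, h0⟩, hz⟩
  · rw [hz]
    exact hR.1.le
  · rw [hz]
    exact hR.2.le

/-- finitely many nonzero functions have no zeros on suitable circles -/
theorem exists_radii (N : ℕ) (F : Fin N → ℂ → ℂ) (hF : ∀ k, DifferentiableOn ℂ (F k) D.Om)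
    (hne : ∀ k, ∃ z ∈ D.Om, F k z ≠ 0) (R1 R0 : ℝ) (h1 : 2 / 3 ≤ R1) (h2 : R1 < R0)
    (h3 : R0 ≤ 3 / 2) (ρ1 ρ0 : Fin g → ℝ) (h4 : ∀ i, D.ep / 2 ≤ ρ1 i) (h5 : ∀ i, ρ1 i < ρ0 i)
    (h6 : ∀ i, ρ0 i ≤ 2 * D.ep) :
    ∃ (R : ℝ) (r : Fin g → ℝ), R1 < R ∧ R < R0 ∧ (∀ i, ρ1 i < r i ∧ r i < ρ0 i) ∧
      ∀ k, (∀ z : ℂ, ‖z‖ = R → F k z ≠ 0) ∧ ∀ i, ∀ z : ℂ, ‖z - D.c i‖ = r i → F k z ≠ 0 := by
  obtain ⟨R, hR1, hR2, hR3⟩ := D.ArgP1_radius N F hF hne 0 R1 R0 h2 (fun z hz1 hz2 => by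
    rw [sub_zero] at hz1 hz2
    exact D.ann0_sub z (by linarith) (by linarith))
  have h7 : ∀ i, ∃ r : ℝ, ρ1 i < r ∧ r < ρ0 i ∧
      ∀ k, ∀ z : ℂ, ‖z - D.c i‖ = r → F k z ≠ 0 := fun i =>
    D.ArgP1_radius N F hF hne (D.c i) (ρ1 i) (ρ0 i) (h5 i) (fun z hz1 hz2 =>
      D.ann_sub i z (lt_of_le_of_lt (h4 i) hz1) (lt_of_lt_of_le hz2 (h6 i)))
  choose r hr1 hr2 hr3 using h7
  refine ⟨R, r, hR1, hR2, fun i => ⟨hr1 i, hr2 i⟩, fun k => ⟨fun z hz => ?_, fun i z hz => ?_⟩⟩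
  · exact hR3 k z (by rw [sub_zero]; exact hz)
  · exact hr3 i k z hz

variable {D}

theorem ZData.zero_of_mem {F : ℂ → ℂ} {R : ℝ} {r : Fin g → ℝ} {Z : Multiset ℂ}
    (hZ : D.ZData F R r Z) {ζ : ℂ} (h : ζ ∈ Z) : F ζ = 0 := by
  obtain ⟨h1, hh, h2, h3, h4⟩ := hZ
  rw [h4 ζ (h1 ζ h).1]
  have h5 : (Z.map (fun x => ζ - x)).prod = 0 :=
    Multiset.prod_eq_zero (Multiset.mem_map.2 ⟨ζ, h, sub_self ζ⟩)
  rw [h5, zero_mul]

/-- a zero of the product is a member -/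
theorem ArgP1_mem {Z : Multiset ℂ} {ζ : ℂ} (h : (Z.map (fun x => ζ - x)).prod = 0) : ζ ∈ Z := by
  rw [Multiset.prod_eq_zero_iff, Multiset.mem_map] at h
  obtain ⟨x, hx, hx0⟩ := h
  rw [sub_eq_zero.1 hx0]
  exact hx

theorem ZData.mem_of_zero {F : ℂ → ℂ} {R : ℝ} {r : Fin g → ℝ} {Z : Multiset ℂ}
    (hZ : D.ZData F R r Z) {ζ : ℂ} (h : ζ ∈ KK D.c R r) (hO : ζ ∈ D.Om) (h0 : F ζ = 0) :
    ζ ∈ Z := by
  obtain ⟨h1, hh, h2, h3, h4⟩ := hZ
  rw [h4 ζ hO] at h0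
  rcases mul_eq_zero.1 h0 with h5 | h5
  · exact ArgP1_mem h5
  · exact absurd h5 (h3 ζ h)

/-- the product is differentiable -/
theorem ArgP1_diff (Z : Multiset ℂ) : Differentiable ℂ fun z => (Z.map (fun x => z - x)).prod := by
  induction Z using Multiset.induction with
  | empty => simp
  | cons a s ih =>
    simp only [Multiset.map_cons, Multiset.prod_cons]
    exact (differentiable_id.sub_const a).mul ih

theorem ZData.count_two {F : ℂ → ℂ} {R : ℝ} {r : Fin g → ℝ} {Z : Multiset ℂ}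
    (hZ : D.ZData F R r Z) {ζ : ℂ} (h : ζ ∈ KK D.c R r) (hO : ζ ∈ D.Om) (h0 : F ζ = 0)
    (h1 : deriv F ζ = 0) : 2 ≤ Z.count ζ := by
  have hmem := hZ.mem_of_zero h hO h0
  obtain ⟨-, hh, h2, h3, h4⟩ := hZ
  obtain ⟨Z', hZ'⟩ := Multiset.exists_cons_of_mem hmem
  let G : ℂ → ℂ := fun z => (Z'.map (fun x => z - x)).prod * hh z
  have hG : DifferentiableAt ℂ G ζ :=
    (ArgP1_diff Z').differentiableAt.mul (h2.differentiableAt (D.isOpen_Om.mem_nhds hO))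
  have hFG : F =ᶠ[𝓝 ζ] fun z => (z - ζ) * G z := by
    filter_upwards [D.isOpen_Om.mem_nhds hO] with z hz
    rw [h4 z hz, hZ', Multiset.map_cons, Multiset.prod_cons]
    simp only [G]
    ring
  have h5 : HasDerivAt (fun z => (z - ζ) * G z) (1 * G ζ + (ζ - ζ) * deriv G ζ) ζ :=
    ((hasDerivAt_id ζ).sub_const ζ).mul hG.hasDerivAt
  have h6 : deriv F ζ = G ζ := by
    rw [hFG.deriv_eq, h5.deriv]
    ring
  rw [h1] at h6
  rcases mul_eq_zero.1 h6.symm with h7 | h7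
  · have h8 := ArgP1_mem h7
    rw [hZ', Multiset.count_cons_self]
    have := Multiset.count_pos.2 h8
    omega
  · exact absurd h7 (h3 ζ h)

theorem ZData.mul {F G : ℂ → ℂ} {R : ℝ} {r : Fin g → ℝ} {Z Z' : Multiset ℂ}
    (hZ : D.ZData F R r Z) (hZ' : D.ZData G R r Z') :
    D.ZData (fun z => F z * G z) R r (Z + Z') := by
  obtain ⟨h1, hh, h2, h3, h4⟩ := hZ
  obtain ⟨h1', hh', h2', h3', h4'⟩ := hZ'
  refine ⟨fun ζ hζ => ?_, fun z => hh z * hh' z, h2.mul h2',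
    fun z hz => mul_ne_zero (h3 z hz) (h3' z hz), fun z hz => ?_⟩
  · rcases Multiset.mem_add.1 hζ with h | h
    · exact h1 ζ h
    · exact h1' ζ h
  · simp only
    rw [h4 z hz, h4' z hz, Multiset.map_add, Multiset.prod_add]
    ring

/-- members of the zero multiset lie in the region -/
theorem ArgP1_KK {F : ℂ → ℂ} {R : ℝ} {r : Fin g → ℝ} {Z : Multiset ℂ}
    (hZ : D.ZData F R r Z) {ζ : ℂ} (h : ζ ∈ Z) : ζ ∈ KK D.c R r :=
  ⟨(hZ.1 ζ h).2.1.le, fun i => ((hZ.1 ζ h).2.2 i).le⟩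

theorem ArgP1_unique (R : ℝ) (r : Fin g → ℝ) (n : ℕ) :
    ∀ (F : ℂ → ℂ) (Z Z' : Multiset ℂ), Multiset.card Z = n → D.ZData F R r Z →
      D.ZData F R r Z' → Z = Z' := by
  induction n with
  | zero =>
    intro F Z Z' hc hZ hZ'
    rw [Multiset.card_eq_zero] at hc
    subst hc
    symm
    rw [Multiset.eq_zero_iff_forall_notMem]
    intro ζ hζ
    have h1 := hZ'.zero_of_mem hζ
    have h2 := hZ.mem_of_zero (ArgP1_KK hZ' hζ) (hZ'.1 ζ hζ).1 h1
    simp at h2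
  | succ n ih =>
    intro F Z Z' hc hZ hZ'
    obtain ⟨ζ, hζ⟩ : ∃ ζ, ζ ∈ Z := Multiset.card_pos_iff_exists_mem.1 (by omega)
    have hO := (hZ.1 ζ hζ).1
    have hmem' := hZ'.mem_of_zero (ArgP1_KK hZ hζ) hO (hZ.zero_of_mem hζ)
    obtain ⟨Z1, hZ1⟩ := Multiset.exists_cons_of_mem hζ
    obtain ⟨Z2, hZ2⟩ := Multiset.exists_cons_of_mem hmem'
    obtain ⟨h1, hh, h2, h3, h4⟩ := hZ
    obtain ⟨h1', hh', h2', h3', h4'⟩ := hZ'
    have hG : ∀ z ∈ D.Om, (Z1.map (fun x => z - x)).prod * hh z =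
        (Z2.map (fun x => z - x)).prod * hh' z := by
      have hc1 : ContinuousOn (fun z => (Z1.map (fun x => z - x)).prod * hh z) D.Om :=
        (ArgP1_diff Z1).continuous.continuousOn.mul h2.continuousOn
      have hc2 : ContinuousOn (fun z => (Z2.map (fun x => z - x)).prod * hh' z) D.Om :=
        (ArgP1_diff Z2).continuous.continuousOn.mul h2'.continuousOn
      have hne : ∀ z ∈ D.Om, z ≠ ζ → (Z1.map (fun x => z - x)).prod * hh z =
          (Z2.map (fun x => z - x)).prod * hh' z := by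
        intro z hz hzζ
        have e1 := h4 z hz
        have e2 := h4' z hz
        rw [hZ1, Multiset.map_cons, Multiset.prod_cons] at e1
        rw [hZ2, Multiset.map_cons, Multiset.prod_cons] at e2
        have e3 : (z - ζ) * ((Z1.map (fun x => z - x)).prod * hh z) =
            (z - ζ) * ((Z2.map (fun x => z - x)).prod * hh' z) := by
          rw [← mul_assoc, ← mul_assoc, ← e1, ← e2]
        exact mul_left_cancel₀ (sub_ne_zero.2 hzζ) e3
      intro z hz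
      by_cases hzζ : z = ζ
      · subst hzζ
        have t1 : Tendsto (fun w => (Z1.map (fun x => w - x)).prod * hh w) (𝓝[≠] z)
            (𝓝 ((Z1.map (fun x => z - x)).prod * hh z)) :=
          (hc1.continuousAt (D.isOpen_Om.mem_nhds hz)).tendsto.mono_left nhdsWithin_le_nhds
        have t2 : Tendsto (fun w => (Z2.map (fun x => w - x)).prod * hh' w) (𝓝[≠] z)
            (𝓝 ((Z2.map (fun x => z - x)).prod * hh' z)) :=
          (hc2.continuousAt (D.isOpen_Om.mem_nhds hz)).tendsto.mono_left nhdsWithin_le_nhds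
        have hev : (fun w => (Z1.map (fun x => w - x)).prod * hh w) =ᶠ[𝓝[≠] z]
            fun w => (Z2.map (fun x => w - x)).prod * hh' w := by
          filter_upwards [self_mem_nhdsWithin,
            mem_nhdsWithin_of_mem_nhds (D.isOpen_Om.mem_nhds hz)] with w hw1 hw2
          exact hne w hw2 hw1
        exact tendsto_nhds_unique (t1.congr' hev) t2
      · exact hne z hz hzζ
    have hD1 : D.ZData (fun z => (Z1.map (fun x => z - x)).prod * hh z) R r Z1 :=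
      ⟨fun x hx => h1 x (by rw [hZ1]; exact Multiset.mem_cons_of_mem hx), hh, h2, h3,
        fun z _ => rfl⟩
    have hD2 : D.ZData (fun z => (Z1.map (fun x => z - x)).prod * hh z) R r Z2 :=
      ⟨fun x hx => h1' x (by rw [hZ2]; exact Multiset.mem_cons_of_mem hx), hh', h2', h3', hG⟩
    have hc1 : Multiset.card Z1 = n := by
      rw [hZ1, Multiset.card_cons] at hc
      omega
    rw [hZ1, hZ2, ih _ Z1 Z2 hc1 hD1 hD2]

theorem ZData.unique {F : ℂ → ℂ} {R : ℝ} {r : Fin g → ℝ} {Z Z' : Multiset ℂ}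
    (hA : D.Adm R r) (hZ : D.ZData F R r Z) (hZ' : D.ZData F R r Z') : Z = Z' :=
  ArgP1_unique R r _ F Z Z' rfl hZ hZ'

theorem ZData.ne_boundary {F : ℂ → ℂ} {R : ℝ} {r : Fin g → ℝ} {Z : Multiset ℂ}
    (hA : D.Adm R r) (hZ : D.ZData F R r Z) :
    (∀ z : ℂ, ‖z‖ = R → F z ≠ 0) ∧ ∀ i, ∀ z : ℂ, ‖z - D.c i‖ = r i → F z ≠ 0 := by
  obtain ⟨hR1, hR2, hr⟩ := hA
  constructor
  · intro z hz h0
    have hK : z ∈ KK D.c R r := ⟨hz.le, fun i =>
      ((hr i).2.trans (D.ann0_far z (by rw [hz]; exact hR1) i)).le⟩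
    have hm := hZ.mem_of_zero hK (D.ann0_sub z (by rw [hz]; exact hR1) (by rw [hz]; exact hR2)) h0
    have := (hZ.1 z hm).2.1
    linarith
  · intro i z hz h0
    have h1 : ‖z - D.c i‖ < 2 * D.ep := by rw [hz]; exact (hr i).2
    have h2 : D.ep / 2 < ‖z - D.c i‖ := by rw [hz]; exact (hr i).1
    obtain ⟨h3, h4⟩ := D.ann_far i z h1
    have hK : z ∈ KK D.c R r := ⟨(h3.trans hR1).le, fun k => by
      by_cases hk : k = i
      · subst hk
        exact hz.ge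
      · exact ((hr k).2.trans (h4 k hk)).le⟩
    have hm := hZ.mem_of_zero hK (D.ann_sub i z h2 h1) h0
    have := (hZ.1 z hm).2.2 i
    linarith

end HypData
end Pool.Agent.AM.Hyp
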