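import Pool.Agent.AM.Hyp.Thx
import Pool.Agent.AM.Hyp.ArgP

/-! The pulled back theta function has exactly `g` zeros on the curve. -/

set_option autoImplicit false
open Complex Filter Topology
namespace Pool.Agent.AM.Hyp

namespace Count

/-- change of variables `z ↦ c + ρ/(z - c)` in a circle integral -/
theorem circle_inv (c : ℂ) (r ρ : ℝ) (hr : 0 < r) (L : ℂ → ℂ) :
    (∮ z in C(c, r), (-(ρ : ℂ) / (z - c) ^ 2) * L (c + ρ / (z - c))) =
      -∮ z in C(c, ρ / r), L z := by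
  have key : ∀ θ : ℝ, deriv (circleMap c r) θ •
      ((-(ρ : ℂ) / (circleMap c r θ - c) ^ 2) * L (c + ρ / (circleMap c r θ - c))) =
      -(deriv (circleMap c (ρ / r)) (-θ) • L (circleMap c (ρ / r) (-θ))) := by
    intro θ
    have h1 : circleMap c r θ - c = r * Complex.exp (θ * I) := by
      simp [circleMap]
    have h2 : c + ρ / (circleMap c r θ - c) = circleMap c (ρ / r) (-θ) := by
      rw [h1]
      simp only [circleMap, ofReal_div, ofReal_neg, neg_mul, Complex.exp_neg]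
      rw [div_mul_eq_div_div, div_eq_mul_inv ((ρ : ℂ) / r)]
    rw [h2, h1, deriv_circleMap, deriv_circleMap]
    have hrc : (r : ℂ) ≠ 0 := by exact_mod_cast hr.ne'
    have he : Complex.exp (θ * I) ≠ 0 := Complex.exp_ne_zero _
    simp only [circleMap, ofReal_div, ofReal_neg, neg_mul, Complex.exp_neg, smul_eq_mul, zero_add]
    field_simp
  unfold circleIntegral
  simp only [key]
  rw [intervalIntegral.integral_neg]
  congr 1
  set G : ℝ → ℂ := fun θ => deriv (circleMap c (ρ / r)) θ • L (circleMap c (ρ / r) θ) with hG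
  have hper : Function.Periodic G (2 * Real.pi) := by
    intro θ
    simp only [hG, deriv_circleMap]
    rw [periodic_circleMap, periodic_circleMap]
  have e1 : (∫ θ in (0 : ℝ)..2 * Real.pi, G (-θ)) = ∫ θ in -(2 * Real.pi)..(-0), G θ :=
    intervalIntegral.integral_comp_neg G
  have e2 := hper.intervalIntegral_add_eq (-(2 * Real.pi)) 0
  have e3 : -(2 * Real.pi) + 2 * Real.pi = -0 := by ring
  rw [e3, zero_add] at e2
  exact e1.trans e2

/-- logarithmic derivatives of functions glued by `z ↦ c + ρ/(z - c)` -/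
theorem circle_glue (c : ℂ) (r ρ : ℝ) (hr : 0 < r) (G H : ℂ → ℂ)
    (h : ∀ z : ℂ, ‖z - c‖ = r → (∀ᶠ w in 𝓝 z, G (c + ρ / (w - c)) = H w) ∧
      DifferentiableAt ℂ G (c + ρ / (z - c))) :
    (∮ z in C(c, r), deriv H z / H z) = -∮ z in C(c, ρ / r), deriv G z / G z := by
  rw [← circle_inv c r ρ hr]
  refine circleIntegral.integral_congr hr.le ?_
  intro z hz
  have hz' : ‖z - c‖ = r := by
    rw [← dist_eq_norm]; exact hz
  have hne : z - c ≠ 0 := by
    intro h0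
    rw [h0, norm_zero] at hz'
    linarith
  obtain ⟨h1, h2⟩ := h z hz'
  have hJ : HasDerivAt (fun w : ℂ => c + ρ / (w - c)) (-(ρ : ℂ) / (z - c) ^ 2) z := by
    have e1 : HasDerivAt (fun w : ℂ => w - c) 1 z := (hasDerivAt_id z).sub_const c
    have e2 := ((hasDerivAt_const z (ρ : ℂ)).div e1 hne).const_add c
    have e3 : (0 * (z - c) - (ρ : ℂ) * 1) / (z - c) ^ 2 = -(ρ : ℂ) / (z - c) ^ 2 := by
      congr 1; ring
    rw [← e3]
    exact e2
  have e3 : HasDerivAt (fun w : ℂ => G (c + ρ / (w - c)))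
      (deriv G (c + ρ / (z - c)) * (-(ρ : ℂ) / (z - c) ^ 2)) z :=
    h2.hasDerivAt.comp z hJ
  have e4 : HasDerivAt H (deriv G (c + ρ / (z - c)) * (-(ρ : ℂ) / (z - c) ^ 2)) z := by
    refine e3.congr_of_eventuallyEq ?_
    filter_upwards [h1] with w hw using hw.symm
  have e5 : H z = G (c + ρ / (z - c)) := h1.self_of_nhds.symm
  simp only [e4.deriv, e5]
  ring

theorem logderiv_circleIntegrable {S : Set ℂ} (hS : IsOpen S) {F : ℂ → ℂ}
    (hF : DifferentiableOn ℂ F S) {c : ℂ} {r : ℝ} (hr : 0 ≤ r)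
    (h : ∀ z : ℂ, ‖z - c‖ = r → z ∈ S ∧ F z ≠ 0) :
    CircleIntegrable (fun z => deriv F z / F z) c r := by
  apply ContinuousOn.circleIntegrable hr
  have hsub : Metric.sphere c r ⊆ S := fun z hz => (h z (by rw [← dist_eq_norm]; exact hz)).1
  refine ContinuousOn.div ((hF.deriv hS).continuousOn.mono hsub) (hF.continuousOn.mono hsub) ?_
  intro z hz
  exact (h z (by rw [← dist_eq_norm]; exact hz)).2

end Count

namespace HypData
variable {g : ℕ} (D : HypData g)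

theorem Count_Fm_ne0 (a : Fin g → ℂ) (R : ℝ) (h1 : 2 / 3 < R) (h2 : R < 3 / 2)
    (h0 : ∀ z : ℂ, ‖z‖ = R → D.Fp a z ≠ 0) (z : ℂ) (hz : ‖z‖ = R⁻¹) : D.Fm a z ≠ 0 := by
  have e : ‖z⁻¹‖ = R := by rw [norm_inv, hz, inv_inv]
  have := D.Fm_glue0 a z⁻¹ (by rw [e]; exact h1) (by rw [e]; exact h2)
  rw [inv_inv] at this
  rw [this]
  exact h0 _ e

theorem Count_J (i : Fin g) (z : ℂ) (hz : z - D.c i ≠ 0) :
    (D.c i : ℂ) + D.ep ^ 2 / ((D.c i : ℂ) + D.ep ^ 2 / (z - D.c i) - D.c i) = z := by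
  have hep : (D.ep : ℂ) ≠ 0 := by exact_mod_cast D.ep_pos.ne'
  rw [add_sub_cancel_left, div_div_eq_mul_div, mul_comm, mul_div_assoc,
    div_self (pow_ne_zero 2 hep), mul_one]
  ring

theorem Count_Fm_ne (a : Fin g → ℂ) (ha : a ∈ Tor g) (i : Fin g) (r : ℝ) (h1 : D.ep / 2 < r)
    (h2 : r < 2 * D.ep) (h0 : ∀ z : ℂ, ‖z - D.c i‖ = r → D.Fp a z ≠ 0) (z : ℂ)
    (hz : ‖z - D.c i‖ = D.ep ^ 2 / r) : D.Fm a z ≠ 0 := by
  have hep := D.ep_pos
  have hr : 0 < r := by linarith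
  have hpos : 0 < ‖z - D.c i‖ := by rw [hz]; positivity
  have hne : z - D.c i ≠ 0 := norm_pos_iff.1 hpos
  set z' : ℂ := D.c i + D.ep ^ 2 / (z - D.c i) with hz'
  have e1 : ‖z' - D.c i‖ = r := by
    rw [hz', add_sub_cancel_left, norm_div, hz, norm_pow, norm_real, Real.norm_eq_abs,
      abs_of_pos hep]
    field_simp
  have e2 : (D.c i : ℂ) + D.ep ^ 2 / (z' - D.c i) = z := D.Count_J i z hne
  have e3 := D.Fm_glue a ha i z' (by rw [e1]; exact h1) (by rw [e1]; exact h2)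
  rw [e2] at e3
  rw [e3]
  have e4 : z' ∈ D.Om := D.ann_sub i z' (by rw [e1]; exact h1) (by rw [e1]; exact h2)
  have e5 : D.X i z' ≠ 0 := D.ne0 i z' e4
  refine mul_ne_zero (mul_ne_zero ?_ (mul_ne_zero (ha i) e5)) (h0 _ e1)
  exact_mod_cast (Real.exp_pos _).ne'

theorem Count_outer (a : Fin g → ℂ) (ha : a ∈ Tor g) (R : ℝ) (h1 : 2 / 3 < R) (h2 : R < 3 / 2) :
    (∮ z in C(0, R), deriv (D.Fp a) z / D.Fp a z) =
      -∮ z in C(0, R⁻¹), deriv (D.Fm a) z / D.Fm a z := by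
  have := Count.circle_glue 0 R 1 (by linarith) (D.Fm a) (D.Fp a) ?_
  · rw [this, one_div]
  · intro z hz
    rw [sub_zero] at hz
    constructor
    · have hopen : IsOpen {w : ℂ | 2 / 3 < ‖w‖ ∧ ‖w‖ < 3 / 2} :=
        (isOpen_lt continuous_const continuous_norm).inter
          (isOpen_lt continuous_norm continuous_const)
      have hmem : z ∈ {w : ℂ | 2 / 3 < ‖w‖ ∧ ‖w‖ < 3 / 2} := by
        constructor <;> rw [hz] <;> assumption
      filter_upwards [hopen.mem_nhds hmem] with w hw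
      have := D.Fm_glue0 a w hw.1 hw.2
      simpa using this
    · have e : (0 : ℂ) + (1 : ℝ) / (z - 0) = z⁻¹ := by simp
      rw [e]
      have e1 := inv0 z (by rw [hz]; exact h1) (by rw [hz]; exact h2)
      exact (D.Fm_diff a ha).differentiableAt (D.isOpen_Om.mem_nhds (D.ann0_sub _ e1.1 e1.2))

theorem Count_inner (a : Fin g → ℂ) (ha : a ∈ Tor g) (i : Fin g) (r : ℝ) (h1 : D.ep / 2 < r)
    (h2 : r < 2 * D.ep) (h0 : ∀ z : ℂ, ‖z - D.c i‖ = r → D.Fp a z ≠ 0) :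
    2 * (Real.pi : ℂ) * I + (∮ z in C((D.c i : ℂ), r), deriv (D.Fp a) z / D.Fp a z) =
      -∮ z in C((D.c i : ℂ), D.ep ^ 2 / r), deriv (D.Fm a) z / D.Fm a z := by
  have hep := D.ep_pos
  have hr : 0 < r := by linarith
  set K : ℂ := ((Real.exp (Real.pi * D.T i i) : ℝ) : ℂ) * a i with hK
  have hK0 : K ≠ 0 := by
    rw [hK]
    exact mul_ne_zero (by exact_mod_cast (Real.exp_pos _).ne') (ha i)
  have hOm : ∀ z : ℂ, ‖z - D.c i‖ = r → z ∈ D.Om := fun z hz =>
    D.ann_sub i z (by rw [hz]; exact h1) (by rw [hz]; exact h2)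
  have e1 := Count.circle_glue (D.c i : ℂ) r (D.ep ^ 2) hr (D.Fm a)
    (fun w => K * (D.X i w * D.Fp a w)) ?_
  · rw [← e1]
    have e2 := D.wind i i r h1 h2
    rw [if_pos rfl] at e2
    rw [← e2, ← circleIntegral.integral_add]
    · refine circleIntegral.integral_congr hr.le ?_
      intro z hz
      have hz' : ‖z - D.c i‖ = r := by rw [← dist_eq_norm]; exact hz
      have hzO := hOm z hz'
      have d1 : DifferentiableAt ℂ (D.X i) z :=
        (D.diff i).differentiableAt (D.isOpen_Om.mem_nhds hzO)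
      have d2 : DifferentiableAt ℂ (D.Fp a) z :=
        (D.Fp_diff a ha).differentiableAt (D.isOpen_Om.mem_nhds hzO)
      have e3 : deriv (fun w => K * (D.X i w * D.Fp a w)) z =
          K * (deriv (D.X i) z * D.Fp a z + D.X i z * deriv (D.Fp a) z) :=
        ((d1.hasDerivAt.mul d2.hasDerivAt).const_mul K).deriv
      have n1 := D.ne0 i z hzO
      have n2 := h0 z hz'
      simp only [e3]
      field_simp
    · exact Count.logderiv_circleIntegrable D.isOpen_Om (D.diff i) hr.le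
        (fun z hz => ⟨hOm z hz, D.ne0 i z (hOm z hz)⟩)
    · exact Count.logderiv_circleIntegrable D.isOpen_Om (D.Fp_diff a ha) hr.le
        (fun z hz => ⟨hOm z hz, h0 z hz⟩)
  · intro z hz
    constructor
    · have hcont : Continuous fun w : ℂ => ‖w - D.c i‖ := by fun_prop
      have hopen : IsOpen {w : ℂ | D.ep / 2 < ‖w - D.c i‖ ∧ ‖w - D.c i‖ < 2 * D.ep} :=
        (isOpen_lt continuous_const hcont).inter (isOpen_lt hcont continuous_const)
      have hmem : z ∈ {w : ℂ | D.ep / 2 < ‖w - D.c i‖ ∧ ‖w - D.c i‖ < 2 * D.ep} := by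
        constructor <;> rw [hz] <;> assumption
      filter_upwards [hopen.mem_nhds hmem] with w hw
      have := D.Fm_glue a ha i w hw.1 hw.2
      rw [ofReal_pow, this, hK]
      ring
    · have e3 := D.inv_c i z (by rw [hz]; exact h1) (by rw [hz]; exact h2)
      rw [ofReal_pow]
      exact (D.Fm_diff a ha).differentiableAt
        (D.isOpen_Om.mem_nhds (D.ann_sub i _ e3.2.1 e3.2.2))

theorem count (a : Fin g → ℂ) (ha : a ∈ Tor g) (R : ℝ) (r : Fin g → ℝ) (hA : D.Adm R r)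
    (h0 : ∀ z : ℂ, ‖z‖ = R → D.Fp a z ≠ 0)
    (h1 : ∀ i, ∀ z : ℂ, ‖z - D.c i‖ = r i → D.Fp a z ≠ 0) :
    ∃ Zp Zm : Multiset ℂ, D.ZData (D.Fp a) R r Zp ∧ D.ZData (D.Fm a) R⁻¹ (D.rm r) Zm ∧
      Multiset.card Zp + Multiset.card Zm = g := by
  obtain ⟨Zp, hZp, hp⟩ := D.arg_principle R r hA (D.Fp a) (D.Fp_diff a ha) h0 h1
  obtain ⟨Zm, hZm, hm⟩ := D.arg_principle R⁻¹ (D.rm r) (D.Adm_symm R r hA) (D.Fm a)
    (D.Fm_diff a ha) (D.Count_Fm_ne0 a R hA.1 hA.2.1 h0)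
    (fun i z hz => D.Count_Fm_ne a ha i (r i) (hA.2.2 i).1 (hA.2.2 i).2 (h1 i) z hz)
  refine ⟨Zp, Zm, hZp, hZm, ?_⟩
  have e0 := D.Count_outer a ha R hA.1 hA.2.1
  have e1 : ∀ i, (∮ z in C((D.c i : ℂ), r i), deriv (D.Fp a) z / D.Fp a z) =
      -(∮ z in C((D.c i : ℂ), D.rm r i), deriv (D.Fm a) z / D.Fm a z) -
        2 * (Real.pi : ℂ) * I := by
    intro i
    have := D.Count_inner a ha i (r i) (hA.2.2 i).1 (hA.2.2 i).2 (h1 i)
    unfold rm
    rw [← this]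
    ring
  rw [e0] at hp
  simp only [e1, Finset.sum_sub_distrib, Finset.sum_neg_distrib, Finset.sum_const,
    Finset.card_univ, Fintype.card_fin, nsmul_eq_mul] at hp
  have h2 : 2 * (Real.pi : ℂ) * I * ((Multiset.card Zp : ℂ) + Multiset.card Zm) =
      2 * (Real.pi : ℂ) * I * g := by
    rw [mul_add, ← hp, ← hm]
    ring
  have h3 := mul_left_cancel₀ Complex.two_pi_I_ne_zero h2
  exact_mod_cast h3

theorem Fm_zero_of_Fp (a : Fin g → ℂ) (ha : a ∈ Tor g) (h : ∀ z ∈ D.Om, D.Fp a z = 0) :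
    ∀ z ∈ D.Om, D.Fm a z = 0 := by
  have hA : AnalyticOnNhd ℂ (D.Fm a) D.Om := (D.Fm_diff a ha).analyticOnNhd D.isOpen_Om
  have h1 : ‖(1 : ℂ)‖ = 1 := norm_one
  have hopen : IsOpen {w : ℂ | 2 / 3 < ‖w‖ ∧ ‖w‖ < 3 / 2} :=
    (isOpen_lt continuous_const continuous_norm).inter
      (isOpen_lt continuous_norm continuous_const)
  have hmem : (1 : ℂ) ∈ {w : ℂ | 2 / 3 < ‖w‖ ∧ ‖w‖ < 3 / 2} := by
    constructor <;> rw [h1] <;> norm_num
  have hev : D.Fm a =ᶠ[𝓝 1] 0 := by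
    filter_upwards [hopen.mem_nhds hmem] with w hw
    have e1 := inv0 w hw.1 hw.2
    have e2 := D.Fm_glue0 a w⁻¹ e1.1 e1.2
    rw [inv_inv] at e2
    rw [e2]
    exact h _ (D.ann0_sub _ e1.1 e1.2)
  have := hA.eqOn_zero_of_preconnected_of_eventuallyEq_zero D.Om_preconnected
    (D.ann0_sub 1 hmem.1 hmem.2) hev
  intro z hz
  exact this hz

theorem Fp_zero_of_Fm (a : Fin g → ℂ) (ha : a ∈ Tor g) (h : ∀ z ∈ D.Om, D.Fm a z = 0) :
    ∀ z ∈ D.Om, D.Fp a z = 0 := by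
  have hA : AnalyticOnNhd ℂ (D.Fp a) D.Om := (D.Fp_diff a ha).analyticOnNhd D.isOpen_Om
  have h1 : ‖(1 : ℂ)‖ = 1 := norm_one
  have hopen : IsOpen {w : ℂ | 2 / 3 < ‖w‖ ∧ ‖w‖ < 3 / 2} :=
    (isOpen_lt continuous_const continuous_norm).inter
      (isOpen_lt continuous_norm continuous_const)
  have hmem : (1 : ℂ) ∈ {w : ℂ | 2 / 3 < ‖w‖ ∧ ‖w‖ < 3 / 2} := by
    constructor <;> rw [h1] <;> norm_num
  have hev : D.Fp a =ᶠ[𝓝 1] 0 := by
    filter_upwards [hopen.mem_nhds hmem] with w hw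
    have e1 := inv0 w hw.1 hw.2
    rw [← D.Fm_glue0 a w hw.1 hw.2]
    exact h _ (D.ann0_sub _ e1.1 e1.2)
  have := hA.eqOn_zero_of_preconnected_of_eventuallyEq_zero D.Om_preconnected
    (D.ann0_sub 1 hmem.1 hmem.2) hev
  intro z hz
  exact this hz

/-- more than `g` zeros on the plus sheet force identical vanishing -/
theorem many_zeros (a : Fin g → ℂ) (ha : a ∈ Tor g) (M : Finset ℂ)
    (hM : ∀ z ∈ M, z ∈ KK D.c 1 (fun _ => D.ep)) (hc : g < M.card)
    (h : ∀ z ∈ M, D.Fp a z = 0) : ∀ z ∈ D.Om, D.Fp a z = 0 := by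
  classical
  by_contra hne
  push Not at hne
  have hep := D.ep_pos
  obtain ⟨R, r, hR1, hR2, hr, hz⟩ := D.exists_radii 1 (fun _ => D.Fp a)
    (fun _ => D.Fp_diff a ha) (fun _ => hne) 1 (3 / 2) (by norm_num) (by norm_num) le_rfl
    (fun _ => D.ep / 2) (fun _ => D.ep) (fun _ => le_rfl) (fun _ => by linarith)
    (fun _ => by linarith)
  have hA : D.Adm R r :=
    ⟨by linarith, hR2, fun i => ⟨(hr i).1, by linarith [(hr i).2]⟩⟩
  obtain ⟨Zp, Zm, hZp, -, hcard⟩ := D.count a ha R r hA (hz 0).1 (hz 0).2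
  have hsub : M ⊆ Zp.toFinset := by
    intro z hzM
    have h1 := hM z hzM
    have h2 : z ∈ KK D.c R r :=
      ⟨h1.1.trans hR1.le, fun i => (hr i).2.le.trans (h1.2 i)⟩
    exact Multiset.mem_toFinset.2
      (hZp.mem_of_zero h2 (D.KK_sub R r hA h2) (h z hzM))
  have h3 := Finset.card_le_card hsub
  have h4 := Multiset.toFinset_card_le Zp
  omega

end HypData
end Pool.Agent.AM.Hyp
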