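import Pool.Agent.AM.Hyp.SumF

/-! Singular points are special: they lie on `g-2` dimensional pieces with one fixed point. -/

set_option autoImplicit false
open Complex Filter Topology
namespace Pool.Agent.AM.Hyp
namespace HypData
variable {g : ℕ} (D : HypData g)

namespace Cover_

/-- distinct representatives of infinite sets -/
theorem exists_inj (n : ℕ) : ∀ (S : Fin n → Set ℂ), (∀ i, (S i).Infinite) →
    ∃ f : Fin n → ℂ, Function.Injective f ∧ ∀ i, f i ∈ S i := by
  induction n with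
  | zero => exact fun S _ => ⟨Fin.elim0, fun i => i.elim0, fun i => i.elim0⟩
  | succ n ih =>
    intro S hS
    obtain ⟨f, hf, hfS⟩ := ih (fun i => S i.succ) (fun i => hS _)
    obtain ⟨x, hx, hxf⟩ := (hS 0).exists_notMem_finset (Finset.univ.image f)
    refine ⟨Fin.cons x f, Fin.cons_injective_iff.mpr ⟨?_, hf⟩, ?_⟩
    · rintro ⟨i, rfl⟩
      exact hxf (Finset.mem_image_of_mem f (Finset.mem_univ i))
    · intro i
      refine Fin.cases ?_ ?_ i
      · exact hx
      · exact fun i => hfS i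

/-- a set which is dense in `B0` meets open subsets of `B0` in infinite sets -/
theorem infinite_inter {D0 V : Set ℂ} (h2 : B0 ⊆ closure D0) (hV : IsOpen V)
    (hne : V.Nonempty) (hs : V ⊆ B0) : (V ∩ D0).Infinite := by
  intro hfin
  have ho : IsOpen (V \ (V ∩ D0)) := hV.sdiff hfin.isClosed
  obtain ⟨x, hx⟩ := hne
  have hinf : V.Infinite := infinite_of_mem_nhds x (hV.mem_nhds hx)
  obtain ⟨y, hy⟩ := (hinf.sdiff hfin).nonempty
  obtain ⟨z, hz, hz0⟩ := mem_closure_iff.mp (h2 (hs hy.1)) _ ho hy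
  exact hz.2 ⟨hz.1, hz0⟩

theorem X_ne {z : ℂ} (hz : z ∈ D.Om) (j : Fin g) : D.X j z ≠ 0 := D.ne0 j z hz

theorem X_cont {z : ℂ} (hz : z ∈ D.Om) (j : Fin g) : ContinuousAt (D.X j) z :=
  ((D.diff j).differentiableAt (D.isOpen_Om.mem_nhds hz)).continuousAt

/-- the argument of theta -/
noncomputable def targ (a : Fin g → ℂ) {n m : ℕ} (P : Fin n → ℂ) (Q : Fin m → ℂ) (j : Fin g) : ℂ :=
  a j * (∏ i, D.X j (P i)) * (∏ i, D.X j (Q i))⁻¹

theorem arg_tor {a : Fin g → ℂ} (ha : a ∈ Tor g) {n m : ℕ} {P : Fin n → ℂ} {Q : Fin m → ℂ}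
    (hP : ∀ i, P i ∈ B0) (hQ : ∀ i, Q i ∈ B0) : targ D a P Q ∈ Tor g := by
  intro j
  unfold targ
  refine mul_ne_zero (mul_ne_zero (ha j) ?_) (inv_ne_zero ?_)
  · exact Finset.prod_ne_zero_iff.mpr fun i _ => X_ne D (D.B0_sub (hP i)) j
  · exact Finset.prod_ne_zero_iff.mpr fun i _ => X_ne D (D.B0_sub (hQ i)) j

/-- there are `n` points added and `n` points subtracted such that theta does not vanish -/
def Ex (a : Fin g → ℂ) (n : ℕ) : Prop :=
  ∃ P Q : Fin n → ℂ, (∀ i, P i ∈ B0) ∧ (∀ i, Q i ∈ B0) ∧ thx D.T (targ D a P Q) ≠ 0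

theorem isOpen_B0 : IsOpen B0 := Metric.isOpen_ball

theorem centre_B0 : (I / 2 : ℂ) ∈ B0 := Metric.mem_ball_self (by norm_num)

theorem ex_g (a : Fin g → ℂ) (ha : a ∈ Tor g) : Ex D a g := by
  obtain ⟨P, hP, h⟩ := D.exists_ne (Fin g) (by simp) (fun _ => B0) (fun _ => isOpen_B0)
    (fun _ => ⟨_, centre_B0⟩) (fun _ => D.B0_sub) (fun _ => true) 1
    (fun _ j => a j * (∏ _i : Fin g, D.X j (I / 2))⁻¹) (by
      intro _ j
      refine mul_ne_zero (ha j) (inv_ne_zero ?_)
      exact Finset.prod_ne_zero_iff.mpr fun i _ => X_ne D (D.B0_sub centre_B0) j)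
  refine ⟨P, fun _ => I / 2, hP, fun _ => centre_B0, ?_⟩
  have h0 := h 0
  have e : (fun j => a j * (∏ _i : Fin g, D.X j (I / 2))⁻¹ * ∏ i, D.XX (P i, true) j) =
      targ D a P (fun _ : Fin g => I / 2) := by
    funext j
    unfold targ
    have : ∀ i, D.XX (P i, true) j = D.X j (P i) := fun i => by simp [XX]
    simp only [this]
    ring
  rw [e] at h0
  exact h0

theorem not_ex_zero (a : Fin g → ℂ) (h : thx D.T a = 0) : ¬ Ex D a 0 := by
  rintro ⟨P, Q, -, -, h1⟩
  apply h1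
  have e : targ D a P Q = a := by
    funext j
    simp [targ]
  rw [e, h]

theorem arg_cont (a : Fin g → ℂ) (ha : a ∈ Tor g) {n : ℕ} {P Q : Fin n → ℂ}
    (hP : ∀ i, P i ∈ B0) (hQ : ∀ i, Q i ∈ B0) :
    ContinuousAt (fun x : (Fin n → ℂ) × (Fin n → ℂ) => thx D.T (targ D a x.1 x.2)) (P, Q) := by
  have h1 : ContinuousAt (thx D.T) (targ D a P Q) :=
    (thx_analytic D.T D.posdef _ (arg_tor D ha hP hQ)).continuousAt
  have h2 : ContinuousAt (fun x : (Fin n → ℂ) × (Fin n → ℂ) => targ D a x.1 x.2) (P, Q) := by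
    rw [continuousAt_pi]
    intro j
    unfold targ
    refine ContinuousAt.mul (ContinuousAt.mul continuousAt_const ?_) (ContinuousAt.inv₀ ?_ ?_)
    · refine tendsto_finsetProd _ fun i _ => ?_
      have h3 : ContinuousAt (fun x : (Fin n → ℂ) × (Fin n → ℂ) => x.1 i) (P, Q) :=
        ((continuous_apply i).comp continuous_fst).continuousAt
      exact ContinuousAt.comp (f := fun x : (Fin n → ℂ) × (Fin n → ℂ) => x.1 i) (g := D.X j)
        (X_cont D (D.B0_sub (hP i)) j) h3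
    · refine tendsto_finsetProd _ fun i _ => ?_
      have h3 : ContinuousAt (fun x : (Fin n → ℂ) × (Fin n → ℂ) => x.2 i) (P, Q) :=
        ((continuous_apply i).comp continuous_snd).continuousAt
      exact ContinuousAt.comp (f := fun x : (Fin n → ℂ) × (Fin n → ℂ) => x.2 i) (g := D.X j)
        (X_cont D (D.B0_sub (hQ i)) j) h3
    · exact Finset.prod_ne_zero_iff.mpr fun i _ => X_ne D (D.B0_sub (hQ i)) j
  exact ContinuousAt.comp (f := fun x : (Fin n → ℂ) × (Fin n → ℂ) => targ D a x.1 x.2)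
    (g := thx D.T) h1 h2

/-- the points can be chosen in a dense set, and the subtracted points different -/
theorem choice {D0 : Set ℂ} (h2 : B0 ⊆ closure D0) (a : Fin g → ℂ) (ha : a ∈ Tor g) {n : ℕ}
    (h : Ex D a n) : ∃ P Q : Fin n → ℂ, (∀ i, P i ∈ D0 ∧ P i ∈ B0) ∧
      (∀ i, Q i ∈ D0 ∧ Q i ∈ B0) ∧ Function.Injective Q ∧ thx D.T (targ D a P Q) ≠ 0 := by
  obtain ⟨P0, Q0, hP, hQ, hne⟩ := h
  have hc := arg_cont D a ha hP hQ
  have hev := hc.eventually_ne (y := 0) hne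
  rw [Metric.eventually_nhds_iff] at hev
  obtain ⟨ε, hε, hb⟩ := hev
  have hS : ∀ z ∈ B0, ((Metric.ball z ε ∩ B0) ∩ D0).Infinite := by
    intro z hz
    exact infinite_inter h2 (Metric.isOpen_ball.inter isOpen_B0)
      ⟨z, Metric.mem_ball_self hε, hz⟩ Set.inter_subset_right
  obtain ⟨P, -, hP1⟩ := exists_inj n (fun i => (Metric.ball (P0 i) ε ∩ B0) ∩ D0)
    (fun i => hS _ (hP i))
  obtain ⟨Q, hQi, hQ1⟩ := exists_inj n (fun i => (Metric.ball (Q0 i) ε ∩ B0) ∩ D0)
    (fun i => hS _ (hQ i))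
  refine ⟨P, Q, fun i => ⟨(hP1 i).2, (hP1 i).1.2⟩, fun i => ⟨(hQ1 i).2, (hQ1 i).1.2⟩, hQi, ?_⟩
  apply hb (y := (P, Q))
  rw [Prod.dist_eq, max_lt_iff]
  exact ⟨(dist_pi_lt_iff hε).mpr fun i => (hP1 i).1.1, (dist_pi_lt_iff hε).mpr fun i => (hQ1 i).1.1⟩

/-- the zeros of the pulled back theta function -/
theorem zeros (hg : 1 ≤ g) (b : Fin g → ℂ) (hb : b ∈ Tor g) {p : ℂ} (hp : p ∈ D.Om)
    (hne : D.Fp b p ≠ 0) : ∃ (Zp Zm : Multiset ℂ) (n : Fin g → ℤ),
      (∀ ζ ∈ Zp, ζ ∈ D.Om) ∧ (∀ ζ ∈ Zm, ζ ∈ D.Om) ∧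
      Multiset.card Zp + Multiset.card Zm = g ∧
      (∀ ζ ∈ B0, D.Fp b ζ = 0 → ζ ∈ Zp) ∧
      (∀ ζ ∈ B0, D.Fp b ζ = 0 → deriv (D.Fp b) ζ = 0 → 2 ≤ Zp.count ζ) ∧
      ∀ j, b j * D.kap j *
        D.W (Zp.map (fun z => (z, true)) + Zm.map (fun z => (z, false))) j = D.q n j := by
  have hep := D.ep_pos
  obtain ⟨R, r, hR1, hR2, hr, hF⟩ := D.exists_radii 1 (fun _ => D.Fp b)
    (fun _ => D.Fp_diff b hb) (fun _ => ⟨p, hp, hne⟩) (2 / 3) (3 / 2) le_rfl (by norm_num) le_rfl
    (fun _ => D.ep / 2) (fun _ => 2 * D.ep) (fun _ => le_rfl) (fun _ => by linarith)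
    (fun _ => le_rfl)
  have hA : D.Adm R r := ⟨hR1, hR2, hr⟩
  obtain ⟨h0, h1⟩ := hF 0
  obtain ⟨Zp, Zm, hZp, hZm, hc⟩ := D.count b hb R r hA h0 h1
  obtain ⟨n, hn⟩ := D.sumF hg b hb R r hA Zp Zm hZp hZm hc
  have hK : ∀ ζ ∈ B0, ζ ∈ KK D.c R r := by
    intro ζ hζ
    obtain ⟨k1, k2⟩ := D.B0_far ζ hζ
    exact ⟨by linarith, fun i => ((hr i).2.trans (k2 i)).le⟩
  refine ⟨Zp, Zm, n, fun ζ h => (hZp.1 ζ h).1, fun ζ h => (hZm.1 ζ h).1, hc, ?_, ?_, hn⟩
  · intro ζ hζ h
    exact hZp.mem_of_zero (hK ζ hζ) (D.B0_sub hζ) h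
  · intro ζ hζ h h'
    exact hZp.count_two (hK ζ hζ) (D.B0_sub hζ) h h'

theorem W_add (M N : Multiset (ℂ × Bool)) (j : Fin g) : D.W (M + N) j = D.W M j * D.W N j := by
  unfold W
  rw [Multiset.map_add, Multiset.prod_add]

/-- at a singular point the derivative vanishes as well -/
theorem deriv_zero {a : Fin g → ℂ} (ha : a ∈ SX D.T) {Q : ℂ} (hQ : Q ∈ D.Om) :
    D.Fp (fun j => a j * (D.X j Q)⁻¹) Q = 0 ∧
      deriv (D.Fp (fun j => a j * (D.X j Q)⁻¹)) Q = 0 := by
  obtain ⟨hT, h0, h1⟩ := ha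
  have e : (fun j => a j * (D.X j Q)⁻¹ * D.X j Q) = a := by
    funext j
    rw [mul_assoc, inv_mul_cancel₀ (X_ne D hQ j), mul_one]
  have k0 : D.Fp (fun j => a j * (D.X j Q)⁻¹) Q = 0 := by
    unfold Fp
    rw [e, h0]
  refine ⟨k0, ?_⟩
  have k1 : HasFDerivAt (thx D.T) (0 : (Fin g → ℂ) →L[ℂ] ℂ)
      (fun j => a j * (D.X j Q)⁻¹ * D.X j Q) := by
    rw [e, ← h1]
    exact (thx_analytic D.T D.posdef a hT).differentiableAt.hasFDerivAt
  have k2 : HasDerivAt (fun z j => a j * (D.X j Q)⁻¹ * D.X j z)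
      (fun j => a j * (D.X j Q)⁻¹ * deriv (D.X j) Q) Q := by
    rw [hasDerivAt_pi]
    intro j
    exact ((D.diff j).differentiableAt (D.isOpen_Om.mem_nhds hQ)).hasDerivAt.const_mul _
  have k3 := k1.comp_hasDerivAt Q k2
  exact k3.deriv

end Cover_

open Cover_

theorem cover (hg : 3 ≤ g) (D0 : Set ℂ) (h1 : D0 ⊆ B0) (h2 : B0 ⊆ closure D0)
    (a : Fin g → ℂ) (ha : a ∈ SX D.T) :
    ∃ Q ∈ D0, ∃ n : Fin g → ℤ, ∃ M : Multiset (ℂ × Bool), Multiset.card M + 2 = g ∧
      (∀ P ∈ M, P.1 ∈ D.Om) ∧ ∀ j, a j * (D.kap j * D.X j Q * D.W M j) = D.q n j := by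
  classical
  have haT : a ∈ Tor g := ha.1
  have hex : ∃ s, Ex D a s := ⟨g, ex_g D a haT⟩
  obtain ⟨s, hs, hmin⟩ : ∃ s, Ex D a s ∧ ∀ m < s, ¬ Ex D a m :=
    ⟨Nat.find hex, Nat.find_spec hex, fun m hm => Nat.find_min hex hm⟩
  obtain ⟨t, rfl⟩ : ∃ t, s = t + 1 := by
    cases s with
    | zero => exact absurd hs (not_ex_zero D a ha.2.1)
    | succ t => exact ⟨t, rfl⟩
  obtain ⟨P, Q, hP, hQ, hQi, hne⟩ := choice D h2 a haT hs
  -- the function which has zeros at the subtracted points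
  set P' : Fin t → ℂ := fun i => P i.castSucc with hP'
  set b : Fin g → ℂ := targ D a P' Q with hb
  have hbT : b ∈ Tor g := arg_tor D haT (fun i => (hP _).2) (fun i => (hQ i).2)
  have hbp : D.Fp b (P (Fin.last t)) ≠ 0 := by
    have e : (fun j => b j * D.X j (P (Fin.last t))) = targ D a P Q := by
      funext j
      rw [hb]
      unfold targ
      rw [Fin.prod_univ_castSucc (fun i => D.X j (P i))]
      ring
    unfold Fp
    rw [e]
    exact hne
  have hbQ : ∀ k, D.Fp b (Q k) = 0 := by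
    intro k
    by_contra hcon
    apply hmin t (Nat.lt_succ_self t)
    refine ⟨P', fun i => Q (k.succAbove i), fun i => (hP _).2, fun i => (hQ _).2, ?_⟩
    have e : (fun j => b j * D.X j (Q k)) = targ D a P' (fun i => Q (k.succAbove i)) := by
      funext j
      rw [hb]
      unfold targ
      rw [Fin.prod_univ_succAbove _ k]
      have := X_ne D (D.B0_sub (hQ k).2) j
      rw [mul_inv]
      field_simp
    rw [← e]
    exact hcon
  obtain ⟨Zp, Zm, n, hZp, hZm, hc, hz1, hz2, hn⟩ :=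
    zeros D (by omega) b hbT (D.B0_sub (hP (Fin.last t)).2) hbp
  cases t with
  | zero =>
    -- one point is subtracted: it is a double zero
    have eb : b = fun j => a j * (D.X j (Q 0))⁻¹ := by
      funext j
      rw [hb]
      simp [targ]
    have hQ0 : Q 0 ∈ D.Om := D.B0_sub (hQ 0).2
    obtain ⟨d0, d1⟩ := deriv_zero D ha hQ0
    rw [← eb] at d0 d1
    have h2c := hz2 (Q 0) (hQ 0).2 d0 d1
    rw [Multiset.le_count_iff_replicate_le] at h2c
    obtain ⟨Z', rfl⟩ := Multiset.le_iff_exists_add.mp h2c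
    refine ⟨Q 0, (hQ 0).1, n, Z'.map (fun z => (z, true)) + Zm.map (fun z => (z, false)),
      ?_, ?_, ?_⟩
    · rw [Multiset.card_add, Multiset.card_replicate] at hc
      rw [Multiset.card_add, Multiset.card_map, Multiset.card_map]
      omega
    · intro x hx
      rcases Multiset.mem_add.mp hx with h | h
      · obtain ⟨z, hz, rfl⟩ := Multiset.mem_map.mp h
        exact hZp z (Multiset.mem_add.mpr (Or.inr hz))
      · obtain ⟨z, hz, rfl⟩ := Multiset.mem_map.mp h
        exact hZm z hz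
    · intro j
      rw [← hn j, Multiset.map_add]
      simp only [W_add]
      rw [eb]
      have hX := X_ne D hQ0 j
      have hW : D.W ((Multiset.replicate 2 (Q 0)).map (fun z => (z, true))) j =
          D.X j (Q 0) * D.X j (Q 0) := by
        unfold W
        rw [Multiset.map_map, Multiset.map_replicate, Multiset.prod_replicate]
        simp [XX, pow_two]
      rw [hW]
      field_simp
  | succ u =>
    -- the subtracted points are different zeros
    have hle : (Finset.univ.val.map Q : Multiset ℂ) ≤ Zp := by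
      rw [Multiset.le_iff_subset (Multiset.Nodup.map hQi Finset.univ.nodup)]
      intro x hx
      obtain ⟨i, _, rfl⟩ := Multiset.mem_map.mp hx
      exact hz1 (Q i) (hQ i).2 (hbQ i)
    obtain ⟨Z', rfl⟩ := Multiset.le_iff_exists_add.mp hle
    refine ⟨P' 0, (hP _).1, n, (Finset.univ.val.map (fun i : Fin u => (P' i.succ, true))) +
      (Z'.map (fun z => (z, true)) + Zm.map (fun z => (z, false))), ?_, ?_, ?_⟩
    · rw [Multiset.card_add, Multiset.card_map, Finset.card_val, Finset.card_univ,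
        Fintype.card_fin] at hc
      rw [Multiset.card_add, Multiset.card_add, Multiset.card_map, Multiset.card_map,
        Multiset.card_map, Finset.card_val, Finset.card_univ, Fintype.card_fin]
      omega
    · intro x hx
      rcases Multiset.mem_add.mp hx with h | h
      · obtain ⟨i, _, rfl⟩ := Multiset.mem_map.mp h
        exact D.B0_sub (hP _).2
      · rcases Multiset.mem_add.mp h with h | h
        · obtain ⟨z, hz, rfl⟩ := Multiset.mem_map.mp h
          exact hZp z (Multiset.mem_add.mpr (Or.inr hz))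
        · obtain ⟨z, hz, rfl⟩ := Multiset.mem_map.mp h
          exact hZm z hz
    · intro j
      rw [← hn j, Multiset.map_add]
      simp only [W_add]
      have hW : D.W ((Finset.univ.val.map Q : Multiset ℂ).map (fun z => (z, true))) j =
          ∏ i, D.X j (Q i) := by
        unfold W
        rw [Multiset.map_map, Multiset.map_map]
        have : ((fun P => D.XX P j) ∘ (fun z : ℂ => (z, true))) ∘ Q = fun i => D.X j (Q i) := by
          funext i
          simp [XX]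
        rw [this]
        rfl
      have hW2 : D.W (Finset.univ.val.map (fun i : Fin u => (P' i.succ, true))) j =
          ∏ i : Fin u, D.X j (P' i.succ) := by
        unfold W
        rw [Multiset.map_map]
        have : (fun P => D.XX P j) ∘ (fun i : Fin u => (P' i.succ, true)) =
            fun i => D.X j (P' i.succ) := by
          funext i
          simp [XX]
        rw [this]
        rfl
      have hQne : (∏ i, D.X j (Q i)) ≠ 0 :=
        Finset.prod_ne_zero_iff.mpr fun i _ => X_ne D (D.B0_sub (hQ i).2) j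
      rw [hW, hW2, hb]
      unfold targ
      rw [Fin.prod_univ_succ (fun i => D.X j (P' i))]
      field_simp

end HypData
end Pool.Agent.AM.Hyp
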