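import Mathlib

/-! Definitions for the codimension three part of the Andreotti-Mayer project (MP_becd93_ag):
hyperelliptic Schottky data. -/

set_option autoImplicit false

open Complex Filter Topology
open scoped ENNReal

namespace Pool.Agent.AM.Hyp

/-- The theta series in multiplicative coordinates. -/
noncomputable def thx {g : ℕ} (T : Matrix (Fin g) (Fin g) ℝ) (Y : Fin g → ℂ) : ℂ :=
  ∑' n : Fin g → ℤ,
    ((Real.exp (-Real.pi * ∑ i, ∑ j, (n i : ℝ) * T i j * (n j : ℝ)) : ℝ) : ℂ) *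
      ∏ j, Y j ^ (n j)

/-- the complex torus -/
def Tor (g : ℕ) : Set (Fin g → ℂ) := {Y | ∀ j, Y j ≠ 0}

/-- singular locus in multiplicative coordinates -/
def SX {g : ℕ} (T : Matrix (Fin g) (Fin g) ℝ) : Set (Fin g → ℂ) :=
  {Y | Y ∈ Tor g ∧ thx T Y = 0 ∧ fderiv ℂ (thx T) Y = 0}

/-- the open planar domain on which the multiplicative functions live -/
def Om {g : ℕ} (c : Fin g → ℝ) (ep : ℝ) : Set ℂ :=
  {z | ‖z‖ < 3 / 2 ∧ ∀ i, ep / 2 < ‖z - c i‖}

/-- closed disc minus open discs -/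
def KK {g : ℕ} (c : Fin g → ℝ) (R : ℝ) (r : Fin g → ℝ) : Set ℂ :=
  {z | ‖z‖ ≤ R ∧ ∀ i, r i ≤ ‖z - c i‖}

/-- Real hyperelliptic Schottky data of genus `g`. The curve is glued from two copies
(sheets) of the closed unit disc minus the discs of radius `ep` about the points `c i`,
by `z ↦ 1/z` and `z ↦ c i + ep^2/(z - c i)`. -/
structure HypData (g : ℕ) where
  c : Fin g → ℝ
  ep : ℝ
  s : Fin g → Fin g → ℝ
  X : Fin g → ℂ → ℂ
  ep_pos : 0 < ep
  ep_lt : ep < 1 / 16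
  c_ge : ∀ i, 1 / 4 ≤ c i
  c_le : ∀ i, c i ≤ 1 / 2
  sep : ∀ i j, i ≠ j → 4 * ep < |c i - c j|
  diff : ∀ j, DifferentiableOn ℂ (X j) (Om c ep)
  ne0 : ∀ j, ∀ z ∈ Om c ep, X j z ≠ 0
  glue0 : ∀ j, ∀ z : ℂ, 2 / 3 < ‖z‖ → ‖z‖ < 3 / 2 → X j z * X j (z⁻¹) = 1
  glue : ∀ i j, ∀ z : ℂ, ep / 2 < ‖z - c i‖ → ‖z - c i‖ < 2 * ep →
    X j z * X j (c i + ep ^ 2 / (z - c i)) = ((s i j : ℝ) : ℂ) ^ 2
  wind : ∀ i j, ∀ r : ℝ, ep / 2 < r → r < 2 * ep →
    (∮ z in C((c i : ℂ), r), deriv (X j) z / X j z) =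
      if i = j then 2 * (Real.pi : ℂ) * I else 0
  s_ne : ∀ i j, s i j ≠ 0
  s_anti : ∀ i j, i ≠ j → s j i = - s i j
  s_pos : ∀ i, 0 < s i i
  X_plus : ∀ i j, X j ((c i : ℂ) + ep) = s i j
  X_minus : ∀ i j, X j ((c i : ℂ) - ep) = if i = j then -(s i j : ℂ) else s i j
  X_one : ∀ j, X j 1 = 1
  X_neg_one : ∀ j, X j (-1) = -1
  posdef : (Matrix.of (fun i j => -Real.log |s i j| / Real.pi)).PosDef

namespace HypData

variable {g : ℕ} (D : HypData g)

/-- the domain -/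
def Om : Set ℂ := Hyp.Om D.c D.ep

/-- imaginary part of the period matrix -/
noncomputable def T : Matrix (Fin g) (Fin g) ℝ :=
  Matrix.of (fun i j => -Real.log |D.s i j| / Real.pi)

/-- the Riemann constant -/
noncomputable def kap (j : Fin g) : ℂ := -∏ i, (D.s i j : ℂ)

/-- the multiplicative periods: `q n j = ∏ i, (s i j)^(2 n i)` -/
noncomputable def q (n : Fin g → ℤ) (j : Fin g) : ℂ := ∏ i, (D.s i j : ℂ) ^ (2 * n i)

/-- Abel map at a curve point; the Boolean is the sheet -/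
noncomputable def XX (P : ℂ × Bool) (j : Fin g) : ℂ := if P.2 then D.X j P.1 else (D.X j P.1)⁻¹

/-- Abel map of an effective divisor -/
noncomputable def W (M : Multiset (ℂ × Bool)) (j : Fin g) : ℂ := (M.map (fun P => D.XX P j)).prod

/-- logarithmic derivatives, i.e. the holomorphic differentials -/
noncomputable def w (j : Fin g) (z : ℂ) : ℂ := deriv (D.X j) z / D.X j z

/-- the theta function pulled back to the two sheets -/
noncomputable def Fp (a : Fin g → ℂ) (z : ℂ) : ℂ := thx D.T (fun j => a j * D.X j z)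

/-- the theta function pulled back to the minus sheet -/
noncomputable def Fm (a : Fin g → ℂ) (z : ℂ) : ℂ := thx D.T (fun j => a j * (D.X j z)⁻¹)

/-- admissible radii -/
def Adm (R : ℝ) (r : Fin g → ℝ) : Prop :=
  2 / 3 < R ∧ R < 3 / 2 ∧ ∀ i, D.ep / 2 < r i ∧ r i < 2 * D.ep

/-- the radii of the minus sheet -/
noncomputable def rm (r : Fin g → ℝ) (i : Fin g) : ℝ := D.ep ^ 2 / r i

/-- `Z` is the multiset of zeros of `F` in the region with radii `R, r`, and there are no zeros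
on the boundary. -/
def ZData (F : ℂ → ℂ) (R : ℝ) (r : Fin g → ℝ) (Z : Multiset ℂ) : Prop :=
  (∀ ζ ∈ Z, ζ ∈ D.Om ∧ ‖ζ‖ < R ∧ ∀ i, r i < ‖ζ - D.c i‖) ∧
  ∃ h : ℂ → ℂ, DifferentiableOn ℂ h D.Om ∧ (∀ z ∈ KK D.c R r, h z ≠ 0) ∧
    ∀ z ∈ D.Om, F z = (Z.map (fun ζ => z - ζ)).prod * h z

/-- the ball used for generic choices -/
def B0 : Set ℂ := Metric.ball (I / 2) (1 / 8)

end HypData

end Pool.Agent.AM.Hyp
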