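import Mathlib

/-! Summation over the free group. -/

set_option autoImplicit false
open Filter Topology
namespace Pool.Agent.AM.Hyp

theorem FGsum_list (g : ℕ) (F : ℕ → ℝ) (hF : ∀ n, 0 ≤ F n)
    (hs : Summable (fun n : ℕ => (2 * g : ℝ) ^ n * F n)) :
    Summable (fun l : List (Fin g × Bool) => F l.length) ∧
    ∑' l : List (Fin g × Bool), F l.length = ∑' n : ℕ, (2 * g : ℝ) ^ n * F n := by
  classical
  have key : ∀ n : ℕ, ∑' _y : Fin n → (Fin g × Bool), F n = (2 * g : ℝ) ^ n * F n := by
    intro n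
    rw [tsum_fintype]
    simp [Finset.card_univ, mul_comm]
  have h1 : Summable (fun p : (Σ n, Fin n → (Fin g × Bool)) => F p.1) := by
    rw [summable_sigma_of_nonneg (fun p => hF p.1)]
    refine ⟨fun n => (hasSum_fintype _).summable, ?_⟩
    simp only [key]
    exact hs
  have he : (fun l : List (Fin g × Bool) => F l.length) =
      (fun p : (Σ n, Fin n → (Fin g × Bool)) => F p.1) ∘ List.equivSigmaTuple := by
    funext l
    rfl
  constructor
  · rw [he]
    exact (Equiv.summable_iff List.equivSigmaTuple).2 h1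
  · rw [he]
    have h2 := Equiv.tsum_eq (List.equivSigmaTuple (α := Fin g × Bool))
      (fun p : (Σ n, Fin n → (Fin g × Bool)) => F p.1)
    simp only [Function.comp_def]
    rw [h2, h1.tsum_sigma]
    simp only [key]

theorem FGsum_free (g : ℕ) (F : ℕ → ℝ) (hF : ∀ n, 0 ≤ F n)
    (hs : Summable (fun n : ℕ => (2 * g : ℝ) ^ n * F n)) :
    Summable (fun γ : FreeGroup (Fin g) => F γ.norm) ∧
    ∑' γ : FreeGroup (Fin g), F γ.norm ≤ ∑' n : ℕ, (2 * g : ℝ) ^ n * F n := by
  classical
  obtain ⟨h1, h2⟩ := FGsum_list g F hF hs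
  have hinj : Function.Injective (FreeGroup.toWord : FreeGroup (Fin g) → List (Fin g × Bool)) :=
    FreeGroup.toWord_injective
  have h3 : Summable (fun γ : FreeGroup (Fin g) => F γ.norm) := h1.comp_injective hinj
  refine ⟨h3, ?_⟩
  rw [← h2]
  exact tsum_comp_le_tsum_of_inj h1 (fun l => hF _) hinj

/-- summation over the free group -/
theorem summable_norm_pow (g : ℕ) (t : ℝ) (ht : 0 ≤ t) (h : 2 * g * t < 1) :
    Summable (fun γ : FreeGroup (Fin g) => t ^ (γ.norm)) := by
  refine (FGsum_free g (fun n => t ^ n) (fun n => pow_nonneg ht n) ?_).1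
  have h0 : (0 : ℝ) ≤ 2 * g * t := by positivity
  have := summable_geometric_of_lt_one h0 h
  refine this.congr ?_
  intro n
  rw [mul_pow]

/-- tail of the sum, `k` lower bound for the length -/
theorem tsum_norm_pow_le (g : ℕ) (t : ℝ) (ht : 0 ≤ t) (h : 4 * g * t ≤ 1) (k : ℕ) :
    ∑' γ : FreeGroup (Fin g), (if k ≤ γ.norm then t ^ (γ.norm) else 0) ≤ 2 * (2 * g * t) ^ k := by
  have h0 : (0 : ℝ) ≤ 2 * g * t := by positivity
  have h1 : (2 : ℝ) * g * t < 1 := by linarith
  have h1' : (2 : ℝ) * g * t ≤ 1 / 2 := by linarith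
  set r : ℝ := 2 * g * t with hr
  have hsum : HasSum (fun n : ℕ => if k ≤ n then r ^ n else 0) (r ^ k * (1 - r)⁻¹) := by
    have h2 : HasSum (fun n : ℕ => r ^ k * r ^ n) (r ^ k * (1 - r)⁻¹) :=
      (hasSum_geometric_of_lt_one h0 h1).mul_left _
    have hinj : Function.Injective (fun n : ℕ => n + k) := fun a b hab => by
      simpa using hab
    rw [← hinj.hasSum_iff]
    · convert h2 using 2 with n
      simp only [Function.comp_def, le_add_iff_nonneg_left, zero_le, if_true]
      rw [pow_add, mul_comm]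
    · intro n hn
      have : ¬ k ≤ n := by
        intro hk
        exact hn ⟨n - k, by simp; omega⟩
      simp [this]
  have hcongr : (fun n : ℕ => (2 * g : ℝ) ^ n * (if k ≤ n then t ^ n else 0)) =
      fun n : ℕ => if k ≤ n then r ^ n else 0 := by
    funext n
    split_ifs
    · rw [hr, mul_pow, mul_pow, mul_pow]
    · simp
  have h3 := FGsum_free g (fun n => if k ≤ n then t ^ n else 0)
    (fun n => by positivity) (by rw [hcongr]; exact hsum.summable)
  refine h3.2.trans ?_
  rw [hcongr, hsum.tsum_eq]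
  have h4 : (1 - r)⁻¹ ≤ 2 := by
    rw [inv_le_comm₀ (by linarith) (by norm_num)]
    linarith
  have h5 : 0 ≤ r ^ k := pow_nonneg h0 k
  nlinarith

end Pool.Agent.AM.Hyp
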