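import Pool.Agent.AM.Hyp.Parity
import Pool.Agent.AM.Hyp.Count

/-! Theta vanishes on the translate by `kap` of the Abel image of every effective divisor of
degree `g-1`. -/

set_option autoImplicit false
open Complex Filter Topology
namespace Pool.Agent.AM.Hyp
namespace HypData
variable {g : ℕ} (D : HypData g)

theorem kap_ne (j : Fin g) : D.kap j ≠ 0 := by
  unfold kap
  rw [neg_ne_zero, Finset.prod_ne_zero_iff]
  intro i _
  exact_mod_cast D.s_ne i j

theorem XX_ne (P : ℂ × Bool) (hP : P.1 ∈ D.Om) (j : Fin g) : D.XX P j ≠ 0 := by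
  unfold XX
  split_ifs
  · exact D.ne0 j _ hP
  · exact inv_ne_zero (D.ne0 j _ hP)

theorem W_ne (M : Multiset (ℂ × Bool)) (hM : ∀ P ∈ M, P.1 ∈ D.Om) (j : Fin g) :
    D.W M j ≠ 0 := by
  unfold W
  apply Multiset.prod_ne_zero
  intro h
  rw [Multiset.mem_map] at h
  obtain ⟨P, hP, h0⟩ := h
  exact D.XX_ne P (hM P hP) j h0

theorem Fact1_aux (M : Multiset (ℂ × Bool)) : (∀ P ∈ M, P.1 ∈ D.Om) →
    ∀ J : Finset ((Fin g × Bool) ⊕ Bool), Multiset.card M + J.card + 1 = g →
    thx D.T (fun j => D.kap j * D.W M j * ∏ x ∈ J, D.X j (D.wp x)) = 0 := by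
  classical
  induction M using Multiset.induction_on with
  | empty =>
    intro _ J hJ
    have h1 : ∀ j, D.kap j * D.W 0 j * ∏ x ∈ J, D.X j (D.wp x) =
        D.kap j * ∏ x ∈ J, D.X j (D.wp x) := by
      intro j
      simp [W]
    simp_rw [h1]
    exact D.parity J (by simpa using hJ)
  | cons P M' ih =>
    intro hM J hJ
    rw [Multiset.card_cons] at hJ
    have hM' : ∀ Q ∈ M', Q.1 ∈ D.Om := fun Q hQ => hM Q (Multiset.mem_cons_of_mem hQ)
    have hP : P.1 ∈ D.Om := hM P (Multiset.mem_cons_self P M')
    set a : Fin g → ℂ := fun j => D.kap j * D.W M' j * ∏ x ∈ J, D.X j (D.wp x) with ha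
    have haT : a ∈ Tor g := by
      intro j
      refine mul_ne_zero (mul_ne_zero (D.kap_ne j) (D.W_ne M' hM' j)) ?_
      exact Finset.prod_ne_zero_iff.2 fun x _ => D.ne0 j _ (D.wp_mem_Om x)
    have hzero : ∀ x ∉ J, D.Fp a (D.wp x) = 0 := by
      intro x hx
      have h1 := ih hM' (insert x J) (by rw [Finset.card_insert_of_notMem hx]; omega)
      unfold Fp
      rw [← h1]
      congr 1
      funext j
      rw [Finset.prod_insert hx]
      simp only [ha]
      ring
    have hall : ∀ z ∈ D.Om, D.Fp a z = 0 := by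
      refine D.many_zeros a haT (Finset.image D.wp Jᶜ) ?_ ?_ ?_
      · intro z hz
        rw [Finset.mem_image] at hz
        obtain ⟨x, _, rfl⟩ := hz
        exact D.wp_mem x
      · rw [Finset.card_image_of_injective _ D.wp_inj, Finset.card_compl]
        have : Fintype.card ((Fin g × Bool) ⊕ Bool) = 2 * g + 2 := by simp; ring
        rw [this]
        omega
      · intro z hz
        rw [Finset.mem_image] at hz
        obtain ⟨x, hx, rfl⟩ := hz
        exact hzero x (by simpa using hx)
    have hall' := D.Fm_zero_of_Fp a haT hall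
    have hW : ∀ j, D.W (P ::ₘ M') j = D.XX P j * D.W M' j := by
      intro j
      unfold W
      rw [Multiset.map_cons, Multiset.prod_cons]
    rcases hb : P.2 with _ | _
    · have h1 := hall' _ hP
      unfold Fm at h1
      rw [← h1]
      congr 1
      funext j
      rw [hW]
      unfold XX
      rw [hb]
      simp only [ha, Bool.false_eq_true, if_false]
      ring
    · have h1 := hall _ hP
      unfold Fp at h1
      rw [← h1]
      congr 1
      funext j
      rw [hW]
      unfold XX
      rw [hb]
      simp only [ha, if_true]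
      ring

theorem fact1 (M : Multiset (ℂ × Bool)) (hM : ∀ P ∈ M, P.1 ∈ D.Om)
    (hc : Multiset.card M + 1 = g) : thx D.T (fun j => D.kap j * D.W M j) = 0 := by
  have h := D.Fact1_aux M hM ∅ (by simpa using hc)
  simpa using h

end HypData
end Pool.Agent.AM.Hyp
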