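import Pool.Agent.AM.Hyp.PPalg

/-! The gluing relations of the functions `X j`. -/

set_option autoImplicit false
open Complex Filter Topology
namespace Pool.Agent.AM.Hyp
namespace SchData
variable {g : ℕ} (S : SchData g)

theorem Glue_ep_small : S.ep < 1 / 1000 := by
  have h1 := S.small
  have h2 := S.dl_le
  have h3 := S.dl_pos
  have h4 := S.ep_pos
  have h5 : S.dl ^ 3 ≤ (1 / 8) ^ 3 := pow_le_pow_left₀ h3.le h2 3
  have h6 : (0 : ℝ) ≤ (g : ℝ) := Nat.cast_nonneg g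
  have h7 : (1 : ℝ) ≤ ((g : ℝ) + 1) ^ 2 := by nlinarith
  have h8 : S.ep ≤ ((g : ℝ) + 1) ^ 2 * S.ep := by nlinarith
  nlinarith

theorem Glue_one_mem : (1 : ℂ) ∈ Om S.c S.ep := by
  refine ⟨by norm_num, fun i => ?_⟩
  have h1 := S.c_le i
  have h2 := S.Glue_ep_small
  have h3 : ‖(1 : ℂ) - (S.c i : ℂ)‖ = |1 - S.c i| := by
    rw [← Complex.ofReal_one, ← Complex.ofReal_sub, Complex.norm_real, Real.norm_eq_abs]
  rw [h3, abs_of_nonneg (by linarith)]
  linarith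

theorem Glue_ann0_sub (z : ℂ) (h1 : 2 / 3 < ‖z‖) (h2 : ‖z‖ < 3 / 2) : z ∈ Om S.c S.ep := by
  refine ⟨h2, fun i => ?_⟩
  have h3 := S.c_le i
  have h3' := S.c_ge i
  have h4 := S.Glue_ep_small
  have h5 : ‖z‖ ≤ ‖z - S.c i‖ + ‖(S.c i : ℂ)‖ := by
    have := norm_add_le (z - (S.c i : ℂ)) (S.c i : ℂ)
    simpa using this
  have h6 : ‖(S.c i : ℂ)‖ = S.c i := by
    rw [Complex.norm_real, Real.norm_eq_abs, abs_of_nonneg (by linarith)]
  rw [h6] at h5
  linarith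

theorem Glue_ep_lt_dl : 8 * S.ep < S.dl := by
  have h1 := S.small
  have h2 := S.dl_le
  have h3 := S.dl_pos
  have h4 := S.ep_pos
  have h5 : S.dl ^ 3 ≤ S.dl := by
    have : S.dl ^ 2 ≤ 1 := by nlinarith
    nlinarith
  have h6 : (0 : ℝ) ≤ (g : ℝ) := Nat.cast_nonneg g
  have h7 : (1 : ℝ) ≤ ((g : ℝ) + 1) ^ 2 := by nlinarith
  have h8 : S.ep ≤ ((g : ℝ) + 1) ^ 2 * S.ep := by nlinarith
  nlinarith

theorem Glue_ann_sub (i : Fin g) (z : ℂ) (h1 : S.ep / 2 < ‖z - S.c i‖)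
    (h2 : ‖z - S.c i‖ < 2 * S.ep) : z ∈ Om S.c S.ep := by
  have h4 := S.Glue_ep_small
  have h4' := S.ep_pos
  have h6 : ‖(S.c i : ℂ)‖ = S.c i := by
    rw [Complex.norm_real, Real.norm_eq_abs, abs_of_nonneg (by have := S.c_ge i; linarith)]
  refine ⟨?_, fun k => ?_⟩
  · have h5 : ‖z‖ ≤ ‖z - S.c i‖ + ‖(S.c i : ℂ)‖ := by
      have := norm_add_le (z - (S.c i : ℂ)) (S.c i : ℂ)
      simpa using this
    have := S.c_le i
    rw [h6] at h5
    linarith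
  · by_cases hk : i = k
    · subst hk; exact h1
    · have h7 := S.sep i k hk
      have h8 := S.Glue_ep_lt_dl
      have h9 : |S.c i - S.c k| ≤ ‖z - S.c i‖ + ‖z - S.c k‖ := by
        have h10 : ‖((S.c i : ℂ) - (S.c k : ℂ))‖ = |S.c i - S.c k| := by
          rw [← Complex.ofReal_sub, Complex.norm_real, Real.norm_eq_abs]
        rw [← h10]
        have h11 : (S.c i : ℂ) - (S.c k : ℂ) = (z - S.c k) - (z - S.c i) := by ring
        rw [h11]
        have := norm_sub_le (z - (S.c k : ℂ)) (z - (S.c i : ℂ))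
        linarith
      linarith

theorem Glue_ann_ne (i : Fin g) (z : ℂ) (h2 : ‖z - S.c i‖ < 2 * S.ep) : z ≠ 0 := by
  rintro rfl
  have h4 := S.Glue_ep_small
  rw [zero_sub, norm_neg, Complex.norm_real, Real.norm_eq_abs,
    abs_of_nonneg (by have := S.c_ge i; linarith)] at h2
  have := S.c_ge i
  linarith

theorem Glue_E0_b0 : E0 b0 = b1 := by
  funext k; fin_cases k <;> simp [E0, b0, b1]

theorem Glue_E0_b1 : E0 b1 = b0 := by
  funext k; fin_cases k <;> simp [E0, b0, b1]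

theorem Glue_E0_one : E0 (pt 1) = pt 1 := by
  funext k; fin_cases k <;> simp [E0, pt]

theorem Glue_one_b0 : S.Gd (pt 1) b0 := S.Gd_pt_b0 1 S.Glue_one_mem

theorem Glue_one_b1 : S.Gd (pt 1) b1 := S.Gd_pt_b1 1 S.Glue_one_mem one_ne_zero

/-- change of base point in the second pair -/
theorem Glue_base (η : FreeGroup (Fin g)) (z z0 p p' : Fin 2 → ℂ) (h1 : S.Gd z p)
    (h2 : S.Gd z p') (h3 : S.Gd z0 p) (h4 : S.Gd z0 p') :
    S.PP z z0 (S.act η p) p = S.PP z z0 (S.act η p') p' := by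
  have h1' := S.Gd_right z p η h1
  have h2' := S.Gd_right z p' η h2
  have h3' := S.Gd_right z0 p η h3
  have h4' := S.Gd_right z0 p' η h4
  have e1 := S.PP_mul_p z z0 (S.act η p) p p' h1' h1 h2 h3' h3 h4
  have e2 := S.PP_mul_p z z0 (S.act η p) (S.act η p') p' h1' h2' h2 h3' h4' h4
  rw [S.PP_right] at e2
  have hne := S.PP_ne z z0 p p' h1 h2 h3 h4
  have e3 : S.PP z z0 (S.act η p) p * S.PP z z0 p p' =
      S.PP z z0 (S.act η p') p' * S.PP z z0 p p' := by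
    rw [e1, ← e2, mul_comm]
  exact mul_right_cancel₀ hne e3

/-- change of base point in the first pair -/
theorem Glue_base' (η : FreeGroup (Fin g)) (z z' p p0 : Fin 2 → ℂ) (h1 : S.Gd z p)
    (h2 : S.Gd z' p) (h3 : S.Gd z p0) (h4 : S.Gd z' p0) :
    S.PP (S.act η z) z p p0 = S.PP (S.act η z') z' p p0 := by
  rw [S.PP_symm, S.PP_symm (S.act η z')]
  exact S.Glue_base η p p0 z z' (S.Gd_symm _ _ h1) (S.Gd_symm _ _ h2) (S.Gd_symm _ _ h3)
    (S.Gd_symm _ _ h4)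

/-- the inversion relation on vectors -/
theorem Glue_key (j : Fin g) (v : Fin 2 → ℂ) (h0 : S.Gd v b0) (h1 : S.Gd v b1) :
    S.PP (E0 v) (pt 1) (S.act (FreeGroup.of j) b0) b0 *
      S.PP v (pt 1) (S.act (FreeGroup.of j) b0) b0 = 1 := by
  have hb0 := S.Glue_one_b0
  have hb1 := S.Glue_one_b1
  have e1 : S.PP (E0 v) (pt 1) (S.act (FreeGroup.of j) b0) b0 =
      S.PP v (pt 1) b1 (S.act (FreeGroup.of j) b1) := by
    have h := S.PP_E0 v (pt 1) (E0 (S.act (FreeGroup.of j) b0)) (E0 b0)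
    rw [E0_E0, E0_E0, Glue_E0_one] at h
    rw [h, E0_act, Glue_E0_b0]
    have h2 := S.PP_right (flip g (FreeGroup.of j)) v (pt 1) b1 (S.act (FreeGroup.of j) b1)
    rw [← h2, ← S.act_mul]
    have h3 : flip g (FreeGroup.of j) * FreeGroup.of j = 1 := by
      simp [flip]
    rw [h3, S.act_one]
  rw [e1]
  have e2 := S.PP_mul_p v (pt 1) (S.act (FreeGroup.of j) b0) b0 b1
    (S.Gd_right _ _ _ h0) h0 h1 (S.Gd_right _ _ _ hb0) hb0 hb1
  have e3 := S.PP_mul_p v (pt 1) (S.act (FreeGroup.of j) b0) b1 (S.act (FreeGroup.of j) b1)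
    (S.Gd_right _ _ _ h0) h1 (S.Gd_right _ _ _ h1) (S.Gd_right _ _ _ hb0) hb1
    (S.Gd_right _ _ _ hb1)
  rw [S.PP_right] at e3
  have hne := S.PP_ne v (pt 1) b0 b1 h0 h1 hb0 hb1
  apply mul_right_cancel₀ hne
  rw [one_mul]
  calc S.PP v (pt 1) b1 (S.act (FreeGroup.of j) b1) *
        S.PP v (pt 1) (S.act (FreeGroup.of j) b0) b0 * S.PP v (pt 1) b0 b1
      = (S.PP v (pt 1) (S.act (FreeGroup.of j) b0) b0 * S.PP v (pt 1) b0 b1) *
        S.PP v (pt 1) b1 (S.act (FreeGroup.of j) b1) := by ring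
    _ = _ := by rw [e2, e3]

theorem X_one (j : Fin g) : S.X j 1 = 1 := by
  have hb0 := S.Glue_one_b0
  exact S.PP_self _ _ _ (S.Gd_right _ _ _ hb0) hb0

theorem X_ne (j : Fin g) (z : ℂ) (hz : z ∈ Om S.c S.ep) : S.X j z ≠ 0 := by
  have hb0 := S.Glue_one_b0
  have hz0 := S.Gd_pt_b0 z hz
  exact S.PP_ne _ _ _ _ (S.Gd_right _ _ _ hz0) hz0 (S.Gd_right _ _ _ hb0) hb0

theorem X_glue0 (j : Fin g) (z : ℂ) (h1 : 2 / 3 < ‖z‖) (h2 : ‖z‖ < 3 / 2) :
    S.X j z * S.X j z⁻¹ = 1 := by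
  have hz := S.Glue_ann0_sub z h1 h2
  have hne : z ≠ 0 := by
    rintro rfl
    norm_num at h1
  have h := S.Glue_key j (pt z) (S.Gd_pt_b0 z hz) (S.Gd_pt_b1 z hz hne)
  have e : pt z⁻¹ = fun k => z⁻¹ * E0 (pt z) k := by
    funext k
    fin_cases k <;> simp [E0, pt, hne]
  unfold X Xv
  rw [e, S.PP_smul _ (inv_ne_zero hne), mul_comm]
  exact h

theorem X_glue (i j : Fin g) (z : ℂ) (h1 : S.ep / 2 < ‖z - S.c i‖)
    (h2 : ‖z - S.c i‖ < 2 * S.ep) :
    S.X j z * S.X j (S.c i + S.ep ^ 2 / (z - S.c i)) = S.Qm i j := by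
  have hz := S.Glue_ann_sub i z h1 h2
  have hne := S.Glue_ann_ne i z h2
  have hep := S.ep_pos
  have hep' : (S.ep : ℂ) ≠ 0 := by exact_mod_cast hep.ne'
  have hsub : z - (S.c i : ℂ) ≠ 0 := by
    intro h
    rw [h, norm_zero] at h1
    linarith
  have g0 := S.Gd_pt_b0 z hz
  have g1 := S.Gd_pt_b1 z hz hne
  have hb0 := S.Glue_one_b0
  have hE : S.Gd (E0 (pt z)) b0 := by
    have := S.Gd_E0 _ _ g1
    rwa [Glue_E0_b1] at this
  have h := S.Glue_key j (pt z) g0 g1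
  have e : pt (S.c i + S.ep ^ 2 / (z - S.c i)) =
      fun k => ((S.ep : ℂ) / (z - S.c i)) * S.act (FreeGroup.of i) (E0 (pt z)) k := by
    rw [S.act_of]
    funext k
    fin_cases k
    · simp [E0, pt, br, dir, b0]
      field_simp
    · simp [E0, pt, br, dir, b0]
      field_simp
  unfold X Xv
  rw [e, S.PP_smul _ (div_ne_zero hep' hsub)]
  have e2 := S.PP_mul_z (S.act (FreeGroup.of i) (E0 (pt z))) (S.act (FreeGroup.of i) (pt 1))
    (pt 1) (S.act (FreeGroup.of j) b0) b0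
    (S.Gd_right _ _ _ (S.Gd_left _ _ _ hE)) (S.Gd_left _ _ _ hE)
    (S.Gd_right _ _ _ (S.Gd_left _ _ _ hb0)) (S.Gd_left _ _ _ hb0)
    (S.Gd_right _ _ _ hb0) hb0
  rw [S.PP_left] at e2
  rw [← e2]
  unfold Qm
  calc S.PP (pt z) (pt 1) (S.act (FreeGroup.of j) b0) b0 *
        (S.PP (E0 (pt z)) (pt 1) (S.act (FreeGroup.of j) b0) b0 *
          S.PP (S.act (FreeGroup.of i) (pt 1)) (pt 1) (S.act (FreeGroup.of j) b0) b0)
      = (S.PP (E0 (pt z)) (pt 1) (S.act (FreeGroup.of j) b0) b0 *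
        S.PP (pt z) (pt 1) (S.act (FreeGroup.of j) b0) b0) *
          S.PP (S.act (FreeGroup.of i) (pt 1)) (pt 1) (S.act (FreeGroup.of j) b0) b0 := by ring
    _ = _ := by rw [h, one_mul]

theorem Qm_symm (i j : Fin g) : S.Qm i j = S.Qm j i := by
  have hb0 := S.Glue_one_b0
  have hb1 := S.Glue_one_b1
  have h01 := S.Gd_b0_b1
  unfold Qm
  rw [S.PP_symm]
  -- first: change the base point of the second pair from one to infinity-dual
  rw [S.Glue_base (FreeGroup.of i) (S.act (FreeGroup.of j) b0) b0 (pt 1) b1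
    (S.Gd_left _ _ _ (S.Gd_symm _ _ hb0)) (S.Gd_left _ _ _ h01) (S.Gd_symm _ _ hb0) h01]
  rw [S.Glue_base' (FreeGroup.of j) b0 (pt 1) (S.act (FreeGroup.of i) b1) b1
    (S.Gd_right _ _ _ h01) (S.Gd_right _ _ _ hb1) h01 hb1]
  rw [S.Glue_base (FreeGroup.of i) (S.act (FreeGroup.of j) (pt 1)) (pt 1) b1 b0
    (S.Gd_left _ _ _ hb1) (S.Gd_left _ _ _ hb0) hb1 hb0]

theorem X_real (j : Fin g) (x : ℝ) : (S.X j x).im = 0 := by
  unfold X Xv
  apply S.PP_real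
  · intro k
    fin_cases k <;> simp [pt]
  · intro k
    fin_cases k <;> simp [pt]
  · intro k
    rw [S.act_of]
    fin_cases k
    · simp [br, dir, b0, pow_two]
    · simp [br, dir, b0, pow_two]
  · intro k
    fin_cases k <;> simp [b0]

end SchData
end Pool.Agent.AM.Hyp
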