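import Pool.Agent.AM.Hyp.Sch
import Pool.Agent.AM.Hyp.FGsum

/-! The Schottky group: action, growth, lower bounds. -/

set_option autoImplicit false
open Complex Filter Topology
namespace Pool.Agent.AM.Hyp

theorem br_swap (p q : Fin 2 → ℂ) : br q p = -br p q := by
  simp only [br]; ring

theorem br_E0 (p q : Fin 2 → ℂ) : br (E0 p) (E0 q) = -br p q := by
  simp only [br, E0, Matrix.cons_val_zero, Matrix.cons_val_one]; ring

theorem E0_E0 (p : Fin 2 → ℂ) : E0 (E0 p) = p := by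
  funext k
  fin_cases k <;> simp [E0]

theorem flip_flip (g : ℕ) (γ : FreeGroup (Fin g)) : flip g (flip g γ) = γ := by
  have h : (flip g).comp (flip g) = MonoidHom.id _ := by
    ext i
    simp [flip]
  exact DFunLike.congr_fun h γ

namespace Growth

theorem flip_mk (g : ℕ) (L : List (Fin g × Bool)) :
    flip g (FreeGroup.mk L) = FreeGroup.mk (L.map (fun x => (x.1, !x.2))) := by
  induction L with
  | nil =>
    change flip g 1 = 1
    exact map_one _
  | cons x L ih =>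
    obtain ⟨i, b⟩ := x
    have h1 : FreeGroup.mk ((i, b) :: L) = FreeGroup.mk [(i, b)] * FreeGroup.mk L := by
      rw [FreeGroup.mul_mk]; rfl
    have h2 : FreeGroup.mk (((i, b) :: L).map (fun x => (x.1, !x.2))) =
        FreeGroup.mk [(i, !b)] * FreeGroup.mk (L.map (fun x => (x.1, !x.2))) := by
      rw [FreeGroup.mul_mk]; rfl
    rw [h1, h2, map_mul, ih]
    congr 1
    cases b
    · change flip g (FreeGroup.of i)⁻¹ = FreeGroup.of i
      simp [flip]
    · change flip g (FreeGroup.of i) = (FreeGroup.of i)⁻¹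
      simp [flip]

theorem flip_norm_le (g : ℕ) (γ : FreeGroup (Fin g)) : (flip g γ).norm ≤ γ.norm := by
  have h : flip g γ = FreeGroup.mk (γ.toWord.map (fun x => (x.1, !x.2))) := by
    rw [← flip_mk, FreeGroup.mk_toWord]
  rw [h]
  refine FreeGroup.norm_mk_le.trans ?_
  rw [List.length_map]
  exact le_rfl

end Growth

theorem flip_norm (g : ℕ) (γ : FreeGroup (Fin g)) : (flip g γ).norm = γ.norm := by
  apply le_antisymm (Growth.flip_norm_le g γ)
  have h := Growth.flip_norm_le g (flip g γ)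
  rwa [flip_flip] at h

namespace SchData
variable {g : ℕ} (S : SchData g)

theorem Growth_eps : 10 ^ 5 * S.ep ≤ S.dl ^ 3 := by
  have h1 := S.small
  have h2 := S.ep_pos
  have h3 : (1 : ℝ) ≤ ((g : ℝ) + 1) ^ 2 := by
    have : (0 : ℝ) ≤ g := Nat.cast_nonneg g
    nlinarith
  nlinarith

theorem Growth_eps_dl : 40 * S.ep ≤ S.dl := by
  have h1 := S.Growth_eps
  have h2 := S.dl_pos
  have h3 := S.dl_le
  have h4 : S.dl ^ 3 ≤ S.dl := by nlinarith [mul_pos h2 h2]
  have := S.ep_pos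
  linarith

theorem Growth_eta_pos : 0 < S.eta := by
  have := S.ep_pos
  have := S.dl_pos
  unfold eta
  positivity

theorem Growth_eta_le : S.eta ≤ S.ep / 10 := by
  have h1 := S.Growth_eps_dl
  have h2 := S.ep_pos
  have h3 := S.dl_pos
  unfold eta
  rw [div_le_iff₀ h3]
  nlinarith

theorem Growth_ep_le : S.ep ≤ 1 / 320 := by
  have h1 := S.Growth_eps_dl
  have h3 := S.dl_le
  linarith

theorem K_ge : 10 ^ 3 * ((g : ℝ) + 1) ^ 2 ≤ S.K := by
  have h1 := S.small
  have h2 := S.dl_pos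
  have h3 := S.dl_le
  have h4 : S.dl ^ 3 ≤ S.dl := by nlinarith [mul_pos h2 h2]
  have h5 := S.ep_pos
  unfold K
  rw [le_div_iff₀ (by positivity)]
  have h6 : 0 ≤ ((g : ℝ) + 1) ^ 2 * S.ep := by positivity
  nlinarith

theorem Growth_K_pos : 0 < S.K := by
  have := S.ep_pos
  have := S.dl_pos
  unfold K
  positivity

theorem act_one (p : Fin 2 → ℂ) : S.act 1 p = p := by
  simp [act]

theorem act_mul (γ δ : FreeGroup (Fin g)) (p : Fin 2 → ℂ) :
    S.act (γ * δ) p = S.act γ (S.act δ p) := by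
  unfold act
  rw [map_mul, Matrix.SpecialLinearGroup.coe_mul, Matrix.mulVec_mulVec]

theorem Growth_br_mulVec (A : Matrix (Fin 2) (Fin 2) ℂ) (p q : Fin 2 → ℂ) :
    br (A.mulVec p) (A.mulVec q) = A.det * br p q := by
  simp only [br, Matrix.mulVec, dotProduct, Fin.sum_univ_two, Matrix.det_fin_two]
  ring

theorem br_act (γ : FreeGroup (Fin g)) (p q : Fin 2 → ℂ) :
    br (S.act γ p) (S.act γ q) = br p q := by
  unfold act
  rw [Growth_br_mulVec, Matrix.SpecialLinearGroup.det_coe, one_mul]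

theorem Growth_rep_of (i : Fin g) :
    (S.rep (FreeGroup.of i) : Matrix (Fin 2) (Fin 2) ℂ) = S.Gmat i := by
  have h : S.rep (FreeGroup.of i) = ⟨S.Gmat i, S.Gmat_det i⟩ :=
    FreeGroup.lift_apply_of
  exact congrArg Subtype.val h

theorem act_of (i : Fin g) (p : Fin 2 → ℂ) : S.act (FreeGroup.of i) p =
    fun k => (1 / (S.ep : ℂ)) * (-(br p (S.dir i false)) * S.dir i true k +
      S.ep ^ 2 * p 0 * b0 k) := by
  have h : (S.ep : ℂ) ≠ 0 := by exact_mod_cast S.ep_pos.ne'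
  unfold act
  rw [S.Growth_rep_of]
  funext k
  fin_cases k
  · simp [Matrix.mulVec, dotProduct, Fin.sum_univ_two, Gmat, br, dir, b0]
    field_simp
    ring
  · simp [Matrix.mulVec, dotProduct, Fin.sum_univ_two, Gmat, br, dir, b0]
    field_simp
    ring

theorem act_of_inv (i : Fin g) (p : Fin 2 → ℂ) : S.act (FreeGroup.of i)⁻¹ p =
    fun k => (1 / (S.ep : ℂ)) * ((br p (S.dir i true)) * S.dir i false k +
      S.ep ^ 2 * p 1 * b1 k) := by
  have h : (S.ep : ℂ) ≠ 0 := by exact_mod_cast S.ep_pos.ne'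
  have h2 : (S.rep (FreeGroup.of i)⁻¹ : Matrix (Fin 2) (Fin 2) ℂ) =
      !![(1 / S.ep : ℂ), (-S.c i / S.ep : ℂ); (S.c i / S.ep : ℂ),
        ((S.ep ^ 2 - S.c i ^ 2) / S.ep : ℂ)] := by
    rw [map_inv, Matrix.SpecialLinearGroup.coe_inv]
    rw [S.Growth_rep_of, Matrix.adjugate_fin_two]
    ext a b
    fin_cases a <;> fin_cases b <;> simp [Gmat, neg_div]
  unfold act
  rw [h2]
  funext k
  fin_cases k
  · simp [Matrix.mulVec, dotProduct, Fin.sum_univ_two, br, dir, b1]
    field_simp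
    ring
  · simp [Matrix.mulVec, dotProduct, Fin.sum_univ_two, br, dir, b1]
    field_simp
    ring

theorem Growth_E0_of (i : Fin g) (p : Fin 2 → ℂ) :
    E0 (S.act (FreeGroup.of i) p) = S.act (FreeGroup.of i)⁻¹ (E0 p) := by
  rw [act_of, act_of_inv]
  funext k
  fin_cases k <;> simp [E0, br, dir, b0, b1]

theorem E0_act (γ : FreeGroup (Fin g)) (p : Fin 2 → ℂ) :
    E0 (S.act γ p) = S.act (flip g γ) (E0 p) := by
  induction γ using FreeGroup.induction_on generalizing p with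
  | C1 => rw [map_one, act_one, act_one]
  | of i =>
    rw [S.Growth_E0_of]
    simp [flip]
  | inv_of i _ =>
    have h := S.Growth_E0_of i (E0 p)
    have h2 : flip g (FreeGroup.of i)⁻¹ = FreeGroup.of i := by simp [flip]
    have h3 : S.act (FreeGroup.of i)⁻¹ p = E0 (S.act (FreeGroup.of i) (E0 p)) := by
      rw [h, E0_E0]
    change E0 (S.act (FreeGroup.of i)⁻¹ p) = S.act (flip g (FreeGroup.of i)⁻¹) (E0 p)
    rw [h2, h3, E0_E0]
  | mul x y hx hy => rw [act_mul, hx, hy, map_mul, act_mul]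

theorem Growth_b0_le (k : Fin 2) : ‖b0 k‖ ≤ 1 := by
  fin_cases k <;> simp [b0]

theorem Growth_b1_le (k : Fin 2) : ‖b1 k‖ ≤ 1 := by
  fin_cases k <;> simp [b1]

/-- the two kinds of letters in a common form -/
theorem Growth_let (i : Fin g) (b : Bool) (p : Fin 2 → ℂ) :
    ∃ (σ : ℂ) (m : Fin 2) (u : Fin 2 → ℂ), ‖σ‖ = 1 ∧ (∀ k, ‖u k‖ ≤ 1) ∧
      S.act (FreeGroup.mk [(i, b)]) p = fun k => (1 / (S.ep : ℂ)) *
        (σ * br p (S.dir i (!b)) * S.dir i b k + S.ep ^ 2 * p m * u k) := by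
  cases b
  · refine ⟨1, 1, b1, by simp, Growth_b1_le, ?_⟩
    have h := S.act_of_inv i p
    change S.act (FreeGroup.mk [(i, false)]) p = _ at h
    rw [h]
    simp
  · refine ⟨-1, 0, b0, by simp, Growth_b0_le, ?_⟩
    have h := S.act_of i p
    change S.act (FreeGroup.mk [(i, true)]) p = _ at h
    rw [h]
    simp

theorem Growth_step (i : Fin g) (b : Bool) (p : Fin 2 → ℂ)
    (hbr : S.dl / 2 ≤ ‖br p (S.dir i (!b))‖) (hp : ∀ m, ‖p m‖ ≤ 2) :
    ∃ (lam : ℂ) (e : Fin 2 → ℂ), S.K ≤ ‖lam‖ ∧ (∀ k, ‖e k‖ ≤ S.eta) ∧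
      S.act (FreeGroup.mk [(i, b)]) p = fun k => lam * (S.dir i b k + e k) := by
  obtain ⟨σ, m, u, hσ, hu, h⟩ := S.Growth_let i b p
  have hep := S.ep_pos
  have hdl := S.dl_pos
  set B : ℂ := σ * br p (S.dir i (!b)) with hB
  have hBn : S.dl / 2 ≤ ‖B‖ := by rw [hB, norm_mul, hσ, one_mul]; exact hbr
  have hB0 : B ≠ 0 := by
    intro h0
    rw [h0, norm_zero] at hBn
    linarith
  have hepc : (S.ep : ℂ) ≠ 0 := by exact_mod_cast hep.ne'
  refine ⟨B / S.ep, fun k => S.ep ^ 2 * p m * u k / B, ?_, fun k => ?_, ?_⟩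
  · rw [norm_div, Complex.norm_real, Real.norm_of_nonneg hep.le]
    unfold K
    rw [div_le_div_iff₀ (by positivity) hep]
    nlinarith
  · rw [norm_div, norm_mul, norm_mul, norm_pow, Complex.norm_real, Real.norm_of_nonneg hep.le]
    unfold eta
    have h1 : S.ep ^ 2 * ‖p m‖ * ‖u k‖ ≤ S.ep ^ 2 * 2 * 1 := by
      gcongr
      · exact hp m
      · exact hu k
    have hBp : 0 < ‖B‖ := by linarith
    rw [div_le_div_iff₀ hBp hdl]
    nlinarith [sq_nonneg S.ep, pow_pos hep 2]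
  · rw [h]
    funext k
    field_simp

theorem Growth_c_nn (i : Fin g) : 0 ≤ S.c i := by linarith [S.c_ge i]

theorem Growth_dir_le (i : Fin g) (b : Bool) (k : Fin 2) : ‖S.dir i b k‖ ≤ 1 := by
  have h1 := S.c_ge i
  have h2 := S.c_le i
  have h3 : ‖(S.c i : ℂ)‖ ≤ 1 := by
    rw [Complex.norm_real, Real.norm_of_nonneg (by linarith)]; linarith
  cases b <;> fin_cases k <;> simp [dir] at h3 ⊢ <;> assumption

theorem Growth_dir_ge (i : Fin g) (b : Bool) (k : Fin 2) : 1 / 4 ≤ ‖S.dir i b k‖ := by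
  have h1 := S.c_ge i
  have h2 := S.c_le i
  have h3 : 1 / 4 ≤ ‖(S.c i : ℂ)‖ := by
    rw [Complex.norm_real, Real.norm_of_nonneg (by linarith)]; linarith
  cases b <;> fin_cases k <;> simp [dir] at h3 ⊢ <;> first | assumption | norm_num

theorem Growth_sep (i k : Fin g) (b b' : Bool) (h : i = k → b = b') :
    S.dl ≤ ‖br (S.dir k b') (S.dir i (!b))‖ := by
  have h1 := S.c_ge i
  have h2 := S.c_le i
  have h3 := S.c_ge k
  have h4 := S.c_le k
  have hd := S.dl_le
  have hcc : ∀ x y : ℝ, 1 / 4 ≤ x → x ≤ 1 / 2 → 1 / 4 ≤ y → y ≤ 1 / 2 → x * y ≤ 1 / 2 := by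
    intro x y _ _ _ _
    nlinarith
  have h5 := hcc (S.c i) (S.c k) h1 h2 h3 h4
  cases b <;> cases b'
  · -- `dir k false = (1, c k)`, `dir i true = (c i, 1)`
    have e : br (S.dir k false) (S.dir i (!false)) = ((1 - S.c i * S.c k : ℝ) : ℂ) := by
      simp [br, dir, mul_comm]
    rw [e, Complex.norm_real, Real.norm_eq_abs, abs_of_nonneg (by linarith)]
    linarith
  · have hik : i ≠ k := fun h0 => by simpa using h h0
    have e : br (S.dir k true) (S.dir i (!false)) = ((S.c k - S.c i : ℝ) : ℂ) := by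
      simp [br, dir]
    rw [e, Complex.norm_real, Real.norm_eq_abs]
    exact S.sep k i hik.symm
  · have hik : i ≠ k := fun h0 => by simpa using h h0
    have e : br (S.dir k false) (S.dir i (!true)) = ((S.c i - S.c k : ℝ) : ℂ) := by
      simp [br, dir]
    rw [e, Complex.norm_real, Real.norm_eq_abs]
    exact S.sep i k hik
  · have e : br (S.dir k true) (S.dir i (!true)) = ((S.c i * S.c k - 1 : ℝ) : ℂ) := by
      simp [br, dir]
      ring
    rw [e, Complex.norm_real, Real.norm_eq_abs, abs_of_nonpos (by linarith)]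
    linarith

theorem Growth_br_b (i : Fin g) (b : Bool) (p : Fin 2 → ℂ) (hp : p = b0 ∨ p = b1) :
    1 / 4 ≤ ‖br p (S.dir i b)‖ := by
  rcases hp with rfl | rfl
  · have e : br b0 (S.dir i b) = S.dir i b 1 := by simp [br, b0]
    rw [e]
    exact S.Growth_dir_ge i b 1
  · have e : br b1 (S.dir i b) = - S.dir i b 0 := by simp [br, b1]
    rw [e, norm_neg]
    exact S.Growth_dir_ge i b 0

theorem Growth_word (L : List (Fin g × Bool)) (i : Fin g) (b : Bool)
    (h : FreeGroup.IsReduced ((i, b) :: L)) (p : Fin 2 → ℂ) (hp : p = b0 ∨ p = b1) :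
    ∃ (lam : ℂ) (e : Fin 2 → ℂ), S.K ^ (L.length + 1) ≤ ‖lam‖ ∧ (∀ k, ‖e k‖ ≤ S.eta) ∧
      S.act (FreeGroup.mk ((i, b) :: L)) p = fun k => lam * (S.dir i b k + e k) := by
  have hdl := S.dl_le
  have hdl0 := S.dl_pos
  have hep := S.Growth_ep_le
  have hep0 := S.ep_pos
  have heta := S.Growth_eta_le
  have heta0 := S.Growth_eta_pos
  have hed := S.Growth_eps_dl
  induction L generalizing i b with
  | nil =>
    obtain ⟨lam, e, h1, h2, h3⟩ := S.Growth_step i b p
      (by have := S.Growth_br_b i (!b) p hp; linarith)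
      (by
        intro m
        rcases hp with rfl | rfl
        · exact (Growth_b0_le m).trans (by norm_num)
        · exact (Growth_b1_le m).trans (by norm_num))
    exact ⟨lam, e, by simpa using h1, h2, h3⟩
  | cons x L ih =>
    obtain ⟨k, b'⟩ := x
    rw [FreeGroup.isReduced_cons_cons] at h
    obtain ⟨lam', e', h1, h2, h3⟩ := ih k b' h.2
    have hm : FreeGroup.mk ((i, b) :: (k, b') :: L) =
        FreeGroup.mk [(i, b)] * FreeGroup.mk ((k, b') :: L) := by
      rw [FreeGroup.mul_mk]; rfl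
    set p' : Fin 2 → ℂ := fun m => S.dir k b' m + e' m with hp'
    have hbr : S.dl / 2 ≤ ‖br p' (S.dir i (!b))‖ := by
      have e1 : br p' (S.dir i (!b)) = br (S.dir k b') (S.dir i (!b)) +
          (e' 0 * S.dir i (!b) 1 - e' 1 * S.dir i (!b) 0) := by
        simp only [br, hp']; ring
      have e2 : ‖e' 0 * S.dir i (!b) 1 - e' 1 * S.dir i (!b) 0‖ ≤ 2 * S.eta := by
        refine (norm_sub_le _ _).trans ?_
        rw [norm_mul, norm_mul]
        have a0 := h2 0
        have a1 := h2 1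
        have b0 := S.Growth_dir_le i (!b) 0
        have b1 := S.Growth_dir_le i (!b) 1
        have := norm_nonneg (e' 0)
        have := norm_nonneg (e' 1)
        have := norm_nonneg (S.dir i (!b) 0)
        have := norm_nonneg (S.dir i (!b) 1)
        nlinarith
      have e3 := S.Growth_sep i k b b' h.1
      rw [e1]
      have e4 := norm_sub_norm_le (br (S.dir k b') (S.dir i (!b)))
        (-(e' 0 * S.dir i (!b) 1 - e' 1 * S.dir i (!b) 0))
      rw [sub_neg_eq_add, norm_neg] at e4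
      linarith
    obtain ⟨lam, e, h4, h5, h6⟩ := S.Growth_step i b p' hbr (by
      intro m
      refine (norm_add_le _ _).trans ?_
      have a0 := h2 m
      have b0 := S.Growth_dir_le k b' m
      linarith)
    refine ⟨lam' * lam, e, ?_, h5, ?_⟩
    · rw [norm_mul, pow_succ]
      exact mul_le_mul h1 h4 S.Growth_K_pos.le (norm_nonneg _)
    · rw [hm, act_mul, h3]
      have e1 : (fun k_1 => lam' * (S.dir k b' k_1 + e' k_1)) = lam' • p' := by
        funext m
        simp [hp']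
      have e2 : S.act (FreeGroup.mk [(i, b)]) (lam' • p') =
          lam' • S.act (FreeGroup.mk [(i, b)]) p' := by
        unfold act
        rw [Matrix.mulVec_smul]
      rw [e1, e2, h6]
      funext m
      simp only [Pi.smul_apply, smul_eq_mul]
      ring

/-- ping-pong: growth and direction of the orbits of `b0` and `b1` -/
theorem growth (γ : FreeGroup (Fin g)) (i : Fin g) (b : Bool) (L : List (Fin g × Bool))
    (h : γ.toWord = (i, b) :: L) (p : Fin 2 → ℂ) (hp : p = b0 ∨ p = b1) :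
    ∃ (lam : ℂ) (e : Fin 2 → ℂ), S.K ^ (γ.norm) ≤ ‖lam‖ ∧ ‖e 0‖ ≤ S.eta ∧ ‖e 1‖ ≤ S.eta ∧
      S.act γ p = fun k => lam * (S.dir i b k + e k) := by
  have hr : FreeGroup.IsReduced ((i, b) :: L) := h ▸ FreeGroup.isReduced_toWord
  obtain ⟨lam, e, h1, h2, h3⟩ := S.Growth_word L i b hr p hp
  have hγ : FreeGroup.mk ((i, b) :: L) = γ := by rw [← h, FreeGroup.mk_toWord]
  have hn : γ.norm = L.length + 1 := by
    unfold FreeGroup.norm
    rw [h]
    rfl
  rw [hγ] at h3
  rw [hn]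
  exact ⟨lam, e, h1, h2 0, h2 1, h3⟩

theorem Growth_exists (γ : FreeGroup (Fin g)) (hγ : γ ≠ 1) (p : Fin 2 → ℂ)
    (hp : p = b0 ∨ p = b1) : ∃ (i : Fin g) (b : Bool) (lam : ℂ) (e : Fin 2 → ℂ),
      S.K ^ (γ.norm) ≤ ‖lam‖ ∧ ‖e 0‖ ≤ S.eta ∧ ‖e 1‖ ≤ S.eta ∧
      S.act γ p = fun k => lam * (S.dir i b k + e k) := by
  cases h : γ.toWord with
  | nil => exact absurd (FreeGroup.toWord_eq_nil_iff.1 h) hγ
  | cons x L =>
    obtain ⟨i, b⟩ := x
    obtain ⟨lam, e, h1⟩ := S.growth γ i b L h p hp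
    exact ⟨i, b, lam, e, h1⟩

/-- general lower bound -/
theorem Growth_low (v : Fin 2 → ℂ) (r : ℝ) (hr : 0 ≤ r) (hv0 : ‖v 0‖ ≤ 3 / 2) (hv1 : ‖v 1‖ ≤ 1)
    (h : ∀ i b, r + S.ep / 4 ≤ ‖br v (S.dir i b)‖) (γ : FreeGroup (Fin g)) (hγ : γ ≠ 1)
    (p : Fin 2 → ℂ) (hp : p = b0 ∨ p = b1) : S.K ^ (γ.norm) * r ≤ ‖br v (S.act γ p)‖ := by
  obtain ⟨i, b, lam, e, h1, h2, h3, h4⟩ := S.Growth_exists γ hγ p hp
  have e1 : br v (S.act γ p) = lam * (br v (S.dir i b) + (v 0 * e 1 - v 1 * e 0)) := by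
    rw [h4]; simp only [br]; ring
  have e2 : ‖v 0 * e 1 - v 1 * e 0‖ ≤ S.ep / 4 := by
    refine (norm_sub_le _ _).trans ?_
    rw [norm_mul, norm_mul]
    have heta := S.Growth_eta_le
    have heta0 := S.Growth_eta_pos
    have := norm_nonneg (v 0)
    have := norm_nonneg (v 1)
    have := norm_nonneg (e 0)
    have := norm_nonneg (e 1)
    have a1 : ‖v 0‖ * ‖e 1‖ ≤ 3 / 2 * S.eta := mul_le_mul hv0 h3 (by positivity) (by norm_num)
    have a2 : ‖v 1‖ * ‖e 0‖ ≤ 1 * S.eta := mul_le_mul hv1 h2 (by positivity) (by norm_num)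
    linarith
  have e3 : r ≤ ‖br v (S.dir i b) + (v 0 * e 1 - v 1 * e 0)‖ := by
    have e4 := norm_sub_norm_le (br v (S.dir i b)) (-(v 0 * e 1 - v 1 * e 0))
    rw [sub_neg_eq_add, norm_neg] at e4
    have := h i b
    linarith
  rw [e1, norm_mul]
  exact mul_le_mul h1 e3 hr (norm_nonneg _)

theorem Growth_br_pt (z : ℂ) (i : Fin g) (b : Bool) :
    br (pt z) (S.dir i b) = if b then z - S.c i else z * S.c i - 1 := by
  cases b <;> simp [br, pt, dir]

/-- lower bound on the domain -/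
theorem low_Om (γ : FreeGroup (Fin g)) (hγ : γ ≠ 1) (p : Fin 2 → ℂ) (hp : p = b0 ∨ p = b1)
    (z : ℂ) (hz : z ∈ Om S.c S.ep) : S.K ^ (γ.norm) * (S.ep / 4) ≤ ‖br (pt z) (S.act γ p)‖ := by
  have hep := S.Growth_ep_le
  have hep0 := S.ep_pos
  apply S.Growth_low (pt z) (S.ep / 4) (by positivity) _ _ _ γ hγ p hp
  · simpa [pt] using hz.1.le
  · simp [pt]
  · intro i b
    rw [S.Growth_br_pt]
    cases b
    · simp only [Bool.false_eq_true, if_false]
      have h1 : ‖z * S.c i‖ ≤ 3 / 4 := by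
        rw [norm_mul, Complex.norm_real, Real.norm_of_nonneg (S.Growth_c_nn i)]
        have a1 := hz.1
        have a2 := S.c_le i
        have a3 := S.Growth_c_nn i
        have a4 := norm_nonneg z
        nlinarith
      have h2 := norm_sub_norm_le (1 : ℂ) (z * S.c i)
      rw [norm_one, norm_sub_rev] at h2
      linarith
    · simp only [if_true]
      have := hz.2 i
      linarith

theorem low_one (γ : FreeGroup (Fin g)) (hγ : γ ≠ 1) (p : Fin 2 → ℂ) (hp : p = b0 ∨ p = b1) :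
    S.K ^ (γ.norm) / 4 ≤ ‖br (pt 1) (S.act γ p)‖ := by
  have hep := S.Growth_ep_le
  have hep0 := S.ep_pos
  rw [div_eq_mul_one_div]
  apply S.Growth_low (pt 1) (1 / 4) (by positivity) _ _ _ γ hγ p hp
  · simp [pt]; norm_num
  · simp [pt]
  · intro i b
    rw [S.Growth_br_pt]
    have a2 := S.c_le i
    have a3 := S.Growth_c_nn i
    cases b
    · simp only [Bool.false_eq_true, if_false]
      have e : (1 : ℂ) * S.c i - 1 = ((S.c i - 1 : ℝ) : ℂ) := by push_cast; ring
      rw [e, Complex.norm_real, Real.norm_eq_abs, abs_of_nonpos (by linarith)]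
      linarith
    · simp only [if_true]
      have e : (1 : ℂ) - S.c i = ((1 - S.c i : ℝ) : ℂ) := by push_cast; ring
      rw [e, Complex.norm_real, Real.norm_eq_abs, abs_of_nonneg (by linarith)]
      linarith

theorem Gd_b0_b1 : S.Gd b0 b1 := by
  have hep := S.Growth_ep_le
  have hep0 := S.ep_pos
  refine ⟨1 / 8, by norm_num, fun γ => ?_⟩
  by_cases hγ : γ = 1
  · rw [hγ, act_one, FreeGroup.norm_one, pow_zero]
    simp [br, b0, b1]
    norm_num
  · rw [mul_comm]
    apply S.Growth_low b0 (1 / 8) (by norm_num) _ _ _ γ hγ b1 (Or.inr rfl)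
    · simp [b0]; norm_num
    · simp [b0]
    · intro i b
      have := S.Growth_br_b i b b0 (Or.inl rfl)
      linarith

theorem Gd_pt_b0 (z : ℂ) (hz : z ∈ Om S.c S.ep) : S.Gd (pt z) b0 := by
  have hep := S.Growth_ep_le
  have hep0 := S.ep_pos
  refine ⟨S.ep / 4, by positivity, fun γ => ?_⟩
  by_cases hγ : γ = 1
  · rw [hγ, act_one, FreeGroup.norm_one, pow_zero]
    simp [br, b0, pt]
    linarith
  · rw [mul_comm]
    exact S.low_Om γ hγ b0 (Or.inl rfl) z hz

theorem Gd_pt_b1 (z : ℂ) (hz : z ∈ Om S.c S.ep) (h0 : z ≠ 0) : S.Gd (pt z) b1 := by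
  have hep := S.Growth_ep_le
  have hep0 := S.ep_pos
  have hz0 : 0 < ‖z‖ := norm_pos_iff.2 h0
  refine ⟨min (S.ep / 4) ‖z‖, lt_min (by positivity) hz0, fun γ => ?_⟩
  by_cases hγ : γ = 1
  · rw [hγ, act_one, FreeGroup.norm_one, pow_zero]
    have e : br (pt z) b1 = z := by simp [br, b1, pt]
    rw [e, mul_one]
    exact min_le_right _ _
  · refine le_trans ?_ (S.low_Om γ hγ b1 (Or.inr rfl) z hz)
    rw [mul_comm]
    exact mul_le_mul_of_nonneg_left (min_le_left _ _) (pow_nonneg S.Growth_K_pos.le _)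

end SchData
end Pool.Agent.AM.Hyp
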