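import Pool.Agent.AM.Hyp.Growth

/-! Algebraic identities for the infinite products `PP`. -/

set_option autoImplicit false
open Complex Filter Topology
namespace Pool.Agent.AM.Hyp
namespace SchData
variable {g : ℕ} (S : SchData g)

theorem PPalg_K1 : 1 ≤ S.K := by
  refine le_trans ?_ S.K_ge
  have : (0 : ℝ) ≤ g := Nat.cast_nonneg g
  nlinarith [sq_nonneg ((g : ℝ) + 1), sq_nonneg (g : ℝ)]

theorem PPalg_K0 : 0 < S.K := lt_of_lt_of_le one_pos S.PPalg_K1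

theorem PPalg_inv_left (γ : FreeGroup (Fin g)) (p : Fin 2 → ℂ) : S.act γ⁻¹ (S.act γ p) = p := by
  rw [← S.act_mul, inv_mul_cancel, S.act_one]

theorem PPalg_inv_right (γ : FreeGroup (Fin g)) (p : Fin 2 → ℂ) : S.act γ (S.act γ⁻¹ p) = p := by
  rw [← S.act_mul, mul_inv_cancel, S.act_one]

/-- moving a group element to the other side of the bracket -/
theorem PPalg_adj (γ : FreeGroup (Fin g)) (z p : Fin 2 → ℂ) :
    br z (S.act γ p) = br (S.act γ⁻¹ z) p := by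
  rw [← S.br_act γ⁻¹ z (S.act γ p), S.PPalg_inv_left]

theorem PPalg_ne (z p : Fin 2 → ℂ) (h : S.Gd z p) (γ : FreeGroup (Fin g)) :
    br z (S.act γ p) ≠ 0 := by
  obtain ⟨C, hC, h⟩ := h
  have h1 : 0 < C * S.K ^ γ.norm := mul_pos hC (pow_pos S.PPalg_K0 _)
  exact norm_pos_iff.mp (lt_of_lt_of_le h1 (h γ))

theorem Gd_symm (z p : Fin 2 → ℂ) (h : S.Gd z p) : S.Gd p z := by
  obtain ⟨C, hC, h⟩ := h
  refine ⟨C, hC, fun γ => ?_⟩
  rw [S.PPalg_adj, br_swap, norm_neg]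
  have := h γ⁻¹
  rwa [FreeGroup.norm_inv_eq] at this

theorem Gd_right (z p : Fin 2 → ℂ) (η : FreeGroup (Fin g)) (h : S.Gd z p) :
    S.Gd z (S.act η p) := by
  obtain ⟨C, hC, h⟩ := h
  have hK := S.PPalg_K0
  refine ⟨C / S.K ^ η.norm, div_pos hC (pow_pos hK _), fun γ => ?_⟩
  rw [← S.act_mul]
  refine le_trans ?_ (h (γ * η))
  have h1 : γ.norm ≤ (γ * η).norm + η.norm := by
    have := FreeGroup.norm_mul_le (γ * η) η⁻¹
    rwa [mul_inv_cancel_right, FreeGroup.norm_inv_eq] at this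
  have h2 : S.K ^ γ.norm ≤ S.K ^ (γ * η).norm * S.K ^ η.norm := by
    rw [← pow_add]
    exact pow_le_pow_right₀ S.PPalg_K1 h1
  rw [div_mul_eq_mul_div, div_le_iff₀ (pow_pos hK _), mul_assoc]
  exact mul_le_mul_of_nonneg_left h2 hC.le

theorem Gd_left (z p : Fin 2 → ℂ) (η : FreeGroup (Fin g)) (h : S.Gd z p) :
    S.Gd (S.act η z) p :=
  S.Gd_symm _ _ (S.Gd_right _ _ η (S.Gd_symm _ _ h))

theorem PPalg_brE0 (z p : Fin 2 → ℂ) (γ : FreeGroup (Fin g)) :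
    br (E0 z) (S.act γ (E0 p)) = -br z (S.act (flip g γ) p) := by
  have h1 : S.act γ (E0 p) = E0 (S.act (flip g γ) p) := by
    rw [S.E0_act, flip_flip]
  rw [h1, br_E0]

theorem Gd_E0 (z p : Fin 2 → ℂ) (h : S.Gd z p) : S.Gd (E0 z) (E0 p) := by
  obtain ⟨C, hC, h⟩ := h
  refine ⟨C, hC, fun γ => ?_⟩
  rw [S.PPalg_brE0, norm_neg]
  have := h (flip g γ)
  rwa [flip_norm] at this

/-- the Pluecker relation -/
theorem PPalg_pl (z z0 a b : Fin 2 → ℂ) :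
    br z a * br z0 b - br z b * br z0 a = br z z0 * br a b := by
  simp only [br]
  ring

theorem PPalg_sub (z z0 p1 p2 : Fin 2 → ℂ) (h2 : S.Gd z p2) (h3 : S.Gd z0 p1)
    (γ : FreeGroup (Fin g)) :
    S.fac z z0 p1 p2 γ - 1 =
      br z z0 * br p1 p2 / (br z (S.act γ p2) * br z0 (S.act γ p1)) := by
  have n2 := S.PPalg_ne z p2 h2 γ
  have n3 := S.PPalg_ne z0 p1 h3 γ
  rw [fac, div_sub_one (mul_ne_zero n2 n3), PPalg_pl, S.br_act]

theorem PPalg_sum (z z0 p1 p2 : Fin 2 → ℂ) (h2 : S.Gd z p2) (h3 : S.Gd z0 p1) :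
    Summable (fun γ => ‖S.fac z z0 p1 p2 γ - 1‖) := by
  have hK := S.PPalg_K0
  have hK1 := S.PPalg_K1
  obtain ⟨C2, hC2, b2⟩ := id h2
  obtain ⟨C3, hC3, b3⟩ := id h3
  have hs : Summable (fun γ : FreeGroup (Fin g) => (S.K⁻¹ ^ 2) ^ γ.norm) := by
    refine summable_norm_pow g _ (by positivity) ?_
    have h1 := S.K_ge
    have h0 : (0 : ℝ) ≤ g := Nat.cast_nonneg g
    have h4 : 2 * (g : ℝ) < S.K := by nlinarith [sq_nonneg ((g : ℝ) + 1), sq_nonneg (g : ℝ)]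
    have h5 : S.K⁻¹ ^ 2 ≤ S.K⁻¹ := by
      rw [pow_two]
      exact mul_le_of_le_one_left (inv_nonneg.mpr hK.le) (inv_le_one_of_one_le₀ hK1)
    calc 2 * (g : ℝ) * S.K⁻¹ ^ 2 ≤ 2 * (g : ℝ) * S.K⁻¹ :=
          mul_le_mul_of_nonneg_left h5 (by positivity)
      _ < S.K * S.K⁻¹ := by
          exact mul_lt_mul_of_pos_right h4 (inv_pos.mpr hK)
      _ = 1 := mul_inv_cancel₀ hK.ne'
  refine Summable.of_nonneg_of_le (fun γ => norm_nonneg _) (fun γ => ?_)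
    (hs.mul_left (‖br z z0 * br p1 p2‖ / (C2 * C3)))
  rw [S.PPalg_sub z z0 p1 p2 h2 h3, norm_div, norm_mul (br z (S.act γ p2))]
  have hden : (C2 * C3) * (S.K ^ γ.norm) ^ 2 ≤ ‖br z (S.act γ p2)‖ * ‖br z0 (S.act γ p1)‖ := by
    calc (C2 * C3) * (S.K ^ γ.norm) ^ 2 = (C2 * S.K ^ γ.norm) * (C3 * S.K ^ γ.norm) := by ring
      _ ≤ _ := mul_le_mul (b2 γ) (b3 γ) (by positivity) (norm_nonneg _)
  have hpos : 0 < (C2 * C3) * (S.K ^ γ.norm) ^ 2 := by positivity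
  calc ‖br z z0 * br p1 p2‖ / (‖br z (S.act γ p2)‖ * ‖br z0 (S.act γ p1)‖)
      ≤ ‖br z z0 * br p1 p2‖ / ((C2 * C3) * (S.K ^ γ.norm) ^ 2) :=
        div_le_div_of_nonneg_left (norm_nonneg _) hpos hden
    _ = ‖br z z0 * br p1 p2‖ / (C2 * C3) * (S.K⁻¹ ^ 2) ^ γ.norm := by
        have e : (S.K⁻¹ ^ 2) ^ γ.norm = ((S.K ^ γ.norm) ^ 2)⁻¹ := by
          rw [inv_pow, inv_pow, ← pow_mul, ← pow_mul, mul_comm]
        rw [e]
        field_simp

theorem fac_mul (z z0 p1 p2 : Fin 2 → ℂ) (h1 : S.Gd z p1) (h2 : S.Gd z p2) (h3 : S.Gd z0 p1)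
    (h4 : S.Gd z0 p2) : Multipliable (S.fac z z0 p1 p2) := by
  have := multipliable_one_add_of_summable (S.PPalg_sum z z0 p1 p2 h2 h3)
  simpa using this

theorem PPalg_fac_ne (z z0 p1 p2 : Fin 2 → ℂ) (h1 : S.Gd z p1) (h2 : S.Gd z p2)
    (h3 : S.Gd z0 p1) (h4 : S.Gd z0 p2) (γ : FreeGroup (Fin g)) : S.fac z z0 p1 p2 γ ≠ 0 :=
  div_ne_zero (mul_ne_zero (S.PPalg_ne z p1 h1 γ) (S.PPalg_ne z0 p2 h4 γ))
    (mul_ne_zero (S.PPalg_ne z p2 h2 γ) (S.PPalg_ne z0 p1 h3 γ))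

theorem PP_ne (z z0 p1 p2 : Fin 2 → ℂ) (h1 : S.Gd z p1) (h2 : S.Gd z p2) (h3 : S.Gd z0 p1)
    (h4 : S.Gd z0 p2) : S.PP z z0 p1 p2 ≠ 0 := by
  have := tprod_one_add_ne_zero_of_summable (f := fun γ => S.fac z z0 p1 p2 γ - 1)
    (fun γ => by
      rw [add_sub_cancel]
      exact S.PPalg_fac_ne z z0 p1 p2 h1 h2 h3 h4 γ)
    (S.PPalg_sum z z0 p1 p2 h2 h3)
  rw [PP]
  simpa using this

theorem PP_symm (z z0 p1 p2 : Fin 2 → ℂ) : S.PP z z0 p1 p2 = S.PP p1 p2 z z0 := by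
  rw [PP, PP, ← Equiv.tprod_eq (Equiv.inv (FreeGroup (Fin g)))]
  refine tprod_congr (fun γ => ?_)
  have h : ∀ a b : Fin 2 → ℂ, br a (S.act γ⁻¹ b) = -br b (S.act γ a) := by
    intro a b
    rw [S.PPalg_adj, inv_inv, br_swap]
  rw [fac, fac, Equiv.inv_apply, h, h, h, h, neg_mul_neg, neg_mul_neg, mul_comm (br p1 _)]
  simp only [mul_comm]

theorem PP_left (η : FreeGroup (Fin g)) (z z0 p1 p2 : Fin 2 → ℂ) :
    S.PP (S.act η z) (S.act η z0) p1 p2 = S.PP z z0 p1 p2 := by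
  rw [PP, PP, ← Equiv.tprod_eq (Equiv.mulLeft η)]
  refine tprod_congr (fun γ => ?_)
  have h : ∀ a b : Fin 2 → ℂ, br (S.act η a) (S.act (η * γ) b) = br a (S.act γ b) := by
    intro a b
    rw [S.act_mul, S.br_act]
  rw [fac, fac, Equiv.coe_mulLeft, h, h, h, h]

theorem PP_right (η : FreeGroup (Fin g)) (z z0 p1 p2 : Fin 2 → ℂ) :
    S.PP z z0 (S.act η p1) (S.act η p2) = S.PP z z0 p1 p2 := by
  rw [S.PP_symm, S.PP_left, ← S.PP_symm]

theorem PP_E0 (z z0 p1 p2 : Fin 2 → ℂ) :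
    S.PP (E0 z) (E0 z0) (E0 p1) (E0 p2) = S.PP z z0 p1 p2 := by
  have hinv : Function.Involutive (flip g) := fun γ => flip_flip g γ
  rw [PP, PP, ← Equiv.tprod_eq (Function.Involutive.toPerm (flip g) hinv)]
  refine tprod_congr (fun γ => ?_)
  have e : (Function.Involutive.toPerm (flip g) hinv) γ = flip g γ := rfl
  rw [e, fac, fac, S.PPalg_brE0, S.PPalg_brE0, S.PPalg_brE0,
    S.PPalg_brE0, neg_mul_neg, neg_mul_neg, flip_flip]

theorem PP_self (z p1 p2 : Fin 2 → ℂ) (h1 : S.Gd z p1) (h2 : S.Gd z p2) :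
    S.PP z z p1 p2 = 1 := by
  rw [PP]
  have : ∀ γ, S.fac z z p1 p2 γ = 1 := by
    intro γ
    rw [fac, mul_comm (br z (S.act γ p1)), div_self]
    exact mul_ne_zero (S.PPalg_ne z p2 h2 γ) (S.PPalg_ne z p1 h1 γ)
  rw [tprod_congr this, tprod_one]

/-- multiplicativity in the first pair -/
theorem PP_mul_z (z z0 z1 p1 p2 : Fin 2 → ℂ) (h1 : S.Gd z p1) (h2 : S.Gd z p2)
    (h3 : S.Gd z0 p1) (h4 : S.Gd z0 p2) (h5 : S.Gd z1 p1) (h6 : S.Gd z1 p2) :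
    S.PP z z0 p1 p2 * S.PP z0 z1 p1 p2 = S.PP z z1 p1 p2 := by
  rw [PP, PP, PP, ← (S.fac_mul z z0 p1 p2 h1 h2 h3 h4).tprod_mul
    (S.fac_mul z0 z1 p1 p2 h3 h4 h5 h6)]
  refine tprod_congr (fun γ => ?_)
  have n1 := S.PPalg_ne z p1 h1 γ
  have n2 := S.PPalg_ne z p2 h2 γ
  have n3 := S.PPalg_ne z0 p1 h3 γ
  have n4 := S.PPalg_ne z0 p2 h4 γ
  have n5 := S.PPalg_ne z1 p1 h5 γ
  have n6 := S.PPalg_ne z1 p2 h6 γ
  rw [fac, fac, fac]
  field_simp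

/-- multiplicativity in the second pair -/
theorem PP_mul_p (z z0 p1 p2 p3 : Fin 2 → ℂ) (h1 : S.Gd z p1) (h2 : S.Gd z p2)
    (h3 : S.Gd z p3) (h4 : S.Gd z0 p1) (h5 : S.Gd z0 p2) (h6 : S.Gd z0 p3) :
    S.PP z z0 p1 p2 * S.PP z z0 p2 p3 = S.PP z z0 p1 p3 := by
  rw [S.PP_symm z z0 p1 p2, S.PP_symm z z0 p2 p3, S.PP_symm z z0 p1 p3]
  exact S.PP_mul_z p1 p2 p3 z z0 (S.Gd_symm _ _ h1) (S.Gd_symm _ _ h4) (S.Gd_symm _ _ h2)
    (S.Gd_symm _ _ h5) (S.Gd_symm _ _ h3) (S.Gd_symm _ _ h6)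

theorem PPalg_act_real (γ : FreeGroup (Fin g)) :
    ∀ p : Fin 2 → ℂ, (∀ k, (p k).im = 0) → ∀ k, (S.act γ p k).im = 0 := by
  have hdir : ∀ i b k, (S.dir i b k).im = 0 := by
    intro i b k
    cases b <;> fin_cases k <;> simp [dir]
  have hb0 : ∀ k, (b0 k).im = 0 := by
    intro k
    fin_cases k <;> simp [b0]
  have hb1 : ∀ k, (b1 k).im = 0 := by
    intro k
    fin_cases k <;> simp [b1]
  have hm : ∀ a b : ℂ, a.im = 0 → b.im = 0 → (a * b).im = 0 := by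
    intro a b ha hb
    rw [Complex.mul_im, ha, hb]
    ring
  have hbr : ∀ a b : Fin 2 → ℂ, (∀ k, (a k).im = 0) → (∀ k, (b k).im = 0) → (br a b).im = 0 := by
    intro a b ha hb
    rw [br, Complex.sub_im, hm _ _ (ha 0) (hb 1), hm _ _ (ha 1) (hb 0), sub_zero]
  have hep : ((1 / (S.ep : ℂ))).im = 0 := by
    have : (1 / (S.ep : ℂ)) = ((1 / S.ep : ℝ) : ℂ) := by push_cast; rfl
    rw [this, Complex.ofReal_im]
  have hep2 : ((S.ep : ℂ) ^ 2).im = 0 := by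
    rw [← Complex.ofReal_pow, Complex.ofReal_im]
  induction γ using FreeGroup.induction_on with
  | C1 =>
    intro p hp k
    rw [S.act_one]
    exact hp k
  | of i =>
    intro p hp k
    rw [S.act_of]
    refine hm _ _ hep ?_
    rw [Complex.add_im, hm _ _ _ (hdir i true k), hm _ _ (hm _ _ hep2 (hp 0)) (hb0 k), add_zero]
    rw [Complex.neg_im, hbr p _ hp (hdir i false), neg_zero]
  | inv_of i _ =>
    intro p hp k
    rw [S.act_of_inv]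
    refine hm _ _ hep ?_
    rw [Complex.add_im, hm _ _ (hbr p _ hp (hdir i true)) (hdir i false k),
      hm _ _ (hm _ _ hep2 (hp 1)) (hb1 k), add_zero]
  | mul x y hx hy =>
    intro p hp k
    rw [S.act_mul]
    exact hx _ (hy p hp) k

/-- real vectors give real values -/
theorem PP_real (z z0 p1 p2 : Fin 2 → ℂ) (h1 : ∀ k, (z k).im = 0) (h2 : ∀ k, (z0 k).im = 0)
    (h3 : ∀ k, (p1 k).im = 0) (h4 : ∀ k, (p2 k).im = 0) : (S.PP z z0 p1 p2).im = 0 := by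
  have hm : ∀ a b : ℂ, a.im = 0 → b.im = 0 → (a * b).im = 0 := by
    intro a b ha hb
    rw [Complex.mul_im, ha, hb]
    ring
  have hbr : ∀ a b : Fin 2 → ℂ, (∀ k, (a k).im = 0) → (∀ k, (b k).im = 0) → (br a b).im = 0 := by
    intro a b ha hb
    rw [br, Complex.sub_im, hm _ _ (ha 0) (hb 1), hm _ _ (ha 1) (hb 0), sub_zero]
  have hf : ∀ γ, (S.fac z z0 p1 p2 γ).im = 0 := by
    intro γ
    have a1 := hm _ _ (hbr z _ h1 (S.PPalg_act_real γ p1 h3)) (hbr z0 _ h2 (S.PPalg_act_real γ p2 h4))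
    have a2 := hm _ _ (hbr z _ h1 (S.PPalg_act_real γ p2 h4)) (hbr z0 _ h2 (S.PPalg_act_real γ p1 h3))
    rw [fac, Complex.div_im, a1, a2]
    simp
  by_cases hM : Multipliable (S.fac z z0 p1 p2)
  · have h5 := hM.map_tprod (starRingEnd ℂ) Complex.continuous_conj
    rw [← Complex.conj_eq_iff_im, PP, h5]
    exact tprod_congr (fun γ => Complex.conj_eq_iff_im.mpr (hf γ))
  · rw [PP, tprod_eq_one_of_not_multipliable hM, Complex.one_im]

/-- homogeneity -/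
theorem PP_smul (lam : ℂ) (hl : lam ≠ 0) (z z0 p1 p2 : Fin 2 → ℂ) :
    S.PP (fun k => lam * z k) z0 p1 p2 = S.PP z z0 p1 p2 := by
  rw [PP, PP]
  refine tprod_congr (fun γ => ?_)
  have h : ∀ b : Fin 2 → ℂ, br (fun k => lam * z k) b = lam * br z b := by
    intro b
    simp only [br]
    ring
  rw [fac, fac, h, h, mul_assoc, mul_assoc, mul_div_mul_left _ _ hl]

end SchData
end Pool.Agent.AM.Hyp
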