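import Pool.Agent.AM.Hyp.Thx
import Pool.Agent.AM.Hyp.Geo

/-! Vanishing of theta at the half periods attached to `g-1` distinct Weierstrass points. -/

set_option autoImplicit false
open Complex Filter Topology
namespace Pool.Agent.AM.Hyp
namespace HypData
variable {g : ℕ} (D : HypData g)

/-- the `2g+2` Weierstrass points -/
noncomputable def wp : (Fin g × Bool) ⊕ Bool → ℂ
  | Sum.inl (i, true) => D.c i + D.ep
  | Sum.inl (i, false) => D.c i - D.ep
  | Sum.inr true => 1
  | Sum.inr false => -1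

namespace Par

/-- real version of the Weierstrass points -/
noncomputable def wr : (Fin g × Bool) ⊕ Bool → ℝ
  | Sum.inl (i, true) => D.c i + D.ep
  | Sum.inl (i, false) => D.c i - D.ep
  | Sum.inr true => 1
  | Sum.inr false => -1

theorem wp_eq (x : (Fin g × Bool) ⊕ Bool) : D.wp x = (wr D x : ℂ) := by
  rcases x with ⟨i, b⟩ | b <;> cases b <;> simp [wp, wr]

theorem wr_inj : Function.Injective (wr D) := by
  intro x y h
  have hep := D.ep_pos
  have hep2 := D.ep_lt
  rcases x with ⟨i, b⟩ | b <;> rcases y with ⟨j, b'⟩ | b'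
  · have h1 := D.sep i j
    have : i = j := by
      by_contra hij
      have h2 := h1 hij
      cases b <;> cases b' <;> simp only [wr] at h
      · have : D.c i - D.c j = 0 := by linarith
        rw [this, abs_zero] at h2; linarith
      · have : D.c i - D.c j = 2 * D.ep := by linarith
        rw [this, abs_of_pos (by linarith)] at h2; linarith
      · have : D.c i - D.c j = -(2 * D.ep) := by linarith
        rw [this, abs_neg, abs_of_pos (by linarith)] at h2; linarith
      · have : D.c i - D.c j = 0 := by linarith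
        rw [this, abs_zero] at h2; linarith
    subst this
    cases b <;> cases b' <;> simp only [wr] at h
    · rfl
    · linarith
    · linarith
    · rfl
  · have := D.c_ge i
    have := D.c_le i
    cases b <;> cases b' <;> simp only [wr] at h <;> linarith
  · have := D.c_ge j
    have := D.c_le j
    cases b <;> cases b' <;> simp only [wr] at h <;> linarith
  · cases b <;> cases b' <;> simp only [wr] at h
    · rfl
    · linarith
    · linarith
    · rfl

theorem wr_far (x : (Fin g × Bool) ⊕ Bool) (k : Fin g) : D.ep ≤ |wr D x - D.c k| := by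
  have hep := D.ep_pos
  have hep2 := D.ep_lt
  have h1 := D.c_ge k
  have h2 := D.c_le k
  rcases x with ⟨i, b⟩ | b
  · by_cases hik : i = k
    · subst hik
      cases b <;> simp only [wr]
      · rw [show D.c i - D.ep - D.c i = -D.ep by ring, abs_neg, abs_of_pos hep]
      · rw [show D.c i + D.ep - D.c i = D.ep by ring, abs_of_pos hep]
    · have h3 := D.sep i k hik
      cases b <;> simp only [wr]
      · rcases le_abs.1 h3.le with h4 | h4
        · exact le_abs.2 (Or.inl (by linarith))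
        · exact le_abs.2 (Or.inr (by linarith))
      · rcases le_abs.1 h3.le with h4 | h4
        · exact le_abs.2 (Or.inl (by linarith))
        · exact le_abs.2 (Or.inr (by linarith))
  · cases b <;> simp only [wr]
    · exact le_abs.2 (Or.inr (by linarith))
    · exact le_abs.2 (Or.inl (by linarith))

theorem wr_le (x : (Fin g × Bool) ⊕ Bool) : |wr D x| ≤ 1 := by
  have hep := D.ep_pos
  have hep2 := D.ep_lt
  rcases x with ⟨i, b⟩ | b
  · have h1 := D.c_ge i
    have h2 := D.c_le i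
    cases b <;> simp only [wr] <;> exact abs_le.2 ⟨by linarith, by linarith⟩
  · cases b <;> simp only [wr] <;> simp

end Par

theorem wp_inj : Function.Injective D.wp := by
  intro x y h
  rw [Par.wp_eq, Par.wp_eq] at h
  exact Par.wr_inj D (by exact_mod_cast h)

theorem wp_mem (x : (Fin g × Bool) ⊕ Bool) : D.wp x ∈ KK D.c 1 (fun _ => D.ep) := by
  rw [Par.wp_eq]
  refine ⟨?_, fun i => ?_⟩
  · rw [Complex.norm_real, Real.norm_eq_abs]; exact Par.wr_le D x
  · rw [← Complex.ofReal_sub, Complex.norm_real, Real.norm_eq_abs]; exact Par.wr_far D x i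

theorem wp_mem_Om (x : (Fin g × Bool) ⊕ Bool) : D.wp x ∈ D.Om := by
  have h := D.wp_mem x
  have hep := D.ep_pos
  exact ⟨lt_of_le_of_lt h.1 (by norm_num), fun i => lt_of_lt_of_le (by linarith) (h.2 i)⟩

namespace Par

variable (J : Finset ((Fin g × Bool) ⊕ Bool))

/-- indicator of the point with index `x` -/
def ind (x : (Fin g × Bool) ⊕ Bool) : ℕ := if x ∈ J then 1 else 0

/-- exponents -/
def m (i : Fin g) : ℕ := 1 + ind J (Sum.inl (i, false)) + ind J (Sum.inl (i, true))

/-- sign exponents -/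
def sg (j : Fin g) : ℕ := 1 + ind J (Sum.inl (j, false)) + ind J (Sum.inr false)

theorem ind_sq (x : (Fin g × Bool) ⊕ Bool) : ind J x * ind J x = ind J x := by
  unfold ind; split_ifs <;> simp

theorem card_eq : J.card = (∑ i, ind J (Sum.inl (i, false))) + (∑ i, ind J (Sum.inl (i, true))) +
    ind J (Sum.inr true) + ind J (Sum.inr false) := by
  have h : J.card = ∑ x, ind J x := by
    unfold ind
    rw [Finset.sum_ite_mem, Finset.univ_inter, Finset.card_eq_sum_ones]
  rw [h, Fintype.sum_sum_type, Fintype.sum_prod_type, Fintype.sum_bool]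
  simp only [Fintype.sum_bool, Finset.sum_add_distrib]
  ring

theorem prod_eq (j : Fin g) : ∏ x ∈ J, D.X j (D.wp x) =
    (∏ i, (D.s i j : ℂ) ^ (ind J (Sum.inl (i, false)) + ind J (Sum.inl (i, true)))) *
      (-1) ^ (ind J (Sum.inl (j, false)) + ind J (Sum.inr false)) := by
  have h : ∏ x ∈ J, D.X j (D.wp x) = ∏ x, D.X j (D.wp x) ^ (ind J x) := by
    have e : ∀ x, D.X j (D.wp x) ^ (ind J x) = if x ∈ J then D.X j (D.wp x) else 1 := by
      intro x; unfold ind; split_ifs <;> simp
    rw [Finset.prod_congr rfl (fun x _ => e x), Finset.prod_ite_mem, Finset.univ_inter]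
  rw [h, Fintype.prod_sum_type, Fintype.prod_prod_type, Fintype.prod_bool]
  have h1 : D.X j (D.wp (Sum.inr true)) = 1 := by simpa [wp] using D.X_one j
  have h2 : D.X j (D.wp (Sum.inr false)) = -1 := by simpa [wp] using D.X_neg_one j
  rw [h1, h2, one_pow, one_mul]
  have h3 : ∀ i, ∏ b, D.X j (D.wp (Sum.inl (i, b))) ^ (ind J (Sum.inl (i, b))) =
      (D.s i j : ℂ) ^ (ind J (Sum.inl (i, false)) + ind J (Sum.inl (i, true))) *
        (if i = j then (-1) ^ (ind J (Sum.inl (j, false))) else 1) := by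
    intro i
    rw [Fintype.prod_bool]
    have e1 : D.X j (D.wp (Sum.inl (i, true))) = (D.s i j : ℂ) := by
      simpa [wp] using D.X_plus i j
    have e2 : D.X j (D.wp (Sum.inl (i, false))) = if i = j then -(D.s i j : ℂ) else D.s i j := by
      simpa [wp] using D.X_minus i j
    rw [e1, e2]
    by_cases hij : i = j
    · subst hij
      simp only [if_true]
      rw [neg_pow, pow_add]; ring
    · simp only [hij, if_false]
      rw [pow_add]; ring
  rw [Finset.prod_congr rfl (fun i _ => h3 i), Finset.prod_mul_distrib,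
    Finset.prod_ite_eq' Finset.univ j, if_pos (Finset.mem_univ j), pow_add, mul_assoc]

/-- the real point at which theta is evaluated -/
noncomputable def y (j : Fin g) : ℝ := (-1) ^ (sg J j) * ∏ i, D.s i j ^ (m J i)

theorem y_eq (j : Fin g) : D.kap j * ∏ x ∈ J, D.X j (D.wp x) = (y D J j : ℂ) := by
  rw [prod_eq]
  unfold kap y sg m
  push_cast
  have : ∀ i, (D.s i j : ℂ) ^ (1 + ind J (Sum.inl (i, false)) + ind J (Sum.inl (i, true))) =
      (D.s i j : ℂ) * (D.s i j : ℂ) ^ (ind J (Sum.inl (i, false)) + ind J (Sum.inl (i, true))) := by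
    intro i; rw [add_assoc, pow_add, pow_one]
  rw [Finset.prod_congr rfl (fun i _ => this i), Finset.prod_mul_distrib, add_assoc 1, pow_add (-1 : ℂ) 1]
  ring

theorem y_ne (j : Fin g) : y D J j ≠ 0 := by
  unfold y
  refine mul_ne_zero (pow_ne_zero _ (by norm_num)) (Finset.prod_ne_zero_iff.2 fun i _ => ?_)
  exact pow_ne_zero _ (D.s_ne i j)

theorem y_inv (j : Fin g) : ((y D J j : ℂ))⁻¹ = D.q (fun i => -(m J i : ℤ)) j * (y D J j : ℂ) := by
  have h1 : ((-1 : ℂ) ^ (sg J j)) * ((-1 : ℂ) ^ (sg J j)) = 1 := by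
    rw [← mul_pow]; norm_num
  have h2 : D.q (fun i => -(m J i : ℤ)) j * ((∏ i, (D.s i j : ℂ) ^ (m J i)) *
      (∏ i, (D.s i j : ℂ) ^ (m J i))) = 1 := by
    unfold q
    rw [← Finset.prod_mul_distrib, ← Finset.prod_mul_distrib]
    refine Finset.prod_eq_one fun i _ => ?_
    have hs : (D.s i j : ℂ) ≠ 0 := by exact_mod_cast D.s_ne i j
    rw [← zpow_natCast, ← zpow_add₀ hs, ← zpow_add₀ hs]
    have : 2 * -(m J i : ℤ) + ((m J i : ℤ) + (m J i : ℤ)) = 0 := by ring
    rw [this, zpow_zero]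
  refine inv_eq_of_mul_eq_one_left ?_
  unfold y
  push_cast
  calc _ = (((-1 : ℂ) ^ (sg J j)) * ((-1 : ℂ) ^ (sg J j))) *
      (D.q (fun i => -(m J i : ℤ)) j * ((∏ i, (D.s i j : ℂ) ^ (m J i)) *
      (∏ i, (D.s i j : ℂ) ^ (m J i)))) := by ring
    _ = 1 := by rw [h1, h2, one_mul]

/-- the sign exponent -/
def N : ℕ := ∑ i, ∑ j ∈ Finset.Ioi i, m J j * m J i

theorem prod_sign (t : Fin g → Fin g → ℝ) (h1 : ∀ i, t i i = 1)
    (h2 : ∀ i j, i ≠ j → t j i * t i j = -1) :
    ∏ i, ∏ j, t j i ^ (m J j * m J i) = (-1) ^ (N J) := by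
  have e1 : ∀ i, ∏ j, t j i ^ (m J j * m J i) =
      ∏ j ∈ ({i} : Finset (Fin g))ᶜ, t j i ^ (m J j * m J i) := by
    intro i
    rw [← Finset.prod_mul_prod_compl ({i} : Finset (Fin g))]
    simp [h1]
  rw [Finset.prod_congr rfl (fun i _ => e1 i),
    ← Finset.prod_prod_Ioi_mul_eq_prod_prod_off_diag (fun j i => t j i ^ (m J j * m J i))]
  unfold N
  rw [← Finset.prod_pow_eq_pow_sum]
  refine Finset.prod_congr rfl fun i _ => ?_
  rw [← Finset.prod_pow_eq_pow_sum]
  refine Finset.prod_congr rfl fun j hj => ?_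
  have hij : i ≠ j := (Finset.mem_Ioi.1 hj).ne
  rw [mul_comm (m J i) (m J j), ← mul_pow, h2 i j hij]

theorem twoN : 2 * N J + ∑ i, m J i * m J i = (∑ i, m J i) * (∑ i, m J i) := by
  have h := Finset.sum_sum_Ioi_add_eq_sum_sum_off_diag (fun j i => m J j * m J i)
  have h3 : ∑ i, ∑ j, m J j * m J i =
      (∑ i, m J i * m J i) + ∑ i, ∑ j ∈ ({i} : Finset (Fin g))ᶜ, m J j * m J i := by
    rw [← Finset.sum_add_distrib]
    refine Finset.sum_congr rfl fun i _ => ?_
    rw [← Finset.sum_add_sum_compl ({i} : Finset (Fin g))]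
    simp
  rw [Finset.sum_mul_sum]
  have h4 : ∑ i, ∑ j, m J i * m J j = ∑ i, ∑ j, m J j * m J i := by
    refine Finset.sum_congr rfl fun i _ => Finset.sum_congr rfl fun j _ => mul_comm _ _
  rw [h4, h3, ← h]
  unfold N
  have h5 : ∑ i, ∑ j ∈ Finset.Ioi i, (m J j * m J i + m J i * m J j) =
      ∑ i, (∑ j ∈ Finset.Ioi i, m J j * m J i + ∑ j ∈ Finset.Ioi i, m J j * m J i) := by
    refine Finset.sum_congr rfl fun i _ => ?_
    rw [← Finset.sum_add_distrib]
    refine Finset.sum_congr rfl fun j _ => ?_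
    ring
  rw [h5, Finset.sum_add_distrib]
  ring

theorem arith (g n A C P u v : ℕ) (hu1 : u = 0 ∨ u = 1) (hv1 : v = 0 ∨ v = 1)
    (hgC : g = C + u + v + 1) (hN : 2 * n + (g + 3 * C + 2 * P) = (g + C) * (g + C)) :
    Odd ((1 + v) * (g + C) + 2 * A + P + n) := by
  rcases hu1 with h | h <;> rcases hv1 with h' | h' <;> rw [h, h'] at hgC <;> rw [h']
  · have e : n + P = 2 * (C * C) := by rw [hgC] at hN; nlinarith
    exact ⟨C + A + C * C, by rw [hgC]; linarith⟩
  · have e : n + P = 2 * (C * C) + 2 * C + 1 := by rw [hgC] at hN; nlinarith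
    exact ⟨2 * C + 2 + A + C * C + C, by rw [hgC]; linarith⟩
  · have e : n + P = 2 * (C * C) + 2 * C + 1 := by rw [hgC] at hN; nlinarith
    exact ⟨C + 1 + A + C * C + C, by rw [hgC]; linarith⟩
  · have e : n + P = 2 * (C * C) + 4 * C + 3 := by rw [hgC] at hN; nlinarith
    exact ⟨2 * C + 4 + A + C * C + 2 * C, by rw [hgC]; linarith⟩

theorem odd_exp (hJ : J.card + 1 = g) : Odd ((∑ j, sg J j * m J j) + N J) := by
  have hN := twoN J
  set a : Fin g → ℕ := fun i => ind J (Sum.inl (i, false)) with ha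
  set b : Fin g → ℕ := fun i => ind J (Sum.inl (i, true)) with hb
  set u : ℕ := ind J (Sum.inr true) with hu
  set v : ℕ := ind J (Sum.inr false) with hv
  have hu1 : u = 0 ∨ u = 1 := by rw [hu]; unfold ind; split_ifs <;> simp
  have hv1 : v = 0 ∨ v = 1 := by rw [hv]; unfold ind; split_ifs <;> simp
  have hcard : J.card = (∑ i, a i) + (∑ i, b i) + u + v := card_eq J
  have hm : ∀ i, m J i = 1 + a i + b i := fun i => rfl
  have hsg : ∀ i, sg J i = 1 + a i + v := fun i => rfl
  have haa : ∀ i, a i * a i = a i := fun i => ind_sq J _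
  have hbb : ∀ i, b i * b i = b i := fun i => ind_sq J _
  set A := ∑ i, a i with hA
  set B := ∑ i, b i with hB
  set P := ∑ i, a i * b i with hP
  have hM : ∑ i, m J i = g + A + B := by
    simp only [hm, Finset.sum_add_distrib]; simp [hA, hB]
  have hM2 : ∑ i, m J i * m J i = g + 3 * A + 3 * B + 2 * P := by
    have : ∀ i, m J i * m J i = 1 + 3 * a i + 3 * b i + 2 * (a i * b i) := by
      intro i; rw [hm]
      have := haa i; have := hbb i
      nlinarith
    simp only [this, Finset.sum_add_distrib, ← Finset.mul_sum]; simp [hA, hB, hP]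
  have hS : ∑ j, sg J j * m J j = (1 + v) * (g + A + B) + 2 * A + P := by
    have : ∀ j, sg J j * m J j = (1 + v) * (1 + a j + b j) + 2 * a j + a j * b j := by
      intro j; rw [hm, hsg]
      have := haa j
      nlinarith
    simp only [this, Finset.sum_add_distrib, ← Finset.mul_sum]
    simp [hA, hB, hP]
  rw [hM, hM2] at hN
  rw [hS]
  have hAB : A + B + u + v + 1 = g := by omega
  obtain ⟨C, hC⟩ : ∃ C, C = A + B := ⟨_, rfl⟩
  have hgC : g = C + u + v + 1 := by omega
  have hgAB : g + A + B = g + C := by omega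
  have hg3 : g + 3 * A + 3 * B + 2 * P = g + 3 * C + 2 * P := by omega
  rw [hg3, hgAB] at hN
  rw [hgAB]
  exact arith g (N J) A C P u v hu1 hv1 hgC hN

/-- the sign of a multiplier -/
noncomputable def t (i j : Fin g) : ℝ := D.s i j / |D.s i j|

theorem t_diag (i : Fin g) : t D i i = 1 := by
  unfold t; rw [abs_of_pos (D.s_pos i), div_self (D.s_ne i i)]

theorem t_off (i j : Fin g) (h : i ≠ j) : t D j i * t D i j = -1 := by
  unfold t
  rw [D.s_anti i j h, abs_neg]
  have h0 := D.s_ne i j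
  have h1 : |D.s i j| ≠ 0 := abs_ne_zero.2 h0
  have h2 : |D.s i j| * |D.s i j| = D.s i j * D.s i j := abs_mul_abs_self _
  rw [div_mul_div_comm, h2, neg_mul, neg_div, div_self (mul_ne_zero h0 h0)]

theorem factor (hJ : J.card + 1 = g) :
    Real.exp (Real.pi * ∑ i, ∑ j, ((-(m J i : ℤ) : ℤ) : ℝ) * D.T i j * ((-(m J j : ℤ) : ℤ) : ℝ)) *
      ∏ j, y D J j ^ (m J j) = -1 := by
  have e1 : Real.exp (Real.pi * ∑ i, ∑ j, ((-(m J i : ℤ) : ℤ) : ℝ) * D.T i j *
      ((-(m J j : ℤ) : ℤ) : ℝ)) = ∏ i, ∏ j, (|D.s i j| ^ (m J i * m J j))⁻¹ := by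
    rw [Finset.mul_sum, Real.exp_sum]
    refine Finset.prod_congr rfl fun i _ => ?_
    rw [Finset.mul_sum, Real.exp_sum]
    refine Finset.prod_congr rfl fun j _ => ?_
    have hs : 0 < |D.s i j| := abs_pos.2 (D.s_ne i j)
    have : Real.pi * (((-(m J i : ℤ) : ℤ) : ℝ) * D.T i j * ((-(m J j : ℤ) : ℤ) : ℝ)) =
        -(((m J i * m J j : ℕ) : ℝ) * Real.log |D.s i j|) := by
      unfold T
      rw [Matrix.of_apply]
      push_cast
      field_simp
    rw [this, Real.exp_neg, mul_comm, Real.exp_mul, Real.exp_log hs, Real.rpow_natCast]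
  have e2 : ∏ j, y D J j ^ (m J j) = (-1) ^ (∑ j, sg J j * m J j) *
      ∏ j, ∏ i, D.s i j ^ (m J i * m J j) := by
    unfold y
    rw [← Finset.prod_pow_eq_pow_sum, ← Finset.prod_mul_distrib]
    refine Finset.prod_congr rfl fun j _ => ?_
    rw [mul_pow, ← pow_mul, ← Finset.prod_pow]
    congr 1
    refine Finset.prod_congr rfl fun i _ => ?_
    rw [← pow_mul]
  have e3 : (∏ i, ∏ j, (|D.s i j| ^ (m J i * m J j))⁻¹) * ∏ j, ∏ i, D.s i j ^ (m J i * m J j) =
      ∏ i, ∏ j, t D j i ^ (m J j * m J i) := by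
    rw [Finset.prod_comm, ← Finset.prod_mul_distrib]
    refine Finset.prod_congr rfl fun i _ => ?_
    rw [← Finset.prod_mul_distrib]
    refine Finset.prod_congr rfl fun j _ => ?_
    unfold t
    rw [div_pow, div_eq_mul_inv, mul_comm]
  rw [e1, e2, mul_left_comm, e3, prod_sign J (t D) (t_diag D) (fun i j h => t_off D i j h),
    ← pow_add]
  exact (odd_exp J hJ).neg_one_pow

end Par

theorem parity (J : Finset ((Fin g × Bool) ⊕ Bool)) (hJ : J.card + 1 = g) :
    thx D.T (fun j => D.kap j * ∏ x ∈ J, D.X j (D.wp x)) = 0 := by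
  have h0 : (fun j => D.kap j * ∏ x ∈ J, D.X j (D.wp x)) = fun j => (Par.y D J j : ℂ) := by
    funext j; exact Par.y_eq D J j
  rw [h0]
  have hY : (fun j => (Par.y D J j : ℂ)) ∈ Tor g := fun j =>
    Complex.ofReal_ne_zero.2 (Par.y_ne D J j)
  have h1 := thx_inv D.T (fun j => (Par.y D J j : ℂ))
  have h2 : (fun j => ((Par.y D J j : ℂ))⁻¹) =
      fun j => D.q (fun i => -(Par.m J i : ℤ)) j * (Par.y D J j : ℂ) := by
    funext j; exact Par.y_inv D J j
  rw [h2, D.q_shift _ hY] at h1
  have h3 := Par.factor D J hJ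
  have h4 : ((Real.exp (Real.pi * ∑ i, ∑ j, ((-(Par.m J i : ℤ) : ℤ) : ℝ) * D.T i j *
      ((-(Par.m J j : ℤ) : ℤ) : ℝ)) : ℝ) : ℂ) *
        (∏ j, (Par.y D J j : ℂ) ^ (-(-(Par.m J j : ℤ)))) = -1 := by
    have : ∀ j, (Par.y D J j : ℂ) ^ (-(-(Par.m J j : ℤ))) = ((Par.y D J j ^ (Par.m J j) : ℝ) : ℂ) := by
      intro j
      rw [neg_neg, zpow_natCast]; push_cast; rfl
    rw [Finset.prod_congr rfl (fun j _ => this j), ← Complex.ofReal_prod, ← Complex.ofReal_mul, h3]
    push_cast; rfl
  rw [h4] at h1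
  have h5 : (2 : ℂ) * thx D.T (fun j => (Par.y D J j : ℂ)) = 0 := by linear_combination -h1
  exact (mul_eq_zero.1 h5).resolve_left two_ne_zero

end HypData
end Pool.Agent.AM.Hyp
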