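import Pool.Agent.AM.Hyp.Geo

/-! Rigidity: a nowhere vanishing multiplicative function on the curve has multipliers in the
period lattice. -/

set_option autoImplicit false
open Complex Filter Topology
namespace Pool.Agent.AM.Hyp
namespace Rigid

/-- identity theorem, eventual version at every point of the preconnected set -/
theorem ev {U : Set ℂ} (hU : IsPreconnected U) (hn : U.Nontrivial) {f : ℂ → ℂ}
    (hf : ∀ z ∈ U, AnalyticAt ℂ f z) {z0 : ℂ} (h0 : z0 ∈ U) (hz : ∀ᶠ z in 𝓝 z0, f z = 0) :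
    ∀ z ∈ U, ∀ᶠ w in 𝓝 z, f w = 0 := by
  intro z hzU
  have h1 : Set.EqOn f 0 U :=
    AnalyticOnNhd.eqOn_zero_of_preconnected_of_eventuallyEq_zero (fun z hz => hf z hz) hU h0 hz
  rcases (hf z hzU).eventually_eq_zero_or_eventually_ne_zero with h | h
  · exact h
  · exfalso
    have hacc : AccPt z (𝓟 U) := hU.preperfect_of_nontrivial hn z hzU
    rw [accPt_iff_frequently_nhdsNE] at hacc
    have h2 := hacc.and_eventually h
    obtain ⟨w, hw1, hw2⟩ := h2.exists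
    exact hw2 (h1 hw1)

/-- contour integrals of logarithmic derivatives over circles are in `2 pi i Z` -/
theorem wind_int (f : ℂ → ℂ) (c : ℂ) (ρ : ℝ)
    (hf : ∀ z : ℂ, z ∈ Metric.sphere c |ρ| → AnalyticAt ℂ f z ∧ f z ≠ 0) :
    ∃ n : ℤ, (∮ z in C(c, ρ), deriv f z / f z) = n * (2 * Real.pi * I) := by
  set u : ℝ → ℂ := fun θ => deriv (circleMap c ρ) θ • (deriv f (circleMap c ρ θ) / f (circleMap c ρ θ)) with hu
  have hmem : ∀ θ, circleMap c ρ θ ∈ Metric.sphere c |ρ| := circleMap_mem_sphere' c ρ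
  have huc : Continuous u := by
    rw [hu]
    simp only [deriv_circleMap]
    refine Continuous.smul ((continuous_circleMap 0 ρ).mul continuous_const) ?_
    refine Continuous.div ?_ ?_ (fun θ => (hf _ (hmem θ)).2)
    · rw [continuous_iff_continuousAt]
      intro θ
      exact ContinuousAt.comp (f := circleMap c ρ) (g := deriv f)
        ((hf _ (hmem θ)).1.deriv.continuousAt) (continuous_circleMap c ρ).continuousAt
    · rw [continuous_iff_continuousAt]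
      intro θ
      exact ContinuousAt.comp (f := circleMap c ρ) (g := f)
        ((hf _ (hmem θ)).1.continuousAt) (continuous_circleMap c ρ).continuousAt
  set A : ℝ → ℂ := fun θ => ∫ s in (0 : ℝ)..θ, u s with hA
  have hAd : ∀ θ, HasDerivAt A (u θ) θ := by
    intro θ
    exact intervalIntegral.integral_hasDerivAt_right (huc.intervalIntegrable _ _)
      huc.aestronglyMeasurable.stronglyMeasurableAtFilter huc.continuousAt
  have hG : ∀ θ, HasDerivAt (fun θ => f (circleMap c ρ θ) * Complex.exp (-A θ)) 0 θ := by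
    intro θ
    have h1 : HasDerivAt (fun θ => f (circleMap c ρ θ))
        (deriv f (circleMap c ρ θ) * (circleMap 0 ρ θ * I)) θ :=
      HasDerivAt.comp θ (hf _ (hmem θ)).1.differentiableAt.hasDerivAt (hasDerivAt_circleMap c ρ θ)
    have h2 : HasDerivAt (fun θ => Complex.exp (-A θ)) (Complex.exp (-A θ) * (-u θ)) θ :=
      (hAd θ).neg.cexp
    have h3 := h1.mul h2
    have h0 := (hf _ (hmem θ)).2
    have e : (deriv f (circleMap c ρ θ) * (circleMap 0 ρ θ * I) * cexp (-A θ) +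
        f (circleMap c ρ θ) * (cexp (-A θ) * -u θ)) = 0 := by
      have : u θ = (circleMap 0 ρ θ * I) * (deriv f (circleMap c ρ θ) / f (circleMap c ρ θ)) := by
        rw [hu]
        simp only [deriv_circleMap, smul_eq_mul]
      rw [this]
      field_simp
      ring
    rw [e] at h3
    exact h3
  have hconst : ∀ x y : ℝ, f (circleMap c ρ x) * Complex.exp (-A x) =
      f (circleMap c ρ y) * Complex.exp (-A y) :=
    is_const_of_deriv_eq_zero (fun θ => (hG θ).differentiableAt) (fun θ => (hG θ).deriv)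
  have h4 := hconst (2 * Real.pi) 0
  have hper : circleMap c ρ (2 * Real.pi) = circleMap c ρ 0 := by
    simp [circleMap]
  have hA0 : A 0 = 0 := by simp [hA]
  rw [hper, hA0] at h4
  have h5 : Complex.exp (-A (2 * Real.pi)) = 1 := by
    have := mul_left_cancel₀ (hf _ (hmem 0)).2 h4
    simpa using this
  obtain ⟨n, hn⟩ := Complex.exp_eq_one_iff.mp h5
  refine ⟨-n, ?_⟩
  have h6 : (∮ z in C(c, ρ), deriv f z / f z) = A (2 * Real.pi) := rfl
  rw [h6]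
  push_cast
  linear_combination -hn

end Rigid

namespace HypData
variable {g : ℕ} (D : HypData g)

theorem Rigid_XA (j : Fin g) (z : ℂ) (hz : z ∈ D.Om) : AnalyticAt ℂ (D.X j) z :=
  (D.diff j).analyticAt (D.isOpen_Om.mem_nhds hz)

theorem Rigid_wA (j : Fin g) (z : ℂ) (hz : z ∈ D.Om) : AnalyticAt ℂ (D.w j) z :=
  (D.Rigid_XA j z hz).deriv.div (D.Rigid_XA j z hz) (D.ne0 j z hz)

/-- the norm function -/
noncomputable def Rigid_U (t : Fin g → ℝ) (φ : ℂ → ℂ) (z : ℂ) : ℝ :=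
  ‖φ z‖ * Real.exp (-∑ j, t j * Real.log ‖D.X j z‖)

/-- local logarithm -/
noncomputable def Rigid_L (z0 : ℂ) (j : Fin g) (z : ℂ) : ℂ := Complex.log (D.X j z / D.X j z0)

theorem Rigid_loc (t : Fin g → ℝ) (φ : ℂ → ℂ) (z0 : ℂ) (hz : z0 ∈ D.Om) (hφ : AnalyticAt ℂ φ z0)
    (hmax : IsLocalMax (D.Rigid_U t φ) z0) :
    ∀ᶠ z in 𝓝 z0, (∀ j, D.X j z / D.X j z0 ∈ Complex.slitPlane) ∧
      AnalyticAt ℂ φ z ∧ z ∈ D.Om ∧
      φ z * Complex.exp (-∑ j, (t j : ℂ) * D.Rigid_L z0 j z) = φ z0 := by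
  have h1 : ∀ᶠ z in 𝓝 z0, ∀ j, D.X j z / D.X j z0 ∈ Complex.slitPlane := by
    rw [Filter.eventually_all]
    intro j
    have hc : ContinuousAt (fun z => D.X j z / D.X j z0) z0 :=
      (D.Rigid_XA j z0 hz).continuousAt.div_const _
    have : D.X j z0 / D.X j z0 ∈ Complex.slitPlane := by
      rw [div_self (D.ne0 j z0 hz)]
      exact Complex.one_mem_slitPlane
    exact hc.eventually (Complex.isOpen_slitPlane.mem_nhds this)
  have h2 : ∀ᶠ z in 𝓝 z0, AnalyticAt ℂ φ z := hφ.eventually_analyticAt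
  have h3 : ∀ᶠ z in 𝓝 z0, z ∈ D.Om := D.isOpen_Om.mem_nhds hz
  set F : ℂ → ℂ := fun z => φ z * Complex.exp (-∑ j, (t j : ℂ) * D.Rigid_L z0 j z) with hF
  have hLd : ∀ z, (∀ j, D.X j z / D.X j z0 ∈ Complex.slitPlane) → z ∈ D.Om → ∀ j,
      DifferentiableAt ℂ (D.Rigid_L z0 j) z := by
    intro z hz1 hz2 j
    exact ((D.Rigid_XA j z hz2).differentiableAt.div_const _).clog (hz1 j)
  have hFd : ∀ᶠ z in 𝓝 z0, DifferentiableAt ℂ F z := by
    filter_upwards [h1, h2, h3] with z hz1 hz2 hz3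
    refine hz2.differentiableAt.mul (DifferentiableAt.cexp (DifferentiableAt.neg ?_))
    exact DifferentiableAt.fun_sum (fun j _ => (hLd z hz1 hz3 j).const_mul _)
  have hnorm : ∀ᶠ z in 𝓝 z0, ‖F z‖ = D.Rigid_U t φ z *
      Real.exp (∑ j, t j * Real.log ‖D.X j z0‖) := by
    filter_upwards [h1, h3] with z hz1 hz3
    have hre : (-∑ j, (t j : ℂ) * D.Rigid_L z0 j z).re =
        -∑ j, t j * Real.log ‖D.X j z‖ + ∑ j, t j * Real.log ‖D.X j z0‖ := by
      rw [Complex.neg_re, Complex.re_sum]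
      have : ∀ j, ((t j : ℂ) * D.Rigid_L z0 j z).re =
          t j * Real.log ‖D.X j z‖ - t j * Real.log ‖D.X j z0‖ := by
        intro j
        rw [Complex.re_ofReal_mul, Rigid_L, Complex.log_re, norm_div,
          Real.log_div (norm_ne_zero_iff.mpr (D.ne0 j z hz3))
            (norm_ne_zero_iff.mpr (D.ne0 j z0 hz))]
        ring
      rw [Finset.sum_congr rfl (fun j _ => this j), Finset.sum_sub_distrib]
      ring
    rw [hF]
    simp only [norm_mul, Complex.norm_exp]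
    rw [hre, Real.exp_add, Rigid_U]
    ring
  have hL0 : ∀ j, D.Rigid_L z0 j z0 = 0 := by
    intro j
    rw [Rigid_L, div_self (D.ne0 j z0 hz), Complex.log_one]
  have hF0 : F z0 = φ z0 := by
    rw [hF]
    simp [hL0]
  have hmaxF : IsLocalMax (norm ∘ F) z0 := by
    have h0 := hnorm.self_of_nhds
    filter_upwards [hnorm, hmax] with z hz1 hz2
    rw [Function.comp_apply, Function.comp_apply, hz1, h0]
    exact mul_le_mul_of_nonneg_right hz2 (Real.exp_pos _).le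
  have hconst := Complex.eventually_eq_of_isLocalMax_norm hFd hmaxF
  filter_upwards [h1, h2, h3, hconst] with z hz1 hz2 hz3 hz4
  refine ⟨hz1, hz2, hz3, ?_⟩
  rw [hF0] at hz4
  exact hz4

/-- the logarithmic derivative relation -/
theorem Rigid_dlog (t : Fin g → ℝ) (φ : ℂ → ℂ) (z0 : ℂ) (hz : z0 ∈ D.Om)
    (hφ : AnalyticAt ℂ φ z0) (hφ0 : φ z0 ≠ 0)
    (hmax : IsLocalMax (D.Rigid_U t φ) z0) :
    ∀ᶠ z in 𝓝 z0, deriv φ z / φ z - ∑ j, (t j : ℂ) * D.w j z = 0 := by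
  have h := D.Rigid_loc t φ z0 hz hφ hmax
  have hne : ∀ᶠ z in 𝓝 z0, φ z ≠ 0 := hφ.continuousAt.eventually_ne hφ0
  filter_upwards [h.eventually_nhds, hne] with z hz1 hz2
  obtain ⟨a1, a2, a3, a4⟩ := hz1.self_of_nhds
  have hLd : ∀ j, HasDerivAt (D.Rigid_L z0 j) (D.w j z) z := by
    intro j
    have h1 : HasDerivAt (fun z => D.X j z / D.X j z0) (deriv (D.X j) z / D.X j z0) z :=
      (D.Rigid_XA j z a3).differentiableAt.hasDerivAt.div_const _
    have h2 := h1.clog (a1 j)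
    have e : deriv (D.X j) z / D.X j z0 / (D.X j z / D.X j z0) = D.w j z := by
      rw [w, div_div_div_cancel_right₀ (D.ne0 j z0 hz)]
    rw [e] at h2
    exact h2
  have hE : HasDerivAt (fun z => φ z * Complex.exp (-∑ j, (t j : ℂ) * D.Rigid_L z0 j z))
      (deriv φ z * Complex.exp (-∑ j, (t j : ℂ) * D.Rigid_L z0 j z) +
        φ z * (Complex.exp (-∑ j, (t j : ℂ) * D.Rigid_L z0 j z) *
          (-∑ j, (t j : ℂ) * D.w j z))) z := by
    refine a2.differentiableAt.hasDerivAt.mul (HasDerivAt.cexp (HasDerivAt.neg ?_))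
    exact HasDerivAt.fun_sum (fun j _ => (hLd j).const_mul _)
  have hc : HasDerivAt (fun z => φ z * Complex.exp (-∑ j, (t j : ℂ) * D.Rigid_L z0 j z)) 0 z := by
    refine (hasDerivAt_const z (φ z0)).congr_of_eventuallyEq ?_
    filter_upwards [hz1] with y hy
    exact hy.2.2.2
  have he := hE.unique hc
  have hx := Complex.exp_ne_zero (-∑ j, (t j : ℂ) * D.Rigid_L z0 j z)
  have : Complex.exp (-∑ j, (t j : ℂ) * D.Rigid_L z0 j z) *
      (deriv φ z - φ z * ∑ j, (t j : ℂ) * D.w j z) = 0 := by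
    linear_combination he
  have h3 := (mul_eq_zero.mp this).resolve_left hx
  rw [sub_eq_zero] at h3 ⊢
  rw [h3]
  field_simp

/-- integral exponents: local constancy -/
theorem Rigid_const (n : Fin g → ℤ) (φ : ℂ → ℂ) (z0 : ℂ) (hz : z0 ∈ D.Om)
    (hφ : AnalyticAt ℂ φ z0) (hmax : IsLocalMax (D.Rigid_U (fun j => (n j : ℝ)) φ) z0) :
    ∀ᶠ z in 𝓝 z0, φ z * ∏ j, D.X j z ^ (-n j) - φ z0 * ∏ j, D.X j z0 ^ (-n j) = 0 := by
  filter_upwards [D.Rigid_loc _ φ z0 hz hφ hmax] with z hz1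
  obtain ⟨a1, a2, a3, a4⟩ := hz1
  have he : Complex.exp (-∑ j, (((n j : ℤ) : ℝ) : ℂ) * D.Rigid_L z0 j z) =
      (∏ j, D.X j z ^ (-n j)) / ∏ j, D.X j z0 ^ (-n j) := by
    rw [← Finset.sum_neg_distrib, Complex.exp_sum, ← Finset.prod_div_distrib]
    refine Finset.prod_congr rfl (fun j _ => ?_)
    rw [← div_zpow, ← Complex.exp_log (x := D.X j z / D.X j z0)
      (div_ne_zero (D.ne0 j z a3) (D.ne0 j z0 hz)), ← Complex.exp_int_mul]
    congr 1
    rw [Rigid_L]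
    push_cast
    ring
  have hne : (∏ j, D.X j z0 ^ (-n j)) ≠ 0 :=
    Finset.prod_ne_zero_iff.mpr (fun j _ => zpow_ne_zero _ (D.ne0 j z0 hz))
  rw [he] at a4
  rw [← a4]
  field_simp
  ring

theorem Rigid_mem0 (R : ℝ) (r : Fin g → ℝ) (hA : D.Adm R r) (z : ℂ) (h1 : 2 / 3 < ‖z‖)
    (h2 : ‖z‖ ≤ R) : z ∈ KK D.c R r :=
  ⟨h2, fun i => ((hA.2.2 i).2.trans (D.ann0_far z h1 i)).le⟩

theorem Rigid_memc (R : ℝ) (r : Fin g → ℝ) (hA : D.Adm R r) (i : Fin g) (z : ℂ)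
    (h1 : r i ≤ ‖z - D.c i‖) (h2 : ‖z - D.c i‖ < 2 * D.ep) : z ∈ KK D.c R r := by
  obtain ⟨a, b⟩ := D.ann_far i z h2
  refine ⟨(a.trans hA.1).le, fun k => ?_⟩
  rcases eq_or_ne k i with rfl | hk
  · exact h1
  · exact ((hA.2.2 k).2.trans (b k hk)).le

theorem Rigid_nontriv (R : ℝ) (r : Fin g → ℝ) (hA : D.Adm R r) : (KK D.c R r).Nontrivial := by
  have hR : 0 < R := lt_trans (by norm_num) hA.1
  have hn : ‖(R : ℂ)‖ = R := by rw [Complex.norm_real, Real.norm_of_nonneg hR.le]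
  refine ⟨(R : ℂ), D.Rigid_mem0 R r hA _ (by rw [hn]; exact hA.1) (by rw [hn]),
    (-R : ℂ), D.Rigid_mem0 R r hA _ (by rw [norm_neg, hn]; exact hA.1) (by rw [norm_neg, hn]), ?_⟩
  intro h
  have h2 : ((R : ℂ)).re = ((-R : ℂ)).re := by rw [← h]
  simp at h2
  linarith

/-- globalisation -/
theorem Rigid_glob (R : ℝ) (r : Fin g → ℝ) (hA : D.Adm R r) (t : Fin g → ℝ) (φ : ℂ → ℂ)
    (hφ : ∀ z ∈ KK D.c R r, AnalyticAt ℂ φ z ∧ φ z ≠ 0) (z0 : ℂ) (hz0 : z0 ∈ KK D.c R r)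
    (hmax : IsLocalMax (D.Rigid_U t φ) z0) :
    ∃ (n : Fin g → ℤ) (C : ℂ), C ≠ 0 ∧ ∀ z ∈ KK D.c R r, ∀ᶠ w in 𝓝 z,
      φ w * ∏ j, D.X j w ^ (-n j) = C := by
  have hsub := D.KK_sub R r hA
  have hpc := D.KK_preconn R r hA
  have hnt := D.Rigid_nontriv R r hA
  -- the logarithmic derivative
  have hd := D.Rigid_dlog t φ z0 (hsub hz0) (hφ z0 hz0).1 (hφ z0 hz0).2 hmax
  have hev := Rigid.ev hpc hnt (f := fun z => deriv φ z / φ z - ∑ j, (t j : ℂ) * D.w j z)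
    (fun z hz => by
      refine ((hφ z hz).1.deriv.div (hφ z hz).1 (hφ z hz).2).sub ?_
      exact Finset.analyticAt_fun_sum _ (fun j _ => analyticAt_const.mul (D.Rigid_wA j z (hsub hz))))
    hz0 hd
  have hint : ∀ i, ∃ n : ℤ, t i = n := by
    intro i
    have hri : 0 < r i := lt_trans (half_pos D.ep_pos) (hA.2.2 i).1
    have hmem : ∀ z : ℂ, z ∈ Metric.sphere (D.c i : ℂ) (r i) → z ∈ KK D.c R r := by
      intro z hz
      have hz' : ‖z - D.c i‖ = r i := by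
        rw [← dist_eq_norm]; exact hz
      exact D.Rigid_memc R r hA i z hz'.ge (by rw [hz']; exact (hA.2.2 i).2)
    obtain ⟨n, hn⟩ := Rigid.wind_int φ (D.c i) (r i) (fun z hz => by
      rw [abs_of_pos hri] at hz
      exact hφ z (hmem z hz))
    refine ⟨n, ?_⟩
    have h1 : (∮ z in C((D.c i : ℂ), r i), deriv φ z / φ z) =
        ∮ z in C((D.c i : ℂ), r i), ∑ j, (t j : ℂ) * D.w j z := by
      refine circleIntegral.integral_congr hri.le (fun z hz => ?_)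
      have := (hev z (hmem z hz)).self_of_nhds
      exact sub_eq_zero.mp this
    have h2 : (∮ z in C((D.c i : ℂ), r i), ∑ j, (t j : ℂ) * D.w j z) =
        ∑ j, ∮ z in C((D.c i : ℂ), r i), (t j : ℂ) * D.w j z := by
      refine circleIntegral.integral_fun_sum (fun j _ => ?_)
      refine ContinuousOn.circleIntegrable hri.le ?_
      intro z hz
      exact (continuousAt_const.mul
        (D.Rigid_wA j z (hsub (hmem z hz))).continuousAt).continuousWithinAt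
    have h3 : ∀ j, (∮ z in C((D.c i : ℂ), r i), (t j : ℂ) * D.w j z) =
        (t j : ℂ) * (if i = j then 2 * (Real.pi : ℂ) * I else 0) := by
      intro j
      rw [circleIntegral.integral_const_mul]
      congr 1
      exact D.wind i j (r i) (hA.2.2 i).1 (hA.2.2 i).2
    rw [h1, h2, Finset.sum_congr rfl (fun j _ => h3 j)] at hn
    simp only [mul_ite, mul_zero, Finset.sum_ite_eq, Finset.mem_univ, if_true] at hn
    have h4 := mul_right_cancel₀ Complex.two_pi_I_ne_zero hn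
    exact_mod_cast h4
  choose n hn using hint
  have ht : t = fun j => (n j : ℝ) := funext hn
  rw [ht] at hmax
  have hc := D.Rigid_const n φ z0 (hsub hz0) (hφ z0 hz0).1 hmax
  refine ⟨n, φ z0 * ∏ j, D.X j z0 ^ (-n j), ?_, ?_⟩
  · exact mul_ne_zero (hφ z0 hz0).2
      (Finset.prod_ne_zero_iff.mpr (fun j _ => zpow_ne_zero _ (D.ne0 j z0 (hsub hz0))))
  · intro z hz
    have hev2 := Rigid.ev hpc hnt
      (f := fun z => φ z * ∏ j, D.X j z ^ (-n j) - φ z0 * ∏ j, D.X j z0 ^ (-n j))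
      (fun z hz => by
        refine ((hφ z hz).1.mul ?_).sub analyticAt_const
        exact Finset.analyticAt_fun_prod _
          (fun j _ => (D.Rigid_XA j z (hsub hz)).zpow (D.ne0 j z (hsub hz))))
      hz0 hc z hz
    filter_upwards [hev2] with w hw
    exact sub_eq_zero.mp hw

theorem Rigid_core (R : ℝ) (r : Fin g → ℝ) (hA : D.Adm R r) (φp φm : ℂ → ℂ)
    (hp : ∀ z ∈ KK D.c R r, AnalyticAt ℂ φp z ∧ φp z ≠ 0)
    (hm : ∀ z ∈ KK D.c R⁻¹ (D.rm r), AnalyticAt ℂ φm z ∧ φm z ≠ 0)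
    (h0 : ∀ z : ℂ, ‖z‖ = R → ∀ᶠ w in 𝓝 z, φm w⁻¹ = φp w)
    (χ : Fin g → ℂ)
    (h1 : ∀ i, ∀ z : ℂ, ‖z - D.c i‖ = r i →
      ∀ᶠ w in 𝓝 z, φm (D.c i + D.ep ^ 2 / (w - D.c i)) = χ i * φp w)
    (t : Fin g → ℝ) (z0 : ℂ) (hz0 : z0 ∈ KK D.c R r) (hmax : IsLocalMax (D.Rigid_U t φp) z0) :
    ∃ n : Fin g → ℤ, ∀ i, χ i = D.q n i := by
  obtain ⟨n, C, hC, hn⟩ := D.Rigid_glob R r hA t φp hp z0 hz0 hmax
  have hA' := D.Adm_symm R r hA
  have hR : 0 < R := lt_trans (by norm_num) hA.1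
  -- near the circle of radius R
  have hnR : ‖(R : ℂ)‖ = R := by rw [Complex.norm_real, Real.norm_of_nonneg hR.le]
  have hnR' : ‖((R : ℂ))⁻¹‖ = R⁻¹ := by rw [norm_inv, hnR]
  have hR0 : (R : ℂ) ≠ 0 := by exact_mod_cast hR.ne'
  have hRK : (R : ℂ) ∈ KK D.c R r := D.Rigid_mem0 R r hA _ (by rw [hnR]; exact hA.1) (by rw [hnR])
  have hRK' : ((R : ℂ))⁻¹ ∈ KK D.c R⁻¹ (D.rm r) :=
    D.Rigid_mem0 R⁻¹ (D.rm r) hA' _ (by rw [hnR']; exact hA'.1) (by rw [hnR'])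
  have hann : ∀ᶠ w : ℂ in 𝓝 (R : ℂ), 2 / 3 < ‖w‖ ∧ ‖w‖ < 3 / 2 := by
    have hc : ContinuousAt (fun w : ℂ => ‖w‖) (R : ℂ) := continuous_norm.continuousAt
    have := hc.eventually (isOpen_Ioo.mem_nhds (show ‖(R : ℂ)‖ ∈ Set.Ioo (2 / 3 : ℝ) (3 / 2) by
      rw [hnR]; exact ⟨hA.1, hA.2.1⟩))
    exact this
  have hm1 : ∀ᶠ w in 𝓝 (R : ℂ), φm w⁻¹ * ∏ j, D.X j w⁻¹ ^ n j = C := by
    filter_upwards [hn _ hRK, h0 _ hnR, hann] with w hw1 hw2 hw3
    rw [hw2, ← hw1]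
    congr 1
    refine Finset.prod_congr rfl (fun j _ => ?_)
    have hg := D.glue0 j w hw3.1 hw3.2
    have hXw := D.ne0 j w (D.ann0_sub w hw3.1 hw3.2)
    have : D.X j w⁻¹ = (D.X j w)⁻¹ := eq_inv_of_mul_eq_one_right hg
    rw [this, inv_zpow, zpow_neg]
  have hm2 : ∀ᶠ w in 𝓝 ((R : ℂ))⁻¹, φm w * ∏ j, D.X j w ^ n j - C = 0 := by
    have ht : Tendsto (fun w : ℂ => w⁻¹) (𝓝 ((R : ℂ))⁻¹) (𝓝 (R : ℂ)) := by
      have := tendsto_inv₀ (inv_ne_zero hR0)
      rwa [inv_inv] at this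
    filter_upwards [ht.eventually hm1] with w hw
    rw [inv_inv] at hw
    rw [hw, sub_self]
  have hsub' := D.KK_sub R⁻¹ (D.rm r) hA'
  have hm3 := Rigid.ev (D.KK_preconn R⁻¹ (D.rm r) hA') (D.Rigid_nontriv R⁻¹ (D.rm r) hA')
    (f := fun z => φm z * ∏ j, D.X j z ^ n j - C)
    (fun z hz => by
      refine ((hm z hz).1.mul ?_).sub analyticAt_const
      exact Finset.analyticAt_fun_prod _
        (fun j _ => (D.Rigid_XA j z (hsub' hz)).zpow (D.ne0 j z (hsub' hz))))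
    hRK' hm2
  refine ⟨fun i => -n i, fun i => ?_⟩
  -- a point of the circle about c i
  obtain ⟨hr1, hr2⟩ := hA.2.2 i
  have hri : 0 < r i := lt_trans (half_pos D.ep_pos) hr1
  set z : ℂ := D.c i + r i with hzdef
  have hzn : ‖z - D.c i‖ = r i := by
    rw [hzdef, add_sub_cancel_left, Complex.norm_real, Real.norm_of_nonneg hri.le]
  have hzK : z ∈ KK D.c R r := D.Rigid_memc R r hA i z hzn.ge (by rw [hzn]; exact hr2)
  obtain ⟨j1, j2, j3⟩ := D.inv_c i z (by rw [hzn]; exact hr1) (by rw [hzn]; exact hr2)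
  have hJK : (D.c i + D.ep ^ 2 / (z - D.c i) : ℂ) ∈ KK D.c R⁻¹ (D.rm r) := by
    refine D.Rigid_memc R⁻¹ (D.rm r) hA' i _ ?_ j3
    rw [j1, hzn, rm]
  have e1 := (h1 i z hzn).self_of_nhds
  have e2 := (hn z hzK).self_of_nhds
  have e3 := (hm3 _ hJK).self_of_nhds
  have e4 : ∀ j, D.X j z * D.X j (D.c i + D.ep ^ 2 / (z - D.c i)) = ((D.s i j : ℝ) : ℂ) ^ 2 :=
    fun j => D.glue i j z (by rw [hzn]; exact hr1) (by rw [hzn]; exact hr2)
  have e5 : φp z ≠ 0 := (hp z hzK).2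
  have e6 : ∏ j, D.X j z ^ (-n j) ≠ 0 :=
    Finset.prod_ne_zero_iff.mpr (fun j _ => zpow_ne_zero _ (D.ne0 j z (D.KK_sub R r hA hzK)))
  have e7 : D.q (fun i => -n i) i = (∏ j, D.X j z ^ (-n j)) *
      (∏ j, D.X j (D.c i + D.ep ^ 2 / (z - D.c i)) ^ (n j))⁻¹ := by
    rw [q, ← Finset.prod_inv_distrib, ← Finset.prod_mul_distrib]
    refine Finset.prod_congr rfl (fun j _ => ?_)
    rw [← zpow_neg, ← mul_zpow, e4 j, zpow_mul]
    congr 1
    rcases eq_or_ne i j with rfl | hij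
    · norm_cast
    · rw [D.s_anti i j hij]
      push_cast
      norm_num
  have e8 : (∏ j, D.X j (D.c i + D.ep ^ 2 / (z - D.c i)) ^ (n j)) ≠ 0 :=
    Finset.prod_ne_zero_iff.mpr (fun j _ => zpow_ne_zero _ (D.ne0 j _ (hsub' hJK)))
  rw [e7, ← div_eq_mul_inv, eq_div_iff e8]
  have e9 : χ i * φp z * ∏ j, D.X j (D.c i + D.ep ^ 2 / (z - D.c i)) ^ (n j) = C := by
    rw [← e1]
    exact sub_eq_zero.mp e3
  apply mul_left_cancel₀ e5
  rw [e2, ← e9]
  ring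

/-- the gluing of the norm function at the outer circle -/
theorem Rigid_U_inv (t : Fin g → ℝ) (φp φm : ℂ → ℂ) (z : ℂ) (h1 : 2 / 3 < ‖z‖) (h2 : ‖z‖ < 3 / 2)
    (h : φm z⁻¹ = φp z) : D.Rigid_U (fun j => -t j) φm z⁻¹ = D.Rigid_U t φp z := by
  rw [Rigid_U, Rigid_U, h]
  congr 2
  rw [← Finset.sum_neg_distrib, ← Finset.sum_neg_distrib]
  refine Finset.sum_congr rfl (fun j _ => ?_)
  have : D.X j z⁻¹ = (D.X j z)⁻¹ := eq_inv_of_mul_eq_one_right (D.glue0 j z h1 h2)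
  rw [this, norm_inv, Real.log_inv]
  ring

/-- the gluing of the norm function at the inner circles -/
theorem Rigid_U_J (t : Fin g → ℝ) (φp φm : ℂ → ℂ) (i : Fin g) (x : ℂ) (hx : x ≠ 0)
    (ht : Real.log ‖x‖ + 2 * ∑ j, t j * Real.log |D.s i j| = 0) (z : ℂ)
    (h1 : D.ep / 2 < ‖z - D.c i‖) (h2 : ‖z - D.c i‖ < 2 * D.ep)
    (h : φm (D.c i + D.ep ^ 2 / (z - D.c i)) = x * φp z) :
    D.Rigid_U (fun j => -t j) φm (D.c i + D.ep ^ 2 / (z - D.c i)) = D.Rigid_U t φp z := by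
  obtain ⟨j1, j2, j3⟩ := D.inv_c i z h1 h2
  have hz := D.ann_sub i z h1 h2
  have hJ := D.ann_sub i _ j2 j3
  rw [Rigid_U, Rigid_U, h, norm_mul, mul_comm ‖x‖, mul_assoc, ← Real.exp_log (norm_pos_iff.mpr hx),
    ← Real.exp_add]
  congr 2
  have hj : ∀ j, Real.log ‖D.X j (D.c i + D.ep ^ 2 / (z - D.c i))‖ =
      2 * Real.log |D.s i j| - Real.log ‖D.X j z‖ := by
    intro j
    have hg := congrArg (fun u : ℂ => Real.log ‖u‖) (D.glue i j z h1 h2)
    beta_reduce at hg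
    rw [norm_mul, Real.log_mul (norm_ne_zero_iff.mpr (D.ne0 j z hz))
      (norm_ne_zero_iff.mpr (D.ne0 j _ hJ)), norm_pow, Complex.norm_real, Real.log_pow,
      Real.norm_eq_abs] at hg
    push_cast at hg
    linarith
  rw [Finset.sum_congr rfl (fun j _ => by rw [hj j])]
  have hs : ∑ j, -t j * (2 * Real.log |D.s i j| - Real.log ‖D.X j z‖) =
      -(2 * ∑ j, t j * Real.log |D.s i j|) + ∑ j, t j * Real.log ‖D.X j z‖ := by
    rw [Finset.mul_sum, ← Finset.sum_neg_distrib, ← Finset.sum_add_distrib]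
    exact Finset.sum_congr rfl (fun j _ => by ring)
  rw [hs]
  linarith

theorem Rigid_cont (R : ℝ) (r : Fin g → ℝ) (hA : D.Adm R r) (t : Fin g → ℝ) (φ : ℂ → ℂ)
    (hφ : ∀ z ∈ KK D.c R r, AnalyticAt ℂ φ z ∧ φ z ≠ 0) :
    ContinuousOn (D.Rigid_U t φ) (KK D.c R r) := by
  intro z hz
  have hzO := D.KK_sub R r hA hz
  refine ContinuousAt.continuousWithinAt ?_
  refine ContinuousAt.mul (hφ z hz).1.continuousAt.norm ?_
  refine ContinuousAt.rexp (ContinuousAt.neg ?_)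
  refine tendsto_finsetSum _ (fun j _ => ?_)
  exact ContinuousAt.mul continuousAt_const
    ((D.Rigid_XA j z hzO).continuousAt.norm.log (norm_ne_zero_iff.mpr (D.ne0 j z hzO)))

/-- a global maximum on the glued surface is a local maximum -/
theorem Rigid_locmax (R : ℝ) (r : Fin g → ℝ) (hA : D.Adm R r) (φp φm : ℂ → ℂ)
    (h0 : ∀ z : ℂ, ‖z‖ = R → ∀ᶠ w in 𝓝 z, φm w⁻¹ = φp w)
    (χ : Fin g → ℂ) (hχ : ∀ i, χ i ≠ 0)
    (h1 : ∀ i, ∀ z : ℂ, ‖z - D.c i‖ = r i →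
      ∀ᶠ w in 𝓝 z, φm (D.c i + D.ep ^ 2 / (w - D.c i)) = χ i * φp w)
    (t : Fin g → ℝ) (ht : ∀ i, Real.log ‖χ i‖ + 2 * ∑ j, t j * Real.log |D.s i j| = 0)
    (z0 : ℂ) (hz0 : z0 ∈ KK D.c R r)
    (hp : ∀ z ∈ KK D.c R r, D.Rigid_U t φp z ≤ D.Rigid_U t φp z0)
    (hm : ∀ z ∈ KK D.c R⁻¹ (D.rm r), D.Rigid_U (fun j => -t j) φm z ≤ D.Rigid_U t φp z0) :
    IsLocalMax (D.Rigid_U t φp) z0 := by
  have hA' := D.Adm_symm R r hA
  have hR : 0 < R := lt_trans (by norm_num) hA.1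
  have E1 : ∀ᶠ z in 𝓝 z0, ‖z‖ ≤ R ∨ (φm z⁻¹ = φp z ∧ 2 / 3 < ‖z‖ ∧ ‖z‖ < 3 / 2) := by
    rcases eq_or_lt_of_le hz0.1 with h | h
    · have hc : ContinuousAt (fun w : ℂ => ‖w‖) z0 := continuous_norm.continuousAt
      have h2 := hc.eventually (isOpen_Ioo.mem_nhds (show ‖z0‖ ∈ Set.Ioo (2 / 3 : ℝ) (3 / 2) by
        rw [h]; exact ⟨hA.1, hA.2.1⟩))
      filter_upwards [h0 z0 h, h2] with z hz1 hz2
      exact Or.inr ⟨hz1, hz2.1, hz2.2⟩
    · have hc : ContinuousAt (fun w : ℂ => ‖w‖) z0 := continuous_norm.continuousAt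
      filter_upwards [hc.eventually (isOpen_Iio.mem_nhds (show ‖z0‖ ∈ Set.Iio R from h))] with z hz
      exact Or.inl (le_of_lt hz)
  have E2 : ∀ᶠ z : ℂ in 𝓝 z0, ∀ i, r i ≤ ‖z - D.c i‖ ∨
      (φm (D.c i + D.ep ^ 2 / (z - D.c i)) = χ i * φp z ∧ D.ep / 2 < ‖z - D.c i‖ ∧
        ‖z - D.c i‖ < 2 * D.ep) := by
    rw [Filter.eventually_all]
    intro i
    have hc : ContinuousAt (fun w : ℂ => ‖w - D.c i‖) z0 :=
      (continuous_norm.comp (continuous_id.sub continuous_const)).continuousAt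
    rcases eq_or_lt_of_le (hz0.2 i) with h | h
    · have h2 := hc.eventually (isOpen_Ioo.mem_nhds
        (show ‖z0 - D.c i‖ ∈ Set.Ioo (D.ep / 2) (2 * D.ep) by
          rw [← h]; exact ⟨(hA.2.2 i).1, (hA.2.2 i).2⟩))
      filter_upwards [h1 i z0 h.symm, h2] with z hz1 hz2
      exact Or.inr ⟨hz1, hz2.1, hz2.2⟩
    · filter_upwards [hc.eventually (isOpen_Ioi.mem_nhds
        (show ‖z0 - D.c i‖ ∈ Set.Ioi (r i) from h))] with z hz
      exact Or.inl (le_of_lt hz)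
  filter_upwards [E1, E2] with z hz1 hz2
  by_cases hR1 : ‖z‖ ≤ R
  · by_cases hin : ∀ i, r i ≤ ‖z - D.c i‖
    · exact hp z ⟨hR1, hin⟩
    · push Not at hin
      obtain ⟨i, hi⟩ := hin
      obtain ⟨a1, a2, a3⟩ := (hz2 i).resolve_left (not_le.mpr hi)
      rw [← D.Rigid_U_J t φp φm i (χ i) (hχ i) (ht i) z a2 a3 a1]
      obtain ⟨j1, j2, j3⟩ := D.inv_c i z a2 a3
      refine hm _ (D.Rigid_memc R⁻¹ (D.rm r) hA' i _ ?_ j3)
      rw [j1, rm]
      exact div_le_div_of_nonneg_left (sq_nonneg _) (lt_trans (half_pos D.ep_pos) a2) hi.le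
  · obtain ⟨a1, a2, a3⟩ := hz1.resolve_left hR1
    rw [← D.Rigid_U_inv t φp φm z a2 a3 a1]
    have hinv : 2 / 3 < ‖z⁻¹‖ := by
      rw [norm_inv]
      have h3 : ((3 : ℝ) / 2)⁻¹ < ‖z‖⁻¹ := inv_strictAnti₀ (by linarith) a3
      have h4 : ((3 : ℝ) / 2)⁻¹ = 2 / 3 := by norm_num
      rwa [h4] at h3
    refine hm _ (D.Rigid_mem0 R⁻¹ (D.rm r) hA' _ hinv ?_)
    rw [norm_inv]
    exact inv_anti₀ hR (not_le.mp hR1).le

theorem Rigid_JJ (i : Fin g) (w : ℂ) (_ : w - D.c i ≠ 0) :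
    (D.c i + D.ep ^ 2 / ((D.c i + D.ep ^ 2 / (w - D.c i) : ℂ) - D.c i) : ℂ) = w := by
  have he : (D.ep : ℂ) ≠ 0 := by exact_mod_cast D.ep_pos.ne'
  rw [add_sub_cancel_left]
  field_simp
  ring

theorem rigid (R : ℝ) (r : Fin g → ℝ) (hA : D.Adm R r) (φp φm : ℂ → ℂ)
    (hp : ∀ z ∈ KK D.c R r, AnalyticAt ℂ φp z ∧ φp z ≠ 0)
    (hm : ∀ z ∈ KK D.c R⁻¹ (D.rm r), AnalyticAt ℂ φm z ∧ φm z ≠ 0)
    (h0 : ∀ z : ℂ, ‖z‖ = R → ∀ᶠ w in 𝓝 z, φm w⁻¹ = φp w)
    (χ : Fin g → ℂ)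
    (h1 : ∀ i, ∀ z : ℂ, ‖z - D.c i‖ = r i →
      ∀ᶠ w in 𝓝 z, φm (D.c i + D.ep ^ 2 / (w - D.c i)) = χ i * φp w) :
    ∃ n : Fin g → ℤ, ∀ i, χ i = D.q n i := by
  have hA' := D.Adm_symm R r hA
  have hR : 0 < R := lt_trans (by norm_num) hA.1
  -- the multipliers do not vanish
  have hχ : ∀ i, χ i ≠ 0 := by
    intro i hi
    obtain ⟨hr1, hr2⟩ := hA.2.2 i
    have hri : 0 < r i := lt_trans (half_pos D.ep_pos) hr1
    have hzn : ‖(D.c i + r i : ℂ) - D.c i‖ = r i := by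
      rw [add_sub_cancel_left, Complex.norm_real, Real.norm_of_nonneg hri.le]
    obtain ⟨j1, j2, j3⟩ := D.inv_c i _ (by rw [hzn]; exact hr1) (by rw [hzn]; exact hr2)
    have hJK : (D.c i + D.ep ^ 2 / ((D.c i + r i : ℂ) - D.c i) : ℂ) ∈ KK D.c R⁻¹ (D.rm r) := by
      refine D.Rigid_memc R⁻¹ (D.rm r) hA' i _ ?_ j3
      rw [j1, hzn, rm]
    have := (h1 i _ hzn).self_of_nhds
    rw [hi, zero_mul] at this
    exact (hm _ hJK).2 this
  -- the exponents
  obtain ⟨t, ht⟩ := Matrix.mulVec_surjective_iff_isUnit.mpr D.posdef.isUnit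
    (fun i => Real.log ‖χ i‖ / (2 * Real.pi))
  have ht' : ∀ i, Real.log ‖χ i‖ + 2 * ∑ j, t j * Real.log |D.s i j| = 0 := by
    intro i
    have h := congrFun ht i
    rw [Matrix.mulVec, dotProduct] at h
    simp only [Matrix.of_apply] at h
    have hpi : Real.pi ≠ 0 := Real.pi_ne_zero
    have e : ∑ x, -Real.log |D.s i x| / Real.pi * t x =
        -(∑ j, t j * Real.log |D.s i j|) / Real.pi := by
      rw [neg_div, Finset.sum_div, ← Finset.sum_neg_distrib]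
      exact Finset.sum_congr rfl (fun j _ => by ring)
    rw [e] at h
    field_simp at h
    linarith
  -- maxima
  have hn1 := (D.Rigid_nontriv R r hA).nonempty
  have hn2 := (D.Rigid_nontriv R⁻¹ (D.rm r) hA').nonempty
  obtain ⟨z1, hz1, hmax1⟩ := (KK_compact D.c R r).exists_isMaxOn hn1 (D.Rigid_cont R r hA t φp hp)
  obtain ⟨z2, hz2, hmax2⟩ := (KK_compact D.c R⁻¹ (D.rm r)).exists_isMaxOn hn2
    (D.Rigid_cont R⁻¹ (D.rm r) hA' (fun j => -t j) φm hm)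
  rcases le_total (D.Rigid_U (fun j => -t j) φm z2) (D.Rigid_U t φp z1) with hle | hle
  · refine D.Rigid_core R r hA φp φm hp hm h0 χ h1 t z1 hz1 ?_
    exact D.Rigid_locmax R r hA φp φm h0 χ hχ h1 t ht' z1 hz1 (fun z hz => hmax1 hz)
      (fun z hz => (hmax2 hz).trans hle)
  · -- exchange the sheets
    have hRr : KK D.c R⁻¹⁻¹ (D.rm (D.rm r)) = KK D.c R r := by
      rw [inv_inv, D.rm_rm R r hA]
    have h0' : ∀ z : ℂ, ‖z‖ = R⁻¹ → ∀ᶠ w in 𝓝 z, φp w⁻¹ = φm w := by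
      intro z hz
      have hz0 : z ≠ 0 := by
        intro h
        rw [h, norm_zero] at hz
        exact (inv_pos.mpr hR).ne hz
      have h2 := h0 z⁻¹ (by rw [norm_inv, hz, inv_inv])
      filter_upwards [(tendsto_inv₀ hz0).eventually h2] with w hw
      rw [inv_inv] at hw
      exact hw.symm
    have h1' : ∀ i, ∀ z : ℂ, ‖z - D.c i‖ = D.rm r i →
        ∀ᶠ w in 𝓝 z, φp (D.c i + D.ep ^ 2 / (w - D.c i)) = (χ i)⁻¹ * φm w := by
      intro i z hz
      obtain ⟨hr1, hr2⟩ := hA'.2.2 i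
      have hrp : 0 < D.rm r i := lt_trans (half_pos D.ep_pos) hr1
      have hzc : z - D.c i ≠ 0 := by
        intro h
        rw [h, norm_zero] at hz
        exact hrp.ne hz
      obtain ⟨j1, j2, j3⟩ := D.inv_c i z (by rw [hz]; exact hr1) (by rw [hz]; exact hr2)
      have h2 := h1 i _ (j1.trans (by
        rw [hz]
        have := congrFun (D.rm_rm R r hA) i
        exact this))
      have hJc : ContinuousAt (fun w : ℂ => (D.c i + D.ep ^ 2 / (w - D.c i) : ℂ)) z := by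
        refine continuousAt_const.add (continuousAt_const.div ?_ hzc)
        exact continuousAt_id.sub continuousAt_const
      have hne : ∀ᶠ w in 𝓝 z, w - (D.c i : ℂ) ≠ 0 :=
        (continuousAt_id.sub continuousAt_const).eventually_ne hzc
      filter_upwards [hJc.eventually h2, hne] with w hw1 hw2
      rw [D.Rigid_JJ i w hw2] at hw1
      rw [hw1, ← mul_assoc, inv_mul_cancel₀ (hχ i), one_mul]
    have ht2 : ∀ i, Real.log ‖(χ i)⁻¹‖ + 2 * ∑ j, (fun j => -t j) j * Real.log |D.s i j| = 0 := by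
      intro i
      have e : ∑ j, (fun j => -t j) j * Real.log |D.s i j| = -∑ j, t j * Real.log |D.s i j| := by
        rw [← Finset.sum_neg_distrib]
        exact Finset.sum_congr rfl (fun j _ => by ring)
      rw [e, norm_inv, Real.log_inv]
      linarith [ht' i]
    have hnn : (fun j => -(fun j => -t j) j) = t := by
      funext j
      simp
    have hloc := D.Rigid_locmax R⁻¹ (D.rm r) hA' φm φp h0' (fun i => (χ i)⁻¹)
      (fun i => inv_ne_zero (hχ i)) h1' (fun j => -t j) ht2 z2 hz2 (fun z hz => hmax2 hz)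
      (fun z hz => by
        rw [hnn]
        rw [hRr] at hz
        exact (hmax1 hz).trans hle)
    obtain ⟨n, hn⟩ := D.Rigid_core R⁻¹ (D.rm r) hA' φm φp hm (by rw [hRr]; exact hp) h0'
      (fun i => (χ i)⁻¹) h1' (fun j => -t j) z2 hz2 hloc
    refine ⟨fun i => -n i, fun i => ?_⟩
    have h5 := hn i
    rw [← inv_inv (χ i)]
    rw [h5, q, q, ← Finset.prod_inv_distrib]
    refine Finset.prod_congr rfl (fun j _ => ?_)
    rw [← zpow_neg]
    congr 1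
    ring

end HypData
end Pool.Agent.AM.Hyp
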