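import Pool.Agent.AM.Hyp.Defs

/-! Definitions for the construction of hyperelliptic Schottky data. -/

set_option autoImplicit false

open Complex Filter Topology

namespace Pool.Agent.AM.Hyp

/-- numerical parameters of the Schottky group -/
structure SchData (g : ℕ) where
  c : Fin g → ℝ
  ep : ℝ
  dl : ℝ
  ep_pos : 0 < ep
  dl_pos : 0 < dl
  dl_le : dl ≤ 1 / 8
  c_ge : ∀ i, 1 / 4 ≤ c i
  c_le : ∀ i, c i ≤ 1 / 2
  sep : ∀ i j, i ≠ j → dl ≤ |c i - c j|
  small : 10 ^ 5 * ((g : ℝ) + 1) ^ 2 * ep ≤ dl ^ 3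

/-- the bracket of two vectors -/
def br (p q : Fin 2 → ℂ) : ℂ := p 0 * q 1 - p 1 * q 0

/-- the affine point `z` as a vector -/
def pt (z : ℂ) : Fin 2 → ℂ := ![z, 1]

/-- the point at infinity -/
def b0 : Fin 2 → ℂ := ![1, 0]

/-- the point zero -/
def b1 : Fin 2 → ℂ := ![0, 1]

/-- the swap of coordinates, i.e. `z ↦ 1/z` -/
def E0 (p : Fin 2 → ℂ) : Fin 2 → ℂ := ![p 1, p 0]

/-- the automorphism of the free group inverting the generators -/
def flip (g : ℕ) : FreeGroup (Fin g) →* FreeGroup (Fin g) :=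
  FreeGroup.lift (fun i => (FreeGroup.of i)⁻¹)

namespace SchData

variable {g : ℕ} (S : SchData g)

/-- growth factor -/
noncomputable def K : ℝ := S.dl / (2 * S.ep)

/-- error in the attracting directions -/
noncomputable def eta : ℝ := 4 * S.ep ^ 2 / S.dl

/-- the generator `i` as a matrix -/
noncomputable def Gmat (i : Fin g) : Matrix (Fin 2) (Fin 2) ℂ :=
  !![((S.ep ^ 2 - S.c i ^ 2) / S.ep : ℂ), (S.c i / S.ep : ℂ); (-S.c i / S.ep : ℂ), (1 / S.ep : ℂ)]

theorem Gmat_det (i : Fin g) : (S.Gmat i).det = 1 := by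
  have h : (S.ep : ℂ) ≠ 0 := by exact_mod_cast S.ep_pos.ne'
  rw [Matrix.det_fin_two]
  simp only [Gmat, Matrix.of_apply, Matrix.cons_val', Matrix.cons_val_zero, Matrix.cons_val_one,
    Matrix.cons_val_fin_one]
  field_simp
  ring

/-- the Schottky representation -/
noncomputable def rep : FreeGroup (Fin g) →* Matrix.SpecialLinearGroup (Fin 2) ℂ :=
  FreeGroup.lift (fun i => ⟨S.Gmat i, S.Gmat_det i⟩)

/-- the action on vectors -/
noncomputable def act (γ : FreeGroup (Fin g)) (p : Fin 2 → ℂ) : Fin 2 → ℂ :=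
  (S.rep γ : Matrix (Fin 2) (Fin 2) ℂ).mulVec p

/-- attracting directions -/
noncomputable def dir (i : Fin g) (b : Bool) : Fin 2 → ℂ := if b then ![S.c i, 1] else ![1, S.c i]

/-- factor of the product -/
noncomputable def fac (z z0 p1 p2 : Fin 2 → ℂ) (γ : FreeGroup (Fin g)) : ℂ :=
  (br z (S.act γ p1) * br z0 (S.act γ p2)) / (br z (S.act γ p2) * br z0 (S.act γ p1))

/-- the Schottky-Klein type product -/
noncomputable def PP (z z0 p1 p2 : Fin 2 → ℂ) : ℂ := ∏' γ : FreeGroup (Fin g), S.fac z z0 p1 p2 γ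

/-- `z` is uniformly far from the orbit of `p` -/
def Gd (z p : Fin 2 → ℂ) : Prop :=
  ∃ C : ℝ, 0 < C ∧ ∀ γ : FreeGroup (Fin g), C * S.K ^ (γ.norm) ≤ ‖br z (S.act γ p)‖

/-- the multiplicative functions on vectors -/
noncomputable def Xv (j : Fin g) (v : Fin 2 → ℂ) : ℂ :=
  S.PP v (pt 1) (S.act (FreeGroup.of j) b0) b0

/-- the multiplicative functions -/
noncomputable def X (j : Fin g) (z : ℂ) : ℂ := S.Xv j (pt z)

/-- main zero -/
noncomputable def pz (j : Fin g) : ℝ := S.c j - S.ep ^ 2 / S.c j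

/-- main term of `X j` -/
noncomputable def A (j : Fin g) (z : ℂ) : ℂ :=
  ((z - S.pz j) / (1 - S.pz j)) * ((1 - S.c j) / (1 - S.c j * z))

/-- multipliers -/
noncomputable def Qm (i j : Fin g) : ℂ :=
  S.PP (S.act (FreeGroup.of i) (pt 1)) (pt 1) (S.act (FreeGroup.of j) b0) b0

end SchData

end Pool.Agent.AM.Hyp
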