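import Pool.Agent.AM.Hyp.Fact1
import Pool.Agent.AM.Hyp.Indep
import Pool.Agent.AM.Hyp.Rigid

/-! The sum formula (Riemann): the zeros of the pulled back theta function. -/

set_option autoImplicit false
open Complex Filter Topology
namespace Pool.Agent.AM.Hyp
namespace HypData
variable {g : ℕ} (D : HypData g)

namespace SumF

/-- plus part of a divisor -/
def Mp (M : Multiset (ℂ × Bool)) : Multiset ℂ := (M.filter (fun P => P.2 = true)).map Prod.fst

/-- minus part of a divisor -/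
def Mm (M : Multiset (ℂ × Bool)) : Multiset ℂ := (M.filter (fun P => ¬ P.2 = true)).map Prod.fst

theorem Mp_add (M N : Multiset (ℂ × Bool)) : Mp (M + N) = Mp M + Mp N := by
  simp [Mp, Multiset.filter_add]

theorem Mm_add (M N : Multiset (ℂ × Bool)) : Mm (M + N) = Mm M + Mm N := by
  simp [Mm, Multiset.filter_add]

theorem card_Mp_Mm (M : Multiset (ℂ × Bool)) :
    Multiset.card (Mp M) + Multiset.card (Mm M) = Multiset.card M := by
  unfold Mp Mm
  rw [Multiset.card_map, Multiset.card_map, ← Multiset.card_add, Multiset.filter_add_not]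

theorem mem_Mp {M : Multiset (ℂ × Bool)} {z : ℂ} : z ∈ Mp M ↔ (z, true) ∈ M := by
  unfold Mp
  rw [Multiset.mem_map]
  constructor
  · rintro ⟨⟨w, b⟩, h, rfl⟩
    rw [Multiset.mem_filter] at h
    obtain ⟨h1, h2⟩ := h
    simp only at h2
    rw [← h2]
    exact h1
  · intro h
    exact ⟨(z, true), Multiset.mem_filter.2 ⟨h, rfl⟩, rfl⟩

theorem mem_Mm {M : Multiset (ℂ × Bool)} {z : ℂ} : z ∈ Mm M ↔ (z, false) ∈ M := by
  unfold Mm
  rw [Multiset.mem_map]
  constructor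
  · rintro ⟨⟨w, b⟩, h, rfl⟩
    rw [Multiset.mem_filter] at h
    obtain ⟨h1, h2⟩ := h
    have h3 : b = false := by simpa using h2
    rw [← h3]
    exact h1
  · intro h
    exact ⟨(z, false), Multiset.mem_filter.2 ⟨h, by simp⟩, rfl⟩

theorem nodup_Mp {M : Multiset (ℂ × Bool)} (h : M.Nodup) : (Mp M).Nodup := by
  unfold Mp
  refine Multiset.Nodup.map_on ?_ (h.filter _)
  rintro ⟨w, b⟩ h1 ⟨w', b'⟩ h2 h3
  rw [Multiset.mem_filter] at h1 h2
  have e1 : b = true := h1.2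
  have e2 : b' = true := h2.2
  simp only at h3
  rw [e1, e2, h3]

theorem nodup_Mm {M : Multiset (ℂ × Bool)} (h : M.Nodup) : (Mm M).Nodup := by
  unfold Mm
  refine Multiset.Nodup.map_on ?_ (h.filter _)
  rintro ⟨w, b⟩ h1 ⟨w', b'⟩ h2 h3
  rw [Multiset.mem_filter] at h1 h2
  have e1 : b = false := by simpa using h1.2
  have e2 : b' = false := by simpa using h2.2
  simp only at h3
  rw [e1, e2, h3]

theorem Mp_map_true (Z : Multiset ℂ) : Mp (Z.map (fun z => (z, true))) = Z := by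
  unfold Mp
  rw [Multiset.filter_eq_self.2 (by
    intro P hP
    obtain ⟨z, _, rfl⟩ := Multiset.mem_map.1 hP
    rfl), Multiset.map_map]
  simp

theorem Mm_map_true (Z : Multiset ℂ) : Mm (Z.map (fun z => (z, true))) = 0 := by
  unfold Mm
  rw [Multiset.filter_eq_nil.2 (by
    intro P hP
    obtain ⟨z, _, rfl⟩ := Multiset.mem_map.1 hP
    simp)]
  rfl

theorem Mp_map_false (Z : Multiset ℂ) : Mp (Z.map (fun z => (z, false))) = 0 := by
  unfold Mp
  rw [Multiset.filter_eq_nil.2 (by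
    intro P hP
    obtain ⟨z, _, rfl⟩ := Multiset.mem_map.1 hP
    simp)]
  rfl

theorem Mm_map_false (Z : Multiset ℂ) : Mm (Z.map (fun z => (z, false))) = Z := by
  unfold Mm
  rw [Multiset.filter_eq_self.2 (by
    intro P hP
    obtain ⟨z, _, rfl⟩ := Multiset.mem_map.1 hP
    simp), Multiset.map_map]
  simp

theorem Mp_cons (P : ℂ × Bool) (M : Multiset (ℂ × Bool)) : Mp (P ::ₘ M) = Mp {P} + Mp M := by
  rw [← Mp_add, Multiset.singleton_add]

theorem Mm_cons (P : ℂ × Bool) (M : Multiset (ℂ × Bool)) : Mm (P ::ₘ M) = Mm {P} + Mm M := by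
  rw [← Mm_add, Multiset.singleton_add]

theorem sum_Mp (S A : Multiset (ℂ × Bool)) :
    (S.map (fun P => Mp (P ::ₘ A))).sum = Mp S + Multiset.card S • Mp A := by
  induction S using Multiset.induction with
  | empty => simp [Mp]
  | cons P S ih =>
    rw [Multiset.map_cons, Multiset.sum_cons, ih, Multiset.card_cons, succ_nsmul, Mp_cons P A,
      Mp_cons P S]
    abel

theorem sum_Mm (S A : Multiset (ℂ × Bool)) :
    (S.map (fun P => Mm (P ::ₘ A))).sum = Mm S + Multiset.card S • Mm A := by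
  induction S using Multiset.induction with
  | empty => simp [Mm]
  | cons P S ih =>
    rw [Multiset.map_cons, Multiset.sum_cons, ih, Multiset.card_cons, succ_nsmul, Mm_cons P A,
      Mm_cons P S]
    abel

/-- the parameter with prescribed zeros -/
noncomputable def aM (M : Multiset (ℂ × Bool)) (j : Fin g) : ℂ := (D.kap j * D.W M j)⁻¹

theorem W_cons (P : ℂ × Bool) (M : Multiset (ℂ × Bool)) (j : Fin g) :
    D.W (P ::ₘ M) j = D.XX P j * D.W M j := by
  simp [W]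

theorem W_add (M N : Multiset (ℂ × Bool)) (j : Fin g) : D.W (M + N) j = D.W M j * D.W N j := by
  simp [W]

theorem aM_tor (M : Multiset (ℂ × Bool)) (hM : ∀ P ∈ M, P.1 ∈ D.Om) : aM D M ∈ Tor g :=
  fun j => inv_ne_zero (mul_ne_zero (D.kap_ne j) (D.W_ne M hM j))

/-- the plus points of `M` are zeros -/
theorem Fp_zero (M : Multiset (ℂ × Bool)) (hM : ∀ P ∈ M, P.1 ∈ D.Om) (hc : Multiset.card M = g)
    (z : ℂ) (hz : (z, true) ∈ M) : D.Fp (aM D M) z = 0 := by
  obtain ⟨M', rfl⟩ := Multiset.exists_cons_of_mem hz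
  have hz' : z ∈ D.Om := hM _ hz
  rw [Multiset.card_cons] at hc
  have h1 := D.fact1 M' (fun P hP => hM P (Multiset.mem_cons_of_mem hP)) hc
  unfold Fp
  rw [← thx_inv]
  rw [← h1]
  congr 1
  funext j
  have hX : D.X j z ≠ 0 := D.ne0 j z hz'
  have e : D.XX (z, true) j = D.X j z := by simp [XX]
  rw [aM, W_cons, e, mul_inv, inv_inv]
  field_simp

/-- the minus points of `M` are zeros -/
theorem Fm_zero (M : Multiset (ℂ × Bool)) (hM : ∀ P ∈ M, P.1 ∈ D.Om) (hc : Multiset.card M = g)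
    (z : ℂ) (hz : (z, false) ∈ M) : D.Fm (aM D M) z = 0 := by
  obtain ⟨M', rfl⟩ := Multiset.exists_cons_of_mem hz
  have hz' : z ∈ D.Om := hM _ hz
  rw [Multiset.card_cons] at hc
  have h1 := D.fact1 M' (fun P hP => hM P (Multiset.mem_cons_of_mem hP)) hc
  unfold Fm
  rw [← thx_inv]
  rw [← h1]
  congr 1
  funext j
  have hX : D.X j z ≠ 0 := D.ne0 j z hz'
  have e : D.XX (z, false) j = (D.X j z)⁻¹ := by simp [XX]
  rw [aM, W_cons, e, mul_inv, inv_inv]
  field_simp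

/-- the zeros of `F (aM M)` are exactly the points of `M` -/
theorem generic (M : Multiset (ℂ × Bool)) (hM : ∀ P ∈ M, P.1 ∈ D.Om) (hc : Multiset.card M = g)
    (hn : M.Nodup) (R : ℝ) (r : Fin g → ℝ) (hA : D.Adm R r)
    (h0 : ∀ z : ℂ, ‖z‖ = R → D.Fp (aM D M) z ≠ 0)
    (h1 : ∀ i, ∀ z : ℂ, ‖z - D.c i‖ = r i → D.Fp (aM D M) z ≠ 0)
    (hp : ∀ z, (z, true) ∈ M → z ∈ KK D.c R r)
    (hm : ∀ z, (z, false) ∈ M → z ∈ KK D.c R⁻¹ (D.rm r)) :
    D.ZData (D.Fp (aM D M)) R r (Mp M) ∧ D.ZData (D.Fm (aM D M)) R⁻¹ (D.rm r) (Mm M) := by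
  obtain ⟨Zp, Zm, hZp, hZm, hcard⟩ := D.count (aM D M) (aM_tor D M hM) R r hA h0 h1
  have e1 : Mp M ≤ Zp := by
    rw [Multiset.le_iff_subset (nodup_Mp hn)]
    intro z hz
    rw [mem_Mp] at hz
    exact hZp.mem_of_zero (hp z hz) (hM _ hz) (Fp_zero D M hM hc z hz)
  have e2 : Mm M ≤ Zm := by
    rw [Multiset.le_iff_subset (nodup_Mm hn)]
    intro z hz
    rw [mem_Mm] at hz
    exact hZm.mem_of_zero (hm z hz) (hM _ hz) (Fm_zero D M hM hc z hz)
  have c1 := Multiset.card_le_card e1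
  have c2 := Multiset.card_le_card e2
  have c3 := card_Mp_Mm M
  have e3 : Mp M = Zp := Multiset.eq_of_le_of_card_le e1 (by omega)
  have e4 : Mm M = Zm := Multiset.eq_of_le_of_card_le e2 (by omega)
  rw [e3, e4]
  exact ⟨hZp, hZm⟩

/-- zero data of a product -/
theorem zprod {α : Type} (S : Multiset α) (f : α → ℂ → ℂ) (Z : α → Multiset ℂ) (R : ℝ)
    (r : Fin g → ℝ) (h : ∀ s ∈ S, D.ZData (f s) R r (Z s)) :
    D.ZData (fun z => (S.map (fun s => f s z)).prod) R r ((S.map Z).sum) := by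
  induction S using Multiset.induction with
  | empty =>
    refine ⟨?_, fun _ => 1, differentiableOn_const _, fun z _ => one_ne_zero, ?_⟩
    · intro ζ hζ
      simp at hζ
    · intro z _
      simp
  | cons s S ih =>
    have h1 := h s (Multiset.mem_cons_self s S)
    have h2 := ih (fun t ht => h t (Multiset.mem_cons_of_mem ht))
    have h3 := h1.mul h2
    simpa only [Multiset.map_cons, Multiset.prod_cons, Multiset.sum_cons] using h3

/-- disjoint open sets of `B0` avoiding a finite set -/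
theorem exists_open (S : Set ℂ) (hS : S.Finite) (ι : Type) [Fintype ι] :
    ∃ V : ι → Set ℂ, (∀ i, IsOpen (V i)) ∧ (∀ i, (V i).Nonempty) ∧ (∀ i, V i ⊆ B0) ∧
      (∀ i, ∀ z ∈ V i, z ∉ S) ∧ ∀ i j, i ≠ j → Disjoint (V i) (V j) := by
  have hopen : IsOpen B0 := Metric.isOpen_ball
  have hmem : (I / 2 : ℂ) ∈ B0 := Metric.mem_ball_self (by norm_num)
  have hinf : (B0 \ S).Infinite := (infinite_of_mem_nhds _ (hopen.mem_nhds hmem)).sdiff hS
  let f0 := hinf.natEmbedding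
  let f : ι → ℂ := fun i => (f0 (Fintype.equivFin ι i) : ℂ)
  have hf : Function.Injective f := by
    intro i j hij
    have h1 : f0 (Fintype.equivFin ι i) = f0 (Fintype.equivFin ι j) := Subtype.ext hij
    have h2 := f0.injective h1
    exact (Fintype.equivFin ι).injective (Fin.ext h2)
  obtain ⟨U, hU, hd⟩ := (Set.finite_range f).t2_separation
  refine ⟨fun i => U (f i) ∩ (B0 \ S), ?_, ?_, ?_, ?_, ?_⟩
  · intro i
    exact (hU (f i)).2.inter (hopen.sdiff hS.isClosed)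
  · intro i
    exact ⟨f i, (hU (f i)).1, (f0 (Fintype.equivFin ι i)).2⟩
  · intro i z hz
    exact hz.2.1
  · intro i z hz
    exact hz.2.2
  · intro i j hij
    have h1 := hd (Set.mem_range_self i) (Set.mem_range_self j) (fun e => hij (hf e))
    exact Disjoint.mono Set.inter_subset_left Set.inter_subset_left h1

/-- choice of the points `B` -/
theorem exists_B :
    ∃ B : Multiset (ℂ × Bool), Multiset.card B = g ∧ B.Nodup ∧
      (∀ P ∈ B, P.1 ∈ B0 ∧ P.2 = true) ∧ ∃ z ∈ D.Om, D.Fp (aM D B) z ≠ 0 := by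
  have hz0 : (I / 2 : ℂ) ∈ B0 := Metric.mem_ball_self (by norm_num)
  have hz0' : (I / 2 : ℂ) ∈ D.Om := D.B0_sub hz0
  obtain ⟨V, hV1, hV2, hV3, _, hV5⟩ := exists_open ∅ Set.finite_empty (Fin g)
  obtain ⟨P, hP, hne⟩ := D.exists_ne (Fin g) (Fintype.card_fin g) V hV1 hV2
    (fun i => (hV3 i).trans D.B0_sub) (fun _ => true) 1
    (fun _ j => D.kap j * (D.X j (I / 2))⁻¹)
    (fun _ j => mul_ne_zero (D.kap_ne j) (inv_ne_zero (D.ne0 j _ hz0')))
  have hinj : Function.Injective (fun i => ((P i, true) : ℂ × Bool)) := by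
    intro i j hij
    by_contra hne
    have e : P i = P j := congrArg Prod.fst hij
    have h1 := hP i
    rw [e] at h1
    exact Set.disjoint_left.1 (hV5 i j hne) h1 (hP j)
  refine ⟨(Finset.univ : Finset (Fin g)).val.map (fun i => (P i, true)), ?_, ?_, ?_, ?_⟩
  · simp
  · exact (Finset.nodup _).map hinj
  · intro Q hQ
    obtain ⟨i, _, rfl⟩ := Multiset.mem_map.1 hQ
    exact ⟨hV3 i (hP i), rfl⟩
  · refine ⟨I / 2, hz0', ?_⟩
    have h1 := hne 0
    unfold Fp
    rw [← thx_inv]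
    have e : (fun j => (aM D ((Finset.univ : Finset (Fin g)).val.map (fun i => (P i, true))) j *
        D.X j (I / 2))⁻¹) =
        fun j => D.kap j * (D.X j (I / 2))⁻¹ * ∏ i, D.XX (P i, true) j := by
      funext j
      have : D.W ((Finset.univ : Finset (Fin g)).val.map (fun i => (P i, true))) j =
          ∏ i, D.XX (P i, true) j := by
        rw [W, Multiset.map_map]
        rfl
      rw [aM, this, mul_inv, inv_inv]
      ring
    rw [e]
    exact h1

/-- choice of the points `A` -/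
theorem exists_A (hg : 1 ≤ g) (S : Set ℂ) (hS : S.Finite) (Ps : Multiset (ℂ × Bool))
    (hPs : ∀ P ∈ Ps, P.1 ∈ D.Om) :
    ∃ A : Multiset (ℂ × Bool), Multiset.card A + 1 = g ∧ A.Nodup ∧
      (∀ P ∈ A, P.1 ∈ B0 ∧ P.2 = true ∧ P.1 ∉ S) ∧
      ∀ P ∈ Ps, ∃ z ∈ D.Om, D.Fp (aM D (P ::ₘ A)) z ≠ 0 := by
  obtain ⟨V, hV1, hV2, hV3, hV4, hV5⟩ := exists_open S hS (Option (Fin (g - 1)))
  have hmemL : ∀ k : Fin Ps.toList.length, Ps.toList.get k ∈ Ps := by
    intro k
    have := List.get_mem Ps.toList k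
    rwa [Multiset.mem_toList] at this
  obtain ⟨P, hP, hne⟩ := D.exists_ne (Option (Fin (g - 1)))
    (by rw [Fintype.card_option, Fintype.card_fin]; omega) V hV1 hV2
    (fun i => (hV3 i).trans D.B0_sub) (fun i => i.isSome) Ps.toList.length
    (fun k j => D.kap j * D.XX (Ps.toList.get k) j)
    (fun k j => mul_ne_zero (D.kap_ne j) (D.XX_ne _ (hPs _ (hmemL k)) j))
  have hinj : Function.Injective (fun i : Fin (g - 1) => ((P (some i), true) : ℂ × Bool)) := by
    intro i j hij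
    by_contra hne
    have e : P (some i) = P (some j) := congrArg Prod.fst hij
    have h1 := hP (some i)
    rw [e] at h1
    exact Set.disjoint_left.1 (hV5 (some i) (some j) (fun h => hne (Option.some_injective _ h)))
      h1 (hP (some j))
  refine ⟨(Finset.univ : Finset (Fin (g - 1))).val.map (fun i => (P (some i), true)),
    ?_, ?_, ?_, ?_⟩
  · simp; omega
  · exact (Finset.nodup _).map hinj
  · intro Q hQ
    obtain ⟨i, _, rfl⟩ := Multiset.mem_map.1 hQ
    exact ⟨hV3 _ (hP _), rfl, hV4 _ _ (hP _)⟩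
  · intro Q hQ
    have hQ' : Q ∈ Ps.toList := Multiset.mem_toList.2 hQ
    obtain ⟨k, hk⟩ := List.get_of_mem hQ'
    refine ⟨P none, D.B0_sub (hV3 _ (hP none)), ?_⟩
    have h1 := hne k
    rw [hk] at h1
    unfold Fp
    rw [← thx_inv]
    have e : (fun j => (aM D (Q ::ₘ (Finset.univ : Finset (Fin (g - 1))).val.map
        (fun i => (P (some i), true))) j * D.X j (P none))⁻¹) =
        fun j => D.kap j * D.XX Q j * ∏ i, D.XX (P i, i.isSome) j := by
      funext j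
      have h2 : D.W ((Finset.univ : Finset (Fin (g - 1))).val.map
          (fun i => (P (some i), true))) j = ∏ i, D.XX (P (some i), true) j := by
        rw [W, Multiset.map_map]
        rfl
      rw [aM, W_cons, h2, mul_inv, inv_inv, Fintype.prod_option]
      have h3 : D.XX (P none, (none : Option (Fin (g - 1))).isSome) j = (D.X j (P none))⁻¹ := by
        simp [XX]
      rw [h3]
      simp only [Option.isSome_some]
      ring
    rw [e]
    exact h1

theorem KK_mono (c : Fin g → ℝ) {R R' : ℝ} {r r' : Fin g → ℝ} (h : R ≤ R')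
    (h' : ∀ i, r' i ≤ r i) : KK c R r ⊆ KK c R' r' :=
  fun _ hz => ⟨hz.1.trans h, fun i => (h' i).trans (hz.2 i)⟩

/-- the radii can be changed a little -/
theorem radii (R : ℝ) (r : Fin g → ℝ) (hA : D.Adm R r) (F G : ℂ → ℂ) (Zp Zm : Multiset ℂ)
    (hp : D.ZData F R r Zp) (hm : D.ZData G R⁻¹ (D.rm r) Zm) :
    ∃ t : ℝ, 0 < t ∧ R + t ≤ 3 / 2 ∧ (∀ i, D.ep / 2 ≤ r i - t) ∧
      ∀ (R' : ℝ) (r' : Fin g → ℝ), R < R' → R' < R + t → (∀ i, r i - t < r' i ∧ r' i < r i) →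
        D.Adm R' r' ∧ D.ZData F R' r' Zp ∧ D.ZData G R'⁻¹ (D.rm r') Zm := by
  obtain ⟨hR1, hR2, hr⟩ := hA
  obtain ⟨hp1, h, hh1, hh2, hh3⟩ := hp
  obtain ⟨hm1, k, hk1, hk2, hk3⟩ := hm
  have hep := D.ep_pos
  have hR0 : 0 < R := by linarith
  -- a neighbourhood of the compact set
  obtain ⟨n0, hn0⟩ : ∃ n : ℕ, KK D.c (R + 1 / ((n : ℝ) + 1)) (fun i => r i - 1 / ((n : ℝ) + 1)) ⊆
      D.Om ∩ h ⁻¹' {0}ᶜ := by
    refine exists_subset_nhds_of_isCompact
      (V := fun n : ℕ => KK D.c (R + 1 / ((n : ℝ) + 1)) (fun i => r i - 1 / ((n : ℝ) + 1)))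
      ?_ (fun n => KK_compact _ _ _) ?_
    · have hanti : Antitone (fun n : ℕ => KK D.c (R + 1 / ((n : ℝ) + 1))
          (fun i => r i - 1 / ((n : ℝ) + 1))) := by
        intro m n hmn
        have h1 : (1 : ℝ) / ((n : ℝ) + 1) ≤ 1 / ((m : ℝ) + 1) :=
          one_div_le_one_div_of_le (by positivity) (by
            have : (m : ℝ) ≤ n := by exact_mod_cast hmn
            linarith)
        exact KK_mono D.c (by linarith) (fun i => by linarith)
      exact directed_of_isDirected_le hanti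
    · intro x hx
      rw [Set.mem_iInter] at hx
      have hlim : Tendsto (fun n : ℕ => (1 : ℝ) / ((n : ℝ) + 1)) atTop (𝓝 0) :=
        tendsto_one_div_add_atTop_nhds_zero_nat
      have hxK : x ∈ KK D.c R r := by
        constructor
        · have h1 : Tendsto (fun n : ℕ => R + (1 : ℝ) / ((n : ℝ) + 1)) atTop (𝓝 (R + 0)) :=
            tendsto_const_nhds.add hlim
          rw [add_zero] at h1
          exact ge_of_tendsto' h1 (fun n => (hx n).1)
        · intro i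
          have h1 : Tendsto (fun n : ℕ => r i - (1 : ℝ) / ((n : ℝ) + 1)) atTop (𝓝 (r i - 0)) :=
            tendsto_const_nhds.sub hlim
          rw [sub_zero] at h1
          exact le_of_tendsto' h1 (fun n => (hx n).2 i)
      have hxO : x ∈ D.Om := D.KK_sub R r ⟨hR1, hR2, hr⟩ hxK
      have hopen : IsOpen (D.Om ∩ h ⁻¹' {0}ᶜ) :=
        hh1.continuousOn.isOpen_inter_preimage D.isOpen_Om isOpen_compl_singleton
      exact hopen.mem_nhds ⟨hxO, hh2 x hxK⟩
  have hn0' : (0 : ℝ) < 1 / ((n0 : ℝ) + 1) := by positivity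
  have ev1 : ∀ᶠ t in 𝓝[>] (0 : ℝ), R + t < 3 / 2 := by
    have h1 : Tendsto (fun t : ℝ => R + t) (𝓝[>] 0) (𝓝 (R + 0)) :=
      (tendsto_const_nhds.add tendsto_id).mono_left nhdsWithin_le_nhds
    rw [add_zero] at h1
    exact h1.eventually (gt_mem_nhds hR2)
  have ev2 : ∀ᶠ t in 𝓝[>] (0 : ℝ), ∀ i, D.ep / 2 < r i - t := by
    rw [eventually_all]
    intro i
    have h1 : Tendsto (fun t : ℝ => r i - t) (𝓝[>] 0) (𝓝 (r i - 0)) :=
      (tendsto_const_nhds.sub tendsto_id).mono_left nhdsWithin_le_nhds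
    rw [sub_zero] at h1
    exact h1.eventually (lt_mem_nhds (hr i).1)
  have ev3 : ∀ᶠ t in 𝓝[>] (0 : ℝ), t < 1 / ((n0 : ℝ) + 1) :=
    (gt_mem_nhds hn0').filter_mono nhdsWithin_le_nhds
  have ev4 : ∀ᶠ t in 𝓝[>] (0 : ℝ), ∀ ζ ∈ Zm.toFinset, ‖ζ‖ < (R + t)⁻¹ ∧
      ∀ i, D.ep ^ 2 / (r i - t) < ‖ζ - D.c i‖ := by
    rw [Finset.eventually_all]
    intro ζ hζ
    rw [Multiset.mem_toFinset] at hζ
    obtain ⟨_, hζ2, hζ3⟩ := hm1 ζ hζ
    refine Filter.Eventually.and ?_ ?_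
    · have h1 : Tendsto (fun t : ℝ => (R + t)⁻¹) (𝓝[>] 0) (𝓝 (R + 0)⁻¹) :=
        (((tendsto_const_nhds.add tendsto_id).inv₀ (by simpa using hR0.ne')).mono_left
          nhdsWithin_le_nhds)
      rw [add_zero] at h1
      exact h1.eventually (lt_mem_nhds hζ2)
    · rw [eventually_all]
      intro i
      have hri : 0 < r i := by have := (hr i).1; linarith
      have h1 : Tendsto (fun t : ℝ => D.ep ^ 2 / (r i - t)) (𝓝[>] 0) (𝓝 (D.ep ^ 2 / (r i - 0))) :=
        ((tendsto_const_nhds.div (tendsto_const_nhds.sub tendsto_id)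
          (by simpa using hri.ne')).mono_left nhdsWithin_le_nhds)
      rw [sub_zero] at h1
      exact h1.eventually (gt_mem_nhds (hζ3 i))
  obtain ⟨t, ht1, ht2, ht3, ht4, ht0⟩ :=
    (ev1.and (ev2.and (ev3.and (ev4.and self_mem_nhdsWithin)))).exists
  replace ht0 : 0 < t := ht0
  refine ⟨t, ht0, ht1.le, fun i => (ht2 i).le, ?_⟩
  intro R' r' h1 h2 h3
  have hR'0 : 0 < R' := by linarith
  have hr'0 : ∀ i, 0 < r' i := fun i => by have := ht2 i; have := (h3 i).1; linarith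
  have hinv : R'⁻¹ < R⁻¹ := (inv_lt_inv₀ hR'0 hR0).2 h1
  have hrm : ∀ i, D.rm r i < D.rm r' i := by
    intro i
    unfold rm
    exact div_lt_div_of_pos_left (by positivity) (hr'0 i) (h3 i).2
  refine ⟨⟨by linarith, by linarith, fun i => ⟨?_, ?_⟩⟩, ⟨?_, h, hh1, ?_, hh3⟩,
    ⟨?_, k, hk1, ?_, hk3⟩⟩
  · have := ht2 i; have := (h3 i).1; linarith
  · have := (hr i).2; have := (h3 i).2; linarith
  · intro ζ hζ
    obtain ⟨a1, a2, a3⟩ := hp1 ζ hζ
    exact ⟨a1, by linarith, fun i => by have := a3 i; have := (h3 i).2; linarith⟩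
  · intro z hz
    have h4 : z ∈ KK D.c (R + 1 / ((n0 : ℝ) + 1)) (fun i => r i - 1 / ((n0 : ℝ) + 1)) :=
      KK_mono D.c (by linarith) (fun i => by have := (h3 i).1; linarith) hz
    exact (hn0 h4).2
  · intro ζ hζ
    obtain ⟨a1, a2, a3⟩ := hm1 ζ hζ
    obtain ⟨b1, b2⟩ := ht4 ζ (Multiset.mem_toFinset.2 hζ)
    refine ⟨a1, ?_, ?_⟩
    · exact b1.trans ((inv_lt_inv₀ (by linarith) hR'0).2 h2)
    · intro i
      refine lt_trans ?_ (b2 i)
      unfold rm
      exact div_lt_div_of_pos_left (by positivity) (by have := ht2 i; linarith) (h3 i).1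
  · intro z hz
    exact hk2 z (KK_mono D.c hinv.le (fun i => (hrm i).le) hz)

/-- the quotient of two functions with the same zeros -/
theorem quot (R : ℝ) (r : Fin g → ℝ) (hA : D.Adm R r) (N M : ℂ → ℂ) (Z : Multiset ℂ)
    (hN : D.ZData N R r Z) (hM : D.ZData M R r Z) :
    ∃ φ : ℂ → ℂ, (∀ z ∈ KK D.c R r, AnalyticAt ℂ φ z ∧ φ z ≠ 0) ∧
      ∀ z ∈ KK D.c R r, ∀ᶠ w in 𝓝 z, φ w * M w = N w := by
  obtain ⟨_, h, hh1, hh2, hh3⟩ := hN
  obtain ⟨_, k, hk1, hk2, hk3⟩ := hM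
  refine ⟨fun z => h z / k z, ?_, ?_⟩
  · intro z hz
    have hO : D.Om ∈ 𝓝 z := D.isOpen_Om.mem_nhds (D.KK_sub R r hA hz)
    exact ⟨(hh1.analyticAt hO).div (hk1.analyticAt hO) (hk2 z hz), div_ne_zero (hh2 z hz) (hk2 z hz)⟩
  · intro z hz
    have hO : D.Om ∈ 𝓝 z := D.isOpen_Om.mem_nhds (D.KK_sub R r hA hz)
    have hk : ∀ᶠ w in 𝓝 z, k w ≠ 0 :=
      (hk1.analyticAt hO).continuousAt.eventually_ne (hk2 z hz)
    filter_upwards [hO, hk] with w hw hkw
    rw [hh3 w hw, hk3 w hw]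
    field_simp

theorem ev_ne {R : ℝ} {r : Fin g → ℝ} {M : ℂ → ℂ} {Z : Multiset ℂ}
    (hM : D.ZData M R r Z) {z : ℂ} (hz : z ∈ D.Om) (h : M z ≠ 0) : ∀ᶠ w in 𝓝 z, M w ≠ 0 := by
  obtain ⟨_, k, hk1, _, hk3⟩ := hM
  have hO : D.Om ∈ 𝓝 z := D.isOpen_Om.mem_nhds hz
  have h1 : ContinuousAt (fun w => (Z.map (fun ζ => w - ζ)).prod * k w) z := by
    refine ContinuousAt.mul ?_ (hk1.analyticAt hO).continuousAt
    have : Continuous (fun w : ℂ => (Z.map (fun ζ => w - ζ)).prod) :=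
      continuous_multiset_prod Z (fun ζ _ => continuous_id.sub continuous_const)
    exact this.continuousAt
  have h2 := h1.eventually_ne (by rw [← hk3 z hz]; exact h)
  filter_upwards [hO, h2] with w hw hw2
  rw [hk3 w hw]
  exact hw2

theorem glue_prod {α : Type} (S : Multiset α) (f : α → Fin g → ℂ) (hf : ∀ s ∈ S, f s ∈ Tor g)
    (i : Fin g) (w : ℂ) (h1 : D.ep / 2 < ‖w - D.c i‖) (h2 : ‖w - D.c i‖ < 2 * D.ep) :
    (S.map (fun s => D.Fm (f s) (D.c i + D.ep ^ 2 / (w - D.c i)))).prod =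
      (((Real.exp (Real.pi * D.T i i) : ℝ) : ℂ) * D.X i w) ^ (Multiset.card S) *
        (S.map (fun s => f s i)).prod * (S.map (fun s => D.Fp (f s) w)).prod := by
  induction S using Multiset.induction with
  | empty => simp
  | cons s S ih =>
    rw [Multiset.map_cons, Multiset.prod_cons, Multiset.map_cons, Multiset.prod_cons,
      Multiset.map_cons, Multiset.prod_cons, Multiset.card_cons,
      ih (fun t ht => hf t (Multiset.mem_cons_of_mem ht)),
      D.Fm_glue (f s) (hf s (Multiset.mem_cons_self s S)) i w h1 h2]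
    ring

theorem glue0_prod {α : Type} (S : Multiset α) (f : α → Fin g → ℂ)
    (w : ℂ) (h1 : 2 / 3 < ‖w‖) (h2 : ‖w‖ < 3 / 2) :
    (S.map (fun s => D.Fm (f s) w⁻¹)).prod = (S.map (fun s => D.Fp (f s) w)).prod := by
  congr 1
  refine Multiset.map_congr rfl fun s _ => ?_
  exact D.Fm_glue0 (f s) w h1 h2

theorem prod_aM (S A : Multiset (ℂ × Bool)) (i : Fin g) :
    (S.map (fun P => aM D (P ::ₘ A) i)).prod =
      ((D.kap i * D.W A i) ^ (Multiset.card S) * D.W S i)⁻¹ := by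
  induction S using Multiset.induction with
  | empty => simp [W]
  | cons P S ih =>
    rw [Multiset.map_cons, Multiset.prod_cons, ih, Multiset.card_cons, W_cons, aM, W_cons,
      ← mul_inv]
    ring

end SumF

open SumF in
theorem sumF (hg : 1 ≤ g) (a : Fin g → ℂ) (ha : a ∈ Tor g) (R : ℝ) (r : Fin g → ℝ)
    (hA : D.Adm R r) (Zp Zm : Multiset ℂ) (hp : D.ZData (D.Fp a) R r Zp)
    (hm : D.ZData (D.Fm a) R⁻¹ (D.rm r) Zm)
    (hc : Multiset.card Zp + Multiset.card Zm = g) :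
    ∃ n : Fin g → ℤ, ∀ j, a j * D.kap j *
      D.W (Zp.map (fun z => (z, true)) + Zm.map (fun z => (z, false))) j = D.q n j := by
  classical
  set Ps : Multiset (ℂ × Bool) :=
    Zp.map (fun z => (z, true)) + Zm.map (fun z => (z, false)) with hPsdef
  have hPscard : Multiset.card Ps = g := by
    rw [hPsdef, Multiset.card_add, Multiset.card_map, Multiset.card_map, hc]
  have hMpPs : Mp Ps = Zp := by
    rw [hPsdef, Mp_add, Mp_map_true, Mp_map_false, add_zero]
  have hMmPs : Mm Ps = Zm := by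
    rw [hPsdef, Mm_add, Mm_map_true, Mm_map_false, zero_add]
  have hPsOm : ∀ P ∈ Ps, P.1 ∈ D.Om := by
    rintro ⟨z, b⟩ hP
    cases b with
    | true => exact (hp.1 z (by rw [← hMpPs, mem_Mp]; exact hP)).1
    | false => exact (hm.1 z (by rw [← hMmPs, mem_Mm]; exact hP)).1
  obtain ⟨B, hBcard, hBnd, hB0, hBne⟩ := exists_B D
  have hBOm : ∀ P ∈ B, P.1 ∈ D.Om := fun P hP => D.B0_sub (hB0 P hP).1
  obtain ⟨A, hAcard, hAnd, hA0, hAne⟩ := exists_A D hg
    (((Mp (Ps + B)).toFinset : Finset ℂ) : Set ℂ) (Finset.finite_toSet _) (Ps + B) (by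
      intro P hP
      rcases Multiset.mem_add.1 hP with h | h
      · exact hPsOm P h
      · exact hBOm P h)
  have hAOm : ∀ P ∈ A, P.1 ∈ D.Om := fun P hP => D.B0_sub (hA0 P hP).1
  obtain ⟨t, ht0, ht1, ht2, ht3⟩ := radii D R r hA (D.Fp a) (D.Fm a) Zp Zm hp hm
  have hPA : ∀ P ∈ Ps + B, (∀ Q ∈ P ::ₘ A, Q.1 ∈ D.Om) ∧ Multiset.card (P ::ₘ A) = g ∧
      (P ::ₘ A).Nodup := by
    intro P hP
    refine ⟨?_, by rw [Multiset.card_cons]; exact hAcard, ?_⟩
    · intro Q hQ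
      rcases Multiset.mem_cons.1 hQ with h | h
      · rw [h]
        rcases Multiset.mem_add.1 hP with h | h
        · exact hPsOm P h
        · exact hBOm P h
      · exact hAOm Q h
    · rw [Multiset.nodup_cons]
      refine ⟨?_, hAnd⟩
      intro hPA
      obtain ⟨_, h2, h3⟩ := hA0 P hPA
      apply h3
      rw [Finset.mem_coe, Multiset.mem_toFinset, mem_Mp, ← h2]
      exact hP
  -- generic radii
  set Ls : List (Multiset (ℂ × Bool)) := B :: ((Ps + B).toList.map (fun P => P ::ₘ A)) with hLs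
  have hLsOm : ∀ M ∈ Ls, (∀ Q ∈ M, Q.1 ∈ D.Om) ∧ ∃ z ∈ D.Om, D.Fp (aM D M) z ≠ 0 := by
    intro M hM
    rw [hLs, List.mem_cons] at hM
    rcases hM with h | h
    · rw [h]; exact ⟨hBOm, hBne⟩
    · obtain ⟨P, hP, rfl⟩ := List.mem_map.1 h
      rw [Multiset.mem_toList] at hP
      exact ⟨(hPA P hP).1, hAne P hP⟩
  obtain ⟨R', r', hR1, hR2, hr', hne⟩ := D.exists_radii Ls.length
    (fun k => D.Fp (aM D (Ls.get k)))
    (fun k => D.Fp_diff _ (aM_tor D _ (hLsOm _ (List.get_mem Ls k)).1))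
    (fun k => (hLsOm _ (List.get_mem Ls k)).2) R (R + t) hA.1.le (by linarith) ht1
    (fun i => r i - t) r ht2 (fun i => by linarith) (fun i => (hA.2.2 i).2.le)
  obtain ⟨hA', hp', hm'⟩ := ht3 R' r' hR1 hR2 hr'
  have hAm' := D.Adm_symm R' r' hA'
  have hne' : ∀ M ∈ Ls, (∀ z : ℂ, ‖z‖ = R' → D.Fp (aM D M) z ≠ 0) ∧
      ∀ i, ∀ z : ℂ, ‖z - D.c i‖ = r' i → D.Fp (aM D M) z ≠ 0 := by
    intro M hM
    obtain ⟨k, hk⟩ := List.get_of_mem hM
    rw [← hk]
    exact hne k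
  have hB0KK : ∀ z ∈ B0, z ∈ KK D.c R' r' := by
    intro z hz
    obtain ⟨h1, h2⟩ := D.B0_far z hz
    exact ⟨by have := hA'.1; linarith, fun i => by have := h2 i; have := (hA'.2.2 i).2; linarith⟩
  have hPsKKp : ∀ z, (z, true) ∈ Ps → z ∈ KK D.c R' r' := by
    intro z hz
    obtain ⟨_, h2, h3⟩ := hp'.1 z (by rw [← hMpPs, mem_Mp]; exact hz)
    exact ⟨h2.le, fun i => (h3 i).le⟩
  have hPsKKm : ∀ z, (z, false) ∈ Ps → z ∈ KK D.c R'⁻¹ (D.rm r') := by
    intro z hz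
    obtain ⟨_, h2, h3⟩ := hm'.1 z (by rw [← hMmPs, mem_Mm]; exact hz)
    exact ⟨h2.le, fun i => (h3 i).le⟩
  have hZB := generic D B hBOm hBcard hBnd R' r' hA' (hne' B (by rw [hLs]; simp)).1
    (hne' B (by rw [hLs]; simp)).2 (fun z hz => hB0KK z (hB0 _ hz).1)
    (fun z hz => absurd (hB0 _ hz).2 (by simp))
  have hZE : ∀ P ∈ Ps + B, D.ZData (D.Fp (aM D (P ::ₘ A))) R' r' (Mp (P ::ₘ A)) ∧
      D.ZData (D.Fm (aM D (P ::ₘ A))) R'⁻¹ (D.rm r') (Mm (P ::ₘ A)) := by
    intro P hP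
    obtain ⟨h1, h2, h3⟩ := hPA P hP
    have hmem : P ::ₘ A ∈ Ls := by
      rw [hLs]
      refine List.mem_cons_of_mem _ (List.mem_map.2 ⟨P, ?_, rfl⟩)
      rw [Multiset.mem_toList]
      exact hP
    refine generic D (P ::ₘ A) h1 h2 h3 R' r' hA' (hne' _ hmem).1 (hne' _ hmem).2 ?_ ?_
    · intro z hz
      rcases Multiset.mem_cons.1 hz with h | h
      · rcases Multiset.mem_add.1 hP with h' | h'
        · exact hPsKKp z (by rw [h]; exact h')
        · have := (hB0 _ h').1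
          rw [← h] at this
          exact hB0KK z this
      · exact hB0KK z (hA0 _ h).1
    · intro z hz
      rcases Multiset.mem_cons.1 hz with h | h
      · rcases Multiset.mem_add.1 hP with h' | h'
        · exact hPsKKm z (by rw [h]; exact h')
        · have := (hB0 _ h').2
          rw [← h] at this
          simp at this
      · have := (hA0 _ h).2.1
        simp at this
  -- numerator and denominator
  have hNp := hp'.mul (zprod D B (fun P => D.Fp (aM D (P ::ₘ A))) (fun P => Mp (P ::ₘ A)) R' r'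
    (fun P hP => (hZE P (Multiset.mem_add.2 (Or.inr hP))).1))
  have hNm := hm'.mul (zprod D B (fun P => D.Fm (aM D (P ::ₘ A))) (fun P => Mm (P ::ₘ A)) R'⁻¹
    (D.rm r') (fun P hP => (hZE P (Multiset.mem_add.2 (Or.inr hP))).2))
  have hMp := hZB.1.mul (zprod D Ps (fun P => D.Fp (aM D (P ::ₘ A))) (fun P => Mp (P ::ₘ A)) R' r'
    (fun P hP => (hZE P (Multiset.mem_add.2 (Or.inl hP))).1))
  have hMm := hZB.2.mul (zprod D Ps (fun P => D.Fm (aM D (P ::ₘ A))) (fun P => Mm (P ::ₘ A)) R'⁻¹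
    (D.rm r') (fun P hP => (hZE P (Multiset.mem_add.2 (Or.inl hP))).2))
  rw [sum_Mp, hBcard] at hNp
  rw [sum_Mm, hBcard] at hNm
  rw [sum_Mp, hPscard, hMpPs] at hMp
  rw [sum_Mm, hPscard, hMmPs] at hMm
  have ep : Zp + (Mp B + g • Mp A) = Mp B + (Zp + g • Mp A) := by abel
  have em : Zm + (Mm B + g • Mm A) = Mm B + (Zm + g • Mm A) := by abel
  rw [ep] at hNp
  rw [em] at hNm
  obtain ⟨φp, hφp1, hφp2⟩ := quot D R' r' hA' _ _ _ hNp hMp
  obtain ⟨φm, hφm1, hφm2⟩ := quot D R'⁻¹ (D.rm r') hAm' _ _ _ hNm hMm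
  have hMpb := hMp.ne_boundary hA'
  have hR'pos : 0 < R' := by have := hA'.1; linarith
  -- the constants
  set χ : Fin g → ℂ := fun j => a j * D.kap j * D.W Ps j with hχ
  have hconst : ∀ i, a i * (B.map (fun P => aM D (P ::ₘ A) i)).prod =
      χ i * (aM D B i * (Ps.map (fun P => aM D (P ::ₘ A) i)).prod) := by
    intro i
    rw [prod_aM, prod_aM, hBcard, hPscard, hχ, aM]
    have h1 : D.kap i ≠ 0 := D.kap_ne i
    have h2 : D.W A i ≠ 0 := D.W_ne A hAOm i
    have h3 : D.W B i ≠ 0 := D.W_ne B hBOm i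
    have h4 : D.W Ps i ≠ 0 := D.W_ne Ps hPsOm i
    field_simp
  refine D.rigid R' r' hA' φp φm hφp1 hφm1 ?_ χ ?_
  · -- gluing along the outer circle
    intro z hz
    have hz1 : 2 / 3 < ‖z‖ := by rw [hz]; exact hA'.1
    have hz2 : ‖z‖ < 3 / 2 := by rw [hz]; exact hA'.2.1
    have hzO := D.ann0_sub z hz1 hz2
    have hz0 : z ≠ 0 := by
      intro h; rw [h, norm_zero] at hz1; linarith
    have hzK : z ∈ KK D.c R' r' := ⟨hz.le, fun i => by
      have := D.ann0_far z hz1 i; have := (hA'.2.2 i).2; linarith⟩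
    obtain ⟨hi1, hi2⟩ := HypData.inv0 z hz1 hz2
    have hziK : z⁻¹ ∈ KK D.c R'⁻¹ (D.rm r') := ⟨by rw [norm_inv, hz], fun i => by
      have := D.ann0_far z⁻¹ hi1 i; have := (hAm'.2.2 i).2; linarith⟩
    have hcont : Tendsto (fun w : ℂ => w⁻¹) (𝓝 z) (𝓝 z⁻¹) := tendsto_inv₀ hz0
    have e1 := hcont.eventually (hφm2 _ hziK)
    have e2 := hφp2 z hzK
    have e3 := ev_ne D hMp hzO (hMpb.1 z hz)
    have e4 : ∀ᶠ w in 𝓝 z, 2 / 3 < ‖w‖ :=
      continuous_norm.continuousAt.eventually (lt_mem_nhds hz1)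
    have e5 : ∀ᶠ w in 𝓝 z, ‖w‖ < 3 / 2 :=
      continuous_norm.continuousAt.eventually (gt_mem_nhds hz2)
    filter_upwards [e1, e2, e3, e4, e5] with w h1 h2 h3 h4 h5
    rw [D.Fm_glue0 a w h4 h5, D.Fm_glue0 _ w h4 h5, glue0_prod D B _ w h4 h5,
      glue0_prod D Ps _ w h4 h5, ← h2] at h1
    exact mul_right_cancel₀ h3 h1
  · -- gluing along the inner circles
    intro i z hz
    have hz1 : D.ep / 2 < ‖z - D.c i‖ := by rw [hz]; exact (hA'.2.2 i).1
    have hz2 : ‖z - D.c i‖ < 2 * D.ep := by rw [hz]; exact (hA'.2.2 i).2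
    have hzO := D.ann_sub i z hz1 hz2
    have hep := D.ep_pos
    have hz0 : z - D.c i ≠ 0 := by
      intro h; rw [h, norm_zero] at hz1; linarith
    obtain ⟨hf1, hf2⟩ := D.ann_far i z hz2
    have hzK : z ∈ KK D.c R' r' := by
      refine ⟨by have := hA'.1; linarith, fun k => ?_⟩
      by_cases hk : k = i
      · rw [hk]; exact hz.ge
      · have := hf2 k hk; have := (hA'.2.2 k).2; linarith
    obtain ⟨hj1, hj2, hj3⟩ := D.inv_c i z hz1 hz2
    obtain ⟨hf3, hf4⟩ := D.ann_far i _ hj3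
    have hziK : (D.c i + D.ep ^ 2 / (z - D.c i) : ℂ) ∈ KK D.c R'⁻¹ (D.rm r') := by
      refine ⟨by have := hAm'.1; linarith, fun k => ?_⟩
      by_cases hk : k = i
      · rw [hk, hj1, hz]; exact le_rfl
      · have := hf4 k hk; have := (hAm'.2.2 k).2; linarith
    have hcont : Tendsto (fun w : ℂ => (D.c i + D.ep ^ 2 / (w - D.c i) : ℂ)) (𝓝 z)
        (𝓝 (D.c i + D.ep ^ 2 / (z - D.c i) : ℂ)) := by
      refine tendsto_const_nhds.add (tendsto_const_nhds.div ?_ hz0)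
      exact (continuous_id.sub continuous_const).tendsto z
    have e1 := hcont.eventually (hφm2 _ hziK)
    have e2 := hφp2 z hzK
    have e3 := ev_ne D hMp hzO (hMpb.2 i z hz)
    have hnc : Continuous (fun w : ℂ => ‖w - D.c i‖) :=
      (continuous_id.sub continuous_const).norm
    have e4 : ∀ᶠ w : ℂ in 𝓝 z, D.ep / 2 < ‖w - D.c i‖ :=
      hnc.continuousAt.eventually (lt_mem_nhds hz1)
    have e5 : ∀ᶠ w : ℂ in 𝓝 z, ‖w - D.c i‖ < 2 * D.ep :=
      hnc.continuousAt.eventually (gt_mem_nhds hz2)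
    filter_upwards [e1, e2, e3, e4, e5] with w h1 h2 h3 h4 h5
    rw [D.Fm_glue a ha i w h4 h5, D.Fm_glue _ (aM_tor D B hBOm) i w h4 h5,
      glue_prod D B _ (fun P hP => aM_tor D _ (hPA P (Multiset.mem_add.2 (Or.inr hP))).1)
        i w h4 h5,
      glue_prod D Ps _ (fun P hP => aM_tor D _ (hPA P (Multiset.mem_add.2 (Or.inl hP))).1)
        i w h4 h5, hBcard, hPscard] at h1
    have hX : D.X i w ≠ 0 := D.ne0 i w (D.ann_sub i w h4 h5)
    have hE : (((Real.exp (Real.pi * D.T i i) : ℝ) : ℂ)) ≠ 0 := by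
      exact_mod_cast (Real.exp_pos _).ne'
    have hcM : aM D B i * (Ps.map (fun P => aM D (P ::ₘ A) i)).prod ≠ 0 := by
      rw [prod_aM]
      exact mul_ne_zero (aM_tor D B hBOm i) (inv_ne_zero (mul_ne_zero
        (pow_ne_zero _ (mul_ne_zero (D.kap_ne i) (D.W_ne A hAOm i))) (D.W_ne Ps hPsOm i)))
    set E : ℂ := ((Real.exp (Real.pi * D.T i i) : ℝ) : ℂ) with hEdef
    set cM : ℂ := aM D B i * (Ps.map (fun P => aM D (P ::ₘ A) i)).prod with hcMdef
    have h6 := hconst i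
    set QM : ℂ := D.Fp (aM D B) w * (Ps.map (fun P => D.Fp (aM D (P ::ₘ A)) w)).prod with hQM
    set QN : ℂ := D.Fp a w * (B.map (fun P => D.Fp (aM D (P ::ₘ A)) w)).prod with hQN
    have h7 : φm (D.c i + D.ep ^ 2 / (w - D.c i)) * ((E * D.X i w) ^ (g + 1) * cM * QM) =
        (χ i * φp w) * ((E * D.X i w) ^ (g + 1) * cM * QM) := by
      have e : φm (D.c i + D.ep ^ 2 / (w - D.c i)) * ((E * D.X i w) ^ (g + 1) * cM * QM) =
          (E * D.X i w) ^ (g + 1) * (a i * (B.map (fun P => aM D (P ::ₘ A) i)).prod) * QN := by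
        rw [hcMdef, hQM, hQN]
        have := h1
        calc _ = φm (D.c i + D.ep ^ 2 / (w - D.c i)) *
              (E * (aM D B i * D.X i w) * D.Fp (aM D B) w *
                ((E * D.X i w) ^ g * (Ps.map (fun P => aM D (P ::ₘ A) i)).prod *
                  (Ps.map (fun P => D.Fp (aM D (P ::ₘ A)) w)).prod)) := by ring
          _ = _ := by rw [this]; ring
      rw [e, h6, ← h2]
      ring
    exact mul_right_cancel₀ (mul_ne_zero (mul_ne_zero (pow_ne_zero _ (mul_ne_zero hE hX)) hcM) h3)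
      h7

end HypData
end Pool.Agent.AM.Hyp
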