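import Pool.Agent.AM.Hyp.Thx1

/-! Basic facts on the theta series in multiplicative coordinates, part 2. -/

set_option autoImplicit false
open Complex Filter Topology
open scoped ENNReal
namespace Pool.Agent.AM.Hyp

theorem SX_inv {g : ℕ} (T : Matrix (Fin g) (Fin g) ℝ) (hT : T.PosDef) (Y : Fin g → ℂ)
    (hY : Y ∈ SX T) : (fun j => (Y j)⁻¹) ∈ SX T := by
  obtain ⟨hY0, hY1, hY2⟩ := hY
  have hT0 : (fun j => (Y j)⁻¹) ∈ Tor g := fun j => inv_ne_zero (hY0 j)
  refine ⟨hT0, ?_, ?_⟩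
  · rw [thx_inv]; exact hY1
  · have hfun : thx T = fun Z : Fin g → ℂ => thx T (fun j => (Z j)⁻¹) := by
      funext Z
      exact (thx_inv T Z).symm
    have hφ : DifferentiableAt ℂ (fun Z : Fin g → ℂ => (fun j => (Z j)⁻¹)) (fun j => (Y j)⁻¹) := by
      rw [differentiableAt_pi]
      intro j
      exact (differentiableAt_apply j _).inv (hT0 j)
    have hback : (fun j => ((fun j => (Y j)⁻¹ : Fin g → ℂ) j)⁻¹) = Y := by
      funext j
      simp
    have hthx : HasFDerivAt (thx T) (0 : (Fin g → ℂ) →L[ℂ] ℂ)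
        ((fun Z : Fin g → ℂ => (fun j => (Z j)⁻¹)) (fun j => (Y j)⁻¹)) := by
      show HasFDerivAt (thx T) (0 : (Fin g → ℂ) →L[ℂ] ℂ) (fun j => ((Y j)⁻¹)⁻¹)
      have : (fun j => ((Y j)⁻¹)⁻¹) = Y := hback
      rw [this, ← hY2]
      exact ((thx_analytic T hT) Y hY0).differentiableAt.hasFDerivAt
    have hcomp := hthx.comp _ hφ.hasFDerivAt
    rw [ContinuousLinearMap.zero_comp] at hcomp
    have h2 : HasFDerivAt (thx T) (0 : (Fin g → ℂ) →L[ℂ] ℂ) (fun j => (Y j)⁻¹) := by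
      rw [hfun]
      exact hcomp
    exact h2.fderiv

namespace HypData
variable {g : ℕ} (D : HypData g)

theorem q_ne (n : Fin g → ℤ) (j : Fin g) : D.q n j ≠ 0 := by
  unfold q
  rw [Finset.prod_ne_zero_iff]
  intro i _
  exact zpow_ne_zero _ (by exact_mod_cast D.s_ne i j)

theorem Thx_q_eq (n : Fin g → ℤ) (j : Fin g) :
    ((Real.exp (-2 * Real.pi * ∑ i, (n i : ℝ) * D.T i j) : ℝ) : ℂ) = D.q n j := by
  have h1 : -2 * Real.pi * ∑ i, (n i : ℝ) * D.T i j =
      ∑ i, ((2 * n i : ℤ) : ℝ) * Real.log |D.s i j| := by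
    rw [Finset.mul_sum]
    refine Finset.sum_congr rfl fun i _ => ?_
    have hpi := Real.pi_ne_zero
    simp only [T, Matrix.of_apply]
    push_cast
    field_simp
  rw [h1, Real.exp_sum]
  unfold q
  push_cast
  refine Finset.prod_congr rfl fun i _ => ?_
  have hpos : 0 < |D.s i j| := abs_pos.2 (D.s_ne i j)
  have h2 : Real.exp (((2 * n i : ℤ) : ℝ) * Real.log |D.s i j|) = (D.s i j) ^ (2 * n i) := by
    rw [mul_comm, Real.exp_mul, Real.exp_log hpos, Real.rpow_intCast, zpow_mul, zpow_mul]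
    congr 1
    have : ∀ x : ℝ, x ^ (2 : ℤ) = x ^ 2 := fun x => by norm_cast
    rw [this, this, sq_abs]
  have h3 : ((Real.exp (((2 * n i : ℤ) : ℝ) * Real.log |D.s i j|) : ℝ) : ℂ) =
      (((D.s i j) ^ (2 * n i) : ℝ) : ℂ) := by rw [h2]
  push_cast at h3
  exact h3

theorem q_shift (Y : Fin g → ℂ) (hY : Y ∈ Tor g) (n : Fin g → ℤ) :
    thx D.T (fun j => D.q n j * Y j) =
      ((Real.exp (Real.pi * ∑ i, ∑ j, (n i : ℝ) * D.T i j * (n j : ℝ)) : ℝ) : ℂ) *
        (∏ j, Y j ^ (-n j)) * thx D.T Y := by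
  rw [← thx_shift D.T D.posdef Y hY n]
  congr 1
  funext j
  rw [Thx_q_eq]

theorem Thx_diff_prod {g : ℕ} {E : Type*} [NormedAddCommGroup E] [NormedSpace ℂ E]
    (f : Fin g → E → ℂ) (x : E) (hf : ∀ j, DifferentiableAt ℂ (f j) x) :
    DifferentiableAt ℂ (fun y => ∏ j, f j y) x := by
  classical
  have : ∀ s : Finset (Fin g), DifferentiableAt ℂ (fun y => ∏ j ∈ s, f j y) x := by
    intro s
    induction s using Finset.induction_on with
    | empty => simp
    | insert a s ha ih =>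
      simp only [Finset.prod_insert ha]
      exact (hf a).mul ih
  exact this Finset.univ

theorem SX_q (Y : Fin g → ℂ) (hY : Y ∈ SX D.T) (n : Fin g → ℤ) :
    (fun j => D.q n j * Y j) ∈ SX D.T := by
  obtain ⟨hY0, hY1, hY2⟩ := hY
  have hT0 : (fun j => D.q n j * Y j) ∈ Tor g := fun j => mul_ne_zero (D.q_ne n j) (hY0 j)
  refine ⟨hT0, ?_, ?_⟩
  · rw [q_shift D Y hY0, hY1, mul_zero]
  · set C : ℂ := ((Real.exp (Real.pi * ∑ i, ∑ j, (n i : ℝ) * D.T i j * (n j : ℝ)) : ℝ) : ℂ)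
    set Z0 : Fin g → ℂ := fun j => D.q n j * Y j with hZ0
    set ψ : (Fin g → ℂ) → (Fin g → ℂ) := fun Z j => (D.q n j)⁻¹ * Z j with hψ
    have hψZ0 : ψ Z0 = Y := by
      funext j
      simp only [hψ, hZ0]
      rw [← mul_assoc, inv_mul_cancel₀ (D.q_ne n j), one_mul]
    have hev : thx D.T =ᶠ[𝓝 Z0] fun Z => (C * ∏ j, ψ Z j ^ (-n j)) * thx D.T (ψ Z) := by
      filter_upwards [(isOpen_Tor g).mem_nhds hT0] with Z hZ
      have h1 : ψ Z ∈ Tor g := fun j => mul_ne_zero (inv_ne_zero (D.q_ne n j)) (hZ j)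
      have h2 := q_shift D (ψ Z) h1 n
      have h3 : (fun j => D.q n j * ψ Z j) = Z := by
        funext j
        simp only [hψ]
        rw [← mul_assoc, mul_inv_cancel₀ (D.q_ne n j), one_mul]
      rw [h3] at h2
      exact h2
    have hψd : DifferentiableAt ℂ ψ Z0 := by
      rw [differentiableAt_pi]
      intro j
      exact (differentiableAt_apply j _).const_mul _
    have hu : DifferentiableAt ℂ (fun Z => C * ∏ j, ψ Z j ^ (-n j)) Z0 := by
      apply DifferentiableAt.const_mul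
      apply Thx_diff_prod
      intro j
      have h1 : DifferentiableAt ℂ (fun Z => ψ Z j) Z0 := by
        rw [differentiableAt_pi] at hψd
        exact hψd j
      have h2 : ψ Z0 j ≠ 0 := by rw [hψZ0]; exact hY0 j
      have h3 : DifferentiableAt ℂ (fun x : ℂ => x ^ (-n j)) (ψ Z0 j) :=
        differentiableAt_zpow.2 (Or.inl h2)
      exact h3.comp Z0 h1
    have hthx : HasFDerivAt (thx D.T) (0 : (Fin g → ℂ) →L[ℂ] ℂ) (ψ Z0) := by
      rw [hψZ0, ← hY2]
      exact ((thx_analytic D.T D.posdef) Y hY0).differentiableAt.hasFDerivAt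
    have hcomp := hthx.comp _ hψd.hasFDerivAt
    rw [ContinuousLinearMap.zero_comp] at hcomp
    have hmul := hu.hasFDerivAt.mul hcomp
    have hzero : thx D.T (ψ Z0) = 0 := by rw [hψZ0]; exact hY1
    have h4 : HasFDerivAt (fun Z => (C * ∏ j, ψ Z j ^ (-n j)) * thx D.T (ψ Z))
        (0 : (Fin g → ℂ) →L[ℂ] ℂ) Z0 := by
      refine hmul.congr_fderiv ?_
      ext v
      rw [show (thx D.T ∘ ψ) Z0 = 0 from hzero]
      show (C * ∏ j, ψ Z0 j ^ (-n j)) * 0 + 0 *
        (fderiv ℂ (fun Z => C * ∏ j, ψ Z j ^ (-n j)) Z0) v = 0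
      rw [mul_zero, zero_mul, add_zero]
    exact (h4.congr_of_eventuallyEq hev).fderiv

theorem Thx_comp_diff (a : Fin g → ℂ) (ha : a ∈ Tor g) (F : Fin g → ℂ → ℂ)
    (hF : ∀ j, DifferentiableOn ℂ (F j) D.Om) (hF0 : ∀ j, ∀ z ∈ D.Om, F j z ≠ 0) :
    DifferentiableOn ℂ (fun z => thx D.T (fun j => a j * F j z)) D.Om := by
  intro z hz
  have h1 : DifferentiableWithinAt ℂ (fun z => (fun j => a j * F j z : Fin g → ℂ)) D.Om z := by
    rw [differentiableWithinAt_pi]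
    intro j
    exact ((hF j) z hz).const_mul _
  have h2 : (fun j => a j * F j z : Fin g → ℂ) ∈ Tor g := fun j => mul_ne_zero (ha j) (hF0 j z hz)
  have h3 : DifferentiableAt ℂ (thx D.T) (fun j => a j * F j z : Fin g → ℂ) :=
    ((thx_analytic D.T D.posdef) _ h2).differentiableAt
  exact DifferentiableAt.comp_differentiableWithinAt z h3 h1

theorem Fp_diff (a : Fin g → ℂ) (ha : a ∈ Tor g) : DifferentiableOn ℂ (D.Fp a) D.Om :=
  D.Thx_comp_diff a ha D.X D.diff D.ne0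

theorem Fm_diff (a : Fin g → ℂ) (ha : a ∈ Tor g) : DifferentiableOn ℂ (D.Fm a) D.Om :=
  D.Thx_comp_diff a ha (fun j z => (D.X j z)⁻¹) (fun j => (D.diff j).inv (D.ne0 j))
    (fun j z hz => inv_ne_zero (D.ne0 j z hz))

theorem Fm_glue0 (a : Fin g → ℂ) (z : ℂ) (h1 : 2 / 3 < ‖z‖) (h2 : ‖z‖ < 3 / 2) :
    D.Fm a z⁻¹ = D.Fp a z := by
  unfold Fm Fp
  congr 1
  funext j
  have h := D.glue0 j z h1 h2
  rw [← eq_inv_of_mul_eq_one_left h]

theorem Fm_glue (a : Fin g → ℂ) (ha : a ∈ Tor g) (i : Fin g) (z : ℂ)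
    (h1 : D.ep / 2 < ‖z - D.c i‖) (h2 : ‖z - D.c i‖ < 2 * D.ep) :
    D.Fm a (D.c i + D.ep ^ 2 / (z - D.c i)) =
      ((Real.exp (Real.pi * D.T i i) : ℝ) : ℂ) * (a i * D.X i z) * D.Fp a z := by
  have hg := fun j => D.glue i j z h1 h2
  have hs : ∀ j, ((D.s i j : ℝ) : ℂ) ≠ 0 := fun j => by exact_mod_cast D.s_ne i j
  have hX : ∀ j, D.X j z ≠ 0 := by
    intro j h0
    have := hg j
    rw [h0, zero_mul] at this
    exact pow_ne_zero 2 (hs j) this.symm
  have hY : (fun j => a j * D.X j z) ∈ Tor g := fun j => mul_ne_zero (ha j) (hX j)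
  classical
  have hq := D.q_shift (fun j => a j * D.X j z) hY (fun k => if k = i then -1 else 0)
  have e1 : ∑ k, ∑ j, (((if k = i then -1 else 0 : ℤ)) : ℝ) * D.T k j *
      (((if j = i then -1 else 0 : ℤ)) : ℝ) = D.T i i := by
    rw [Finset.sum_eq_single i, Finset.sum_eq_single i]
    · simp
    · intro j _ hj
      simp [hj]
    · intro h; exact absurd (Finset.mem_univ i) h
    · intro k _ hk
      simp [hk]
    · intro h; exact absurd (Finset.mem_univ i) h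
  have e2 : ∏ j, (a j * D.X j z) ^ (-(if j = i then -1 else 0 : ℤ)) = a i * D.X i z := by
    rw [Finset.prod_eq_single i]
    · simp
    · intro j _ hj
      simp [hj]
    · intro h; exact absurd (Finset.mem_univ i) h
  have e3 : ∀ j, D.q (fun k => if k = i then -1 else 0) j = ((D.s i j : ℝ) : ℂ) ^ (-2 : ℤ) := by
    intro j
    unfold q
    rw [Finset.prod_eq_single i]
    · simp
    · intro k _ hk
      simp [hk]
    · intro h; exact absurd (Finset.mem_univ i) h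
  rw [e1, e2] at hq
  unfold Fm Fp
  rw [← hq]
  congr 1
  funext j
  rw [e3]
  have h := hg j
  have hX2 : D.X j (D.c i + D.ep ^ 2 / (z - D.c i)) ≠ 0 := by
    intro h0
    rw [h0, mul_zero] at h
    exact pow_ne_zero 2 (hs j) h.symm
  have h4 : (D.X j (D.c i + D.ep ^ 2 / (z - D.c i)))⁻¹ =
      ((D.s i j : ℝ) : ℂ) ^ (-2 : ℤ) * D.X j z := by
    have h5 : ((D.s i j : ℝ) : ℂ) ^ (-2 : ℤ) = (((D.s i j : ℝ) : ℂ) ^ 2)⁻¹ := by
      rw [zpow_neg]; norm_cast
    rw [h5, ← h]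
    field_simp [hX j, hX2]
  rw [h4]
  ring

end HypData

end Pool.Agent.AM.Hyp
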