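import Pool.Agent.AM.Hyp.Defs
import Pool.Agent.AM.Defs

/-! Basic facts on the theta series in multiplicative coordinates, part 1. -/

set_option autoImplicit false
open Complex Filter Topology
open scoped ENNReal
namespace Pool.Agent.AM.Hyp

namespace Thx1A

/-! ### Sums of exponentials of linear forms -/

section expsum

open scoped NNReal

variable {E : Type*} [NormedAddCommGroup E] [NormedSpace ℂ E]

/-- the `k`-th power of a linear form as a multilinear map -/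
noncomputable def pw (l : E →L[ℂ] ℂ) (k : ℕ) : ContinuousMultilinearMap ℂ (fun _ : Fin k => E) ℂ :=
  (ContinuousMultilinearMap.mkPiAlgebraFin ℂ k ℂ).compContinuousLinearMap (fun _ => l)

theorem pw_apply (l : E →L[ℂ] ℂ) (k : ℕ) (y : E) : pw l k (fun _ => y) = (l y) ^ k := by
  simp [pw]

theorem norm_pw_le (l : E →L[ℂ] ℂ) (k : ℕ) : ‖pw l k‖ ≤ ‖l‖ ^ k := by
  refine ContinuousMultilinearMap.opNorm_le_bound (by positivity) fun m => ?_
  have h1 : pw l k m = ∏ i, l (m i) := by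
    simp [pw, List.prod_ofFn]
  rw [h1, norm_prod]
  calc ∏ i, ‖l (m i)‖ ≤ ∏ i, (‖l‖ * ‖m i‖) :=
        Finset.prod_le_prod (fun _ _ => norm_nonneg _) fun i _ => l.le_opNorm _
    _ = ‖l‖ ^ k * ∏ i, ‖m i‖ := by
        rw [Finset.prod_mul_distrib, Finset.prod_const, Finset.card_univ, Fintype.card_fin]

variable {ι : Type*} (c : ι → ℂ) (l : ι → E →L[ℂ] ℂ)

/-- the terms of the power series -/
noncomputable def tmk (k : ℕ) (i : ι) : ContinuousMultilinearMap ℂ (fun _ : Fin k => E) ℂ :=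
  (c i / (k.factorial : ℂ)) • pw (l i) k

theorem norm_tmk_le (k : ℕ) (i : ι) {R : ℝ} (hR : 0 < R) :
    ‖tmk c l k i‖ * R ^ k ≤ ‖c i‖ * Real.exp (R * ‖l i‖) := by
  have h1 : ‖tmk c l k i‖ ≤ ‖c i‖ / k.factorial * ‖l i‖ ^ k := by
    unfold tmk
    rw [norm_smul, norm_div, Complex.norm_natCast]
    exact mul_le_mul_of_nonneg_left (norm_pw_le _ _) (by positivity)
  have h2 : (R * ‖l i‖) ^ k / k.factorial ≤ Real.exp (R * ‖l i‖) :=
    Real.pow_div_factorial_le_exp _ (by positivity) k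
  calc ‖tmk c l k i‖ * R ^ k ≤ (‖c i‖ / k.factorial * ‖l i‖ ^ k) * R ^ k :=
        mul_le_mul_of_nonneg_right h1 (by positivity)
    _ = ‖c i‖ * ((R * ‖l i‖) ^ k / k.factorial) := by rw [mul_pow]; ring
    _ ≤ ‖c i‖ * Real.exp (R * ‖l i‖) := mul_le_mul_of_nonneg_left h2 (norm_nonneg _)

theorem hasFPowerSeries (R : ℝ≥0) (hR : 0 < R)
    (hs : Summable (fun i => ‖c i‖ * Real.exp (R * ‖l i‖))) :
    HasFPowerSeriesOnBall (fun y => ∑' i, c i * cexp (l i y)) (fun k => ∑' i, tmk c l k i) 0 R := by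
  have hR' : (0 : ℝ) < R := by exact_mod_cast hR
  have hsk : ∀ k, Summable (fun i => ‖tmk c l k i‖) := by
    intro k
    have h1 : Summable (fun i => (‖c i‖ * Real.exp (R * ‖l i‖)) * ((R : ℝ) ^ k)⁻¹) :=
      hs.mul_right _
    refine Summable.of_nonneg_of_le (fun _ => norm_nonneg _) (fun i => ?_) h1
    have h2 := norm_tmk_le c l k i hR'
    rw [← div_eq_mul_inv, le_div_iff₀ (by positivity)]
    exact h2
  refine ⟨?_, by exact_mod_cast hR, ?_⟩
  · apply FormalMultilinearSeries.le_radius_of_bound _ (∑' i, ‖c i‖ * Real.exp (R * ‖l i‖))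
    intro k
    calc ‖∑' i, tmk c l k i‖ * (R : ℝ) ^ k ≤ (∑' i, ‖tmk c l k i‖) * (R : ℝ) ^ k :=
          mul_le_mul_of_nonneg_right (norm_tsum_le_tsum_norm (hsk k)) (by positivity)
      _ = ∑' i, ‖tmk c l k i‖ * (R : ℝ) ^ k := (tsum_mul_right).symm
      _ ≤ ∑' i, ‖c i‖ * Real.exp (R * ‖l i‖) :=
          ((hsk k).mul_right _).tsum_le_tsum (fun i => norm_tmk_le c l k i hR') hs
  · intro y hy
    have hy' : ‖y‖ < R := by
      simpa using hy
    rw [zero_add]
    set F : ι × ℕ → ℂ := fun p => c p.1 * ((l p.1 y) ^ p.2 / (p.2.factorial : ℂ)) with hF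
    have hexp : ∀ z : ℂ, HasSum (fun k : ℕ => z ^ k / (k.factorial : ℂ)) (cexp z) := by
      intro z
      rw [Complex.exp_eq_exp_ℂ]
      exact NormedSpace.expSeries_div_hasSum_exp z
    have hexpr : ∀ z : ℝ, HasSum (fun k : ℕ => z ^ k / (k.factorial : ℝ)) (Real.exp z) := by
      intro z
      rw [Real.exp_eq_exp_ℝ]
      exact NormedSpace.expSeries_div_hasSum_exp z
    have hnorm : ∀ p, ‖F p‖ = ‖c p.1‖ * (‖l p.1 y‖ ^ p.2 / (p.2.factorial : ℝ)) := by
      intro p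
      simp only [hF, norm_mul, norm_div, norm_pow, Complex.norm_natCast]
    have hFs : Summable F := by
      apply Summable.of_norm
      rw [summable_prod_of_nonneg (fun _ => norm_nonneg _)]
      constructor
      · intro i
        simp only [hnorm]
        exact (hexpr _).summable.mul_left _
      · have h3 : ∀ i, ∑' k, ‖F (i, k)‖ = ‖c i‖ * Real.exp ‖l i y‖ := by
          intro i
          simp only [hnorm]
          rw [tsum_mul_left, (hexpr _).tsum_eq]
        simp only [h3]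
        refine Summable.of_nonneg_of_le (fun i => by positivity) (fun i => ?_) hs
        apply mul_le_mul_of_nonneg_left _ (norm_nonneg _)
        apply Real.exp_le_exp.2
        calc ‖l i y‖ ≤ ‖l i‖ * ‖y‖ := (l i).le_opNorm y
          _ ≤ ‖l i‖ * R := mul_le_mul_of_nonneg_left hy'.le (norm_nonneg _)
          _ = R * ‖l i‖ := mul_comm _ _
    have h4 : ∑' p, F p = ∑' i, c i * cexp (l i y) := by
      rw [hFs.tsum_prod]
      refine tsum_congr fun i => ?_
      simp only [hF]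
      rw [tsum_mul_left, (hexp _).tsum_eq]
    have h5 : HasSum (fun p : ℕ × ι => F p.swap) (∑' i, c i * cexp (l i y)) := by
      rw [← h4]
      exact (Equiv.prodComm ℕ ι).hasSum_iff.2 hFs.hasSum
    refine h5.prod_fiberwise fun k => ?_
    have h6 := ContinuousMultilinearMap.hasSum_eval (hsk k).of_norm.hasSum (fun _ : Fin k => y)
    have h7 : (fun i => tmk c l k i (fun _ : Fin k => y)) = fun i => F ((k, i) : ℕ × ι).swap := by
      funext i
      show ((c i / (k.factorial : ℂ)) • pw (l i) k) (fun _ : Fin k => y) = _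
      rw [smul_apply, pw_apply, smul_eq_mul]
      simp only [hF, Prod.swap]
      ring
    rw [h7] at h6
    exact h6

end expsum

theorem expsum_analytic {ι E : Type*} [NormedAddCommGroup E] [NormedSpace ℂ E] (c : ι → ℂ)
    (l : ι → E →L[ℂ] ℂ) (hs : Summable (fun i => ‖c i‖ * Real.exp ‖l i‖)) :
    AnalyticAt ℂ (fun y => ∑' i, c i * cexp (l i y)) 0 := by
  have h := hasFPowerSeries c l 1 one_pos (by simpa using hs)
  exact h.analyticAt

/-! ### Lower bound for the quadratic form -/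

/-- the quadratic form -/
noncomputable def qf {g : ℕ} (T : Matrix (Fin g) (Fin g) ℝ) (x : Fin g → ℝ) : ℝ :=
  ∑ i, ∑ j, x i * T i j * x j

theorem qf_smul {g : ℕ} (T : Matrix (Fin g) (Fin g) ℝ) (t : ℝ) (x : Fin g → ℝ) :
    qf T (t • x) = t ^ 2 * qf T x := by
  unfold qf
  rw [Finset.mul_sum]
  refine Finset.sum_congr rfl fun i _ => ?_
  rw [Finset.mul_sum]
  refine Finset.sum_congr rfl fun j _ => ?_
  simp only [Pi.smul_apply, smul_eq_mul]
  ring

theorem qf_pos {g : ℕ} {T : Matrix (Fin g) (Fin g) ℝ} (hT : T.PosDef) {x : Fin g → ℝ}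
    (hx : x ≠ 0) : 0 < qf T x := by
  have h := hT.dotProduct_mulVec_pos hx
  have e : star x ⬝ᵥ (T.mulVec x) = qf T x := by
    unfold qf
    simp only [dotProduct, Matrix.mulVec, Pi.star_apply, star_trivial, Finset.mul_sum]
    refine Finset.sum_congr rfl fun i _ => Finset.sum_congr rfl fun j _ => by ring
  rwa [e] at h

theorem qf_cont {g : ℕ} (T : Matrix (Fin g) (Fin g) ℝ) : Continuous (qf T) := by
  unfold qf
  fun_prop

theorem qf_lower {g : ℕ} {T : Matrix (Fin g) (Fin g) ℝ} (hT : T.PosDef) :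
    ∃ δ > 0, ∀ x : Fin g → ℝ, δ * ∑ i, x i ^ 2 ≤ qf T x := by
  rcases Nat.eq_zero_or_pos g with hg | hg
  · subst hg
    exact ⟨1, one_pos, fun x => by simp [qf]⟩
  have hg' : (0 : ℝ) < g := by exact_mod_cast hg
  have : Nonempty (Fin g) := ⟨⟨0, hg⟩⟩
  have hne : (Metric.sphere (0 : Fin g → ℝ) 1).Nonempty := by
    refine ⟨fun _ => 1, ?_⟩
    rw [mem_sphere_zero_iff_norm, pi_norm_const]
    exact norm_one
  obtain ⟨x0, hx0, hmin⟩ := (isCompact_sphere (0 : Fin g → ℝ) 1).exists_isMinOn hne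
    (qf_cont T).continuousOn
  have hx0' : x0 ≠ 0 := by
    rintro rfl
    simp at hx0
  have hm := qf_pos hT hx0'
  refine ⟨qf T x0 / g, by positivity, fun x => ?_⟩
  by_cases hx : x = 0
  · subst hx
    simp [qf]
  have hnx : 0 < ‖x‖ := norm_pos_iff.2 hx
  have h1 : qf T x0 ≤ qf T (‖x‖⁻¹ • x) := by
    apply hmin
    rw [mem_sphere_zero_iff_norm, norm_smul, norm_inv, norm_norm, inv_mul_cancel₀ hnx.ne']
  rw [qf_smul] at h1
  have h2 : qf T x0 * ‖x‖ ^ 2 ≤ qf T x := by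
    have := mul_le_mul_of_nonneg_right h1 (by positivity : (0 : ℝ) ≤ ‖x‖ ^ 2)
    calc qf T x0 * ‖x‖ ^ 2 ≤ ‖x‖⁻¹ ^ 2 * qf T x * ‖x‖ ^ 2 := this
      _ = qf T x := by field_simp
  have h3 : ∑ i, x i ^ 2 ≤ g * ‖x‖ ^ 2 := by
    calc ∑ i, x i ^ 2 ≤ ∑ _i : Fin g, ‖x‖ ^ 2 := by
          refine Finset.sum_le_sum fun i _ => ?_
          rw [← sq_abs (x i)]
          have := norm_le_pi_norm x i
          rw [Real.norm_eq_abs] at this
          gcongr
      _ = g * ‖x‖ ^ 2 := by simp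
  calc qf T x0 / g * ∑ i, x i ^ 2 ≤ qf T x0 / g * (g * ‖x‖ ^ 2) :=
        mul_le_mul_of_nonneg_left h3 (by positivity)
    _ = qf T x0 * ‖x‖ ^ 2 := by field_simp
    _ ≤ qf T x := h2

/-! ### Summability -/

theorem sum_gauss (a : ℝ) (ha : 0 < a) (r : ℝ) (hr : 0 < r) :
    Summable (fun k : ℤ => Real.exp (-a * (k : ℝ) ^ 2) * r ^ k) := by
  have h1 := (summable_jacobiTheta₂_term_iff (-(((Real.log r / (2 * Real.pi) : ℝ)) : ℂ) * I)
    (((a / Real.pi : ℝ) : ℂ) * I)).2 (by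
      rw [Complex.mul_I_im, Complex.ofReal_re]
      positivity)
  refine h1.norm.congr fun k => ?_
  rw [norm_jacobiTheta₂_term, Complex.mul_I_im, Complex.mul_I_im, Complex.neg_re,
    Complex.ofReal_re, Complex.ofReal_re]
  have e : r ^ k = Real.exp (k * Real.log r) := by
    rw [mul_comm, Real.exp_mul, Real.exp_log hr, Real.rpow_intCast]
  rw [e, ← Real.exp_add]
  congr 1
  have := Real.pi_ne_zero
  field_simp
  ring

theorem sum_one (a : ℝ) (ha : 0 < a) (r : ℝ) (hr : 0 < r) (R : ℝ) :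
    Summable (fun k : ℤ => Real.exp (-a * (k : ℝ) ^ 2) * r ^ k * Real.exp (R * |(k : ℝ)|)) := by
  have h1 := sum_gauss a ha (r * Real.exp R) (by positivity)
  have h2 := sum_gauss a ha (r * Real.exp (-R)) (by positivity)
  refine Summable.of_nonneg_of_le (fun k => by positivity) (fun k => ?_) (h1.add h2)
  have e1 : ∀ x : ℝ, (r * Real.exp x) ^ k = r ^ k * Real.exp (x * k) := by
    intro x
    rw [mul_zpow, ← Real.rpow_intCast (Real.exp x), ← Real.exp_mul]
  rw [e1, e1, mul_assoc, ← mul_add, ← mul_add]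
  apply mul_le_mul_of_nonneg_left _ (Real.exp_pos _).le
  apply mul_le_mul_of_nonneg_left _ (zpow_pos hr k).le
  rcases abs_cases (k : ℝ) with ⟨h, _⟩ | ⟨h, _⟩
  · rw [h]
    have := Real.exp_pos (-R * k)
    linarith
  · rw [h]
    have := Real.exp_pos (R * k)
    have e : R * -(k : ℝ) = -R * k := by ring
    rw [e]
    linarith

/-- sums over tuples of products -/
theorem prodsum {n : ℕ} (f : Fin n → ℤ → ℝ) (hf0 : ∀ i k, 0 ≤ f i k)
    (hf : ∀ i, Summable (f i)) : Summable (fun k : Fin n → ℤ => ∏ i, f i (k i)) := by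
  induction n with
  | zero => exact (hasSum_fintype _).summable
  | succ n ih =>
    have h1 := ih (fun i => f i.succ) (fun i => hf0 i.succ) (fun i => hf i.succ)
    have h3 : ∀ p : ℤ × (Fin n → ℤ), (∏ i, f i ((Fin.consEquiv (fun _ => ℤ) p) i)) =
        f 0 p.1 * ∏ i : Fin n, f i.succ (p.2 i) := by
      intro p
      rw [Fin.prod_univ_succ]
      simp [Fin.consEquiv]
    rw [← (Fin.consEquiv (fun _ => ℤ)).summable_iff]
    have h4 := (hf 0).mul_of_nonneg h1 (hf0 0) (fun k => Finset.prod_nonneg fun i _ => hf0 _ _)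
    refine h4.congr fun p => ?_
    simp only [Function.comp_apply]
    rw [h3]

theorem sum_gen {g : ℕ} {T : Matrix (Fin g) (Fin g) ℝ} (hT : T.PosDef) (ρ : Fin g → ℝ)
    (hρ : ∀ j, 0 < ρ j) (R : ℝ) :
    Summable (fun n : Fin g → ℤ => Real.exp (-Real.pi * qf T (fun i => (n i : ℝ))) *
      ∏ j, (ρ j ^ (n j) * Real.exp (R * |(n j : ℝ)|))) := by
  obtain ⟨δ, hδ, hq⟩ := qf_lower hT
  have h1 := prodsum (fun j k => Real.exp (-(Real.pi * δ) * (k : ℝ) ^ 2) * ρ j ^ k *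
    Real.exp (R * |(k : ℝ)|)) (fun j k => by have := zpow_pos (hρ j) k; positivity)
    (fun j => sum_one (Real.pi * δ) (by positivity) (ρ j) (hρ j) R)
  refine Summable.of_nonneg_of_le (fun n => ?_) (fun n => ?_) h1
  · exact mul_nonneg (Real.exp_pos _).le
      (Finset.prod_nonneg fun j _ => mul_nonneg (zpow_pos (hρ j) _).le (Real.exp_pos _).le)
  · have e : ∏ j, (Real.exp (-(Real.pi * δ) * (n j : ℝ) ^ 2) * ρ j ^ n j *
        Real.exp (R * |(n j : ℝ)|)) = Real.exp (-(Real.pi * δ) * ∑ j, (n j : ℝ) ^ 2) *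
        ∏ j, (ρ j ^ (n j) * Real.exp (R * |(n j : ℝ)|)) := by
      rw [Finset.mul_sum, Real.exp_sum, ← Finset.prod_mul_distrib]
      exact Finset.prod_congr rfl fun j _ => by ring
    rw [e]
    apply mul_le_mul_of_nonneg_right _
      (Finset.prod_nonneg fun j _ => mul_nonneg (zpow_pos (hρ j) _).le (Real.exp_pos _).le)
    apply Real.exp_le_exp.2
    have := hq (fun i => (n i : ℝ))
    have hpi := Real.pi_pos
    nlinarith

end Thx1A

open Thx1A

theorem isOpen_Tor (g : ℕ) : IsOpen (Tor g) := by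
  have e : Tor g = ⋂ j, {Y : Fin g → ℂ | Y j ≠ 0} := by
    ext Y
    simp [Tor]
  rw [e]
  exact isOpen_iInter_of_finite fun j => isOpen_ne_fun (continuous_apply j) continuous_const

theorem thx_summable {g : ℕ} (T : Matrix (Fin g) (Fin g) ℝ) (hT : T.PosDef) (Y : Fin g → ℂ)
    (hY : Y ∈ Tor g) :
    Summable (fun n : Fin g → ℤ =>
      ‖((Real.exp (-Real.pi * ∑ i, ∑ j, (n i : ℝ) * T i j * (n j : ℝ)) : ℝ) : ℂ) *
        ∏ j, Y j ^ (n j)‖) := by
  have h := sum_gen hT (fun j => ‖Y j‖) (fun j => norm_pos_iff.2 (hY j)) 0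
  refine h.congr fun n => ?_
  rw [norm_mul, norm_prod, Complex.norm_real, Real.norm_eq_abs, abs_of_pos (Real.exp_pos _)]
  simp only [zero_mul, Real.exp_zero, mul_one, norm_zpow]
  rfl

namespace Thx1A

/-- the linear forms -/
noncomputable def lf {g : ℕ} (n : Fin g → ℤ) : (Fin g → ℂ) →L[ℂ] ℂ :=
  ∑ j, (n j : ℂ) • ContinuousLinearMap.proj (R := ℂ) (φ := fun _ : Fin g => ℂ) j

theorem lf_apply {g : ℕ} (n : Fin g → ℤ) (v : Fin g → ℂ) : lf n v = ∑ j, (n j : ℂ) * v j := by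
  simp [lf]

theorem norm_lf_le {g : ℕ} (n : Fin g → ℤ) : ‖lf n‖ ≤ ∑ j, |(n j : ℝ)| := by
  refine ContinuousLinearMap.opNorm_le_bound _ (Finset.sum_nonneg fun _ _ => abs_nonneg _) ?_
  intro v
  rw [lf_apply, Finset.sum_mul]
  refine (norm_sum_le _ _).trans (Finset.sum_le_sum fun j _ => ?_)
  rw [norm_mul, Complex.norm_intCast]
  exact mul_le_mul_of_nonneg_left (norm_le_pi_norm v j) (abs_nonneg _)

/-- the coefficients -/
noncomputable def cf {g : ℕ} (T : Matrix (Fin g) (Fin g) ℝ) (Y : Fin g → ℂ) (n : Fin g → ℤ) : ℂ :=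
  ((Real.exp (-Real.pi * ∑ i, ∑ j, (n i : ℝ) * T i j * (n j : ℝ)) : ℝ) : ℂ) * ∏ j, Y j ^ (n j)

theorem thx_eq_cf {g : ℕ} (T : Matrix (Fin g) (Fin g) ℝ) (Y : Fin g → ℂ) :
    thx T Y = ∑' n, cf T Y n := rfl

theorem summ_cf {g : ℕ} {T : Matrix (Fin g) (Fin g) ℝ} (hT : T.PosDef) {Y : Fin g → ℂ}
    (hY : Y ∈ Tor g) : Summable (fun n => ‖cf T Y n‖ * Real.exp ‖lf n‖) := by
  have h := sum_gen hT (fun j => ‖Y j‖) (fun j => norm_pos_iff.2 (hY j)) 1
  refine Summable.of_nonneg_of_le (fun n => by positivity) (fun n => ?_) h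
  have e : ‖cf T Y n‖ = Real.exp (-Real.pi * qf T (fun i => (n i : ℝ))) *
      ∏ j, ‖Y j‖ ^ (n j) := by
    unfold cf
    rw [norm_mul, norm_prod, Complex.norm_real, Real.norm_eq_abs, abs_of_pos (Real.exp_pos _)]
    simp only [norm_zpow]
    rfl
  rw [e, Finset.prod_mul_distrib, mul_assoc]
  apply mul_le_mul_of_nonneg_left _ (Real.exp_pos _).le
  apply mul_le_mul_of_nonneg_left _
    (Finset.prod_nonneg fun j _ => (zpow_pos (norm_pos_iff.2 (hY j)) _).le)
  rw [← Real.exp_sum]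
  apply Real.exp_le_exp.2
  simpa using norm_lf_le n

theorem thx_mul_exp {g : ℕ} (T : Matrix (Fin g) (Fin g) ℝ) (Y v : Fin g → ℂ) :
    thx T (fun j => Y j * cexp (v j)) = ∑' n, cf T Y n * cexp (lf n v) := by
  rw [thx_eq_cf]
  refine tsum_congr fun n => ?_
  unfold cf
  rw [lf_apply, Complex.exp_sum, mul_assoc, ← Finset.prod_mul_distrib]
  congr 1
  refine Finset.prod_congr rfl fun j _ => ?_
  rw [mul_zpow, ← Complex.exp_int_mul]

end Thx1A

theorem thx_analytic {g : ℕ} (T : Matrix (Fin g) (Fin g) ℝ) (hT : T.PosDef) :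
    AnalyticOnNhd ℂ (thx T) (Tor g) := by
  intro Y0 hY0
  have h1 : AnalyticAt ℂ (fun y => ∑' n, cf T Y0 n * cexp (lf n y)) 0 :=
    expsum_analytic _ _ (summ_cf hT hY0)
  set v : (Fin g → ℂ) → (Fin g → ℂ) := fun Y j => Complex.log (Y j / Y0 j) with hv
  have hv0 : v Y0 = 0 := by
    funext j
    simp [hv]
  have h2 : AnalyticAt ℂ v Y0 := by
    rw [analyticAt_pi_iff]
    intro j
    have h3 : AnalyticAt ℂ (fun Y : Fin g → ℂ => Y j / Y0 j) Y0 := by
      have h4 : AnalyticAt ℂ (fun Y : Fin g → ℂ => Y j) Y0 :=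
        (ContinuousLinearMap.proj (R := ℂ) (φ := fun _ : Fin g => ℂ) j).analyticAt Y0
      exact h4.div analyticAt_const (hY0 j)
    refine h3.clog ?_
    rw [div_self (hY0 j)]
    exact Complex.one_mem_slitPlane
  have h3 : AnalyticAt ℂ (fun Y => ∑' n, cf T Y0 n * cexp (lf n (v Y))) Y0 := by
    have h4 := AnalyticAt.fun_comp (f := v) (g := fun y => ∑' n, cf T Y0 n * cexp (lf n y))
      (x := Y0) (by rw [hv0]; exact h1) h2
    exact h4
  refine h3.congr ?_
  filter_upwards [(isOpen_Tor g).mem_nhds hY0] with Y hY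
  rw [← thx_mul_exp]
  congr 1
  funext j
  simp only [hv]
  rw [Complex.exp_log (div_ne_zero (hY j) (hY0 j)), mul_div_cancel₀ _ (hY0 j)]

theorem thx_inv {g : ℕ} (T : Matrix (Fin g) (Fin g) ℝ) (Y : Fin g → ℂ) :
    thx T (fun j => (Y j)⁻¹) = thx T Y := by
  rw [thx_eq_cf, thx_eq_cf, ← (Equiv.neg (Fin g → ℤ)).tsum_eq]
  refine tsum_congr fun n => ?_
  simp only [cf, Equiv.neg_apply, Pi.neg_apply, Int.cast_neg, inv_zpow', neg_neg, neg_mul, mul_neg]

theorem thx_shift {g : ℕ} (T : Matrix (Fin g) (Fin g) ℝ) (hT : T.PosDef) (Y : Fin g → ℂ)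
    (hY : Y ∈ Tor g) (m : Fin g → ℤ) :
    thx T (fun j => ((Real.exp (-2 * Real.pi * ∑ i, (m i : ℝ) * T i j) : ℝ) : ℂ) * Y j) =
      ((Real.exp (Real.pi * ∑ i, ∑ j, (m i : ℝ) * T i j * (m j : ℝ)) : ℝ) : ℂ) *
        (∏ j, Y j ^ (-m j)) * thx T Y := by
  rw [thx_eq_cf, thx_eq_cf, ← tsum_mul_left, ← (Equiv.addRight m).tsum_eq
    (fun n => ((Real.exp (Real.pi * ∑ i, ∑ j, (m i : ℝ) * T i j * (m j : ℝ)) : ℝ) : ℂ) *
        (∏ j, Y j ^ (-m j)) * cf T Y n)]
  refine tsum_congr fun n => ?_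
  have hsym : ∀ i j, T i j = T j i := by
    intro i j
    have := hT.isHermitian.apply j i
    simpa using this
  simp only [cf, Equiv.coe_addRight, Pi.add_apply]
  have e1 : ∏ j, Y j ^ (n j + m j) = (∏ j, Y j ^ n j) * ∏ j, Y j ^ m j := by
    rw [← Finset.prod_mul_distrib]
    exact Finset.prod_congr rfl fun j _ => zpow_add₀ (hY j) _ _
  have e2 : (∏ j, Y j ^ (-m j)) * ∏ j, Y j ^ m j = 1 := by
    rw [← Finset.prod_mul_distrib]
    apply Finset.prod_eq_one
    intro j _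
    rw [← zpow_add₀ (hY j), neg_add_cancel, zpow_zero]
  have e3 : ∏ j, (((Real.exp (-2 * Real.pi * ∑ i, (m i : ℝ) * T i j) : ℝ) : ℂ) * Y j) ^ n j =
      ((Real.exp (∑ j, (n j : ℝ) * (-2 * Real.pi * ∑ i, (m i : ℝ) * T i j)) : ℝ) : ℂ) *
        ∏ j, Y j ^ n j := by
    rw [Real.exp_sum, Complex.ofReal_prod, ← Finset.prod_mul_distrib]
    refine Finset.prod_congr rfl fun j _ => ?_
    rw [mul_zpow]
    congr 1
    rw [← Complex.ofReal_zpow, ← Real.rpow_intCast, ← Real.exp_mul, mul_comm (n j : ℝ)]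
  rw [e3, e1]
  have e4 : Real.exp (-Real.pi * ∑ i, ∑ j, (n i : ℝ) * T i j * (n j : ℝ)) *
      Real.exp (∑ j, (n j : ℝ) * (-2 * Real.pi * ∑ i, (m i : ℝ) * T i j)) =
      Real.exp (Real.pi * ∑ i, ∑ j, (m i : ℝ) * T i j * (m j : ℝ)) *
      Real.exp (-Real.pi * ∑ i, ∑ j, ((n i + m i : ℤ) : ℝ) * T i j * ((n j + m j : ℤ) : ℝ)) := by
    rw [← Real.exp_add, ← Real.exp_add]
    congr 1
    have f1 : ∑ i, ∑ j, ((n i + m i : ℤ) : ℝ) * T i j * ((n j + m j : ℤ) : ℝ) =
        (∑ i, ∑ j, (n i : ℝ) * T i j * (n j : ℝ)) + (∑ i, ∑ j, (m i : ℝ) * T i j * (m j : ℝ)) +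
        ((∑ i, ∑ j, (n i : ℝ) * T i j * (m j : ℝ)) +
          ∑ i, ∑ j, (m i : ℝ) * T i j * (n j : ℝ)) := by
      simp only [← Finset.sum_add_distrib]
      refine Finset.sum_congr rfl fun i _ => Finset.sum_congr rfl fun j _ => ?_
      push_cast
      ring
    have f2 : ∑ i, ∑ j, (n i : ℝ) * T i j * (m j : ℝ) =
        ∑ i, ∑ j, (m i : ℝ) * T i j * (n j : ℝ) := by
      rw [Finset.sum_comm]
      refine Finset.sum_congr rfl fun i _ => Finset.sum_congr rfl fun j _ => ?_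
      rw [hsym j i]
      ring
    have f3 : ∑ j, (n j : ℝ) * (-2 * Real.pi * ∑ i, (m i : ℝ) * T i j) =
        -2 * Real.pi * ∑ i, ∑ j, (m i : ℝ) * T i j * (n j : ℝ) := by
      rw [Finset.sum_comm, Finset.mul_sum]
      refine Finset.sum_congr rfl fun j _ => ?_
      rw [← Finset.sum_mul]
      ring
    rw [f1, f2, f3]
    ring
  have e4' := congrArg (fun t : ℝ => (t : ℂ)) e4
  simp only [Complex.ofReal_mul] at e4'
  rw [← mul_assoc, e4']
  linear_combination (-(((Real.exp (Real.pi * ∑ i, ∑ j, (m i : ℝ) * T i j * (m j : ℝ)) : ℝ) : ℂ) *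
    ((Real.exp (-Real.pi * ∑ i, ∑ j, ((n i + m i : ℤ) : ℝ) * T i j * ((n j + m j : ℤ) : ℝ)) : ℝ)
      : ℂ) * ∏ j, Y j ^ n j)) * e2

theorem thx_one_ne {g : ℕ} (T : Matrix (Fin g) (Fin g) ℝ) (hT : T.PosDef) :
    thx T (fun _ : Fin g => 1) ≠ 0 := by
  have h1 := thx_summable T hT (fun _ => 1) (fun _ => one_ne_zero)
  have h2 : Summable (fun n : Fin g → ℤ =>
      Real.exp (-Real.pi * ∑ i, ∑ j, (n i : ℝ) * T i j * (n j : ℝ))) := by
    refine h1.congr fun n => ?_
    rw [norm_mul, Complex.norm_real, Real.norm_eq_abs, abs_of_pos (Real.exp_pos _)]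
    simp
  have h3 : thx T (fun _ : Fin g => 1) = ((∑' n : Fin g → ℤ,
      Real.exp (-Real.pi * ∑ i, ∑ j, (n i : ℝ) * T i j * (n j : ℝ)) : ℝ) : ℂ) := by
    rw [Complex.ofReal_tsum]
    unfold thx
    refine tsum_congr fun n => ?_
    simp
  rw [h3, Complex.ofReal_ne_zero]
  exact (h2.tsum_pos (fun n => (Real.exp_pos _).le) 0 (Real.exp_pos _)).ne'

/-- the theta function is not identically zero on any open set -/
theorem thx_ne_of_open {g : ℕ} (T : Matrix (Fin g) (Fin g) ℝ) (hT : T.PosDef)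
    (V : Set (Fin g → ℂ)) (hV : IsOpen V) (hne : V.Nonempty) (hVT : V ⊆ Tor g) :
    ∃ Y ∈ V, thx T Y ≠ 0 := by
  by_contra hcon
  push Not at hcon
  obtain ⟨Y0, hY0⟩ := hne
  set E : (Fin g → ℂ) → (Fin g → ℂ) := fun w j => cexp (w j) with hE
  have hET : ∀ w, E w ∈ Tor g := fun w j => Complex.exp_ne_zero _
  have hEa : AnalyticOnNhd ℂ E Set.univ := by
    intro w _
    rw [analyticAt_pi_iff]
    intro j
    exact ((ContinuousLinearMap.proj (R := ℂ) (φ := fun _ : Fin g => ℂ) j).analyticAt w).cexp'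
  have hGa : AnalyticOnNhd ℂ (fun w => thx T (E w)) Set.univ := fun w hw =>
    AnalyticAt.fun_comp (f := E) (g := thx T) (x := w) (thx_analytic T hT _ (hET w)) (hEa w hw)
  set w0 : Fin g → ℂ := fun j => Complex.log (Y0 j) with hw0
  have hw0E : E w0 = Y0 := by
    funext j
    simp only [hE, hw0]
    exact Complex.exp_log (hVT hY0 j)
  have hloc : (fun w => thx T (E w)) =ᶠ[𝓝 w0] 0 := by
    have hc : ContinuousAt E w0 := (hEa w0 (Set.mem_univ _)).continuousAt
    have h1 : ∀ᶠ w in 𝓝 w0, E w ∈ V := hc (hV.mem_nhds (by rw [hw0E]; exact hY0))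
    filter_upwards [h1] with w hw
    exact hcon _ hw
  have hz := hGa.eqOn_zero_of_preconnected_of_eventuallyEq_zero isPreconnected_univ
    (Set.mem_univ w0) hloc (Set.mem_univ (0 : Fin g → ℂ))
  apply thx_one_ne T hT
  have h0 : E 0 = fun _ => 1 := by
    funext j
    simp [hE]
  simp only [h0, Pi.zero_apply] at hz
  exact hz

theorem rth_eq {g : ℕ} (T : Matrix (Fin g) (Fin g) ℝ) (w : Fin g → ℂ) :
    rth g (T.map (fun t : ℝ => I * (t : ℂ))) w =
      thx T (fun j => cexp (2 * (Real.pi : ℂ) * I * w j)) := by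
  unfold rth thx
  refine tsum_congr fun n => ?_
  have e1 : ∏ j, cexp (2 * (Real.pi : ℂ) * I * w j) ^ n j =
      cexp (∑ j, (n j : ℂ) * (2 * (Real.pi : ℂ) * I * w j)) := by
    rw [Complex.exp_sum]
    exact Finset.prod_congr rfl fun j _ => (Complex.exp_int_mul _ _).symm
  rw [e1, Complex.ofReal_exp, ← Complex.exp_add]
  congr 1
  congr 1
  · simp only [dotProduct, Matrix.mulVec, Matrix.map_apply]
    push_cast
    simp only [Finset.mul_sum]
    refine Finset.sum_congr rfl fun i _ => Finset.sum_congr rfl fun j _ => ?_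
    linear_combination (Real.pi : ℂ) * (n i : ℂ) * (T i j : ℂ) * (n j : ℂ) * I_mul_I
  · simp only [dotProduct, Finset.mul_sum]
    exact Finset.sum_congr rfl fun j _ => by ring

end Pool.Agent.AM.Hyp
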