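import Pool.Agent.AM.Hyp.Fact1
import Pool.Agent.AM.Hyp.Indep

/-! Generic divisors of degree `g-1` containing a given point give smooth points of theta. -/

set_option autoImplicit false
open Complex Filter Topology
namespace Pool.Agent.AM.Hyp
namespace HypData
variable {g : ℕ} (D : HypData g)

/-- open subsets of `B0`, pairwise disjoint and not containing `Q` -/
theorem Upper1_sets (n : ℕ) (Q : ℂ) : ∃ V : Fin n → Set ℂ, (∀ k, IsOpen (V k)) ∧
    (∀ k, (V k).Nonempty) ∧ (∀ k, V k ⊆ B0) ∧ (∀ k, Q ∉ V k) ∧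
    ∀ k l, k ≠ l → Disjoint (V k) (V l) := by
  have hinf : (B0 \ {Q}).Infinite := by
    have h1 : (B0 : Set ℂ).Infinite := by
      have : (B0 : Set ℂ) ∈ 𝓝 (I / 2) := Metric.ball_mem_nhds _ (by norm_num)
      exact infinite_of_mem_nhds _ this
    exact h1.sdiff (Set.finite_singleton Q)
  have : Infinite ((B0 \ {Q} : Set ℂ)) := hinf.to_subtype
  have hopen : IsOpen (B0 \ {Q} : Set ℂ) := Metric.isOpen_ball.sdiff isClosed_singleton
  obtain ⟨U, hU1, hU2, hU3⟩ := exists_seq_infinite_isOpen_pairwise_disjoint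
    ((B0 \ {Q} : Set ℂ))
  refine ⟨fun k => Subtype.val '' (U k), fun k => hopen.isOpenMap_subtype_val _ (hU2 k),
    fun k => (hU1 k).nonempty.image _, ?_, ?_, ?_⟩
  · rintro k _ ⟨x, _, rfl⟩
    exact x.2.1
  · rintro k ⟨x, _, hx⟩
    exact x.2.2 hx
  · intro k l hkl
    refine (Set.disjoint_image_iff Subtype.val_injective).2 (hU3 ?_)
    exact fun h => hkl (Fin.ext h)

theorem Upper1_W_cons (P : ℂ × Bool) (M : Multiset (ℂ × Bool)) (j : Fin g) :
    D.W (P ::ₘ M) j = D.XX P j * D.W M j := by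
  simp [W]

theorem Upper1_W_map {ι : Type} (s : Finset ι) (f : ι → ℂ × Bool) (j : Fin g) :
    D.W (s.val.map f) j = ∏ x ∈ s, D.XX (f x) j := by
  unfold W
  rw [Multiset.map_map]
  rfl

/-- counting zeros -/
theorem Upper1_card (m : ℕ) (P : Fin m → ℂ) (σ : Fin m → Bool) (Q Q' : ℂ)
    (hP : Function.Injective P) (hPQ : ∀ i, P i ≠ Q) (hPQ' : ∀ i, P i ≠ Q') (hQ : Q ≠ Q')
    (Zp Zm : Multiset ℂ) (h1 : 2 ≤ Zp.count Q') (h2 : Q ∈ Zp)
    (h3 : ∀ i, σ i = true → P i ∈ Zp) (h4 : ∀ i, σ i = false → P i ∈ Zm) :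
    m + 3 ≤ Multiset.card Zp + Multiset.card Zm := by
  classical
  have key : ∀ (Z : Multiset ℂ) (S : Finset ℂ), ∑ x ∈ S, Z.count x ≤ Multiset.card Z := by
    intro Z S
    calc ∑ x ∈ S, Z.count x ≤ ∑ x ∈ S ∪ Z.toFinset, Z.count x :=
          Finset.sum_le_sum_of_subset Finset.subset_union_left
      _ = Multiset.card Z := Multiset.sum_count_eq_card (fun a ha => by simp [ha])
  have hp : (Finset.univ.filter (fun i => σ i = true)).card + 3 ≤ Multiset.card Zp := by
    refine le_trans ?_ (key Zp (insert Q' (insert Q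
      ((Finset.univ.filter (fun i => σ i = true)).image P))))
    rw [Finset.sum_insert (by simp [hQ.symm, hPQ']), Finset.sum_insert (by simp [hPQ]),
      Finset.sum_image (fun a _ b _ h => hP h)]
    have h5 : (Finset.univ.filter (fun i => σ i = true)).card ≤
        ∑ x ∈ Finset.univ.filter (fun i => σ i = true), Zp.count (P x) := by
      rw [Finset.card_eq_sum_ones]
      refine Finset.sum_le_sum fun i hi => ?_
      exact Multiset.one_le_count_iff_mem.2 (h3 i (Finset.mem_filter.1 hi).2)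
    have h6 : 1 ≤ Zp.count Q := Multiset.one_le_count_iff_mem.2 h2
    omega
  have hm : (Finset.univ.filter (fun i => ¬ σ i = true)).card ≤ Multiset.card Zm := by
    refine le_trans ?_ (key Zm ((Finset.univ.filter (fun i => ¬ σ i = true)).image P))
    rw [Finset.sum_image (fun a _ b _ h => hP h)]
    rw [Finset.card_eq_sum_ones]
    refine Finset.sum_le_sum fun i hi => ?_
    exact Multiset.one_le_count_iff_mem.2 (h4 i (by simpa using (Finset.mem_filter.1 hi).2))
  have h7 := Finset.card_filter_add_card_filter_not (s := (Finset.univ : Finset (Fin m)))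
    (fun i => σ i = true)
  rw [Finset.card_univ, Fintype.card_fin] at h7
  omega

theorem nonvanish (hg : 3 ≤ g) (Q : ℂ) (hQ : Q ∈ B0) (σ : Fin (g - 2) → Bool) :
    ∃ P : Fin (g - 2) → ℂ, (∀ i, P i ∈ D.Om) ∧
      fderiv ℂ (thx D.T) (fun j => D.kap j * D.X j Q * ∏ i, D.XX (P i, σ i) j) ≠ 0 := by
  classical
  have hι : Fintype.card (Fin (g - 2) ⊕ Bool) = g := by
    simp
    omega
  obtain ⟨V, hV1, hV2, hV3, hV4, hV5⟩ := Upper1_sets g Q
  have e : Fin (g - 2) ⊕ Bool ≃ Fin g := Fintype.equivFinOfCardEq hι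
  obtain ⟨P, hPV, hP⟩ := D.exists_ne (Fin (g - 2) ⊕ Bool) hι (fun x => V (e x))
    (fun x => hV1 _) (fun x => hV2 _) (fun x => (hV3 _).trans D.B0_sub)
    (Sum.elim σ id) 1 (fun _ j => D.kap j * D.X j Q)
    (fun _ j => mul_ne_zero (D.kap_ne j) (D.ne0 j Q (D.B0_sub hQ)))
  have hP0 := hP 0
  have hPinj : Function.Injective P := by
    intro a b hab
    by_contra hne
    have h1 := hV5 (e a) (e b) (fun h => hne (e.injective h))
    exact Set.disjoint_left.1 h1 (hPV a) (by rw [hab]; exact hPV b)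
  have hPQ : ∀ a, P a ≠ Q := fun a h => hV4 (e a) (by rw [← h]; exact hPV a)
  have hPB : ∀ a, P a ∈ B0 := fun a => hV3 _ (hPV a)
  have hPO : ∀ a, P a ∈ D.Om := fun a => D.B0_sub (hPB a)
  set Q' : ℂ := P (Sum.inr true) with hQ'
  set z : ℂ := P (Sum.inr false) with hz
  set y : Fin g → ℂ := fun j => D.kap j * D.X j Q * ∏ i, D.XX (P (Sum.inl i), σ i) j with hy
  refine ⟨fun i => P (Sum.inl i), fun i => hPO _, ?_⟩
  change fderiv ℂ (thx D.T) y ≠ 0
  intro hD
  have hyne : y ∈ Tor g := by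
    intro j
    refine mul_ne_zero (mul_ne_zero (D.kap_ne j) (D.ne0 j Q (D.B0_sub hQ))) ?_
    exact Finset.prod_ne_zero_iff.2 fun i _ => D.XX_ne _ (hPO _) j
  have hXP : ∀ a j, D.X j (P a) ≠ 0 := fun a j => D.ne0 j _ (hPO a)
  have hXQ : ∀ j, D.X j Q ≠ 0 := fun j => D.ne0 j Q (D.B0_sub hQ)
  have hthy : thx D.T y = 0 := by
    have h1 := D.fact1 ((Q, true) ::ₘ (Finset.univ.val.map fun i => (P (Sum.inl i), σ i)))
      (by
        intro p hp
        rcases Multiset.mem_cons.1 hp with rfl | hp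
        · exact D.B0_sub hQ
        · obtain ⟨i, _, rfl⟩ := Multiset.mem_map.1 hp
          exact hPO _)
      (by
        simp
        omega)
    rw [← h1]
    congr 1
    funext j
    rw [D.Upper1_W_cons, D.Upper1_W_map]
    simp only [hy, XX, if_true]
    ring
  have hSX : y ∈ SX D.T := ⟨hyne, hthy, hD⟩
  have hSXi := SX_inv D.T D.posdef y hSX
  set b : Fin g → ℂ := fun j => (y j * D.X j Q')⁻¹ with hb
  have hbT : b ∈ Tor g := fun j => inv_ne_zero (mul_ne_zero (hyne j) (hXP _ j))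
  have hFp : ∀ ζ, D.Fp b ζ = thx D.T (fun j => y j * D.X j Q' * (D.X j ζ)⁻¹) := by
    intro ζ
    rw [← thx_inv D.T (fun j => y j * D.X j Q' * (D.X j ζ)⁻¹)]
    unfold Fp
    congr 1
    funext j
    simp only [hb, mul_inv, inv_inv]
  have hFm : ∀ ζ, D.Fm b ζ = thx D.T (fun j => y j * D.X j Q' * D.X j ζ) := by
    intro ζ
    rw [← thx_inv D.T (fun j => y j * D.X j Q' * D.X j ζ)]
    unfold Fm
    congr 1
    funext j
    simp only [hb, mul_inv]
  have hzne : D.Fp b z ≠ 0 := by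
    rw [hFp]
    intro h1
    apply hP0
    rw [← h1]
    congr 1
    funext j
    have h3 : D.XX (P (Sum.inr true), true) j = D.X j Q' := rfl
    have h4 : D.XX (P (Sum.inr false), false) j = (D.X j z)⁻¹ := rfl
    rw [Fintype.prod_sum_type, Fintype.prod_bool]
    simp only [Sum.elim_inl, Sum.elim_inr, id, hy]
    rw [h3, h4]
    ring
  have hQ0 : D.Fp b Q = 0 := by
    rw [hFp]
    have h1 := D.fact1 ((Q', true) ::ₘ (Finset.univ.val.map fun i => (P (Sum.inl i), σ i)))
      (by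
        intro p hp
        rcases Multiset.mem_cons.1 hp with rfl | hp
        · exact hPO _
        · obtain ⟨i, _, rfl⟩ := Multiset.mem_map.1 hp
          exact hPO _)
      (by
        simp
        omega)
    rw [← h1]
    congr 1
    funext j
    rw [D.Upper1_W_cons, D.Upper1_W_map]
    simp only [hy, XX, if_true]
    field_simp [hXQ j]
  have hprod : ∀ i j, (∏ k, D.XX (P (Sum.inl k), σ k) j) =
      D.XX (P (Sum.inl i), σ i) j * ∏ k ∈ Finset.univ.erase i, D.XX (P (Sum.inl k), σ k) j := by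
    intro i j
    exact (Finset.mul_prod_erase Finset.univ (fun k => D.XX (P (Sum.inl k), σ k) j)
      (Finset.mem_univ i)).symm
  have hfac : ∀ i : Fin (g - 2), thx D.T (fun j => D.kap j * (D.X j Q * (D.X j Q' *
      ∏ k ∈ Finset.univ.erase i, D.XX (P (Sum.inl k), σ k) j))) = 0 := by
    intro i
    have h1 := D.fact1 ((Q, true) ::ₘ (Q', true) ::ₘ
      ((Finset.univ.erase i).val.map fun k => (P (Sum.inl k), σ k)))
      (by
        intro p hp
        rcases Multiset.mem_cons.1 hp with rfl | hp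
        · exact D.B0_sub hQ
        rcases Multiset.mem_cons.1 hp with rfl | hp
        · exact hPO _
        · obtain ⟨i, _, rfl⟩ := Multiset.mem_map.1 hp
          exact hPO _)
      (by
        rw [Multiset.card_cons, Multiset.card_cons, Multiset.card_map, Finset.card_val,
          Finset.card_erase_of_mem (Finset.mem_univ i), Finset.card_univ, Fintype.card_fin]
        omega)
    rw [← h1]
    congr 1
    funext j
    rw [D.Upper1_W_cons, D.Upper1_W_cons, D.Upper1_W_map]
    simp only [XX, if_true]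
  have hPt : ∀ i, σ i = true → D.Fp b (P (Sum.inl i)) = 0 := by
    intro i hi
    rw [hFp, ← hfac i]
    congr 1
    funext j
    simp only [hy]
    rw [hprod i j]
    have h2 : D.XX (P (Sum.inl i), σ i) j = D.X j (P (Sum.inl i)) := by simp [XX, hi]
    rw [h2]
    field_simp [hXP (Sum.inl i) j]
  have hPf : ∀ i, σ i = false → D.Fm b (P (Sum.inl i)) = 0 := by
    intro i hi
    rw [hFm, ← hfac i]
    congr 1
    funext j
    simp only [hy]
    rw [hprod i j]
    have h2 : D.XX (P (Sum.inl i), σ i) j = (D.X j (P (Sum.inl i)))⁻¹ := by simp [XX, hi]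
    rw [h2]
    field_simp [hXP (Sum.inl i) j]
  have hbQ : (fun j => b j * D.X j Q') = fun j => (y j)⁻¹ := by
    funext j
    simp only [hb, mul_inv]
    rw [mul_assoc, inv_mul_cancel₀ (hXP _ j), mul_one]
  have hQ'0 : D.Fp b Q' = 0 := by
    unfold Fp
    rw [hbQ]
    exact hSXi.2.1
  have hQ'1 : deriv (D.Fp b) Q' = 0 := by
    have h1 : HasFDerivAt (thx D.T) (0 : (Fin g → ℂ) →L[ℂ] ℂ) (fun j => b j * D.X j Q') := by
      rw [hbQ]
      have h2 := ((thx_analytic D.T D.posdef) _ hSXi.1).differentiableAt.hasFDerivAt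
      rw [hSXi.2.2] at h2
      exact h2
    have h3 : HasDerivAt (fun ζ => (fun j => b j * D.X j ζ : Fin g → ℂ))
        (fun j => b j * deriv (D.X j) Q') Q' := by
      refine hasDerivAt_pi.2 fun j => ?_
      exact ((D.diff j).differentiableAt (D.isOpen_Om.mem_nhds (hPO _))).hasDerivAt.const_mul _
    have h4 := h1.comp_hasDerivAt Q' h3
    have h5 : deriv (thx D.T ∘ fun ζ => (fun j => b j * D.X j ζ : Fin g → ℂ)) Q' = 0 := by
      rw [h4.deriv]
      simp
    exact h5
  -- radii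
  obtain ⟨R, r, hR1, hR2, hr, hrF⟩ := D.exists_radii 1 (fun _ => D.Fp b)
    (fun _ => D.Fp_diff b hbT) (fun _ => ⟨z, hPO _, hzne⟩) (2 / 3) (3 / 2) le_rfl (by norm_num)
    le_rfl (fun _ => D.ep / 2) (fun _ => 2 * D.ep) (fun _ => le_rfl)
    (fun _ => by have := D.ep_pos; linarith) (fun _ => le_rfl)
  have hA : D.Adm R r := ⟨hR1, hR2, hr⟩
  have hA' := D.Adm_symm R r hA
  obtain ⟨Zp, Zm, hZp, hZm, hcard⟩ := D.count b hbT R r hA (hrF 0).1 (hrF 0).2
  have hKK : ∀ (R : ℝ) (r : Fin g → ℝ), D.Adm R r → ∀ ζ ∈ B0, ζ ∈ KK D.c R r := by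
    intro R r hA ζ hζ
    obtain ⟨h1, h2⟩ := D.B0_far ζ hζ
    exact ⟨(h1.trans hA.1).le, fun i => ((hA.2.2 i).2.trans (h2 i)).le⟩
  have hfin := Upper1_card (g - 2) (fun i => P (Sum.inl i)) σ Q Q'
    (fun a b h => Sum.inl_injective (hPinj h)) (fun i => hPQ _)
    (fun i h => absurd (hPinj h) (by simp)) (hPQ _).symm Zp Zm
    (hZp.count_two (hKK R r hA _ (hPB _)) (hPO _) hQ'0 hQ'1)
    (hZp.mem_of_zero (hKK R r hA _ hQ) (D.B0_sub hQ) hQ0)
    (fun i hi => hZp.mem_of_zero (hKK R r hA _ (hPB _)) (hPO _) (hPt i hi))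
    (fun i hi => hZm.mem_of_zero (hKK _ _ hA' _ (hPB _)) (hPO _) (hPf i hi))
  omega

end HypData
end Pool.Agent.AM.Hyp
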