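import Pool.Agent.AM.Hyp.Cover
import Pool.Agent.AM.Hyp.Upper1
import Pool.Agent.AM.Dim2

/-! Upper bound for the dimension of the singular locus. -/

set_option autoImplicit false
open Complex Filter Topology
open scoped ENNReal
namespace Pool.Agent.AM.Hyp
namespace HypData
variable {g : ℕ} (D : HypData g)

namespace Upper_aux

/-- enumeration of a multiset -/
theorem exists_enum {α : Type} (M : Multiset α) (k : ℕ) (h : Multiset.card M = k) :
    ∃ P : Fin k → α, Finset.univ.val.map P = M := by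
  obtain ⟨L, rfl⟩ : ∃ L : List α, (L : Multiset α) = M := ⟨M.toList, M.coe_toList⟩
  have h0 : L.length = k := by simpa using h
  subst h0
  refine ⟨L.get, ?_⟩
  have h1 : (Finset.univ : Finset (Fin L.length)).val =
    ((List.finRange L.length : List (Fin L.length)) : Multiset (Fin L.length)) := rfl
  rw [h1, Multiset.map_coe]
  exact congrArg _ (List.map_get_finRange L)

/-- the map whose image is studied -/
noncomputable def Psi (Q : ℂ) {k : ℕ} (σ : Fin k → Bool) (P : Fin k → ℂ) (j : Fin g) : ℂ :=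
  D.kap j * D.X j Q * ∏ i, D.XX (P i, σ i) j

variable {D} in
theorem X_analytic (j : Fin g) {z : ℂ} (hz : z ∈ D.Om) : AnalyticAt ℂ (D.X j) z :=
  (D.diff j).analyticAt (D.isOpen_Om.mem_nhds hz)

theorem XX_analytic (b : Bool) (j : Fin g) {z : ℂ} (hz : z ∈ D.Om) :
    AnalyticAt ℂ (fun z => D.XX (z, b) j) z := by
  cases b with
  | true => exact X_analytic j hz
  | false => exact (X_analytic j hz).inv (D.ne0 j z hz)

theorem Psi_analytic (Q : ℂ) {k : ℕ} (σ : Fin k → Bool) {P : Fin k → ℂ}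
    (hP : ∀ i, P i ∈ D.Om) : AnalyticAt ℂ (Psi D Q σ) P := by
  refine AnalyticAt.pi fun j => ?_
  refine analyticAt_const.mul ?_
  refine Finset.analyticAt_fun_prod _ fun i _ => ?_
  have h1 : AnalyticAt ℂ (fun P : Fin k → ℂ => P i) P :=
    (ContinuousLinearMap.proj (R := ℂ) (φ := fun _ : Fin k => ℂ) i).analyticAt P
  exact AnalyticAt.fun_comp (f := fun P : Fin k → ℂ => P i)
    (g := fun z => D.XX (z, σ i) j) (XX_analytic D (σ i) j (hP i)) h1

theorem Psi_ne (Q : ℂ) (hQ : Q ∈ D.Om) {k : ℕ} (σ : Fin k → Bool) {P : Fin k → ℂ}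
    (hP : ∀ i, P i ∈ D.Om) (j : Fin g) : Psi D Q σ P j ≠ 0 := by
  refine mul_ne_zero (mul_ne_zero (D.kap_ne j) (D.ne0 j Q hQ)) ?_
  exact Finset.prod_ne_zero_iff.2 fun i _ => D.XX_ne _ (hP i) j

theorem isOpen_pi (k : ℕ) : IsOpen {P : Fin k → ℂ | ∀ i, P i ∈ D.Om} := by
  have : {P : Fin k → ℂ | ∀ i, P i ∈ D.Om} = Set.pi Set.univ (fun _ => D.Om) := by
    ext P
    simp
  rw [this]
  exact isOpen_set_pi Set.finite_univ (fun _ _ => D.isOpen_Om)

/-- dimension of one piece -/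
theorem piece (hg : 3 ≤ g) (Q : ℂ) (hQ : Q ∈ B0) (n : Fin g → ℤ) (σ : Fin (g - 2) → Bool) :
    dimH ((fun (P : Fin (g - 2) → ℂ) (j : Fin g) => D.q n j * (Psi D Q σ P j)⁻¹) ''
      {P | (∀ i, P i ∈ D.Om) ∧ Psi D Q σ P ∈ SX D.T}) ≤ ((2 * (g - 3) : ℕ) : ℝ≥0∞) := by
  have hQO : Q ∈ D.Om := D.B0_sub hQ
  refine le_trans (dimH_image_le_of_locally_lipschitzOn ?_) ?_
  · rintro P ⟨hP, -⟩
    have h1 : AnalyticAt ℂ (fun (P : Fin (g - 2) → ℂ) (j : Fin g) =>
        D.q n j * (Psi D Q σ P j)⁻¹) P := by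
      refine AnalyticAt.pi fun j => ?_
      refine analyticAt_const.mul ?_
      have h2 := analyticAt_pi_iff.1 (Psi_analytic D Q σ hP) j
      exact h2.inv (Psi_ne D Q hQO σ hP j)
    obtain ⟨K, t, ht, hK⟩ := (h1.contDiffAt (n := 1)).exists_lipschitzOnWith
    exact ⟨K, t, mem_nhdsWithin_of_mem_nhds ht, hK⟩
  · obtain ⟨P0, hP0, hne⟩ := D.nonvanish hg Q hQ σ
    obtain ⟨v, hv⟩ : ∃ v, fderiv ℂ (thx D.T) (Psi D Q σ P0) v ≠ 0 := by
      by_contra hcon
      push Not at hcon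
      exact hne (ContinuousLinearMap.ext hcon)
    have hT : D.T.PosDef := D.posdef
    have hF : AnalyticOnNhd ℂ (fun P : Fin (g - 2) → ℂ => fderiv ℂ (thx D.T) (Psi D Q σ P) v)
        {P | ∀ i, P i ∈ D.Om} := by
      intro P hP
      have h1 : AnalyticAt ℂ (fderiv ℂ (thx D.T)) (Psi D Q σ P) :=
        (thx_analytic D.T hT _ (fun j => Psi_ne D Q hQO σ hP j)).fderiv
      have h2 : AnalyticAt ℂ (fun P => fderiv ℂ (thx D.T) (Psi D Q σ P)) P :=
        h1.fun_comp (Psi_analytic D Q σ hP)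
      exact ((ContinuousLinearMap.apply ℂ ℂ v).analyticAt _).fun_comp h2
    have h3 := dimH_zero_le {P : Fin (g - 2) → ℂ | ∀ i, P i ∈ D.Om} (isOpen_pi D (g - 2))
      _ hF (by
        intro z hz hz0
        have h4 := hF.eqOn_zero_of_preconnected_of_eventuallyEq_zero
          (D.Om_pi_preconnected (Fin (g - 2))) hz hz0 hP0
        exact hv h4)
    have h5 : (2 * (Module.finrank ℂ (Fin (g - 2) → ℂ) - 1) : ℕ) = 2 * (g - 3) := by
      rw [Module.finrank_fin_fun]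
      omega
    rw [h5] at h3
    refine le_trans (dimH_mono ?_) h3
    rintro P ⟨hP, hP2⟩
    refine ⟨hP, ?_⟩
    rw [hP2.2.2]
    rfl

end Upper_aux

open Upper_aux in
theorem upper (hg : 3 ≤ g) : dimH (SX D.T) ≤ ((2 * (g - 3) : ℕ) : ℝ≥0∞) := by
  obtain ⟨s, hsc, hsd⟩ := TopologicalSpace.exists_countable_dense ℂ
  have hT : D.T.PosDef := D.posdef
  have hB0 : IsOpen B0 := Metric.isOpen_ball
  have h1 : B0 ∩ s ⊆ B0 := Set.inter_subset_left
  have h2 : B0 ⊆ closure (B0 ∩ s) := hsd.open_subset_closure_inter hB0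
  have hc : (B0 ∩ s).Countable := hsc.mono Set.inter_subset_right
  have hsub : SX D.T ⊆ ⋃ Q ∈ B0 ∩ s, ⋃ p : (Fin g → ℤ) × (Fin (g - 2) → Bool),
      ((fun (P : Fin (g - 2) → ℂ) (j : Fin g) => D.q p.1 j * (Psi D Q p.2 P j)⁻¹) ''
      {P | (∀ i, P i ∈ D.Om) ∧ Psi D Q p.2 P ∈ SX D.T}) := by
    intro a ha
    obtain ⟨Q, hQ, n, M, hM, hMO, hj⟩ := D.cover hg (B0 ∩ s) h1 h2 a ha
    obtain ⟨Pf, hPf⟩ := exists_enum M (g - 2) (by omega)
    have hPO : ∀ i, (Pf i).1 ∈ D.Om := by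
      intro i
      apply hMO
      rw [← hPf]
      exact Multiset.mem_map_of_mem _ (Finset.mem_univ i)
    have hPsi : ∀ j, Psi D Q (fun i => (Pf i).2) (fun i => (Pf i).1) j =
        D.kap j * D.X j Q * D.W M j := by
      intro j
      unfold Psi W
      rw [← hPf, Multiset.map_map]
      rfl
    have hne : ∀ j, Psi D Q (fun i => (Pf i).2) (fun i => (Pf i).1) j ≠ 0 :=
      fun j => Psi_ne D Q (D.B0_sub (h1 hQ)) _ hPO j
    have ha2 : ∀ j, a j = D.q n j * (Psi D Q (fun i => (Pf i).2) (fun i => (Pf i).1) j)⁻¹ := by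
      intro j
      rw [eq_mul_inv_iff_mul_eq₀ (hne j), hPsi, hj]
    refine Set.mem_iUnion₂.2 ⟨Q, hQ, Set.mem_iUnion.2 ⟨(n, fun i => (Pf i).2),
      fun i => (Pf i).1, ⟨hPO, ?_⟩, ?_⟩⟩
    · have h3 := D.SX_q _ (SX_inv D.T hT a ha) n
      have h4 : (fun j => D.q n j * (a j)⁻¹) =
          Psi D Q (fun i => (Pf i).2) (fun i => (Pf i).1) := by
        funext j
        rw [ha2 j, mul_inv, inv_inv, ← mul_assoc, mul_inv_cancel₀ (D.q_ne n j), one_mul]
      rw [h4] at h3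
      exact h3
    · funext j
      exact (ha2 j).symm
  refine (dimH_mono hsub).trans ?_
  rw [dimH_bUnion hc]
  refine iSup₂_le fun Q hQ => ?_
  rw [dimH_iUnion]
  exact iSup_le fun p => piece D hg Q (h1 hQ) p.1 p.2

end HypData
end Pool.Agent.AM.Hyp
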